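import Pool.Agent.Lib.Pa7c826k.Defs

/-!
Counting facts about the sets `BB Z` and `QQ Z` of a skeleton.
-/

namespace Pool.Agent.Lib.Pa7c826k

open Finset Pool.Agent.Lib.Pa7c826 Pool.Agent.Lib.Pa7c826t Pool.Agent.Lib.Pa7c826e

variable {n a d A : ℕ} {adj : ℕ → ℕ → Bool} {sd : Bool} {Z : Finset ℕ}

namespace BBfAux

theorem dbl (hh : XHost n a d A adj) (X Y : Finset ℕ) :
    ∑ u ∈ X, dg adj Y u = ∑ v ∈ Y, dg adj X v := by
  have h := sum_card_bipartiteAbove_eq_sum_card_bipartiteBelow (s := X) (t := Y)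
    (fun u v => adj u v = true)
  have e1 : ∑ u ∈ X, dg adj Y u =
      ∑ u ∈ X, (Y.bipartiteAbove (fun u v => adj u v = true) u).card := by
    refine sum_congr rfl fun u _ => ?_
    rfl
  have e2 : ∑ v ∈ Y, dg adj X v =
      ∑ v ∈ Y, (X.bipartiteBelow (fun u v => adj u v = true) v).card := by
    refine sum_congr rfl fun v _ => ?_
    unfold dg bipartiteBelow
    congr 1
    refine filter_congr fun u _ => ?_
    rw [hh.sym v u]
  rw [e1, e2, h]

theorem nb_sub {X Y : Finset ℕ} (h : X ⊆ Y) : NB n adj X ⊆ NB n adj Y := by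
  intro v hv
  simp only [NB, mem_filter] at hv ⊢
  obtain ⟨h1, u, hu, huv⟩ := hv
  exact ⟨h1, u, h hu, huv⟩

theorem blw_sub (Z : Finset ℕ) (u : ℕ) : blw Z u ⊆ Z := filter_subset _ _

theorem mem_nb1 {u v : ℕ} : v ∈ NB n adj {u} ↔ v ∈ range n ∧ adj u v = true := by
  simp only [NB, mem_filter, mem_singleton]
  constructor
  · rintro ⟨h, w, rfl, hw⟩
    exact ⟨h, hw⟩
  · rintro ⟨h, hw⟩
    exact ⟨h, u, rfl, hw⟩

theorem card_nb1 (hh : XHost n a d A adj) {u : ℕ} (hu : u < n) : (NB n adj {u}).card = d := by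
  rw [← hh.reg u hu]
  unfold dg
  congr 1
  ext v
  rw [mem_nb1, mem_filter]

theorem not_big {Z : Finset ℕ} {u : ℕ} (h : big n d adj Z u = false) : 8 * nw n adj Z u < d := by
  unfold big at h
  rw [decide_eq_false_iff_not] at h
  omega

theorem mem_bb {u : ℕ} : u ∈ BB n a d adj sd Z ↔
    u ∈ sideS a sd (range n) ∧ u ∉ Z ∧ big n d adj (blw Z u) u = false := by
  unfold BB
  rw [mem_filter]

theorem side_lt {u : ℕ} (hu : u ∈ sideS a sd (range n)) : u < n := by
  unfold sideS at hu
  rw [mem_filter, mem_range] at hu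
  exact hu.1

end BBfAux

open BBfAux

theorem val_nb (hh : XHost n a d A adj) (hZ : Z ⊆ sideS a sd (range n))
    (hV : Val n d adj Z) : d * Z.card ≤ 8 * (NB n adj Z).card := by
  classical
  have h1 : (Z.biUnion (fun u => NB n adj {u} \ NB n adj (blw Z u))) ⊆ NB n adj Z := by
    intro v hv
    rw [mem_biUnion] at hv
    obtain ⟨u, hu, hv⟩ := hv
    rw [mem_sdiff] at hv
    exact nb_sub (singleton_subset_iff.2 hu) hv.1
  have h2 : (Z.biUnion (fun u => NB n adj {u} \ NB n adj (blw Z u))).card =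
      ∑ u ∈ Z, (NB n adj {u} \ NB n adj (blw Z u)).card := by
    apply card_biUnion
    intro x hx y hy hxy
    change Disjoint (NB n adj {x} \ NB n adj (blw Z x)) (NB n adj {y} \ NB n adj (blw Z y))
    rw [disjoint_left]
    intro v hv1 hv2
    rw [mem_sdiff] at hv1 hv2
    have key : ∀ p q : ℕ, p ∈ Z → p < q → v ∈ NB n adj {p} → v ∈ NB n adj (blw Z q) := by
      intro p q hp hpq hv
      refine nb_sub (singleton_subset_iff.2 ?_) hv
      unfold blw
      rw [mem_filter]
      exact ⟨hp, hpq⟩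
    rcases lt_or_gt_of_ne hxy with h | h
    · exact hv2.2 (key x y hx h hv1.1)
    · exact hv1.2 (key y x hy h hv2.1)
  have h3 : ∑ u ∈ Z, d ≤ ∑ u ∈ Z, 8 * (NB n adj {u} \ NB n adj (blw Z u)).card := by
    refine sum_le_sum fun u hu => ?_
    have := hV u hu
    unfold big at this
    rw [decide_eq_true_eq] at this
    exact this
  rw [sum_const, smul_eq_mul, ← mul_sum, ← h2] at h3
  have h4 := card_le_card h1
  rw [mul_comm]
  omega

theorem bb_card (hh : XHost n a d A adj) (hZ : Z ⊆ sideS a sd (range n)) :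
    7 * (BB n a d adj sd Z).card + 8 * Z.card ≤ 8 * (NB n adj Z).card := by
  classical
  have hdisj : Disjoint Z (BB n a d adj sd Z) := by
    rw [disjoint_left]
    intro u hu hb
    exact (mem_bb.1 hb).2.1 hu
  have h1 : ∀ u ∈ Z, dg adj (NB n adj Z) u = d := by
    intro u hu
    have hun := side_lt (hZ hu)
    rw [← hh.reg u hun]
    unfold dg
    congr 1
    ext v
    rw [mem_filter, mem_filter]
    constructor
    · rintro ⟨hv, hw⟩
      unfold NB at hv
      rw [mem_filter] at hv
      exact ⟨hv.1, hw⟩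
    · rintro ⟨hv, hw⟩
      refine ⟨?_, hw⟩
      unfold NB
      rw [mem_filter]
      exact ⟨hv, u, hu, hw⟩
  have h2 : ∀ u ∈ BB n a d adj sd Z, 7 * d ≤ 8 * dg adj (NB n adj Z) u := by
    intro u hu
    rw [mem_bb] at hu
    obtain ⟨hus, -, hb⟩ := hu
    have hb' := not_big hb
    have hc := card_nb1 hh (side_lt hus)
    have hs : NB n adj {u} ⊆ (NB n adj {u} \ NB n adj (blw Z u)) ∪
        (NB n adj Z).filter (fun v => adj u v = true) := by
      intro v hv
      rw [mem_union, mem_sdiff, mem_filter]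
      by_cases hvb : v ∈ NB n adj (blw Z u)
      · exact Or.inr ⟨nb_sub (blw_sub Z u) hvb, (mem_nb1.1 hv).2⟩
      · exact Or.inl ⟨hv, hvb⟩
    have hle := (card_le_card hs).trans (card_union_le _ _)
    rw [hc] at hle
    unfold nw at hb'
    unfold dg
    omega
  have h3 : ∑ u ∈ Z ∪ BB n a d adj sd Z, dg adj (NB n adj Z) u ≤ (NB n adj Z).card * d := by
    rw [dbl hh]
    have : ∀ v ∈ NB n adj Z, dg adj (Z ∪ BB n a d adj sd Z) v ≤ d := by
      intro v hv
      have hvn : v < n := by
        unfold NB at hv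
        rw [mem_filter, mem_range] at hv
        exact hv.1
      rw [← hh.reg v hvn]
      unfold dg
      apply card_le_card
      apply filter_subset_filter
      intro u hu
      rw [mem_union] at hu
      rcases hu with hu | hu
      · exact mem_range.2 (side_lt (hZ hu))
      · exact mem_range.2 (side_lt (mem_bb.1 hu).1)
    refine (sum_le_sum this).trans ?_
    rw [sum_const, smul_eq_mul]
  rw [sum_union hdisj, sum_congr rfl h1, sum_const, smul_eq_mul] at h3
  have h4 : (BB n a d adj sd Z).card * (7 * d) ≤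
      8 * ∑ u ∈ BB n a d adj sd Z, dg adj (NB n adj Z) u := by
    rw [mul_sum]
    have := sum_le_sum h2
    rwa [sum_const, smul_eq_mul] at this
  have h5 : (7 * (BB n a d adj sd Z).card + 8 * Z.card) * d ≤ (8 * (NB n adj Z).card) * d := by
    nlinarith
  exact Nat.le_of_mul_le_mul_right h5 hh.hd

theorem bb_deg (hh : XHost n a d A adj) (hZ : Z ⊆ sideS a sd (range n)) {u : ℕ}
    (hu : u ∈ BB n a d adj sd Z) : 8 * dg adj (QQ n a d adj sd Z) u < d := by
  have _ := hh.hd
  have _ := hZ
  rw [mem_bb] at hu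
  have hb := not_big hu.2.2
  have hs : (QQ n a d adj sd Z).filter (fun v => adj u v = true) ⊆
      NB n adj {u} \ NB n adj (blw Z u) := by
    intro v hv
    rw [mem_filter] at hv
    obtain ⟨hv, hw⟩ := hv
    unfold QQ at hv
    rw [mem_sdiff] at hv
    rw [mem_sdiff, mem_nb1]
    have hvn : v ∈ range n := by
      have := hv.1
      unfold NB at this
      rw [mem_filter] at this
      exact this.1
    exact ⟨⟨hvn, hw⟩, fun h => hv.2 (nb_sub (blw_sub Z u) h)⟩
  have := card_le_card hs
  unfold nw at hb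
  unfold dg
  omega

theorem bb_light (hh : XHost n a d A adj) (hZ : Z ⊆ sideS a sd (range n)) {S : Finset ℕ}
    (hS : S ⊆ BB n a d adj sd Z ∪ QQ n a d adj sd Z) {v : ℕ} (hv : v ∈ S)
    (h : d ≤ 8 * dg adj S v) :
    v ∈ QQ n a d adj sd Z ∧ ∀ u ∈ S, adj v u = true → u ∈ BB n a d adj sd Z := by
  classical
  have hBs : BB n a d adj sd Z ⊆ sideS a sd (range n) := fun u hu => (mem_bb.1 hu).1
  have hQs : QQ n a d adj sd Z ⊆ sideS a (!sd) (range n) := by
    intro u hu
    unfold QQ at hu
    rw [mem_sdiff] at hu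
    exact nb_side hh hBs hu.1
  have hside : ∀ {s : Bool} {u : ℕ}, u ∈ sideS a s (range n) → decide (u < a) = s := by
    intro s u hu
    unfold sideS at hu
    rw [mem_filter] at hu
    exact hu.2
  have hop : ∀ u w : ℕ, adj u w = true → decide (u < a) = !decide (w < a) := by
    intro u w huw
    have := hh.bip u w huw
    by_cases h1 : u < a <;> by_cases h2 : w < a <;> simp_all
  have hbq : ∀ u w : ℕ, adj u w = true → u ∈ BB n a d adj sd Z → w ∉ BB n a d adj sd Z := by
    intro u w huw hu hw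
    have h1 := hside (hBs hu)
    have h2 := hside (hBs hw)
    have h3 := hop u w huw
    rw [h1, h2] at h3
    cases sd <;> simp at h3
  have hqq : ∀ u w : ℕ, adj u w = true → u ∈ QQ n a d adj sd Z → w ∉ QQ n a d adj sd Z := by
    intro u w huw hu hw
    have h1 := hside (hQs hu)
    have h2 := hside (hQs hw)
    have h3 := hop u w huw
    rw [h1, h2] at h3
    cases sd <;> simp at h3
  have hvQ : v ∈ QQ n a d adj sd Z := by
    rcases mem_union.1 (hS hv) with hb | hq
    · exfalso
      have h1 := bb_deg hh hZ hb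
      have h2 : dg adj S v ≤ dg adj (QQ n a d adj sd Z) v := by
        unfold dg
        apply card_le_card
        intro w hw
        rw [mem_filter] at hw ⊢
        refine ⟨?_, hw.2⟩
        rcases mem_union.1 (hS hw.1) with hwb | hwq
        · exact absurd hwb (hbq v w hw.2 hb)
        · exact hwq
      omega
    · exact hq
  refine ⟨hvQ, fun u hu huv => ?_⟩
  rcases mem_union.1 (hS hu) with hb | hq
  · exact hb
  · exact absurd hq (hqq v u huv hvQ)

theorem qq_card (hh : XHost n a d A adj) (hZ : Z ⊆ sideS a sd (range n)) :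
    8 * (QQ n a d adj sd Z).card ≤ d * (BB n a d adj sd Z).card := by
  classical
  have h1 : QQ n a d adj sd Z ⊆ (BB n a d adj sd Z).biUnion
      (fun u => (QQ n a d adj sd Z).filter (fun v => adj u v = true)) := by
    intro v hv
    have hv' := hv
    unfold QQ at hv'
    rw [mem_sdiff] at hv'
    have h2 := hv'.1
    unfold NB at h2
    rw [mem_filter] at h2
    obtain ⟨-, u, hu, huv⟩ := h2
    rw [mem_biUnion]
    exact ⟨u, hu, mem_filter.2 ⟨hv, huv⟩⟩
  have h2 := (card_le_card h1).trans card_biUnion_le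
  have h3 : ∑ u ∈ BB n a d adj sd Z,
      8 * ((QQ n a d adj sd Z).filter (fun v => adj u v = true)).card ≤
      ∑ _u ∈ BB n a d adj sd Z, d := by
    refine sum_le_sum fun u hu => ?_
    have := bb_deg hh hZ hu
    unfold dg at this
    omega
  rw [← mul_sum, sum_const, smul_eq_mul] at h3
  rw [mul_comm d]
  omega

end Pool.Agent.Lib.Pa7c826k
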