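import Pool.Agent.Lib.Pa7c826e.EAlgDef
import Pool.Agent.Lib.Pa7c826e.EExp

/-!
Definitions for the algorithm for regular bipartite expanders with `α d ≥ C log d`.
-/

namespace Pool.Agent.Lib.Pa7c826k

open Finset Pool.Agent.Lib.Pa7c826 Pool.Agent.Lib.Pa7c826t Pool.Agent.Lib.Pa7c826e

/-! ### Abstract polymer models -/

/-- no element of `X` is related to an element of `Y` -/
def Far (r : ℕ → ℕ → Prop) (X Y : Finset ℕ) : Prop := ∀ x ∈ X, ∀ y ∈ Y, ¬ r x y

/-- `X` is nonempty and connected -/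
def Conn (r : ℕ → ℕ → Prop) (X : Finset ℕ) : Prop :=
  X.Nonempty ∧ ∀ Y, Y ⊆ X → Y.Nonempty → Far r Y (X \ Y) → Y = X

/-- all connected subsets of `X` have at most `K` elements -/
def Sml (r : ℕ → ℕ → Prop) (K : ℕ) (X : Finset ℕ) : Prop :=
  ∀ T, T ⊆ X → Conn r T → T.card ≤ K

/-- nonnegative weights that are multiplicative on unrelated sets -/
structure Wt (r : ℕ → ℕ → Prop) (w : Finset ℕ → ℝ) : Prop where
  emp : w ∅ = 1
  nn : ∀ X, 0 ≤ w X
  mul : ∀ X Y, Far r X Y → w (X ∪ Y) = w X * w Y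

/-- the partition function -/
noncomputable def Xi (w : Finset ℕ → ℝ) (Y : Finset ℕ) : ℝ := ∑ Z ∈ Y.powerset, w Z

/-- the Moebius transform -/
noncomputable def mob (f : Finset ℕ → ℝ) (X : Finset ℕ) : ℝ :=
  ∑ Y ∈ X.powerset, (-1 : ℝ) ^ (X \ Y).card * f Y

/-- the norm of `f` on the subsets of `U` -/
noncomputable def nrm (l : ℝ) (U : Finset ℕ) (f : Finset ℕ → ℝ) : ℝ :=
  ∑ X ∈ U.powerset, |mob f X| * l ^ X.card

open Classical in
/-- the truncated weight -/
noncomputable def wk (r : ℕ → ℕ → Prop) (K : ℕ) (w : Finset ℕ → ℝ) (Z : Finset ℕ) : ℝ :=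
  if Sml r K Z then w Z else 0

/-- the ratio of two partition functions -/
noncomputable def Rt (w : Finset ℕ → ℝ) (v : ℕ) (Y : Finset ℕ) : ℝ := Xi w Y / Xi w (insert v Y)

/-- the elements of `Z` below `u` -/
def blw (Z : Finset ℕ) (u : ℕ) : Finset ℕ := Z.filter (fun x => x < u)

open Classical in
/-- the elements of `Y` that are not related to any element of `T` -/
noncomputable def awy (r : ℕ → ℕ → Prop) (Y T : Finset ℕ) : Finset ℕ :=
  Y.filter (fun y => ∀ x ∈ T, ¬ r x y)

open Classical in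
/-- every number is related to at most `D` elements of `V` -/
def DegB (r : ℕ → ℕ → Prop) (V : Finset ℕ) (D : ℕ) : Prop :=
  ∀ x, (V.filter (fun y => r x y)).card ≤ D

open Classical in
/-- the connected subsets of `V` that contain `v` -/
noncomputable def cns (r : ℕ → ℕ → Prop) (V : Finset ℕ) (v : ℕ) : Finset (Finset ℕ) :=
  V.powerset.filter (fun T => v ∈ T ∧ Conn r T)

/-! ### Skeletons -/

section

variable (n a d : ℕ) (adj : ℕ → ℕ → Bool) (sd : Bool)

/-- the number of neighbours of `u` that are not neighbours of `Z` -/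
def nw (Z : Finset ℕ) (u : ℕ) : ℕ := (NB n adj {u} \ NB n adj Z).card

/-- `u` has at least `d / 8` neighbours that are not neighbours of `Z` -/
def big (Z : Finset ℕ) (u : ℕ) : Bool := decide (d ≤ 8 * nw n adj Z u)

/-- the skeleton of `S` after `k` steps -/
def skelA (S : Finset ℕ) : ℕ → Finset ℕ
  | 0 => ∅
  | k + 1 => if k ∈ S ∧ big n d adj (skelA S k) k = true then insert k (skelA S k)
      else skelA S k

/-- the skeleton of `S` -/
def skel (S : Finset ℕ) : Finset ℕ := skelA n d adj S n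

/-- `Z` is its own skeleton -/
def Val (Z : Finset ℕ) : Prop := ∀ u ∈ Z, big n d adj (blw Z u) u = true

/-- the vertices that may be added to `Z` without changing the skeleton -/
def BB (Z : Finset ℕ) : Finset ℕ :=
  (sideS a sd (range n)).filter (fun u => u ∉ Z ∧ big n d adj (blw Z u) u = false)

/-- the neighbours of `BB Z` that are not neighbours of `Z` -/
def QQ (Z : Finset ℕ) : Finset ℕ := NB n adj (BB n a d adj sd Z) \ NB n adj Z

/-- the number of independent sets with the skeleton `Z` on the side `sd` -/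
def om (Z : Finset ℕ) : ℕ :=
  ((IS adj (range n)).filter (fun I => skel n d adj (sideS a sd I) = Z)).card

/-- the weight of a skeleton -/
noncomputable def w0 (Z : Finset ℕ) : ℝ := (om n a d adj sd Z : ℝ) / 2 ^ a

/-- distance at most six (by a walk of six edges) -/
def r6 (u v : ℕ) : Prop :=
  u = v ∨ ∃ x1 x2 x3 x4 x5, adj u x1 = true ∧ adj x1 x2 = true ∧ adj x2 x3 = true ∧
    adj x3 x4 = true ∧ adj x4 x5 = true ∧ adj x5 v = true

/-- the maximal size of the connected components of a skeleton -/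
def Ks : ℕ := a / (256 * d)

/-- the truncated weight of a skeleton -/
noncomputable def wt (Z : Finset ℕ) : ℝ := wk (r6 adj) (Ks a d) (w0 n a d adj sd) Z

end

/-! ### The hypotheses in the sparse case -/

/-- a regular bipartite expander with `A ≥ C (log₂ d + 1)` and `a ≥ 192 d (x + 4)` -/
structure Sp (n a d A l x : ℕ) (adj : ℕ → ℕ → Bool) : Prop where
  hh : XHost n a d A adj
  hl : d < 2 ^ l
  hl2 : 2 ^ l ≤ 2 * d
  hA : 10000000 * l ≤ A
  hx : 192 * d * (x + 4) ≤ a

theorem Sp.l_pos {n a d A l x : ℕ} {adj : ℕ → ℕ → Bool} (h : Sp n a d A l x adj) : 1 ≤ l := by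
  by_contra hc
  have h0 : l = 0 := by omega
  have h1 := h.hl
  have h2 := h.hh.hd
  rw [h0] at h1
  omega

theorem Sp.d_ge {n a d A l x : ℕ} {adj : ℕ → ℕ → Bool} (h : Sp n a d A l x adj) :
    5000000 * l ≤ d := by
  have h1 := h.hh.hA
  have h2 := h.hA
  omega

theorem Sp.l_ge {n a d A l x : ℕ} {adj : ℕ → ℕ → Bool} (h : Sp n a d A l x adj) : 23 ≤ l := by
  by_contra hc
  have h1 := h.d_ge
  have h2 := h.l_pos
  have h3 := h.hl
  have h4 : 2 ^ l ≤ 2 ^ 22 := Nat.pow_le_pow_right (by norm_num) (by omega)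
  have h5 : (2 : ℕ) ^ 22 = 4194304 := by norm_num
  omega

/-- the hypotheses on the parameters `K` (truncation) and `q` (unit of precision) -/
structure Pr (n a d A l x K q : ℕ) (adj : ℕ → ℕ → Bool) : Prop where
  sp : Sp n a d A l x adj
  hK : 1 ≤ K
  hKs : K ≤ Ks a d
  hq : l * K ≤ q
  hlx : x + 1 ≤ l * K

section

variable (n a d : ℕ) (adj : ℕ → ℕ → Bool) (sd : Bool)

/-! ### The algorithm, in terms of its parameters -/

/-- `Z` is a skeleton on the side `sd` -/
def vld (Z : Finset ℕ) : Bool :=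
  decide ((∀ u ∈ range n, u ∈ Z → u ∈ sideS a sd (range n) ∧ big n d adj (blw Z u) u = true))

/-- approximation of `2 ^ p * ind adj S / 2 ^ E`; `k` is the threshold -/
def leafU (k p E : ℕ) (S : Finset ℕ) : ℕ :=
  if (cov n adj S).card ≤ k then
    ∑ τ ∈ range (2 ^ (cov n adj S).card),
      if indB n adj (sel (cov n adj S) τ) = true then
        2 ^ p / 2 ^ (E - (freeS n adj (rest n adj S) (sel (cov n adj S) τ)).card) else 0
  else 0

/-- approximation of `2 ^ p * w0 Z` -/
def omU (k p : ℕ) (Z : Finset ℕ) : ℕ :=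
  if vld n a d adj sd Z = true then
    ((itl n d 8 adj (fun _ => true) [BB n a d adj sd Z ∪ QQ n a d adj sd Z] n).map
      (leafU n adj k p ((NB n adj Z).card + (QQ n a d adj sd Z).card))).sum
  else 0

/-- approximation of `2 ^ p * Xi Y` -/
def xiU (k p : ℕ) (Y : Finset ℕ) : ℕ :=
  ∑ σ ∈ range (2 ^ Y.card), omU n a d adj sd k p (sel Y σ)

/-- approximation of `2 ^ p * Rt v Y` -/
def rtU (k p v : ℕ) (Y : Finset ℕ) : ℕ :=
  2 ^ p * xiU n a d adj sd k p Y / xiU n a d adj sd k p (insert v Y)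

/-- the `i`-th neighbour of `u` -/
def nbr (u i : ℕ) : ℕ :=
  ((range n).filter (fun v => ((range (v + 1)).filter (fun x => adj u x = true)).card ≤ i)).card

/-- the walk from `v` with the code `c`, whose digits have `l` bits -/
def wlk (l c v : ℕ) : ℕ → ℕ
  | 0 => v
  | j + 1 => nbr n adj (wlk l c v j) (c / 2 ^ (l * j) % 2 ^ l)

/-- every sixth vertex of the walk with the code `c` -/
def dec (l K c v : ℕ) : Finset ℕ :=
  (range n).filter (fun u => u ∈ (range (2 * K)).image (fun j => wlk n adj l c v (6 * j)))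

/-- `c` is the smallest code of a set of at most `K` vertices of the side `sd` with maximum `v` -/
def adm (l K c v : ℕ) : Prop :=
  (v ∈ dec n adj l K c v ∧ (dec n adj l K c v).card ≤ K) ∧
    (∀ u ∈ range n, u ∈ dec n adj l K c v → u ∈ sideS a sd (range n) ∧ u ≤ v) ∧
    ∀ c' ∈ range c, ¬ ∀ u ∈ range n, (u ∈ dec n adj l K c' v ↔ u ∈ dec n adj l K c v)

instance (l K c v : ℕ) : Decidable (adm n a adj sd l K c v) := by
  unfold adm
  infer_instance

/-- the terms of one sign in the Moebius transform of `rtU` -/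
def mbU (k p v e : ℕ) (X : Finset ℕ) : ℕ :=
  ∑ τ ∈ range (2 ^ X.card), if (X.card + (sel X τ).card) % 2 = e then
    rtU n a d adj sd k p v (sel X τ) else 0

/-- the terms of one sign in the expansion of the ratio at `v` -/
def sgR (l K k p v e : ℕ) : ℕ :=
  ∑ c ∈ range (2 ^ (12 * l * K)), if adm n a adj sd l K c v then
    mbU n a d adj sd k p v e ((dec n adj l K c v).erase v) else 0

/-- approximation of `2 ^ p / Rt v (blw V v)` -/
def qv (l K k p v : ℕ) : ℕ :=
  if v ∈ sideS a sd (range n) then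
    2 ^ p * 2 ^ p / (sgR n a d adj sd l K k p v 0 - sgR n a d adj sd l K k p v 1)
  else 2 ^ p

/-- approximation of `2 ^ (p n) * Xi V` -/
def prd (l K k p : ℕ) : ℕ := ∏ v ∈ range n, qv n a d adj sd l K k p v

end

/-! ### The parameters as functions of the input string -/

/-- `log₂ d + 1` -/
def lk (w : List Bool) : ℕ := Nat.log 2 (dOf w) + 1

/-- the precision `64 a t` -/
def Tk (w : List Bool) : ℕ := 64 * aOf w * tOf w

/-- the logarithm of the precision -/
def xk (w : List Bool) : ℕ := Nat.log 2 (Tk w)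

/-- the truncation -/
def Kk (w : List Bool) : ℕ := xk w / lk w + 1

/-- the unit of precision -/
def qk (w : List Bool) : ℕ := xk w + lk w

/-- the threshold for leaves -/
def kk (w : List Bool) : ℕ := 1248 * qk w

/-- the binary precision -/
def pk (w : List Bool) : ℕ := 1339 * qk w

/-- whether the graph is sparse -/
def spK (w : List Bool) : Bool := decide (192 * dOf w * (xk w + 4) ≤ aOf w)

/-- the branching threshold for dense graphs is `n / gK` -/
def gK (w : List Bool) : ℕ := 768 * (xk w + 4)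

/-- precision for dense graphs -/
def YK (w : List Bool) : ℕ := Tk w * (16 * Tk w) ^ 4416

/-- leaf threshold for dense graphs -/
def KK (w : List Bool) : ℕ := ((16 * Tk w) ^ 192 * YK w ^ 24) ^ 24

/-- the output on dense graphs -/
def dnsK (w : List Bool) : ℕ :=
  outA (nOf w) (aOf w) (gK w) (adjOf w) (range (nOf w)) (YK w ^ 24) (KK w)

/-- the product for one side -/
def prdK (w : List Bool) (sd : Bool) : ℕ :=
  prd (nOf w) (aOf w) (dOf w) (adjOf w) sd (lk w) (Kk w) (kk w) (pk w)

/-- the input strings of regular bipartite expanders, `A ≥ C (log₂ d + 1)`, `C = 10 ^ 7` -/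
def Vld (w : List Bool) : Prop :=
  1 ≤ tOf w ∧ 2 ≤ aOf w ∧ ∃ A, XHost (nOf w) (aOf w) (dOf w) A (adjOf w) ∧
    10000000 * lk w ≤ A

end Pool.Agent.Lib.Pa7c826k
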