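import Pool.Agent.Lib.Pa7c826k.Defs

/-!
The relation of distance at most six.

PROOFS. `r6_symm`: reverse the walk. `walk6`: for every `i` choose a walk of six edges from `p i` to
`p (i + 1)`; if `p i = p (i + 1)` go to a neighbour `z` of `p i` (it exists since
`dg adj (range n) (p i) = d ≥ 1`) and back, three times. Put `g (6 i + s) =` the `s`-th vertex of the
`i`-th walk (`s < 6`; `j / 6`, `j % 6`). `r6_deg`: let `N X = NB n adj X`. For `x < n` an element `y`
of `V` with `r6 adj x y` lies in `N (N (N (N (N (N {x})))))` (also for `y = x`: six edges as above,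
or `walk6`), a set of at most `d ^ 6` elements (`nb_le`, `NB … ⊆ range n`). For `x ≥ n` there is no
`y ∈ V ⊆ range n` with `r6 adj x y`: `y = x` is excluded and `adj x x1 = true` implies `x < n`
(`hh.lt`).
-/

namespace Pool.Agent.Lib.Pa7c826k

open Finset Pool.Agent.Lib.Pa7c826 Pool.Agent.Lib.Pa7c826t Pool.Agent.Lib.Pa7c826e

variable {n a d A : ℕ} {adj : ℕ → ℕ → Bool}

theorem r6_refl (adj : ℕ → ℕ → Bool) : ∀ x, r6 adj x x := fun _ => Or.inl rfl

theorem r6_symm (hs : ∀ u v, adj u v = adj v u) : ∀ x y, r6 adj x y → r6 adj y x := by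
  rintro x y (h | ⟨x1, x2, x3, x4, x5, h1, h2, h3, h4, h5, h6⟩)
  · exact Or.inl h.symm
  · refine Or.inr ⟨x5, x4, x3, x2, x1, ?_, ?_, ?_, ?_, ?_, ?_⟩
    · rw [hs]; exact h6
    · rw [hs]; exact h5
    · rw [hs]; exact h4
    · rw [hs]; exact h3
    · rw [hs]; exact h2
    · rw [hs]; exact h1

namespace DegAux

theorem exists_nb (hh : XHost n a d A adj) {u : ℕ} (hu : u < n) : ∃ z, adj u z = true := by
  have h1 := hh.reg u hu
  have h2 := hh.hd
  have h3 : 0 < ((range n).filter (fun z => adj u z = true)).card := by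
    have : dg adj (range n) u = ((range n).filter (fun z => adj u z = true)).card := rfl
    omega
  obtain ⟨z, hz⟩ := card_pos.1 h3
  exact ⟨z, (mem_filter.1 hz).2⟩

theorem six (hh : XHost n a d A adj) {u v : ℕ} (hu : u < n) (h : r6 adj u v) :
    ∃ w : ℕ → ℕ, w 0 = u ∧ w 6 = v ∧ ∀ s < 6, adj (w s) (w (s + 1)) = true := by
  rcases h with h | ⟨x1, x2, x3, x4, x5, h1, h2, h3, h4, h5, h6⟩
  · obtain ⟨z, hz⟩ := exists_nb hh hu
    have hz' : adj z u = true := by rw [hh.sym]; exact hz
    refine ⟨fun s => if s % 2 = 0 then u else z, by simp, by simpa using h, ?_⟩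
    intro s hs
    interval_cases s <;> simp [hz, hz']
  · refine ⟨fun s => ([u, x1, x2, x3, x4, x5, v] : List ℕ).getD s 0, by simp, by simp, ?_⟩
    intro s hs
    interval_cases s <;> simp [h1, h2, h3, h4, h5, h6]

end DegAux

open DegAux

theorem walk6 (hh : XHost n a d A adj) {p : ℕ → ℕ} (hp : ∀ i, r6 adj (p i) (p (i + 1)))
    (hn : ∀ i, p i < n) :
    ∃ g : ℕ → ℕ, (∀ i, g (6 * i) = p i) ∧ ∀ j, adj (g j) (g (j + 1)) = true := by
  choose w hw0 hw6 hw using fun i => six hh (hn i) (hp i)
  refine ⟨fun j => w (j / 6) (j % 6), ?_, ?_⟩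
  · intro i
    have h1 : 6 * i / 6 = i := by omega
    have h2 : 6 * i % 6 = 0 := by omega
    show w (6 * i / 6) (6 * i % 6) = p i
    rw [h1, h2]
    exact hw0 i
  · intro j
    show adj (w (j / 6) (j % 6)) (w ((j + 1) / 6) ((j + 1) % 6)) = true
    have h6 : j % 6 < 6 := Nat.mod_lt _ (by norm_num)
    by_cases h5 : j % 6 = 5
    · have h1 : (j + 1) / 6 = j / 6 + 1 := by omega
      have h2 : (j + 1) % 6 = 0 := by omega
      rw [h1, h2, hw0]
      have h3 := hw (j / 6) (j % 6) h6
      rw [h5] at h3 ⊢
      rw [← hw6 (j / 6)]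
      exact h3
    · have h1 : (j + 1) / 6 = j / 6 := by omega
      have h2 : (j + 1) % 6 = j % 6 + 1 := by omega
      rw [h1, h2]
      exact hw (j / 6) (j % 6) h6

theorem r6_deg (hh : XHost n a d A adj) {V : Finset ℕ} (hV : V ⊆ range n) :
    DegB (r6 adj) V (d ^ 6) := by
  classical
  intro x
  by_cases hx : x < n
  · have hsub : ∀ k, ((NB n adj)^[k] {x}) ⊆ range n := by
      intro k
      rcases k with _ | k
      · intro y hy
        have : y = x := by simpa using hy
        rw [this, mem_range]
        exact hx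
      · rw [Function.iterate_succ_apply']
        unfold NB
        exact filter_subset _ _
    have hcard : ∀ k, ((NB n adj)^[k] {x}).card ≤ d ^ k := by
      intro k
      induction k with
      | zero => simp
      | succ k ih =>
        rw [Function.iterate_succ_apply', pow_succ, mul_comm]
        exact (nb_le hh (hsub k)).trans (Nat.mul_le_mul_left d ih)
    refine (card_le_card ?_).trans (hcard 6)
    intro y hy
    rw [mem_filter] at hy
    obtain ⟨w, h0, h6, hw⟩ := six hh hx hy.2
    have hmem : ∀ s ≤ 6, w s ∈ ((NB n adj)^[s] {x}) := by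
      intro s
      induction s with
      | zero =>
        intro _
        simp [h0]
      | succ s ih =>
        intro hs
        rw [Function.iterate_succ_apply']
        unfold NB
        rw [mem_filter, mem_range]
        have h1 := hw s (by omega)
        refine ⟨?_, w s, ih (by omega), h1⟩
        refine hh.lt (w (s + 1)) (w s) ?_
        rw [hh.sym]
        exact h1
    have h7 := hmem 6 le_rfl
    rw [h6] at h7
    exact h7
  · have h0 : V.filter (fun y => r6 adj x y) = ∅ := by
      rw [filter_eq_empty_iff]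
      rintro y hy (h | ⟨x1, x2, x3, x4, x5, h1, _⟩)
      · apply hx
        rw [h]
        exact mem_range.1 (hV hy)
      · exact hx (hh.lt x x1 h1)
    have h1 : (V.filter (fun y => r6 adj x y)).card ≤ d ^ 6 := by
      rw [h0, card_empty]
      exact Nat.zero_le _
    convert h1

end Pool.Agent.Lib.Pa7c826k
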