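import Pool.Agent.Lib.Pa7c826k.Walk
import Pool.Agent.Lib.Pa7c826k.Deg

/-!
The family of the sets with an admissible code.

PROOFS. `nbr_eq`: let `adj u v = true` (so `v < n`) and `i` the number of neighbours of `u` below
`v`. For `y < v` the number of neighbours `≤ y` is at most `i`; for `y ≥ v` it is at least `i + 1`.
So `nbr u i = v`. `exists_code`: for digits `b j < 2 ^ l` (`j < L`) the number
`c = ∑ j ∈ range L, b j * 2 ^ (l * j) < 2 ^ (l * L)` has `c / 2 ^ (l * j) % 2 ^ l = b j` (induction on
`L`). `exists_fam`: let `F` be the image of the set of admissible codes `c < 2 ^ (12 l K)` under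
`c ↦ (dec … c v).erase v`. `dec … ⊆ range n`; by the second part of `adm`, `F ⊆ (blw V v).powerset`
for `V = sideS a sd (range n)`, and `|(dec …).erase v| < K` since `v ∈ dec …`, `|dec …| ≤ K`. Two
different admissible codes `c' < c` have different sets `dec` (third part of `adm`; both are subsets
of `range n`) and hence different sets `dec.erase v`; this gives the sum formula
(`sum_filter`, `sum_image`) and `|F| ≤ 2 ^ (12 l K)`. Let `X ⊆ blw V v` with `T = insert v X`
connected and `|X| < K`; `|T| ≤ K = (K - 1) + 1`. `conn_walk` gives `p` with `p 0 = v`,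
`r6 adj (p i) (p (i + 1))`, `p i ∈ T` and `T = (range (2 K - 1)).image p`; by `walk6` there is `g`
with `g (6 i) = p i`, `adj (g j) (g (j + 1)) = true`. The number of neighbours of `g j` below
`g (j + 1)` is less than `d < 2 ^ l` (`hh.reg`; all vertices are `< n` by `hh.lt`); let `c` be the
code (`L = 12 K`) of these digits. By `nbr_eq` `wlk c v j = g j` for `j ≤ 12 K`, so
`dec c v = (range (2 K)).image p = T` (`T ⊆ range n`). The smallest code with `dec … = T` is
admissible, and `T.erase v = X`.
-/

namespace Pool.Agent.Lib.Pa7c826k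

open Finset Pool.Agent.Lib.Pa7c826 Pool.Agent.Lib.Pa7c826t Pool.Agent.Lib.Pa7c826e

variable {n a d A : ℕ} {adj : ℕ → ℕ → Bool}

theorem nbr_eq {u v : ℕ} (hv : v < n) (h : adj u v = true) :
    nbr n adj u ((range v).filter (fun x => adj u x = true)).card = v := by
  classical
  unfold nbr
  have h1 : (range n).filter (fun y => ((range (y + 1)).filter (fun x => adj u x = true)).card ≤
      ((range v).filter (fun x => adj u x = true)).card) = range v := by
    ext y
    rw [mem_filter, mem_range, mem_range]
    constructor
    · rintro ⟨_, h2⟩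
      by_contra hc
      have h3 : insert v ((range v).filter (fun x => adj u x = true)) ⊆
          (range (y + 1)).filter (fun x => adj u x = true) := by
        intro x hx
        rw [mem_filter, mem_range]
        rcases mem_insert.1 hx with hx | hx
        · rw [hx]
          exact ⟨by omega, h⟩
        · rw [mem_filter, mem_range] at hx
          exact ⟨by omega, hx.2⟩
      have h4 := card_le_card h3
      rw [card_insert_of_notMem (by simp)] at h4
      omega
    · intro hy
      refine ⟨by omega, card_le_card ?_⟩
      intro x hx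
      rw [mem_filter, mem_range] at hx ⊢
      exact ⟨by omega, hx.2⟩
  rw [h1, card_range]

theorem exists_code (l : ℕ) (b : ℕ → ℕ) (hb : ∀ j, b j < 2 ^ l) (L : ℕ) :
    ∃ c, c < 2 ^ (l * L) ∧ ∀ j < L, c / 2 ^ (l * j) % 2 ^ l = b j := by
  induction L generalizing b with
  | zero => exact ⟨0, by simp, fun j hj => absurd hj (by omega)⟩
  | succ L ih =>
    obtain ⟨c, hc, hd⟩ := ih (fun j => b (j + 1)) (fun j => hb (j + 1))
    have hp : 0 < 2 ^ l := pow_pos (by norm_num) l
    refine ⟨b 0 + 2 ^ l * c, ?_, ?_⟩
    · have h1 : (2 : ℕ) ^ (l * (L + 1)) = 2 ^ l * 2 ^ (l * L) := by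
        rw [← pow_add]
        congr 1
        ring
      rw [h1]
      have h2 := hb 0
      calc b 0 + 2 ^ l * c < 2 ^ l + 2 ^ l * c := by omega
        _ = 2 ^ l * (c + 1) := by ring
        _ ≤ 2 ^ l * 2 ^ (l * L) := Nat.mul_le_mul_left _ hc
    · intro j hj
      rcases j with _ | j
      · simp only [Nat.mul_zero, pow_zero, Nat.div_one]
        rw [Nat.add_mul_mod_self_left, Nat.mod_eq_of_lt (hb 0)]
      · have h1 : (2 : ℕ) ^ (l * (j + 1)) = 2 ^ l * 2 ^ (l * j) := by
          rw [← pow_add]
          congr 1
          ring
        rw [h1, ← Nat.div_div_eq_div_mul, Nat.add_mul_div_left _ _ hp,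
          Nat.div_eq_of_lt (hb 0), zero_add]
        exact hd j (by omega)

theorem exists_fam (hh : XHost n a d A adj) {l K v : ℕ} {sd : Bool} (hl : d < 2 ^ l)
    (hK : 1 ≤ K) (hv : v ∈ sideS a sd (range n)) :
    ∃ F : Finset (Finset ℕ), F ⊆ (blw (sideS a sd (range n)) v).powerset ∧
      (∀ X ∈ F, X.card < K) ∧ F.card ≤ 2 ^ (12 * l * K) ∧
      (∀ X, X ⊆ blw (sideS a sd (range n)) v → Conn (r6 adj) (insert v X) → X.card < K →
        X ∈ F) ∧
      ∀ g : Finset ℕ → ℕ, (∑ c ∈ range (2 ^ (12 * l * K)), if adm n a adj sd l K c v then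
        g ((dec n adj l K c v).erase v) else 0) = ∑ X ∈ F, g X := by
  classical
  set V := sideS a sd (range n) with hV
  have hvn : v < n := by
    have h1 := hv
    rw [hV] at h1
    unfold sideS at h1
    rw [mem_filter, mem_range] at h1
    exact h1.1
  have hVn : V ⊆ range n := by
    rw [hV]
    unfold sideS
    exact filter_subset _ _
  have hdec : ∀ c, dec n adj l K c v ⊆ range n := by
    intro c
    unfold dec
    exact filter_subset _ _
  have hdsub : ∀ c, adm n a adj sd l K c v → (dec n adj l K c v).erase v ⊆ blw V v := by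
    intro c hc u hu
    rw [mem_erase] at hu
    unfold blw
    rw [mem_filter]
    have h1 := hc.2.1 u (hdec c hu.2) hu.2
    exact ⟨h1.1, lt_of_le_of_ne h1.2 hu.1⟩
  set S := (range (2 ^ (12 * l * K))).filter (fun c => adm n a adj sd l K c v) with hS
  have hinj : ∀ c ∈ S, ∀ c' ∈ S, (dec n adj l K c v).erase v = (dec n adj l K c' v).erase v →
      c = c' := by
    have key : ∀ c ∈ S, ∀ c' ∈ S, (dec n adj l K c v).erase v = (dec n adj l K c' v).erase v →
        ¬ c' < c := by
      intro c hc c' hc' he hlt
      rw [hS, mem_filter] at hc hc'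
      have h1 : dec n adj l K c v = dec n adj l K c' v := by
        rw [← insert_erase hc.2.1.1, he, insert_erase hc'.2.1.1]
      refine hc.2.2.2 c' (mem_range.2 hlt) (fun u _ => ?_)
      rw [h1]
    intro c hc c' hc' he
    rcases lt_trichotomy c c' with h | h | h
    · exact absurd h (key c' hc' c hc he.symm)
    · exact h
    · exact absurd h (key c hc c' hc' he)
  refine ⟨S.image (fun c => (dec n adj l K c v).erase v), ?_, ?_, ?_, ?_, ?_⟩
  · intro X hX
    rw [mem_image] at hX
    obtain ⟨c, hc, rfl⟩ := hX
    rw [hS, mem_filter] at hc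
    rw [mem_powerset]
    exact hdsub c hc.2
  · intro X hX
    rw [mem_image] at hX
    obtain ⟨c, hc, rfl⟩ := hX
    rw [hS, mem_filter] at hc
    have h1 := card_erase_of_mem hc.2.1.1
    have h2 := hc.2.1.2
    omega
  · refine card_image_le.trans ?_
    rw [hS]
    exact (card_filter_le _ _).trans (by rw [card_range])
  · intro X hX hconn hXK
    set T := insert v X with hT
    have hvX : v ∉ X := by
      intro h
      have h1 := hX h
      unfold blw at h1
      rw [mem_filter] at h1
      omega
    have hTc : T.card = X.card + 1 := card_insert_of_notMem hvX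
    have hTV : T ⊆ V := by
      refine insert_subset hv ?_
      intro x hx
      have h1 := hX hx
      unfold blw at h1
      rw [mem_filter] at h1
      exact h1.1
    have hTn : T ⊆ range n := hTV.trans hVn
    obtain ⟨p, hp0, hp1, hp2, hp3⟩ := conn_walk (r6_refl adj) (r6_symm hh.sym) hconn
      (mem_insert_self v X) (m := K - 1) (by omega)
    obtain ⟨g, hg1, hg2⟩ := walk6 hh hp1 (fun i => mem_range.1 (hTn (hp2 i)))
    have hgn : ∀ j, g j < n := fun j => hh.lt _ _ (hg2 j)
    obtain ⟨c, hc1, hc2⟩ := exists_code l
      (fun j => ((range (g (j + 1))).filter (fun x => adj (g j) x = true)).card)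
      (fun j => by
        refine lt_trans ?_ hl
        rw [← hh.reg (g j) (hgn j)]
        unfold dg
        refine card_lt_card ?_
        rw [ssubset_iff_of_subset]
        · refine ⟨g (j + 1), ?_, ?_⟩
          · rw [mem_filter, mem_range]
            exact ⟨hgn (j + 1), hg2 j⟩
          · rw [mem_filter, mem_range]
            omega
        · intro x hx
          rw [mem_filter, mem_range] at hx ⊢
          have h1 := hgn (j + 1)
          exact ⟨by omega, hx.2⟩) (12 * K)
    have hw : ∀ j, j ≤ 12 * K → wlk n adj l c v j = g j := by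
      intro j
      induction j with
      | zero =>
        intro _
        have h1 := hg1 0
        rw [Nat.mul_zero] at h1
        rw [h1, hp0]
        rfl
      | succ j ih =>
        intro hj
        show nbr n adj (wlk n adj l c v j) (c / 2 ^ (l * j) % 2 ^ l) = g (j + 1)
        rw [ih (by omega), hc2 j (by omega)]
        exact nbr_eq (hgn (j + 1)) (hg2 j)
    have hdT : dec n adj l K c v = T := by
      ext u
      unfold dec
      rw [mem_filter, mem_image]
      constructor
      · rintro ⟨_, j, hj, hju⟩
        rw [mem_range] at hj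
        rw [hw (6 * j) (by omega), hg1] at hju
        rw [← hju]
        exact hp2 j
      · intro hu
        refine ⟨hTn hu, ?_⟩
        rw [hp3, mem_image] at hu
        obtain ⟨j, hj, hju⟩ := hu
        rw [mem_range] at hj
        refine ⟨j, mem_range.2 (by omega), ?_⟩
        rw [hw (6 * j) (by omega), hg1, hju]
    have hex : ∃ c, c < 2 ^ (12 * l * K) ∧ dec n adj l K c v = T := by
      refine ⟨c, ?_, hdT⟩
      have h1 : 12 * l * K = l * (12 * K) := by ring
      rw [h1]
      exact hc1
    have hf := Nat.find_spec hex
    have hm : ∀ c', c' < Nat.find hex → ¬ (c' < 2 ^ (12 * l * K) ∧ dec n adj l K c' v = T) :=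
      fun c' hc' => Nat.find_min hex hc'
    generalize Nat.find hex = c0 at hf hm
    rw [mem_image]
    refine ⟨c0, ?_, ?_⟩
    · rw [hS, mem_filter, mem_range]
      refine ⟨hf.1, ?_⟩
      unfold adm
      rw [hf.2]
      refine ⟨⟨mem_insert_self _ _, by omega⟩, ?_, ?_⟩
      · intro u _ hu
        refine ⟨hTV hu, ?_⟩
        rcases mem_insert.1 hu with h | h
        · rw [h]
        · have h1 := hX h
          unfold blw at h1
          rw [mem_filter] at h1
          omega
      · intro c' hc' hall
        rw [mem_range] at hc'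
        refine hm c' hc' ⟨by omega, ?_⟩
        ext u
        constructor
        · intro hu
          exact (hall u (hdec c' hu)).1 hu
        · intro hu
          exact (hall u (hTn hu)).2 hu
    · show (dec n adj l K c0 v).erase v = X
      rw [hf.2]
      exact erase_insert hvX
  · intro g
    rw [sum_image hinj, hS, sum_filter]

end Pool.Agent.Lib.Pa7c826k
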