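import Pool.Agent.Lib.Pa7c826k.POm
import Pool.Agent.Lib.Pa7c826k.PWalk
import Pool.Agent.Lib.Pa7c826e.EPart1
import Pool.Agent.Lib.Pa7c826.Decode
import Pool.Agent.Lib.Pa7c826t.EPoly

/-!
The output of the algorithm is computable in polynomial time.

PROOFS. `poly_xiU`: `n_sum` (`P8e91ed/PolyBin.lean`) over `2 ^ |Y|` (`poly_pow2`, `c = 1`,
`|Y| ≤ Kk ≤ qk`), `poly_sel`, `poly_omU` (`sel Y σ ⊆ Y`). `poly_rtU`: `PolyN.divz`, `poly_pow2`
(`c = 1339`), `poly_insert`. `poly_mbU`: `n_sum` over `2 ^ |X|`, `n_ite` for the test (`PolyP.eq`,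
`PolyN.modz`, `PolyS.card`), `poly_rtU` with `sel X τ ⊆ X`. `poly_sgR`: `n_sum` over
`2 ^ (12 lk Kk)` (`poly_pow2` with `c = 12`, `lk_Kk_le`), `n_ite` with `poly_adm`; in the branch the
domain contains `adm …`, so `|dec| ≤ Kk`, `v ∈ dec`, hence `|dec.erase v| < Kk`; `poly_dec`,
`poly_erase`. `poly_qv`: `n_ite` with membership in `poly_side` (`v < n` in the branch), `PolyN.divz`,
`PolyN.sub`. `poly_prd`: `bin_prod` (`P8e91ed/PolyBin.lean`) with `bin_ofN`. `poly_dns`: as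
`EAlgAux_dense` in `Pa7c826e/EAlg.lean` with `Tk`, `gK`, `YK`, `KK` in place of `tOf`, `gI`, `YI`,
`KI` (`poly_plv`, `poly_sum_codeL`, `poly_leaf`); the bound for the levels is `part1_len`
(`Pa7c826e/EPart1.lean`) with `ly = xk w + 4`, `t = Tk w`: `2 ^ (xk w + 4) ≤ 16 * Tk w`.
-/

namespace Pool.Agent.Lib.Pa7c826k

open Pool.Agent.Lib.PolyTime Pool.Agent.Lib.Pa7c826 Pool.Agent.Lib.Pa7c826t
  Pool.Agent.Lib.Pa7c826e Finset Pool.Agent.Lib.P8e91ed.PT

variable {α : Type} {D : α → Prop} {ctx : List (α → List Bool)} {w : α → List Bool}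
  {X Y : α → Finset ℕ} {v : α → ℕ}

theorem poly_xiU (sd : Bool) (hw : PolyC D ctx w) (hV : ∀ x, D x → Vld (w x))
    (hY : PolyS D ctx (fun x => nOf (w x)) Y) (hc : ∀ x, D x → (Y x).card ≤ Kk (w x)) :
    PolyN D ctx (fun x => xiU (nOf (w x)) (aOf (w x)) (dOf (w x)) (adjOf (w x)) sd
      (kk (w x)) (pk (w x)) (Y x)) := by
  have h2 : PolyN D ctx (fun x => 2 ^ (Y x).card) :=
    poly_pow2 hw hV (PolyS.card (poly_nOf hw) hY) 1
      (fun x hx => by rw [one_mul]; exact (hc x hx).trans (Kk_le _))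
  have W := up (n := fun x => 2 ^ (Y x).card) hw
  have YY := hY.up (m := fun x => 2 ^ (Y x).card)
  have L := last (D := D) (ctx := ctx) (n := fun x => 2 ^ (Y x).card)
  exact nSum (f := fun x σ => omU (nOf (w x)) (aOf (w x)) (dOf (w x)) (adjOf (w x)) sd
      (kk (w x)) (pk (w x)) (sel (Y x) σ)) h2
    (poly_omU sd W (fun p hp => hV p.1 hp.1) (poly_sel W YY L)
      (fun p hp => (card_le_card (filter_subset _ _)).trans (hc p.1 hp.1)))

theorem poly_rtU (sd : Bool) (hw : PolyC D ctx w) (hV : ∀ x, D x → Vld (w x))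
    (hY : PolyS D ctx (fun x => nOf (w x)) Y) (hv : PolyN D ctx v)
    (hvn : ∀ x, D x → v x < nOf (w x)) (hc : ∀ x, D x → (Y x).card < Kk (w x)) :
    PolyN D ctx (fun x => rtU (nOf (w x)) (aOf (w x)) (dOf (w x)) (adjOf (w x)) sd
      (kk (w x)) (pk (w x)) (v x) (Y x)) := by
  have h1 : PolyN D ctx (fun x => 2 ^ pk (w x)) :=
    poly_pow2 hw hV (upoly_pk hw) 1339 (fun x _ => le_rfl)
  exact PolyN.divz (h1.mul (poly_xiU sd hw hV hY (fun x hx => (hc x hx).le)))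
    (poly_xiU sd hw hV (poly_insert hw hY hv hvn)
      (fun x hx => (card_insert_le _ _).trans (hc x hx)))

theorem poly_mbU (sd : Bool) (e : ℕ) (hw : PolyC D ctx w) (hV : ∀ x, D x → Vld (w x))
    (hX : PolyS D ctx (fun x => nOf (w x)) X) (hv : PolyN D ctx v)
    (hvn : ∀ x, D x → v x < nOf (w x)) (hc : ∀ x, D x → (X x).card < Kk (w x)) :
    PolyN D ctx (fun x => mbU (nOf (w x)) (aOf (w x)) (dOf (w x)) (adjOf (w x)) sd
      (kk (w x)) (pk (w x)) (v x) e (X x)) := by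
  have h2 : PolyN D ctx (fun x => 2 ^ (X x).card) :=
    poly_pow2 hw hV (PolyS.card (poly_nOf hw) hX) 1
      (fun x hx => by rw [one_mul]; exact (hc x hx).le.trans (Kk_le _))
  have W := up (n := fun x => 2 ^ (X x).card) hw
  have XX := hX.up (m := fun x => 2 ^ (X x).card)
  have VV := upN (n := fun x => 2 ^ (X x).card) hv
  have L := last (D := D) (ctx := ctx) (n := fun x => 2 ^ (X x).card)
  have SS := poly_sel W XX L
  refine nSum (f := fun x τ => if ((X x).card + (sel (X x) τ).card) % 2 = e then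
    rtU (nOf (w x)) (aOf (w x)) (dOf (w x)) (adjOf (w x)) sd (kk (w x)) (pk (w x)) (v x)
      (sel (X x) τ) else 0) h2 ?_
  refine n_ite (PolyP.eq (PolyN.modz ((PolyS.card (poly_nOf W) XX).add
    (PolyS.card (poly_nOf W) SS)) (PolyN.const 2)) (PolyN.const e)) ?_ (PolyN.const 0)
  exact poly_rtU sd (PolyC.mono W fun _ h => h.1) (fun p hp => hV p.1 hp.1.1)
    (SS.mono fun _ h => h.1) (PolyC.mono VV fun _ h => h.1) (fun p hp => hvn p.1 hp.1.1)
    (fun p hp => (card_le_card (filter_subset _ _)).trans_lt (hc p.1 hp.1.1))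

theorem poly_sgR (sd : Bool) (e : ℕ) (hw : PolyC D ctx w) (hV : ∀ x, D x → Vld (w x))
    (hv : PolyN D ctx v) (hvn : ∀ x, D x → v x < nOf (w x)) :
    PolyN D ctx (fun x => sgR (nOf (w x)) (aOf (w x)) (dOf (w x)) (adjOf (w x)) sd
      (lk (w x)) (Kk (w x)) (kk (w x)) (pk (w x)) (v x) e) := by
  have h2 : PolyN D ctx (fun x => 2 ^ (12 * lk (w x) * Kk (w x))) :=
    poly_pow2 hw hV (((PolyN.const 12).mul (upoly_lk hw)).mul (upoly_Kk hw)) 12
      (fun x _ => by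
        rw [mul_assoc]
        exact Nat.mul_le_mul_left _ (lk_Kk_le _))
  have W := up (n := fun x => 2 ^ (12 * lk (w x) * Kk (w x))) hw
  have VV := upN (n := fun x => 2 ^ (12 * lk (w x) * Kk (w x))) hv
  have L := last (D := D) (ctx := ctx) (n := fun x => 2 ^ (12 * lk (w x) * Kk (w x)))
  refine nSum (f := fun x c => if adm (nOf (w x)) (aOf (w x)) (adjOf (w x)) sd (lk (w x))
      (Kk (w x)) c (v x) then
    mbU (nOf (w x)) (aOf (w x)) (dOf (w x)) (adjOf (w x)) sd (kk (w x)) (pk (w x)) (v x) e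
      ((dec (nOf (w x)) (adjOf (w x)) (lk (w x)) (Kk (w x)) c (v x)).erase (v x)) else 0) h2 ?_
  have hV' : ∀ p : α × ℕ, (D p.1 ∧ p.2 < 2 ^ (12 * lk (w p.1) * Kk (w p.1))) → Vld (w p.1) :=
    fun p hp => hV p.1 hp.1
  refine n_ite (poly_adm sd W hV' L VV) ?_ (PolyN.const 0)
  refine poly_mbU sd e (PolyC.mono W fun _ h => h.1) (fun p hp => hV p.1 hp.1.1)
    (poly_erase (PolyC.mono W fun _ h => h.1)
      ((poly_dec W hV' L VV).mono fun _ h => h.1) (PolyC.mono VV fun _ h => h.1))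
    (PolyC.mono VV fun _ h => h.1) (fun p hp => hvn p.1 hp.1.1) (fun p hp => ?_)
  have h3 := hp.2.1
  have h4 := card_erase_of_mem h3.1
  have h5 := card_pos.2 ⟨_, h3.1⟩
  have h6 := h3.2
  omega

theorem PAlgAux_qv (sd : Bool) (hw : PolyC D ctx w) (hV : ∀ x, D x → Vld (w x))
    (hv : PolyN D ctx v) :
    PolyN D ctx (fun x => qv (nOf (w x)) (aOf (w x)) (dOf (w x)) (adjOf (w x)) sd
      (lk (w x)) (Kk (w x)) (kk (w x)) (pk (w x)) (v x)) := by
  have h1 : PolyN D ctx (fun x => 2 ^ pk (w x)) :=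
    poly_pow2 hw hV (upoly_pk hw) 1339 (fun x _ => le_rfl)
  have hm : PolyP D ctx (fun x => v x ∈ sideS (aOf (w x)) sd (range (nOf (w x)))) :=
    ⟨_, PolyS.mem (poly_side sd hw) hv, fun a _ => by simp⟩
  unfold qv
  refine n_ite hm ?_ (PolyC.mono h1 fun _ h => h.1)
  have hw' := PolyC.mono (D' := fun x => D x ∧ v x ∈ sideS (aOf (w x)) sd (range (nOf (w x))))
    hw (fun _ h => h.1)
  have hv' := PolyC.mono (D' := fun x => D x ∧ v x ∈ sideS (aOf (w x)) sd (range (nOf (w x))))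
    hv (fun _ h => h.1)
  have h1' := PolyC.mono (D' := fun x => D x ∧ v x ∈ sideS (aOf (w x)) sd (range (nOf (w x))))
    h1 (fun _ h => h.1)
  have hlt : ∀ x, (D x ∧ v x ∈ sideS (aOf (w x)) sd (range (nOf (w x)))) →
      v x < nOf (w x) := by
    intro x hx
    exact mem_range.1 ((filter_subset _ _) hx.2)
  exact PolyN.divz (PolyN.mul h1' h1') (PolyN.sub
    (poly_sgR sd 0 hw' (fun x hx => hV x hx.1) hv' hlt)
    (poly_sgR sd 1 hw' (fun x hx => hV x hx.1) hv' hlt))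

theorem poly_prd (sd : Bool) (hw : PolyC D ctx w) (hV : ∀ x, D x → Vld (w x)) :
    PolyBin D ctx (fun x => prdK (w x) sd) := by
  have W := up (n := fun x => nOf (w x)) hw
  have L := last (D := D) (ctx := ctx) (n := fun x => nOf (w x))
  exact binProd (f := fun x v => qv (nOf (w x)) (aOf (w x)) (dOf (w x)) (adjOf (w x)) sd
      (lk (w x)) (Kk (w x)) (kk (w x)) (pk (w x)) v) (poly_nOf hw)
    (bin_ofN (PAlgAux_qv sd W (fun p hp => hV p.1 hp.1) L))

theorem PAlgAux_gK : UPoly gK := by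
  intro β D' ctx' w' hw
  exact (PolyN.const 768).mul ((upoly_xk hw).add (PolyN.const 4))

theorem PAlgAux_YK : UPoly YK := by
  intro β D' ctx' w' hw
  exact (upoly_Tk hw).mul (PolyN.pow ((PolyN.const 16).mul (upoly_Tk hw)) _)

theorem PAlgAux_KK : UPoly KK := by
  intro β D' ctx' w' hw
  exact PolyN.pow ((PolyN.pow ((PolyN.const 16).mul (upoly_Tk hw)) _).mul
    (PolyN.pow (PAlgAux_YK hw) _)) _

theorem PAlgAux_alive :
    UPolyA (fun w => alive (nOf w) (aOf w) (adjOf w) (range (nOf w)) (YK w ^ 24)) := by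
  intro β D' ctx' w' S hw hS
  have hn := poly_nOf hw
  have hS0 := EAlgAux_range hw
  have e1 := (poly_nu hw hS).add (PolyS.card hn hS0)
  have e2 := (poly_nu hw hS0).add (PolyS.card hn hS)
  exact PolyB.le (PolyN.const 1)
    (PolyN.divPow (PolyN.pow (PAlgAux_YK hw) 24) (PolyN.sub e1 e2))

theorem poly_dns (hw : PolyC D ctx w) (hV : ∀ x, D x → Tk (w x) ≠ 0 ∧
      nOf (w x) = 2 * aOf (w x) ∧ 1 ≤ dOf (w x) ∧ 1 ≤ aOf (w x) ∧
      (∀ u v, adjOf (w x) u v = true → (u < aOf (w x) ↔ ¬ v < aOf (w x))) ∧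
      (∀ v < nOf (w x), dg (adjOf (w x)) (range (nOf (w x))) v = dOf (w x)) ∧
      aOf (w x) ≤ 192 * dOf (w x) * (xk (w x) + 4)) :
    PolyBin D ctx (fun x => dnsK (w x)) := by
  have hB : PolyN D ctx (fun x => (16 * Tk (w x)) ^ 192 * YK (w x) ^ 24) :=
    (PolyN.pow ((PolyN.const 16).mul (upoly_Tk hw)) _).mul (PolyN.pow (PAlgAux_YK hw) _)
  have h2 : ∀ x, D x → ∀ j, j ≤ nOf (w x) →
      (plv (nOf (w x)) (range (nOf (w x))).card (gK (w x)) (adjOf (w x))
        (alive (nOf (w x)) (aOf (w x)) (adjOf (w x)) (range (nOf (w x))) (YK (w x) ^ 24))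
        (range (nOf (w x))) j).length ≤ (16 * Tk (w x)) ^ 192 * YK (w x) ^ 24 := by
    intro x hx j _
    obtain ⟨h1, h2, h3, h4, h5, h6, h7⟩ := hV x hx
    have hly : 2 ^ (xk (w x) + 4) ≤ 16 * Tk (w x) := by
      have h8 : 2 ^ xk (w x) ≤ Tk (w x) := Nat.pow_log_le_self 2 h1
      rw [pow_add]
      omega
    exact part1_len (t := Tk (w x)) h2 (adjOf_symm (w x)) (adjOf_self (w x)) h5 h6 h3 h4 h7
      (Nat.pos_of_ne_zero h1) hly j
  have h1 := poly_plv (m := fun w => (range (nOf w)).card) (g := gK)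
    (al := fun w => alive (nOf w) (aOf w) (adjOf w) (range (nOf w)) (YK w ^ 24))
    (S₀ := fun w => range (nOf w))
    EAlgAux_card PAlgAux_gK PAlgAux_alive EAlgAux_range hw (poly_nOf hw) hB h2
  exact poly_sum_codeL (F := fun w S => leaf (nOf w) (adjOf w) (KK w) S)
    (EAlgAux_leaf PAlgAux_KK) hw h1 (fun x _ S hS => plv_subset _ S hS)

end Pool.Agent.Lib.Pa7c826k
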