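import Pool.Agent.Lib.Pa7c826k.Defs
import Pool.Agent.Lib.Pa7c826e.EClass
import Pool.Agent.Lib.Pa7c826e.EFin

/-!
The input strings of expanders.

PROOFS. `xhost'`: copy the proof of `xhost` (`Pa7c826e/EClass.lean`), which uses the value of `A` only
through `h4`. `dOf_eq` (`Pa7c826e/EFin.lean`) computes `dOf (inCode G t)`. `vld_inCode`: `aOf_inCode`,
`nOf_inCode`, `tOf_inCode`, `dOf_eq`, `lk`, and `xhost'` with
`A = 10000000 * (Nat.log 2 d + 1)`. `pr_of`: with `l = lk w`, `x = xk w`, `K = Kk w`, `q = qk w`: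
`d < 2 ^ (log₂ d + 1) ≤ 2 d` (`Nat.lt_pow_succ_log_self`, `Nat.pow_log_le_self`, `hh.hd`);
`spK` gives `hx`. `K = x / l + 1`, so `x + 1 ≤ l K ≤ x + l = q` (`Nat.div_add_mod`,
`Nat.mod_lt`). `K ≤ Ks a d = a / (256 d)`: `l ≥ 23` (`Sp.l_ge`), so
`256 d K ≤ 256 d (x / 23 + 1) ≤ 192 d (x + 4) ≤ a`. `T_lt`: `Nat.lt_pow_succ_log_self`.
-/

namespace Pool.Agent.Lib.Pa7c826k

open Finset Pool.Agent.Lib.Pa7c826 Pool.Agent.Lib.Pa7c826t Pool.Agent.Lib.Pa7c826e
  Pool.Agent.Lib.Pa7c826x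

theorem xhost' (G : BGraph) (t : ℕ) {d A : ℕ} {α : ℝ} (hd : 1 ≤ d) (h1 : ∀ i, G.rowDeg i = d)
    (h2 : ∀ j, G.colDeg j = d) (h3 : IsExpander α G) (h4 : (A : ℝ) ≤ α * d) (ha : 2 ≤ G.a) :
    XHost (G.a + G.b) G.a d A (adjOf (inCode G t)) := by
  have hab := reg_ab G hd h1 h2
  have hexp : ∀ (sd : Bool) (X : Finset ℕ), X ⊆ sideS G.a sd (range (G.a + G.b)) →
      2 * X.card ≤ G.a →
      (d + A) * X.card ≤ d * (NB (G.a + G.b) (adjOf (inCode G t)) X).card := by
    intro sd X hX hc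
    cases sd with
    | true =>
      obtain ⟨S, hS, hN⟩ := exp_true G t X hX
      have h5 := h3.1 S (by rw [hS]; exact hc)
      rw [hS] at h5
      exact exp_real h4 h5 hN
    | false =>
      obtain ⟨S, hS, hN⟩ := exp_false G t X hX
      have h5 := h3.2 S (by rw [hS, ← hab]; exact hc)
      rw [hS] at h5
      exact exp_real h4 h5 hN
  refine ⟨by omega, adjOf_symm _, adjOf_self _, (reg_facts G t).1, (reg_facts G t).2,
    reg_dg G t h1 h2, hd, ?_, hexp⟩
  have h6 := hexp true (range (G.a / 2)) (by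
    intro v hv
    rw [mem_range] at hv
    unfold sideS
    rw [mem_filter, mem_range, decide_eq_true_eq]
    omega) (by rw [card_range]; omega)
  rw [card_range] at h6
  have h7 : (NB (G.a + G.b) (adjOf (inCode G t)) (range (G.a / 2))).card ≤ G.b := by
    have h8 : NB (G.a + G.b) (adjOf (inCode G t)) (range (G.a / 2)) ⊆
        Ico G.a (G.a + G.b) := by
      intro v hv
      unfold NB at hv
      rw [mem_filter, mem_range] at hv
      obtain ⟨hv1, u, hu, huv⟩ := hv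
      rw [mem_range] at hu
      have h9 := (reg_facts G t).2 u v huv
      rw [mem_Ico]
      omega
    refine (card_le_card h8).trans ?_
    rw [Nat.card_Ico]
    omega
  have h10 : (d + A) * (G.a / 2) ≤ d * (3 * (G.a / 2)) :=
    h6.trans (Nat.mul_le_mul_left _ (by omega))
  have h11 : (d + A) * (G.a / 2) ≤ (3 * d) * (G.a / 2) := by
    refine h10.trans (le_of_eq ?_)
    ring
  have h12 : d + A ≤ 3 * d := Nat.le_of_mul_le_mul_right h11 (by omega)
  omega

theorem vld_inCode (G : BGraph) {t d : ℕ} {α : ℝ} (ht : 1 ≤ t) (hd : 1 ≤ d)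
    (h1 : ∀ i, G.rowDeg i = d) (h2 : ∀ j, G.colDeg j = d) (h3 : IsExpander α G)
    (h4 : (10000000 : ℝ) * (Nat.log 2 d + 1) ≤ α * d) (ha : 2 ≤ G.a) :
    Vld (inCode G t) := by
  have e : dOf (inCode G t) = d := dOf_eq G t h1 h2 (by omega)
  unfold Vld lk
  rw [tOf_inCode, aOf_inCode, nOf_inCode, e]
  refine ⟨ht, ha, 10000000 * (Nat.log 2 d + 1), ?_, le_refl _⟩
  refine xhost' G t hd h1 h2 h3 ?_ ha
  push_cast
  exact h4

theorem pr_of {w : List Bool} (h : Vld w) (hs : spK w = true) :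
    ∃ A, Pr (nOf w) (aOf w) (dOf w) A (lk w) (xk w) (Kk w) (qk w) (adjOf w) := by
  obtain ⟨ht, ha, A, hh, hA⟩ := h
  have hd := hh.hd
  have hsp : Sp (nOf w) (aOf w) (dOf w) A (lk w) (xk w) (adjOf w) := by
    refine ⟨hh, ?_, ?_, hA, ?_⟩
    · unfold lk
      exact Nat.lt_pow_succ_log_self (by norm_num) _
    · unfold lk
      have h2 := Nat.pow_log_le_self 2 (by omega : dOf w ≠ 0)
      rw [pow_succ]
      omega
    · unfold spK at hs
      rw [decide_eq_true_eq] at hs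
      exact hs
  have hl := hsp.l_ge
  have hx := hsp.hx
  have e1 : lk w * (xk w / lk w) + xk w % lk w = xk w := Nat.div_add_mod _ _
  have e2 : xk w % lk w < lk w := Nat.mod_lt _ (by omega)
  have e3 : lk w * Kk w = lk w * (xk w / lk w) + lk w := by
    unfold Kk
    ring
  refine ⟨A, hsp, ?_, ?_, ?_, ?_⟩
  · unfold Kk
    exact Nat.le_add_left 1 _
  · unfold Ks
    rw [Nat.le_div_iff_mul_le (by omega)]
    have e4 : xk w / lk w ≤ xk w / 23 := Nat.div_le_div_left hl (by norm_num)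
    have e5 : 256 * Kk w ≤ 192 * (xk w + 4) := by
      unfold Kk
      omega
    calc Kk w * (256 * dOf w) = dOf w * (256 * Kk w) := by ring
      _ ≤ dOf w * (192 * (xk w + 4)) := Nat.mul_le_mul_left _ e5
      _ = 192 * dOf w * (xk w + 4) := by ring
      _ ≤ aOf w := hx
  · rw [e3]
    unfold qk
    omega
  · rw [e3]
    omega

theorem T_lt (w : List Bool) : 64 * aOf w * tOf w < 2 ^ (xk w + 1) := by
  unfold xk Tk
  exact Nat.lt_pow_succ_log_self (by norm_num) _

end Pool.Agent.Lib.Pa7c826k
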