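import Pool.Agent.Lib.Pa7c826k.OutErr
import Pool.Agent.Lib.Pa7c826k.Host
import Pool.Agent.Lib.Pa7c826k.PAlg

/-!
The approximation scheme.
-/

namespace Pool.Agent.Lib.Pa7c826k

open Pool.Agent.Lib.PolyTime Pool.Agent.Lib.Pa7c826 Pool.Agent.Lib.Pa7c826t
  Pool.Agent.Lib.Pa7c826e Pool.Agent.Lib.Pa7c826x Pool.Agent.Lib.P8e91ed.PT Finset

/-- `d`-regular bipartite `α`-expanders with `α d ≥ C (log₂ d + 1)` -/
def ExpK (C : ℕ) (G : BGraph) : Prop :=
  ∃ (d : ℕ) (α : ℝ), (∀ i, G.rowDeg i = d) ∧ (∀ j, G.colDeg j = d) ∧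
    IsExpander α G ∧ C * ((Nat.log 2 d : ℝ) + 1) ≤ α * d

/-- the numerator of the output -/
def algK (w : List Bool) : ℕ :=
  if decide (dOf w = 0) = true then 2 ^ nOf w
  else if spK w = true then 2 ^ aOf w * (prdK w true + prdK w false)
  else dnsK w

/-- the binary logarithm of the denominator of the output -/
def expK (w : List Bool) : ℕ :=
  if decide (dOf w = 0) = true then 0 else if spK w = true then pk w * nOf w else 0

theorem outVal_un (k : ℕ) (l : List Bool) : outVal (un k ++ false :: l) = binVal l / 2 ^ k := by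
  induction k with
  | zero => simp [un, outVal]
  | succ k ih =>
    rw [un_succ, List.cons_append, outVal, ih, pow_succ, div_div]

theorem sp_case {G : BGraph} {t : ℕ} (ht : 1 ≤ t) (hG : ExpK 10000000 G)
    (hd : dOf (inCode G t) ≠ 0) (hs : spK (inCode G t) = true) : Vld (inCode G t) := by
  obtain ⟨d, α, h1, h2, h3, h4⟩ := hG
  obtain ⟨e1, e2, e3, e4⟩ := pos_case G t h1 h2 hd
  unfold spK at hs
  rw [decide_eq_true_eq, aOf_inCode, e1] at hs
  have ha : 2 ≤ G.a := by
    have h5 : 192 * 1 * 4 ≤ 192 * d * (xk (inCode G t) + 4) :=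
      Nat.mul_le_mul (Nat.mul_le_mul_left _ e2) (by omega)
    omega
  exact vld_inCode G ht e2 h1 h2 h3 (by exact_mod_cast h4) ha

theorem dns_case {G : BGraph} {t : ℕ} (ht : 1 ≤ t) (hG : ExpK 10000000 G)
    (hd : dOf (inCode G t) ≠ 0) (hs : spK (inCode G t) = false) :
    Tk (inCode G t) ≠ 0 ∧ nOf (inCode G t) = 2 * aOf (inCode G t) ∧
      1 ≤ dOf (inCode G t) ∧ 1 ≤ aOf (inCode G t) ∧
      (∀ u v, adjOf (inCode G t) u v = true →
        (u < aOf (inCode G t) ↔ ¬ v < aOf (inCode G t))) ∧
      (∀ v < nOf (inCode G t),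
        dg (adjOf (inCode G t)) (range (nOf (inCode G t))) v = dOf (inCode G t)) ∧
      aOf (inCode G t) ≤ 192 * dOf (inCode G t) * (xk (inCode G t) + 4) := by
  obtain ⟨d, α, h1, h2, h3, h4⟩ := hG
  obtain ⟨e1, e2, e3, e4⟩ := pos_case G t h1 h2 hd
  unfold spK at hs
  rw [decide_eq_false_iff_not, not_le] at hs
  have hT : Tk (inCode G t) ≠ 0 := by
    unfold Tk
    rw [aOf_inCode, tOf_inCode]
    positivity
  rw [nOf_inCode, aOf_inCode] at *
  refine ⟨hT, by omega, by omega, by omega, (reg_facts G t).2, ?_, hs.le⟩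
  rw [e1]
  exact reg_dg G t h1 h2

theorem algK_poly : ∃ u : BGraph × ℕ → List Bool,
    PolyC (fun x : BGraph × ℕ => ExpK 10000000 x.1 ∧ 1 ≤ x.2) [fun x => inCode x.1 x.2]
      (fun x => un (expK (inCode x.1 x.2)) ++ false :: u x) ∧
    ∀ x : BGraph × ℕ, ExpK 10000000 x.1 ∧ 1 ≤ x.2 → bval (u x) = algK (inCode x.1 x.2) := by
  let D : BGraph × ℕ → Prop := fun x => ExpK 10000000 x.1 ∧ 1 ≤ x.2
  let enc : BGraph × ℕ → List Bool := fun x => inCode x.1 x.2
  have hw : PolyC D [enc] enc := PolyC.var (by simp)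
  have hz : PolyB D [enc] (fun x => decide (dOf (enc x) = 0)) :=
    PolyB.natEq (upoly_dOf hw) (PolyN.const 0)
  have hw1 : PolyC (fun x => D x ∧ decide (dOf (enc x) = 0) = false) [enc] enc :=
    PolyC.mono hw (fun x h => h.1)
  have hsp : PolyB (fun x => D x ∧ decide (dOf (enc x) = 0) = false) [enc]
      (fun x => spK (enc x)) :=
    PolyB.le (((PolyN.const 192).mul (upoly_dOf hw1)).mul
      ((upoly_xk hw1).add (PolyN.const 4))) (poly_aOf hw1)
  have hval : PolyBin D [enc] (fun x => algK (enc x)) := by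
    refine PolyBin.ite hz (PolyBin.mono (PolyBin.pow2 (poly_nOf hw)) (fun x h => h.1)) ?_
    refine PolyBin.ite hsp ?_ ?_
    · have hw2 : PolyC (fun x => (D x ∧ decide (dOf (enc x) = 0) = false) ∧
          spK (enc x) = true) [enc] enc := PolyC.mono hw1 (fun x h => h.1)
      have hV : ∀ x, (D x ∧ decide (dOf (enc x) = 0) = false) ∧ spK (enc x) = true →
          Vld (enc x) := fun x hx =>
        sp_case hx.1.1.2 hx.1.1.1 (of_decide_eq_false hx.1.2) hx.2
      exact PolyBin.mulPow2 (PolyBin.add (poly_prd true hw2 hV) (poly_prd false hw2 hV))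
        (poly_aOf hw2)
    · have hw2 : PolyC (fun x => (D x ∧ decide (dOf (enc x) = 0) = false) ∧
          spK (enc x) = false) [enc] enc := PolyC.mono hw1 (fun x h => h.1)
      exact poly_dns hw2 (fun x hx =>
        dns_case hx.1.1.2 hx.1.1.1 (of_decide_eq_false hx.1.2) hx.2)
  have hexp : PolyN D [enc] (fun x => expK (enc x)) := by
    have h0 : PolyN (fun x => D x ∧ decide (dOf (enc x) = 0) = false) [enc]
        (fun x => if spK (enc x) = true then pk (enc x) * nOf (enc x) else 0) := by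
      refine PolyC.congr (PolyC.ite hsp
        (PolyC.mono ((upoly_pk hw1).mul (poly_nOf hw1)) (fun x h => h.1)) PolyC.nil) ?_
      intro x _
      by_cases h : spK (enc x) = true
      · simp [h]
      · simp [h, un]
    refine PolyC.congr (PolyC.ite hz PolyC.nil h0) ?_
    intro x _
    unfold expK
    by_cases h : decide (dOf (enc x) = 0) = true
    · simp only [h, if_true]
      rfl
    · simp only [h, if_false]
      rfl
  obtain ⟨u, hu, hval⟩ := hval
  exact ⟨u, hexp.append (PolyC.cons false hu), hval⟩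

theorem algK_spec {G : BGraph} {t : ℕ} (ht : 1 ≤ t) (hG : ExpK 10000000 G) :
    |(algK (inCode G t) : ℝ) / 2 ^ expK (inCode G t) - numIndep G.graph| ≤
      (numIndep G.graph : ℝ) / t := by
  rw [← ind_eq_numIndep G t]
  have htr : (0 : ℝ) < t := by exact_mod_cast ht
  unfold algK expK
  by_cases hd : dOf (inCode G t) = 0
  · have hG' := hG
    obtain ⟨d, α, h1, h2, -, -⟩ := hG'
    simp only [hd, decide_true, if_true, pow_zero, div_one]
    rw [ind_zero G t h1 h2 hd, nOf_inCode]
    simp only [sub_self, abs_zero]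
    positivity
  have hdd : decide (dOf (inCode G t) = 0) = false := decide_eq_false hd
  simp only [hdd, Bool.false_eq_true, if_false]
  by_cases hs : spK (inCode G t) = true
  · have hV := sp_case ht hG hd hs
    obtain ⟨A, hP⟩ := pr_of hV hs
    have hT := T_lt (inCode G t)
    have hT' : 64 * aOf (inCode G t) * t < 2 ^ (xk (inCode G t) + 1) := by
      have e := tOf_inCode G t
      rw [e] at hT
      exact hT
    have key := out_err hP ht hT'
    simp only [hs, if_true]
    unfold prdK
    have hk : kk (inCode G t) = 1248 * qk (inCode G t) := rfl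
    have hp : pk (inCode G t) = 1339 * qk (inCode G t) := rfl
    rw [hk, hp]
    have hn : nOf (inCode G t) = G.a + G.b := nOf_inCode G t
    rw [← hn]
    push_cast
    exact key
  · have hs' : spK (inCode G t) = false := by simpa using hs
    obtain ⟨k1, k2, k3, k4, k5, k6, k7⟩ := dns_case ht hG hd hs'
    simp only [hs, Bool.false_eq_true, if_false, pow_zero, div_one]
    have hT1 : 1 ≤ Tk (inCode G t) := Nat.one_le_iff_ne_zero.2 k1
    have hp2 : 2 ^ (xk (inCode G t) + 4) ≤ 16 * Tk (inCode G t) := by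
      have := Nat.pow_log_le_self 2 (x := Tk (inCode G t)) (by omega)
      unfold xk
      rw [pow_add]
      omega
    have key := part1_spec (n := nOf (inCode G t)) (a := aOf (inCode G t))
      (d := dOf (inCode G t)) (ly := xk (inCode G t) + 4) (t := Tk (inCode G t))
      (adj := adjOf (inCode G t)) k2 (adjOf_symm _) (adjOf_self _) k5 k6 k3 k4 k7 hT1 hp2
    have hn : nOf (inCode G t) = G.a + G.b := nOf_inCode G t
    rw [← hn]
    unfold dnsK KK YK gK
    obtain ⟨j1, j2⟩ := key
    set O := outA (nOf (inCode G t)) (aOf (inCode G t)) (768 * (xk (inCode G t) + 4))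
      (adjOf (inCode G t)) (range (nOf (inCode G t)))
      ((Tk (inCode G t) * (16 * Tk (inCode G t)) ^ 4416) ^ 24)
      (((16 * Tk (inCode G t)) ^ 192 *
        (Tk (inCode G t) * (16 * Tk (inCode G t)) ^ 4416) ^ 24) ^ 24) with hO
    set I := ind (adjOf (inCode G t)) (range (nOf (inCode G t))) with hI
    have htT : t ≤ Tk (inCode G t) := by
      unfold Tk
      rw [tOf_inCode]
      have : 1 ≤ 64 * aOf (inCode G t) := by omega
      exact Nat.le_mul_of_pos_left _ this
    have r1 : (O : ℝ) ≤ I := by exact_mod_cast j1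
    have r2 : (Tk (inCode G t) : ℝ) * I ≤ Tk (inCode G t) * O + I := by exact_mod_cast j2
    have r3 : (t : ℝ) ≤ Tk (inCode G t) := by exact_mod_cast htT
    rw [abs_sub_comm, abs_of_nonneg (by linarith), le_div_iff₀ htr]
    have r4 : (0 : ℝ) ≤ I - O := by linarith
    nlinarith [mul_le_mul_of_nonneg_right r3 r4]

/-- There is a deterministic approximation scheme for the number of independent sets of
`d`-regular bipartite `α`-expanders with `α d ≥ C (log₂ d + 1)`, `C = 10 ^ 7`. -/
theorem expK_fptas : HasFPTAS (ExpK 10000000) := by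
  obtain ⟨u, hout, hval⟩ := algK_poly
  refine ⟨fun x => un (expK (inCode x.1.1 x.1.2)) ++ false :: u x.1,
    PolyC.toTM2 (fun x : BGraph × ℕ => inCode x.1 x.2)
      (fun x => un (expK (inCode x.1 x.2)) ++ false :: u x) id hout, ?_⟩
  rintro ⟨⟨G, t⟩, hG, ht⟩
  have hG' : ExpK 10000000 G := hG
  have ht' : 1 ≤ t := ht
  have h1 := algK_spec ht' hG'
  have h2 : binVal (u (G, t)) = algK (inCode G t) := by
    rw [binVal_eq_bval]
    exact hval (G, t) ⟨hG, ht⟩
  unfold Good
  simp only [outVal_un, h2]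
  have h3 : (|(algK (inCode G t) : ℚ) / 2 ^ expK (inCode G t) - numIndep G.graph| : ℚ) ≤
      (numIndep G.graph : ℚ) / t := by
    have h4 : (((|(algK (inCode G t) : ℚ) / 2 ^ expK (inCode G t) -
        numIndep G.graph| : ℚ)) : ℝ) ≤ (((numIndep G.graph : ℚ) / t : ℚ) : ℝ) := by
      push_cast
      exact h1
    exact_mod_cast h4
  exact h3

end Pool.Agent.Lib.Pa7c826k
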