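import Pool.Agent.Lib.Pa7c826k.Defs

/-!
Connected components and the recursion for the partition function.

PROOFS. `r` is reflexive (`hr`) and symmetric (`hs`). `Far r X Y` implies `Disjoint X Y` (`hr`).
`exists_comp`: let `T` be a set of minimal cardinality among the sets `T ⊆ Z` with `v ∈ T` and
`Far r T (Z \ T)` (`Z` is such a set; `Finset.exists_min_image` on a filtered powerset). It is
connected: let `Y ⊆ T` be nonempty with `Far r Y (T \ Y)`. If `v ∈ Y`, then `Y` is far from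
`Z \ Y ⊆ (Z \ T) ∪ (T \ Y)`, so `|T| ≤ |Y|` and `Y = T`. If `v ∉ Y`, then `T \ Y` contains `v` and
is far from `Z \ (T \ Y) ⊆ (Z \ T) ∪ Y`, so `|T| ≤ |T \ Y|`, `Y = ∅`, a contradiction.
`comp_unique`: `T ∩ T'` contains `v` and is far from `T \ T'` (a part of `Z \ T'`, and `T'` is far
from `Z \ T'`), hence `T ∩ T' = T` as `T` is connected, `T ⊆ T'`; by symmetry `T = T'`.
`conn_union`: if `T ∩ X` and `T ∩ Y` are both nonempty: `T ∩ X` is far from `T \ (T ∩ X) ⊆ Y`, so
`T ∩ X = T`. If `T ∩ X` is empty then `T ⊆ Y`.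
`wt_wk`: a connected set is nonempty, so `Sml r K ∅`; by `conn_union`
`Sml r K (X ∪ Y) ↔ Sml r K X ∧ Sml r K Y` for `Far r X Y`. `wt_pow`: `X`, `Y` are disjoint, so
`|X ∪ Y| = |X| + |Y|`. `Xi_ge_one`: the term `Z = ∅`. `Xi_mono`: more nonnegative terms.
`Xi_far`: the subsets of `X ∪ Y` are the sets `A ∪ B`, `A ⊆ X`, `B ⊆ Y` (uniquely, by
disjointness), and `w (A ∪ B) = w A * w B` (`sum_mul_sum`, `Finset.sum_product`, `sum_bij'`).
`Xi_rec`: the subsets `Z` of `insert v Y` with `v ∉ Z` are the subsets of `Y`. The subsets `Z` with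
`v ∈ Z` correspond to the pairs `(T, Z')`, `T ∈ cns r (insert v Y) v`, `Z' ⊆ awy r Y T`, via
`Z = T ∪ Z'`: given `Z` let `T` be the component of `v` in `Z` (`exists_comp`, `comp_unique`) and
`Z' = Z \ T`, which is far from `T`, so `Z' ⊆ awy r Y T` (`v ∉ Z'`); given `(T, Z')`, `T` and `Z'`
are far and `T` is the component of `v` in `T ∪ Z'`, `(T ∪ Z') \ T = Z'`. And `w Z = w T * w Z'`.
(`Finset.sum_sigma'` and `Finset.sum_bij'`, or `sum_fiberwise`.)
-/

namespace Pool.Agent.Lib.Pa7c826k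

open Finset

variable {r : ℕ → ℕ → Prop} {w : Finset ℕ → ℝ}

theorem Far.symm (hs : ∀ x y, r x y → r y x) {X Y : Finset ℕ} (h : Far r X Y) : Far r Y X :=
  fun x hx y hy hxy => h y hy x hx (hs x y hxy)

theorem Far.disjoint (hr : ∀ x, r x x) {X Y : Finset ℕ} (h : Far r X Y) : Disjoint X Y := by
  rw [disjoint_left]
  exact fun x hx hy => h x hx x hy (hr x)

theorem exists_comp (hr : ∀ x, r x x) (hs : ∀ x y, r x y → r y x) {Z : Finset ℕ} {v : ℕ}
    (hv : v ∈ Z) : ∃ T, T ⊆ Z ∧ v ∈ T ∧ Conn r T ∧ Far r T (Z \ T) := by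
  classical
  obtain ⟨T, hT, hmin⟩ := Finset.exists_min_image
    (Z.powerset.filter (fun T => v ∈ T ∧ Far r T (Z \ T))) Finset.card
    ⟨Z, by
      rw [mem_filter, mem_powerset]
      exact ⟨Subset.refl _, hv, fun x _ y hy => by simp at hy⟩⟩
  rw [mem_filter, mem_powerset] at hT
  obtain ⟨hTZ, hvT, hfar⟩ := hT
  refine ⟨T, hTZ, hvT, ⟨⟨v, hvT⟩, ?_⟩, hfar⟩
  intro Y hY hne hYf
  by_cases hvY : v ∈ Y
  · have h1 : Far r Y (Z \ Y) := by
      intro x hx y hy
      rw [mem_sdiff] at hy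
      by_cases hyT : y ∈ T
      · exact hYf x hx y (mem_sdiff.2 ⟨hyT, hy.2⟩)
      · exact hfar x (hY hx) y (mem_sdiff.2 ⟨hy.1, hyT⟩)
    have h2 := hmin Y (by
      rw [mem_filter, mem_powerset]
      exact ⟨hY.trans hTZ, hvY, h1⟩)
    exact eq_of_subset_of_card_le hY h2
  · exfalso
    have h1 : Far r (T \ Y) (Z \ (T \ Y)) := by
      intro x hx y hy
      rw [mem_sdiff] at hx hy
      by_cases hyT : y ∈ T
      · have hyY : y ∈ Y := by
          by_contra hc
          exact hy.2 (mem_sdiff.2 ⟨hyT, hc⟩)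
        intro hxy
        exact hYf y hyY x (mem_sdiff.2 hx) (hs x y hxy)
      · exact hfar x hx.1 y (mem_sdiff.2 ⟨hy.1, hyT⟩)
    have h2 := hmin (T \ Y) (by
      rw [mem_filter, mem_powerset]
      exact ⟨sdiff_subset.trans hTZ, mem_sdiff.2 ⟨hvT, hvY⟩, h1⟩)
    have h3 : T \ Y = T := eq_of_subset_of_card_le sdiff_subset h2
    obtain ⟨y, hy⟩ := hne
    have h4 : y ∈ T \ Y := by rw [h3]; exact hY hy
    exact (mem_sdiff.1 h4).2 hy

theorem comp_unique (hs : ∀ x y, r x y → r y x) {Z T T' : Finset ℕ} {v : ℕ} (h1 : T ⊆ Z)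
    (h1' : T' ⊆ Z) (h2 : v ∈ T) (h2' : v ∈ T') (h3 : Conn r T) (h3' : Conn r T')
    (h4 : Far r T (Z \ T)) (h4' : Far r T' (Z \ T')) : T = T' := by
  have key : ∀ T T' : Finset ℕ, T ⊆ Z → T' ⊆ Z → v ∈ T → v ∈ T' → Conn r T → Far r T' (Z \ T') →
      T ⊆ T' := by
    intro T T' hT hT' hv hv' hc hf
    have h5 : Far r (T ∩ T') (T \ (T ∩ T')) := by
      intro x hx y hy
      rw [mem_inter] at hx
      rw [mem_sdiff, mem_inter] at hy
      exact hf x hx.2 y (mem_sdiff.2 ⟨hT hy.1, fun h => hy.2 ⟨hy.1, h⟩⟩)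
    have h6 := hc.2 (T ∩ T') inter_subset_left ⟨v, mem_inter.2 ⟨hv, hv'⟩⟩ h5
    intro x hx
    rw [← h6] at hx
    exact (mem_inter.1 hx).2
  exact Subset.antisymm (key T T' h1 h1' h2 h2' h3 h4') (key T' T h1' h1 h2' h2 h3' h4)

theorem conn_union {X Y T : Finset ℕ} (h : Far r X Y) (hT : Conn r T) (hXY : T ⊆ X ∪ Y) :
    T ⊆ X ∨ T ⊆ Y := by
  by_cases h1 : (T ∩ X).Nonempty
  · left
    have h5 : Far r (T ∩ X) (T \ (T ∩ X)) := by
      intro x hx y hy
      rw [mem_inter] at hx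
      rw [mem_sdiff, mem_inter] at hy
      have hyY : y ∈ Y := by
        rcases mem_union.1 (hXY hy.1) with h | h
        · exact absurd ⟨hy.1, h⟩ hy.2
        · exact h
      exact h x hx.2 y hyY
    have h6 := hT.2 (T ∩ X) inter_subset_left h1 h5
    intro x hx
    rw [← h6] at hx
    exact (mem_inter.1 hx).2
  · right
    intro x hx
    rcases mem_union.1 (hXY hx) with h | h
    · exact absurd ⟨x, mem_inter.2 ⟨hx, h⟩⟩ h1
    · exact h

theorem wt_wk (hw : Wt r w) (K : ℕ) : Wt r (wk r K w) := by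
  classical
  refine ⟨?_, ?_, ?_⟩
  · unfold wk
    rw [if_pos, hw.emp]
    intro T hT hc
    obtain ⟨x, hx⟩ := hc.1
    exact absurd (hT hx) (notMem_empty x)
  · intro X
    unfold wk
    split_ifs
    · exact hw.nn X
    · exact le_refl _
  · intro X Y h
    have h1 : Sml r K (X ∪ Y) ↔ Sml r K X ∧ Sml r K Y := by
      constructor
      · intro h1
        exact ⟨fun T hT hc => h1 T (hT.trans subset_union_left) hc,
          fun T hT hc => h1 T (hT.trans subset_union_right) hc⟩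
      · rintro ⟨h1, h2⟩ T hT hc
        rcases conn_union h hc hT with h3 | h3
        · exact h1 T h3 hc
        · exact h2 T h3 hc
    unfold wk
    by_cases hX : Sml r K X
    · by_cases hY : Sml r K Y
      · rw [if_pos (h1.2 ⟨hX, hY⟩), if_pos hX, if_pos hY, hw.mul X Y h]
      · rw [if_neg (fun hc => hY (h1.1 hc).2), if_neg hY, mul_zero]
    · rw [if_neg (fun hc => hX (h1.1 hc).1), if_neg hX, zero_mul]

theorem wt_pow (hr : ∀ x, r x x) (hw : Wt r w) {l : ℝ} (hl : 0 ≤ l) :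
    Wt r (fun Z => w Z * l ^ Z.card) := by
  refine ⟨?_, ?_, ?_⟩
  · simp [hw.emp]
  · intro X
    exact mul_nonneg (hw.nn X) (pow_nonneg hl _)
  · intro X Y h
    have h1 := card_union_of_disjoint (Far.disjoint hr h)
    show w (X ∪ Y) * l ^ (X ∪ Y).card = w X * l ^ X.card * (w Y * l ^ Y.card)
    rw [hw.mul X Y h, h1, pow_add]
    ring

theorem Xi_ge_one (hw : Wt r w) (Y : Finset ℕ) : 1 ≤ Xi w Y := by
  unfold Xi
  rw [← hw.emp]
  exact single_le_sum (f := w) (fun Z _ => hw.nn Z) (empty_mem_powerset Y)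

theorem Xi_mono (hw : Wt r w) {Y Y' : Finset ℕ} (h : Y ⊆ Y') : Xi w Y ≤ Xi w Y' := by
  unfold Xi
  exact sum_le_sum_of_subset_of_nonneg (powerset_mono.2 h) (fun Z _ _ => hw.nn Z)

theorem Xi_far (hr : ∀ x, r x x) (hw : Wt r w) {X Y : Finset ℕ} (h : Far r X Y) :
    Xi w (X ∪ Y) = Xi w X * Xi w Y := by
  have hd := Far.disjoint hr h
  have hd' := disjoint_left.1 hd
  unfold Xi
  rw [sum_mul_sum, ← sum_product']
  symm
  refine sum_bij' (fun p _ => p.1 ∪ p.2) (fun Z _ => (Z ∩ X, Z ∩ Y)) ?_ ?_ ?_ ?_ ?_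
  · rintro ⟨A, B⟩ hAB
    rw [mem_product, mem_powerset, mem_powerset] at hAB
    rw [mem_powerset]
    exact union_subset_union hAB.1 hAB.2
  · intro Z _
    rw [mem_product, mem_powerset, mem_powerset]
    exact ⟨inter_subset_right, inter_subset_right⟩
  · rintro ⟨A, B⟩ hAB
    rw [mem_product, mem_powerset, mem_powerset] at hAB
    have hA : ∀ x, x ∈ A → x ∈ X := fun x hx => hAB.1 hx
    have hB : ∀ x, x ∈ B → x ∈ Y := fun x hx => hAB.2 hx
    refine Prod.ext ?_ ?_
    · ext x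
      simp only [mem_inter, mem_union]
      constructor
      · rintro ⟨h1 | h1, h2⟩
        · exact h1
        · exact absurd (hB x h1) (hd' h2)
      · intro h1
        exact ⟨Or.inl h1, hA x h1⟩
    · ext x
      simp only [mem_inter, mem_union]
      constructor
      · rintro ⟨h1 | h1, h2⟩
        · exact absurd h2 (hd' (hA x h1))
        · exact h1
      · intro h1
        exact ⟨Or.inr h1, hB x h1⟩
  · intro Z hZ
    rw [mem_powerset] at hZ
    rw [← inter_union_distrib_left]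
    exact inter_eq_left.2 hZ
  · rintro ⟨A, B⟩ hAB
    rw [mem_product, mem_powerset, mem_powerset] at hAB
    exact (hw.mul A B (fun x hx y hy => h x (hAB.1 hx) y (hAB.2 hy))).symm

theorem Xi_rec (hr : ∀ x, r x x) (hs : ∀ x y, r x y → r y x) (hw : Wt r w) {Y : Finset ℕ}
    {v : ℕ} (hv : v ∉ Y) :
    Xi w (insert v Y) = Xi w Y + ∑ T ∈ cns r (insert v Y) v, w T * Xi w (awy r Y T) := by
  classical
  have key : ∀ f : Finset ℕ → ℝ, ∑ Z ∈ (insert v Y).powerset, f Z
      = ∑ Z ∈ Y.powerset, f Z + ∑ Z ∈ (insert v Y).powerset.filter (fun Z => v ∈ Z), f Z := by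
    intro f
    rw [← sum_filter_add_sum_filter_not (insert v Y).powerset (fun Z => v ∉ Z)]
    congr 1
    · refine sum_congr ?_ (fun _ _ => rfl)
      ext Z
      rw [mem_filter, mem_powerset, mem_powerset]
      constructor
      · rintro ⟨h1, h2⟩ x hx
        rcases mem_insert.1 (h1 hx) with h | h
        · exact absurd (h ▸ hx) h2
        · exact h
      · intro h1
        exact ⟨h1.trans (subset_insert _ _), fun h => hv (h1 h)⟩
    · refine sum_congr ?_ (fun _ _ => rfl)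
      ext Z
      rw [mem_filter, mem_filter, not_not]
  unfold Xi
  rw [key]
  congr 1
  have h1 : ∀ T ∈ cns r (insert v Y) v, w T * ∑ Z ∈ (awy r Y T).powerset, w Z
      = ∑ Z ∈ (awy r Y T).powerset, w (T ∪ Z) := by
    intro T _
    rw [mul_sum]
    refine sum_congr rfl (fun Z hZ => ?_)
    rw [mem_powerset] at hZ
    refine (hw.mul T Z ?_).symm
    intro x hx y hy hxy
    have h2 := hZ hy
    unfold awy at h2
    rw [mem_filter] at h2
    exact h2.2 x hx hxy
  rw [sum_congr rfl h1, sum_sigma']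
  have hT : ∀ Z ∈ (insert v Y).powerset.filter (fun Z => v ∈ Z), ∃ T, T ⊆ Z ∧ v ∈ T ∧ Conn r T ∧
      Far r T (Z \ T) := by
    intro Z hZ
    rw [mem_filter] at hZ
    exact exists_comp hr hs hZ.2
  choose! cT hT1 hT2 hT3 hT4 using hT
  refine sum_bij' (fun Z _ => (⟨cT Z, Z \ cT Z⟩ : Σ _ : Finset ℕ, Finset ℕ))
    (fun p _ => p.1 ∪ p.2) ?_ ?_ ?_ ?_ ?_
  · intro Z hZ
    have hZ' := hZ
    rw [mem_filter, mem_powerset] at hZ'
    rw [mem_sigma]
    constructor
    · unfold cns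
      rw [mem_filter, mem_powerset]
      exact ⟨(hT1 Z hZ).trans hZ'.1, hT2 Z hZ, hT3 Z hZ⟩
    · rw [mem_powerset]
      intro y hy
      unfold awy
      rw [mem_filter]
      have hy' := mem_sdiff.1 hy
      refine ⟨?_, fun x hx => hT4 Z hZ x hx y hy⟩
      rcases mem_insert.1 (hZ'.1 hy'.1) with h | h
      · exfalso
        rw [h] at hy'
        exact hy'.2 (hT2 Z hZ)
      · exact h
  · rintro ⟨T, Z'⟩ hp
    rw [mem_sigma] at hp
    obtain ⟨hp1, hp2⟩ := hp
    simp only [] at hp1 hp2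
    unfold cns at hp1
    rw [mem_filter, mem_powerset] at hp1
    rw [mem_powerset] at hp2
    rw [mem_filter, mem_powerset]
    constructor
    · refine union_subset hp1.1 ?_
      intro x hx
      have h2 := hp2 hx
      unfold awy at h2
      rw [mem_filter] at h2
      exact mem_insert_of_mem h2.1
    · exact mem_union_left _ hp1.2.1
  · intro Z hZ
    exact union_sdiff_of_subset (hT1 Z hZ)
  · rintro ⟨T, Z'⟩ hp
    rw [mem_sigma] at hp
    obtain ⟨hp1, hp2⟩ := hp
    simp only [] at hp1 hp2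
    unfold cns at hp1
    rw [mem_filter, mem_powerset] at hp1
    rw [mem_powerset] at hp2
    have hfar : Far r T Z' := by
      intro x hx y hy
      have h2 := hp2 hy
      unfold awy at h2
      rw [mem_filter] at h2
      exact h2.2 x hx
    have hdis := Far.disjoint hr hfar
    have hsd : (T ∪ Z') \ T = Z' := by
      rw [union_sdiff_left]
      exact sdiff_eq_self_of_disjoint hdis.symm
    have hmem : T ∪ Z' ∈ (insert v Y).powerset.filter (fun Z => v ∈ Z) := by
      rw [mem_filter, mem_powerset]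
      constructor
      · refine union_subset hp1.1 ?_
        intro x hx
        have h2 := hp2 hx
        unfold awy at h2
        rw [mem_filter] at h2
        exact mem_insert_of_mem h2.1
      · exact mem_union_left _ hp1.2.1
    have hfar' : Far r T ((T ∪ Z') \ T) := by rw [hsd]; exact hfar
    have heq : cT (T ∪ Z') = T :=
      comp_unique hs (hT1 _ hmem) subset_union_left (hT2 _ hmem) hp1.2.1 (hT3 _ hmem) hp1.2.2
        (hT4 _ hmem) hfar'
    show (⟨cT (T ∪ Z'), (T ∪ Z') \ cT (T ∪ Z')⟩ : Σ _ : Finset ℕ, Finset ℕ) = ⟨T, Z'⟩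
    rw [heq, hsd]
  · intro Z hZ
    show w Z = w (cT Z ∪ Z \ cT Z)
    rw [union_sdiff_of_subset (hT1 Z hZ)]

end Pool.Agent.Lib.Pa7c826k
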