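import Pool.Agent.Lib.Pa7c826k.Mob

/-!
The norm `nrm l U f = ∑ X ⊆ U, |mob f X| l ^ |X|` (`l ≥ 1`).

PROOFS (`Mob.lean`). `nrm_congr`: `mob_congr`. `nrm_add_le`, `nrm_sum_le`, `nrm_smul`: `mob` is
linear in `f` (unfold, `sum_add_distrib`, `mul_sum`), triangle inequality. `nrm_const`: by
`mob_unique`, `mob (fun _ => c) X` is `c` for `X = ∅` and `0` otherwise. `nrm_mul_le`: by `mob_mul`
`|mob (f g) X| l ^ |X| ≤ ∑_{A, B ⊆ X, A ∪ B = X} |mob f A| |mob g B| l ^ (|A| + |B|)` because
`|A ∪ B| ≤ |A| + |B|` and `l ≥ 1`; the sum over `X ⊆ U` is at most the sum over all pairs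
`A, B ⊆ U` (each pair occurs for the single set `X = A ∪ B`), which is the product of the norms.
`abs_le_nrm`: `|f Y| = |∑_{X ⊆ Y} mob f X| ≤ ∑_{X ⊆ Y} |mob f X| l ^ |X|` and `Y ⊆ U`.
`nrm_ind`: by `mob_unique`, `mob (fun Y => if A ⊆ Y then 1 else 0) X` is `1` for `X = A` and `0`
otherwise. `nrm_one_add`: by `mob_unique` on `U`, the Moebius transform `F` of the function is
`F ∅ = 1`, `F X = mob g (X.erase u)` if `u ∈ X` and `X.erase u ⊆ U'`, and `F X = 0` for all other
nonempty sets: for `Y ⊆ U`, `∑ X ∈ Y.powerset, F X = 1 + (if u ∈ Y then ∑_{X' ⊆ Y ∩ U'} mob g X')`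
(the map `X' ↦ insert u X'` is a bijection between the subsets of `Y ∩ U'` and the sets `X ⊆ Y` with
`u ∈ X`, `X.erase u ⊆ U'`, as `u ∉ U'`) `= 1 + (if u ∈ Y then g (Y ∩ U'))` by `mob_inv`. Its norm is
`1 + ∑_{X' ⊆ U'} |mob g X'| l ^ (|X'| + 1) = 1 + l * nrm l U' g`.
`nrm_inv`: let `h Y = 1 / g Y - 1`, `e Y = g Y - 1`. For `Y ⊆ U`: `g Y (1 + h Y) = 1`, so
`h Y = - e Y - e Y * h Y`; hence `nrm h ≤ nrm e + nrm e * nrm h ≤ ε + ε * nrm h` (`nrm_congr`,
`nrm_add_le`, `nrm_smul`, `nrm_mul_le`, norms are nonnegative), so `nrm h ≤ ε / (1 - ε)`.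
-/

namespace Pool.Agent.Lib.Pa7c826k

open Finset

variable {l : ℝ} {U : Finset ℕ} {f g : Finset ℕ → ℝ}

theorem nrm_nonneg (hl : 0 ≤ l) : 0 ≤ nrm l U f := by
  unfold nrm
  exact sum_nonneg (fun X _ => mul_nonneg (abs_nonneg _) (pow_nonneg hl _))

theorem nrm_congr (h : ∀ Y, Y ⊆ U → f Y = g Y) : nrm l U f = nrm l U g := by
  unfold nrm
  refine sum_congr rfl (fun X hX => ?_)
  rw [mem_powerset] at hX
  rw [mob_congr (fun Y hY => h Y (hY.trans hX))]

theorem nrm_add_le (hl : 0 ≤ l) : nrm l U (fun Y => f Y + g Y) ≤ nrm l U f + nrm l U g := by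
  unfold nrm
  rw [← sum_add_distrib]
  refine sum_le_sum (fun X _ => ?_)
  have h1 : mob (fun Y => f Y + g Y) X = mob f X + mob g X := by
    unfold mob
    rw [← sum_add_distrib]
    exact sum_congr rfl (fun Y _ => by ring)
  rw [h1, ← add_mul]
  exact mul_le_mul_of_nonneg_right (abs_add_le _ _) (pow_nonneg hl _)

theorem nrm_sum_le {ι : Type*} (hl : 0 ≤ l) (s : Finset ι) (F : ι → Finset ℕ → ℝ) :
    nrm l U (fun Y => ∑ i ∈ s, F i Y) ≤ ∑ i ∈ s, nrm l U (F i) := by
  classical
  induction s using Finset.induction_on with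
  | empty =>
    simp only [sum_empty]
    unfold nrm
    refine le_of_eq (sum_eq_zero (fun X _ => ?_))
    have h1 : mob (fun _ => (0 : ℝ)) X = 0 := by
      unfold mob
      exact sum_eq_zero (fun Y _ => by ring)
    rw [h1]
    simp
  | insert i s hi ih =>
    rw [sum_insert hi]
    have h1 : (fun Y => ∑ j ∈ insert i s, F j Y) = fun Y => F i Y + ∑ j ∈ s, F j Y := by
      funext Y
      rw [sum_insert hi]
    rw [h1]
    exact (nrm_add_le hl).trans (by linarith)

theorem nrm_smul (c : ℝ) : nrm l U (fun Y => c * f Y) = |c| * nrm l U f := by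
  unfold nrm
  rw [mul_sum]
  refine sum_congr rfl (fun X _ => ?_)
  have h1 : mob (fun Y => c * f Y) X = c * mob f X := by
    unfold mob
    rw [mul_sum]
    exact sum_congr rfl (fun Y _ => by ring)
  rw [h1, abs_mul]
  ring

theorem nrm_const (c : ℝ) : nrm l U (fun _ => c) = |c| := by
  classical
  have h1 := mob_unique (f := fun _ => c) (F := fun X => if X = ∅ then c else 0) (U := U)
    (fun Y _ => by
      rw [sum_ite_eq' Y.powerset ∅ (fun _ => c), if_pos (empty_mem_powerset Y)])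
  unfold nrm
  rw [sum_congr rfl (fun X hX => by rw [h1 X (mem_powerset.1 hX)])]
  rw [sum_eq_single ∅]
  · simp
  · intro X _ hX
    simp [hX]
  · intro h
    exact absurd (empty_mem_powerset U) h

theorem nrm_mul_le (hl : 1 ≤ l) : nrm l U (fun Y => f Y * g Y) ≤ nrm l U f * nrm l U g := by
  classical
  have hl0 : 0 ≤ l := by linarith
  unfold nrm
  rw [sum_mul_sum]
  have h1 : ∀ X ∈ U.powerset, |mob (fun Y => f Y * g Y) X| * l ^ X.card ≤
      ∑ A ∈ U.powerset, ∑ B ∈ U.powerset,
        if A ∪ B = X then |mob f A| * l ^ A.card * (|mob g B| * l ^ B.card) else 0 := by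
    intro X hX
    rw [mem_powerset] at hX
    rw [mob_mul]
    have h2 : |∑ A ∈ X.powerset, ∑ B ∈ X.powerset,
        if A ∪ B = X then mob f A * mob g B else 0| * l ^ X.card ≤
        ∑ A ∈ X.powerset, ∑ B ∈ X.powerset,
          if A ∪ B = X then |mob f A| * l ^ A.card * (|mob g B| * l ^ B.card) else 0 := by
      refine (mul_le_mul_of_nonneg_right (abs_sum_le_sum_abs _ _) (pow_nonneg hl0 _)).trans ?_
      rw [sum_mul]
      refine sum_le_sum (fun A _ => ?_)
      refine (mul_le_mul_of_nonneg_right (abs_sum_le_sum_abs _ _) (pow_nonneg hl0 _)).trans ?_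
      rw [sum_mul]
      refine sum_le_sum (fun B _ => ?_)
      split_ifs with h3
      · rw [abs_mul]
        have h4 : l ^ X.card ≤ l ^ A.card * l ^ B.card := by
          rw [← pow_add, ← h3]
          exact pow_le_pow_right₀ hl (card_union_le A B)
        calc |mob f A| * |mob g B| * l ^ X.card
            ≤ |mob f A| * |mob g B| * (l ^ A.card * l ^ B.card) :=
              mul_le_mul_of_nonneg_left h4 (mul_nonneg (abs_nonneg _) (abs_nonneg _))
          _ = _ := by ring
      · simp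
    refine h2.trans ?_
    have hnn : ∀ A B : Finset ℕ, 0 ≤
        if A ∪ B = X then |mob f A| * l ^ A.card * (|mob g B| * l ^ B.card) else 0 := by
      intro A B
      split_ifs
      · exact mul_nonneg (mul_nonneg (abs_nonneg _) (pow_nonneg hl0 _))
          (mul_nonneg (abs_nonneg _) (pow_nonneg hl0 _))
      · exact le_refl _
    calc ∑ A ∈ X.powerset, ∑ B ∈ X.powerset,
          (if A ∪ B = X then |mob f A| * l ^ A.card * (|mob g B| * l ^ B.card) else 0)
        ≤ ∑ A ∈ X.powerset, ∑ B ∈ U.powerset,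
          (if A ∪ B = X then |mob f A| * l ^ A.card * (|mob g B| * l ^ B.card) else 0) :=
          sum_le_sum (fun A _ => sum_le_sum_of_subset_of_nonneg (powerset_mono.2 hX)
            (fun B _ _ => hnn A B))
      _ ≤ _ := sum_le_sum_of_subset_of_nonneg (powerset_mono.2 hX)
            (fun A _ _ => sum_nonneg (fun B _ => hnn A B))
  refine (sum_le_sum h1).trans ?_
  rw [sum_comm]
  refine sum_le_sum (fun A hA => ?_)
  rw [sum_comm]
  refine sum_le_sum (fun B hB => ?_)
  rw [mem_powerset] at hA hB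
  rw [sum_ite_eq U.powerset (A ∪ B)
    (fun _ => |mob f A| * l ^ A.card * (|mob g B| * l ^ B.card)),
    if_pos (mem_powerset.2 (union_subset hA hB))]

theorem abs_le_nrm (hl : 1 ≤ l) {Y : Finset ℕ} (hY : Y ⊆ U) : |f Y| ≤ nrm l U f := by
  rw [← mob_inv f Y]
  unfold nrm
  refine (abs_sum_le_sum_abs _ _).trans ?_
  have hl0 : 0 ≤ l := by linarith
  calc ∑ X ∈ Y.powerset, |mob f X| ≤ ∑ X ∈ Y.powerset, |mob f X| * l ^ X.card :=
        sum_le_sum (fun X _ => le_mul_of_one_le_right (abs_nonneg _) (one_le_pow₀ hl))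
    _ ≤ _ := sum_le_sum_of_subset_of_nonneg (powerset_mono.2 hY)
        (fun X _ _ => mul_nonneg (abs_nonneg _) (pow_nonneg hl0 _))

theorem nrm_ind {A : Finset ℕ} (hA : A ⊆ U) :
    nrm l U (fun Y => if A ⊆ Y then 1 else 0) = l ^ A.card := by
  classical
  have h1 := mob_unique (f := fun Y => if A ⊆ Y then (1 : ℝ) else 0)
    (F := fun X => if X = A then 1 else 0) (U := U)
    (fun Y _ => by
      rw [sum_ite_eq' Y.powerset A (fun _ => (1 : ℝ))]
      simp only [mem_powerset])
  unfold nrm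
  rw [sum_congr rfl (fun X hX => by rw [h1 X (mem_powerset.1 hX)])]
  rw [sum_eq_single A]
  · simp
  · intro X _ hX
    simp [hX]
  · intro h
    exact absurd (mem_powerset.2 hA) h

theorem nrm_one_add (hl : 0 ≤ l) {u : ℕ} {U' : Finset ℕ} (hu : u ∈ U) (hU : U' ⊆ U)
    (hu' : u ∉ U') :
    nrm l U (fun Y => 1 + if u ∈ Y then g (Y ∩ U') else 0) ≤ 1 + l * nrm l U' g := by
  classical
  set F : Finset ℕ → ℝ := fun X => (if X = ∅ then 1 else 0) +
    (if u ∈ X ∧ X.erase u ⊆ U' then mob g (X.erase u) else 0) with hF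
  have hsum : ∀ (Y : Finset ℕ), Y ⊆ U → ∀ (G : Finset ℕ → ℝ), u ∈ Y →
      ∑ X ∈ Y.powerset, (if u ∈ X ∧ X.erase u ⊆ U' then G (X.erase u) else 0) =
      ∑ X ∈ (Y ∩ U').powerset, G X := by
    intro Y _ G huY
    rw [← sum_filter]
    refine sum_bij' (fun X _ => X.erase u) (fun X _ => insert u X) ?_ ?_ ?_ ?_ ?_
    · intro X hX
      rw [mem_filter, mem_powerset] at hX
      rw [mem_powerset]
      exact subset_inter ((erase_subset _ _).trans hX.1) hX.2.2
    · intro X hX
      rw [mem_powerset] at hX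
      have huX : u ∉ X := fun h => hu' (mem_inter.1 (hX h)).2
      rw [mem_filter, mem_powerset]
      refine ⟨insert_subset huY (hX.trans inter_subset_left), mem_insert_self _ _, ?_⟩
      rw [erase_insert huX]
      exact hX.trans inter_subset_right
    · intro X hX
      rw [mem_filter] at hX
      exact insert_erase hX.2.1
    · intro X hX
      rw [mem_powerset] at hX
      have huX : u ∉ X := fun h => hu' (mem_inter.1 (hX h)).2
      exact erase_insert huX
    · intro X _
      rfl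
  have h1 := mob_unique (f := fun Y => 1 + if u ∈ Y then g (Y ∩ U') else 0) (F := F) (U := U)
    (fun Y hY => by
      rw [hF]
      simp only [sum_add_distrib]
      rw [sum_ite_eq' Y.powerset ∅ (fun _ => (1 : ℝ)), if_pos (empty_mem_powerset Y)]
      congr 1
      by_cases huY : u ∈ Y
      · rw [if_pos huY, hsum Y hY (fun X => mob g X) huY, mob_inv]
      · rw [if_neg huY]
        symm
        refine sum_eq_zero (fun X hX => ?_)
        rw [mem_powerset] at hX
        rw [if_neg (fun h => huY (hX h.1))])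
  unfold nrm
  rw [sum_congr rfl (fun X hX => by rw [h1 X (mem_powerset.1 hX)])]
  have h2 : ∀ X ∈ U.powerset, |F X| * l ^ X.card ≤ (if X = ∅ then 1 else 0) +
      (if u ∈ X ∧ X.erase u ⊆ U' then l * (|mob g (X.erase u)| * l ^ (X.erase u).card) else 0) := by
    intro X _
    rw [hF]
    by_cases hX : X = ∅
    · subst hX
      simp
    · simp only [if_neg hX, zero_add]
      split_ifs with h3
      · rw [← card_erase_add_one h3.1, pow_succ]
        exact le_of_eq (by ring)
      · simp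
  refine (sum_le_sum h2).trans ?_
  rw [sum_add_distrib, sum_ite_eq' U.powerset ∅ (fun _ => (1 : ℝ)),
    if_pos (empty_mem_powerset U)]
  rw [hsum U (Subset.refl _) (fun X => l * (|mob g X| * l ^ X.card)) hu]
  rw [inter_eq_right.2 hU, ← mul_sum]

theorem nrm_inv (hl : 1 ≤ l) {ε : ℝ} (h : nrm l U (fun Y => g Y - 1) ≤ ε) (hε : ε < 1)
    (hg : ∀ Y, Y ⊆ U → g Y ≠ 0) : nrm l U (fun Y => 1 / g Y - 1) ≤ ε / (1 - ε) := by
  have hl0 : 0 ≤ l := by linarith
  set N := nrm l U (fun Y => 1 / g Y - 1) with hN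
  have hN0 : 0 ≤ N := nrm_nonneg hl0
  have h1 : N = nrm l U (fun Y => (-1) * (g Y - 1) + (-1) * ((g Y - 1) * (1 / g Y - 1))) := by
    rw [hN]
    refine nrm_congr (fun Y hY => ?_)
    have h2 := hg Y hY
    field_simp
    ring
  have h3 : N ≤ ε + ε * N := by
    have h4 := nrm_add_le (U := U) (f := fun Y => (-1) * (g Y - 1))
      (g := fun Y => (-1) * ((g Y - 1) * (1 / g Y - 1))) hl0
    rw [nrm_smul, nrm_smul] at h4
    rw [← h1] at h4
    have h5 : nrm l U (fun Y => (g Y - 1) * (1 / g Y - 1)) ≤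
        nrm l U (fun Y => g Y - 1) * N := nrm_mul_le hl
    have h6 : nrm l U (fun Y => g Y - 1) * N ≤ ε * N := mul_le_mul_of_nonneg_right h hN0
    have h7 : |(-1 : ℝ)| = 1 := by simp
    rw [h7, one_mul, one_mul] at h4
    linarith
  rw [le_div_iff₀ (by linarith)]
  nlinarith

end Pool.Agent.Lib.Pa7c826k
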