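import Pool.Agent.Lib.Pa7c826k.Defs

/-!
The sets with a given skeleton.

PROOFS. `skel_iff`. Always `skelA S k ⊆ S ∩ range k` (induction). (→) If `skel S = Z` then
`skelA S k = blw Z k` for all `k ≤ n` (the sets `skelA S k` increase, and later steps add only
elements `≥ k`). So for `u ∈ S` (`u < n`): `u ∈ Z` if and only if `big (blw Z u) u`. (←) Show
`skelA S k = blw Z k` by induction on `k ≤ n`: if `k ∈ Z` then `k ∈ S` and `big (blw Z k) k` by
`Val`; if `k ∉ Z` and `k ∈ S`, then `k ∈ BB Z`, so `big (blw Z k) k = false`. At `k = n`,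
`blw Z n = Z` as `Z ⊆ S ⊆ range n`.
`om_eq`: let `S' = BB Z ∪ QQ Z`, `R = sideS a (!sd) (range n) \ (NB Z ∪ QQ Z)`. `NB Z` and `QQ Z` are
disjoint subsets of the other side (`nb_side`), which has `a` elements (`card_side`), so `nq_le`,
and `|R| = a - (|NB Z| + |QQ Z|)`. The map `I ↦ (I ∩ S', I ∩ R)` is a bijection from the set of all
independent `I ⊆ range n` with skeleton `Z` onto `IS adj S' × R.powerset`, with inverse
`(J, W) ↦ Z ∪ J ∪ W`. Indeed for such `I` put `S = sideS a sd I`: `Z ⊆ S ⊆ Z ∪ BB Z` (`skel_iff`),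
and the elements of `I` on the other side are not in `NB Z` as `I` is independent, so
`I = Z ∪ (I ∩ S') ∪ (I ∩ R)`. Conversely `Z ∪ J ∪ W` is independent: the neighbours of `Z` form
`NB Z`, which is disjoint from `QQ Z`, `R`; the neighbours of `BB Z` are in `NB Z ∪ QQ Z`, disjoint
from `R`; vertices on the same side are not adjacent (`hh.bip`); its part on the side `sd` is
`Z ∪ (J ∩ BB Z)`, with skeleton `Z` by `skel_iff` and `hV`. `om_zero`: `skel_iff` with
`S = sideS a sd I`, `I ⊆ range n` (`side_sub`). `sum_om`: sort the sets `I` according to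
`skel (sideS a sd I)`, a subset of `sideS a sd (range n)` (`card_eq_sum_card_fiberwise`).
`om_empty`: `Val ∅`, and `BB ∅ = ∅`: for `u < n` the set `NB {u} \ NB ∅` has `d` elements
(`hh.reg`), `d ≤ 8 d`; `NB ∅ = ∅`, `QQ ∅ = ∅`, `ind adj ∅ = 1`.
-/

namespace Pool.Agent.Lib.Pa7c826k

open Finset Pool.Agent.Lib.Pa7c826 Pool.Agent.Lib.Pa7c826t Pool.Agent.Lib.Pa7c826e

namespace SkelEqAux

theorem skelA_lt (n d : ℕ) (adj : ℕ → ℕ → Bool) (S : Finset ℕ) (k : ℕ) :
    ∀ x ∈ skelA n d adj S k, x ∈ S ∧ x < k := by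
  induction k with
  | zero =>
    intro x hx
    simp [skelA] at hx
  | succ k ih =>
    intro x hx
    unfold skelA at hx
    split_ifs at hx with h
    · rcases mem_insert.1 hx with rfl | hx
      · exact ⟨h.1, Nat.lt_succ_self _⟩
      · exact ⟨(ih x hx).1, Nat.lt_succ_of_lt (ih x hx).2⟩
    · exact ⟨(ih x hx).1, Nat.lt_succ_of_lt (ih x hx).2⟩

theorem mem_blw {Z : Finset ℕ} {u x : ℕ} : x ∈ blw Z u ↔ x ∈ Z ∧ x < u := by
  unfold blw
  rw [mem_filter]

theorem blw_skelA (n d : ℕ) (adj : ℕ → ℕ → Bool) (S : Finset ℕ) {k m : ℕ} (h : k ≤ m) :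
    blw (skelA n d adj S m) k = skelA n d adj S k := by
  induction m with
  | zero =>
    obtain rfl : k = 0 := by omega
    ext x
    rw [mem_blw]
    simp [skelA]
  | succ m ih =>
    rcases Nat.lt_or_ge m k with hm | hm
    · obtain rfl : k = m + 1 := by omega
      ext x
      rw [mem_blw]
      exact ⟨fun h => h.1, fun h => ⟨h, (skelA_lt n d adj S _ x h).2⟩⟩
    · rw [← ih hm]
      ext x
      rw [mem_blw, mem_blw]
      conv_lhs => unfold skelA
      split_ifs with hc
      · rw [mem_insert]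
        constructor
        · rintro ⟨rfl | h1, h2⟩
          · omega
          · exact ⟨h1, h2⟩
        · rintro ⟨h1, h2⟩
          exact ⟨Or.inr h1, h2⟩
      · exact Iff.rfl

theorem mem_skelA_succ (n d : ℕ) (adj : ℕ → ℕ → Bool) (S : Finset ℕ) (u : ℕ) :
    u ∈ skelA n d adj S (u + 1) ↔ u ∈ S ∧ big n d adj (skelA n d adj S u) u = true := by
  conv_lhs => unfold skelA
  split_ifs with hc
  · exact ⟨fun _ => hc, fun _ => mem_insert_self _ _⟩
  · constructor
    · intro h
      have := (skelA_lt n d adj S u u h).2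
      omega
    · intro h
      exact absurd h hc

theorem mem_skel {n : ℕ} (d : ℕ) (adj : ℕ → ℕ → Bool) (S : Finset ℕ) {u : ℕ} (hu : u < n) :
    u ∈ skel n d adj S ↔ u ∈ S ∧ big n d adj (blw (skel n d adj S) u) u = true := by
  have h1 : blw (skel n d adj S) u = skelA n d adj S u := blw_skelA n d adj S hu.le
  have h2 : blw (skel n d adj S) (u + 1) = skelA n d adj S (u + 1) := blw_skelA n d adj S hu
  rw [h1, ← mem_skelA_succ, ← h2, mem_blw]
  exact ⟨fun h => ⟨h, Nat.lt_succ_self _⟩, fun h => h.1⟩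

theorem skelA_eq {n d : ℕ} {adj : ℕ → ℕ → Bool} {S Z : Finset ℕ}
    (h : ∀ u < n, u ∈ Z ↔ u ∈ S ∧ big n d adj (blw Z u) u = true) :
    ∀ k ≤ n, skelA n d adj S k = blw Z k := by
  intro k
  induction k with
  | zero =>
    intro _
    ext x
    rw [mem_blw]
    simp [skelA]
  | succ k ih =>
    intro hk
    have h1 := ih (by omega)
    have h2 := h k (by omega)
    ext x
    rw [mem_blw]
    unfold skelA
    rw [h1]
    split_ifs with hc
    · have hkZ := h2.2 hc
      rw [mem_insert, mem_blw]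
      constructor
      · rintro (rfl | h3)
        · exact ⟨hkZ, Nat.lt_succ_self _⟩
        · exact ⟨h3.1, Nat.lt_succ_of_lt h3.2⟩
      · rintro ⟨h3, h4⟩
        by_cases hx : x = k
        · exact Or.inl hx
        · exact Or.inr ⟨h3, by omega⟩
    · have hkZ : k ∉ Z := fun h3 => hc (h2.1 h3)
      rw [mem_blw]
      constructor
      · rintro ⟨h3, h4⟩
        exact ⟨h3, Nat.lt_succ_of_lt h4⟩
      · rintro ⟨h3, h4⟩
        refine ⟨h3, ?_⟩
        have hx : x ≠ k := by
          rintro rfl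
          exact hkZ h3
        omega

theorem mem_side {a : ℕ} {sd : Bool} {S : Finset ℕ} {u : ℕ} :
    u ∈ sideS a sd S ↔ u ∈ S ∧ decide (u < a) = sd := by
  unfold sideS
  rw [mem_filter]

theorem side_le {a : ℕ} {sd : Bool} {S : Finset ℕ} : sideS a sd S ⊆ S := filter_subset _ _

theorem side_mono {a : ℕ} {sd : Bool} {S T : Finset ℕ} (h : S ⊆ T) :
    sideS a sd S ⊆ sideS a sd T := filter_subset_filter _ h

theorem BB_side (n a d : ℕ) (adj : ℕ → ℕ → Bool) (sd : Bool) (Z : Finset ℕ) :
    BB n a d adj sd Z ⊆ sideS a sd (range n) := by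
  unfold BB
  exact filter_subset _ _

theorem mem_BB {n a d : ℕ} {adj : ℕ → ℕ → Bool} {sd : Bool} {Z : Finset ℕ} {u : ℕ} :
    u ∈ BB n a d adj sd Z ↔ u ∈ sideS a sd (range n) ∧ u ∉ Z ∧
      big n d adj (blw Z u) u = false := by
  unfold BB
  rw [mem_filter]

theorem mem_NB {n : ℕ} {adj : ℕ → ℕ → Bool} {X : Finset ℕ} {v : ℕ} :
    v ∈ NB n adj X ↔ v < n ∧ ∃ u ∈ X, adj u v = true := by
  unfold NB
  rw [mem_filter, mem_range]

theorem mem_QQ {n a d : ℕ} {adj : ℕ → ℕ → Bool} {sd : Bool} {Z : Finset ℕ} {v : ℕ} :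
    v ∈ QQ n a d adj sd Z ↔ v ∈ NB n adj (BB n a d adj sd Z) ∧ v ∉ NB n adj Z := by
  unfold QQ
  rw [mem_sdiff]

theorem QQ_side {n a d A : ℕ} {adj : ℕ → ℕ → Bool} (hh : XHost n a d A adj) (sd : Bool)
    (Z : Finset ℕ) : QQ n a d adj sd Z ⊆ sideS a (!sd) (range n) := by
  intro v hv
  exact nb_side hh (BB_side n a d adj sd Z) (mem_QQ.1 hv).1

theorem NQ_disj (n a d : ℕ) (adj : ℕ → ℕ → Bool) (sd : Bool) (Z : Finset ℕ) :
    Disjoint (NB n adj Z) (QQ n a d adj sd Z) := by
  rw [disjoint_left]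
  intro v h1 h2
  exact (mem_QQ.1 h2).2 h1

/-- the two sides are disjoint -/
theorem side_ne {a : ℕ} {sd : Bool} {S T : Finset ℕ} {u : ℕ} (h1 : u ∈ sideS a sd S)
    (h2 : u ∈ sideS a (!sd) T) : False := by
  have h3 := (mem_side.1 h1).2
  have h4 := (mem_side.1 h2).2
  rw [h3] at h4
  cases sd <;> simp at h4

theorem side_or {a : ℕ} (sd : Bool) {S : Finset ℕ} {u : ℕ} (h : u ∈ S) :
    u ∈ sideS a sd S ∨ u ∈ sideS a (!sd) S := by
  rw [mem_side, mem_side]
  by_cases h1 : decide (u < a) = sd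
  · exact Or.inl ⟨h, h1⟩
  · right
    refine ⟨h, ?_⟩
    cases sd <;> simp_all

theorem bip_side {n a d A : ℕ} {adj : ℕ → ℕ → Bool} (hh : XHost n a d A adj) {sd : Bool}
    {u v : ℕ} (hu : u ∈ sideS a sd (range n)) (huv : adj u v = true) :
    v ∈ sideS a (!sd) (range n) := by
  have h1 : v < n := hh.lt v u (by rw [hh.sym]; exact huv)
  exact nb_side hh (X := {u}) (singleton_subset_iff.2 hu)
    (mem_NB.2 ⟨h1, u, mem_singleton_self _, huv⟩)

end SkelEqAux

open SkelEqAux

variable {n a d A : ℕ} {adj : ℕ → ℕ → Bool} {sd : Bool} {S Z : Finset ℕ}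

theorem skel_sub (n d : ℕ) (adj : ℕ → ℕ → Bool) (S : Finset ℕ) : skel n d adj S ⊆ S := fun x hx => (skelA_lt n d adj S n x hx).1

theorem skel_iff (hS : S ⊆ sideS a sd (range n)) :
    skel n d adj S = Z ↔ Z ⊆ S ∧ Val n d adj Z ∧ S ⊆ Z ∪ BB n a d adj sd Z := by
  have hSn : ∀ u ∈ S, u < n := fun u hu => mem_range.1 (side_le (hS hu))
  constructor
  · rintro rfl
    have hsub := skel_sub n d adj S
    refine ⟨hsub, fun u hu => ?_, fun u hu => ?_⟩
    · exact ((mem_skel d adj S (hSn u (hsub hu))).1 hu).2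
    · rw [mem_union, mem_BB]
      by_cases h1 : u ∈ skel n d adj S
      · exact Or.inl h1
      · refine Or.inr ⟨hS hu, h1, ?_⟩
        rw [← Bool.not_eq_true]
        intro h2
        exact h1 ((mem_skel d adj S (hSn u hu)).2 ⟨hu, h2⟩)
  · rintro ⟨h1, h2, h3⟩
    have h4 : ∀ u < n, u ∈ Z ↔ u ∈ S ∧ big n d adj (blw Z u) u = true := by
      intro u _
      constructor
      · intro hu
        exact ⟨h1 hu, h2 u hu⟩
      · rintro ⟨hu, hb⟩
        rcases mem_union.1 (h3 hu) with h | h
        · exact h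
        · have := (mem_BB.1 h).2.2
          rw [hb] at this
          exact absurd this (by simp)
    have h5 := skelA_eq h4 n le_rfl
    unfold skel
    rw [h5]
    ext x
    rw [mem_blw]
    exact ⟨fun h => h.1, fun h => ⟨h, hSn x (h1 h)⟩⟩

theorem nq_le (hh : XHost n a d A adj) (hZ : Z ⊆ sideS a sd (range n)) :
    (NB n adj Z).card + (QQ n a d adj sd Z).card ≤ a := by
  rw [← card_union_of_disjoint (NQ_disj n a d adj sd Z)]
  exact (card_le_card (union_subset (nb_side hh hZ) (QQ_side hh sd Z))).trans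
    (card_side hh.hn (!sd)).le

theorem om_eq (hh : XHost n a d A adj) (hZ : Z ⊆ sideS a sd (range n))
    (hV : Val n d adj Z) :
    om n a d adj sd Z = 2 ^ (a - ((NB n adj Z).card + (QQ n a d adj sd Z).card)) *
      ind adj (BB n a d adj sd Z ∪ QQ n a d adj sd Z) := by
  classical
  set S' := BB n a d adj sd Z ∪ QQ n a d adj sd Z with hS'
  set R := sideS a (!sd) (range n) \ (NB n adj Z ∪ QQ n a d adj sd Z) with hR
  have hZn : Z ⊆ range n := hZ.trans side_le
  have hS'n : S' ⊆ range n := union_subset ((BB_side n a d adj sd Z).trans side_le)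
    ((QQ_side hh sd Z).trans side_le)
  have hRn : R ⊆ range n := sdiff_subset.trans side_le
  have hRc : R.card = a - ((NB n adj Z).card + (QQ n a d adj sd Z).card) := by
    rw [hR, card_sdiff_of_subset (union_subset (nb_side hh hZ) (QQ_side hh sd Z)),
      card_side hh.hn (!sd), card_union_of_disjoint (NQ_disj n a d adj sd Z)]
  have hRmem : ∀ v, v ∈ R ↔ v ∈ sideS a (!sd) (range n) ∧ v ∉ NB n adj Z ∧
      v ∉ QQ n a d adj sd Z := by
    intro v
    rw [hR, mem_sdiff, mem_union, not_or]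
  have hT : (IS adj S' ×ˢ R.powerset).card =
      2 ^ (a - ((NB n adj Z).card + (QQ n a d adj sd Z).card)) * ind adj S' := by
    rw [card_product, card_powerset, card_IS, hRc, Nat.mul_comm]
  rw [← hT]
  unfold om
  refine card_nbij' (fun I => (I ∩ S', I ∩ R)) (fun q => Z ∪ q.1 ∪ q.2) ?_ ?_ ?_ ?_
  · intro I hI
    rw [mem_coe, mem_filter, mem_IS] at hI
    rw [mem_coe, mem_product, mem_IS, mem_powerset]
    refine ⟨⟨inter_subset_right, fun u hu v hv => ?_⟩, inter_subset_right⟩
    exact hI.1.2 u (mem_inter.1 hu).1 v (mem_inter.1 hv).1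
  · rintro ⟨J, W⟩ hJW
    rw [mem_coe, mem_product, mem_IS, mem_powerset] at hJW
    obtain ⟨⟨hJ, hJi⟩, hW⟩ := hJW
    simp only at hJ hJi hW
    rw [mem_coe, mem_filter, mem_IS]
    have hsub : Z ∪ J ∪ W ⊆ range n :=
      union_subset (union_subset hZn (hJ.trans hS'n)) (hW.trans hRn)
    -- the two parts
    have hpart1 : ∀ u ∈ Z ∪ J ∪ W, u ∈ sideS a sd (range n) → u ∈ Z ∨ (u ∈ J ∧
        u ∈ BB n a d adj sd Z) := by
      intro u hu hs
      rcases mem_union.1 hu with hu | hu
      · rcases mem_union.1 hu with hu | hu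
        · exact Or.inl hu
        · rcases mem_union.1 (hJ hu) with h1 | h1
          · exact Or.inr ⟨hu, h1⟩
          · exact (side_ne hs (QQ_side hh sd Z h1)).elim
      · exact (side_ne hs ((hRmem u).1 (hW hu)).1).elim
    have hpart2 : ∀ u ∈ Z ∪ J ∪ W, u ∈ sideS a (!sd) (range n) →
        (u ∈ J ∧ u ∈ QQ n a d adj sd Z) ∨ u ∈ R := by
      intro u hu hs
      rcases mem_union.1 hu with hu | hu
      · rcases mem_union.1 hu with hu | hu
        · exact (side_ne (hZ hu) hs).elim
        · rcases mem_union.1 (hJ hu) with h1 | h1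
          · exact (side_ne (BB_side n a d adj sd Z h1) hs).elim
          · exact Or.inl ⟨hu, h1⟩
      · exact Or.inr (hW hu)
    have key : ∀ u ∈ Z ∪ J ∪ W, ∀ v ∈ Z ∪ J ∪ W, u ∈ sideS a sd (range n) →
        adj u v = true → False := by
      intro u hu v hv hus huv
      have hvs := bip_side hh hus huv
      have hvn : v < n := mem_range.1 (side_le hvs)
      rcases hpart1 u hu hus with h1 | ⟨h1, h1'⟩
      · have h2 : v ∈ NB n adj Z := mem_NB.2 ⟨hvn, u, h1, huv⟩
        rcases hpart2 v hv hvs with ⟨_, h3⟩ | h3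
        · exact (mem_QQ.1 h3).2 h2
        · exact ((hRmem v).1 h3).2.1 h2
      · rcases hpart2 v hv hvs with ⟨h3, _⟩ | h3
        · have := hJi u h1 v h3
          rw [huv] at this
          exact absurd this (by simp)
        · have h4 : v ∈ NB n adj (BB n a d adj sd Z) := mem_NB.2 ⟨hvn, u, h1', huv⟩
          have h5 := (hRmem v).1 h3
          exact h5.2.2 (mem_QQ.2 ⟨h4, h5.2.1⟩)
    refine ⟨⟨hsub, fun u hu v hv => ?_⟩, ?_⟩
    · rw [← Bool.not_eq_true]
      intro huv
      rcases side_or (a := a) sd (hsub hu) with hs | hs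
      · exact key u hu v hv hs huv
      · have h1 := bip_side hh hs huv
        rw [Bool.not_not] at h1
        exact key v hv u hu h1 (by rw [hh.sym]; exact huv)
    · rw [skel_iff (side_mono hsub)]
      refine ⟨fun u hu => ?_, hV, fun u hu => ?_⟩
      · rw [mem_side]
        exact ⟨mem_union_left _ (mem_union_left _ hu), (mem_side.1 (hZ hu)).2⟩
      · have h1 := mem_side.1 hu
        rcases hpart1 u h1.1 (mem_side.2 ⟨hsub h1.1, h1.2⟩) with h2 | h2
        · exact mem_union_left _ h2
        · exact mem_union_right _ h2.2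
  · intro I hI
    rw [mem_coe, mem_filter, mem_IS] at hI
    obtain ⟨⟨hIn, hIi⟩, hsk⟩ := hI
    rw [skel_iff (side_mono hIn)] at hsk
    obtain ⟨hZI, _, hIZ⟩ := hsk
    have hZI' : Z ⊆ I := hZI.trans side_le
    simp only
    ext x
    simp only [mem_union, mem_inter]
    constructor
    · rintro ((h | h) | h)
      · exact hZI' h
      · exact h.1
      · exact h.1
    · intro hx
      rcases side_or (a := a) sd hx with hs | hs
      · rcases mem_union.1 (hIZ hs) with h1 | h1
        · exact Or.inl (Or.inl h1)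
        · exact Or.inl (Or.inr ⟨hx, by rw [hS']; exact mem_union_left _ h1⟩)
      · have h1 : x ∉ NB n adj Z := by
          intro h2
          obtain ⟨_, u, hu, hux⟩ := mem_NB.1 h2
          have := hIi u (hZI' hu) x hx
          rw [hux] at this
          exact absurd this (by simp)
        by_cases h2 : x ∈ QQ n a d adj sd Z
        · exact Or.inl (Or.inr ⟨hx, by rw [hS']; exact mem_union_right _ h2⟩)
        · exact Or.inr ⟨hx, (hRmem x).2 ⟨side_mono hIn hs, h1, h2⟩⟩
  · rintro ⟨J, W⟩ hJW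
    rw [mem_coe, mem_product, mem_IS, mem_powerset] at hJW
    obtain ⟨⟨hJ, hJi⟩, hW⟩ := hJW
    simp only at hJ hJi hW
    have h1 : ∀ x ∈ Z, x ∉ S' := by
      intro x hx hx'
      rcases mem_union.1 hx' with h | h
      · exact (mem_BB.1 h).2.1 hx
      · exact side_ne (hZ hx) (QQ_side hh sd Z h)
    have h2 : ∀ x ∈ R, x ∉ S' := by
      intro x hx hx'
      have h3 := (hRmem x).1 hx
      rcases mem_union.1 hx' with h | h
      · exact side_ne (BB_side n a d adj sd Z h) h3.1
      · exact h3.2.2 h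
    have h3 : ∀ x ∈ Z, x ∉ R := by
      intro x hx hx'
      exact side_ne (hZ hx) ((hRmem x).1 hx').1
    simp only [Prod.mk.injEq]
    constructor
    · ext x
      simp only [mem_union, mem_inter]
      constructor
      · rintro ⟨(h | h) | h, h'⟩
        · exact (h1 x h h').elim
        · exact h
        · exact (h2 x (hW h) h').elim
      · intro h
        exact ⟨Or.inl (Or.inr h), hJ h⟩
    · ext x
      simp only [mem_union, mem_inter]
      constructor
      · rintro ⟨(h | h) | h, h'⟩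
        · exact (h3 x h h').elim
        · exact (h2 x h' (hJ h)).elim
        · exact h
      · intro h
        exact ⟨Or.inr h, hW h⟩

theorem om_zero (h : ¬ (Z ⊆ sideS a sd (range n) ∧ Val n d adj Z)) :
    om n a d adj sd Z = 0 := by
  unfold om
  rw [card_eq_zero, filter_eq_empty_iff]
  intro I hI hsk
  have hIn := (mem_IS.1 hI).1
  rw [skel_iff (side_mono hIn)] at hsk
  exact h ⟨hsk.1.trans (side_mono hIn), hsk.2.1⟩

theorem sum_om (P : Finset ℕ → Prop) [DecidablePred P] :
    ((IS adj (range n)).filter (fun I => P (skel n d adj (sideS a sd I)))).card =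
      ∑ Z ∈ (sideS a sd (range n)).powerset.filter P, om n a d adj sd Z := by
  classical
  rw [card_eq_sum_card_fiberwise (f := fun I => skel n d adj (sideS a sd I))
    (t := (sideS a sd (range n)).powerset.filter P)]
  · refine sum_congr rfl fun Z hZ => ?_
    unfold om
    rw [filter_filter]
    congr 1
    refine filter_congr fun I _ => ?_
    constructor
    · exact fun h => h.2
    · intro h
      refine ⟨?_, h⟩
      rw [h]
      exact (mem_filter.1 hZ).2
  · intro I hI
    rw [mem_coe, mem_filter] at hI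
    rw [mem_coe, mem_filter, mem_powerset]
    exact ⟨(skel_sub n d adj _).trans (side_mono (mem_IS.1 hI.1).1), hI.2⟩

theorem om_empty (hh : XHost n a d A adj) : om n a d adj sd ∅ = 2 ^ a := by
  have hNB : NB n adj ∅ = ∅ := by
    ext v
    rw [mem_NB]
    simp
  have hblw : ∀ u, blw ∅ u = ∅ := by
    intro u
    ext x
    rw [mem_blw]
    simp
  have hBB : BB n a d adj sd ∅ = ∅ := by
    rw [eq_empty_iff_forall_notMem]
    intro u hu
    obtain ⟨h1, _, h2⟩ := mem_BB.1 hu
    rw [hblw] at h2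
    have hun : u < n := mem_range.1 (side_le h1)
    have h3 : nw n adj ∅ u = d := by
      unfold nw
      rw [hNB, sdiff_empty, ← hh.reg u hun]
      unfold dg NB
      congr 1
      refine filter_congr fun v _ => ?_
      simp
    unfold big at h2
    rw [h3] at h2
    simp only [decide_eq_false_iff_not] at h2
    omega
  have hQQ : QQ n a d adj sd ∅ = ∅ := by
    unfold QQ
    rw [hBB, hNB, sdiff_self]
    rfl
  rw [om_eq hh (empty_subset _) (fun u hu => absurd hu (notMem_empty u)), hBB, hQQ, hNB,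
    empty_union, card_empty]
  have h4 : ind adj ∅ = 1 := by
    unfold ind
    rw [powerset_empty]
    rfl
  rw [h4, Nat.add_zero, Nat.sub_zero, Nat.mul_one]

end Pool.Agent.Lib.Pa7c826k
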