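import Pool.Agent.Lib.Pa7c826k.Defs
import Pool.Agent.Lib.Pa7c826t.CovMatch

/-!
Facts about greedy matchings in sets without vertices of large degree.

PROOFS. `cov_side`: `rest_spec` (`Pa7c826/Leaf.lean`) gives `m`, `|cov| = 2 m`, `|rest| + 2 m = |S|`,
the bound for `ind` and the independence of `rest`; `rest ⊆ S` (`iterate_mStep_subset`).
`CovMatchAux_step` (`Pa7c826t/CovMatch.lean`) with `i = n` and `p v = (v < a)` gives a matching `M` in
`S` (`IsMat`: injective first and second entries, first entries with `p`, second entries without `p`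
by `hbip`) with `|rest| + 2 |M| = |S|`, so `|M| = m`, and all entries outside `rest`. So `S \ rest` has
at least `m` elements on each side, and it has `2 m` elements: exactly `m` on each side.
`light_edges`: the sum of `dg adj S v` over one side of `S` counts every edge of `S` once, so twice
this sum is `∑ v ∈ S, dg adj S v` (the sums over the two sides of `S` agree, `Finset.sum_comm`, each
vertex is adjacent only to vertices of the other side). By `sum_dg_le` with `W = cov`, `R = rest`
(`cov_union_rest`, `cov_disjoint_rest`) this is at most `2 ∑ w ∈ cov, dg adj S w`, and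
`8 dg adj S w ≤ d`, `|cov| = 2 m`. So `8 * 2 * e ≤ 2 * 2 m * d`, `4 e ≤ m d`.
`pow_aux`: `(3 ^ (12 m)) ^ 7 = 3 ^ (84 m) ≤ 3 ^ (48 e) ≤ 2 ^ (77 e) = (2 ^ (11 e)) ^ 7`, as
`3 ^ 48 ≤ 2 ^ 77` (`norm_num`).
-/

namespace Pool.Agent.Lib.Pa7c826k

open Finset Pool.Agent.Lib.Pa7c826 Pool.Agent.Lib.Pa7c826t Pool.Agent.Lib.Pa7c826e

variable {n a d A : ℕ} {adj : ℕ → ℕ → Bool}

namespace LeafFAux

theorem side_not (sd : Bool) (J : Finset ℕ) :
    J.filter (fun v => ¬ decide (v < a) = sd) = sideS a (!sd) J := by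
  unfold sideS
  apply filter_congr
  intro v _
  cases sd <;> simp

theorem dg_side (hh : XHost n a d A adj) (sd : Bool) (S : Finset ℕ) {v : ℕ}
    (hv : v ∈ sideS a sd S) :
    dg adj S v = ((sideS a (!sd) S).filter (fun u => adj v u = true)).card := by
  unfold dg
  congr 1
  ext u
  rw [mem_filter, mem_filter]
  constructor
  · rintro ⟨hu, hvu⟩
    refine ⟨?_, hvu⟩
    have hb := hh.bip v u hvu
    unfold sideS at hv ⊢
    rw [mem_filter] at hv ⊢
    refine ⟨hu, ?_⟩
    obtain ⟨_, h⟩ := hv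
    subst h
    by_cases h1 : v < a
    · have h2 := hb.1 h1
      simp [h1, h2]
    · have h2 : u < a := by
        by_contra h3
        exact h1 (hb.2 h3)
      simp [h1, h2]
  · rintro ⟨hu, hvu⟩
    unfold sideS at hu
    rw [mem_filter] at hu
    exact ⟨hu.1, hvu⟩

theorem sum_side (hh : XHost n a d A adj) (sd : Bool) (S : Finset ℕ) :
    ∑ v ∈ sideS a sd S, dg adj S v = ∑ v ∈ sideS a (!sd) S, dg adj S v := by
  rw [sum_congr rfl (fun v hv => dg_side hh sd S hv)]
  rw [sum_congr rfl (fun v hv => dg_side hh (!sd) S hv)]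
  rw [Bool.not_not]
  have h := sum_card_bipartiteAbove_eq_sum_card_bipartiteBelow (s := sideS a sd S)
    (t := sideS a (!sd) S) (fun v w => adj v w = true)
  unfold bipartiteAbove bipartiteBelow at h
  rw [h]
  refine sum_congr rfl fun w _ => ?_
  congr 1
  apply filter_congr
  intro x _
  rw [hh.sym]

theorem sum_split (sd : Bool) (S : Finset ℕ) (f : ℕ → ℕ) :
    ∑ v ∈ S, f v = ∑ v ∈ sideS a sd S, f v + ∑ v ∈ sideS a (!sd) S, f v := by
  rw [← side_not (a := a) sd S]
  unfold sideS
  rw [sum_filter_add_sum_filter_not]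

theorem side_ge (g : ℕ × ℕ → ℕ) (sd : Bool) {S R : Finset ℕ} {M : Finset (ℕ × ℕ)} (hRS : R ⊆ S)
    (h1 : ∀ e ∈ M, g e ∈ sideS a sd S) (h2 : ∀ e ∈ M, g e ∉ R)
    (h3 : ∀ e ∈ M, ∀ f ∈ M, g e = g f → e = f) :
    (sideS a sd R).card + M.card ≤ (sideS a sd S).card := by
  have h4 : (M.image g).card = M.card := card_image_of_injOn (fun e he f hf h => h3 e he f hf h)
  have h5 : Disjoint (sideS a sd R) (M.image g) := by
    rw [disjoint_left]
    intro x hx hx2
    obtain ⟨e, he, rfl⟩ := mem_image.1 hx2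
    unfold sideS at hx
    exact h2 e he (mem_filter.1 hx).1
  rw [← h4, ← card_union_of_disjoint h5]
  apply card_le_card
  apply union_subset
  · exact filter_subset_filter _ hRS
  · intro x hx
    obtain ⟨e, he, rfl⟩ := mem_image.1 hx
    exact h1 e he

end LeafFAux

open LeafFAux

theorem cov_side (hh : XHost n a d A adj) {S : Finset ℕ} (hS : S ⊆ range n) :
    ∃ m, (cov n adj S).card = 2 * m ∧ (rest n adj S).card + 2 * m = S.card ∧
      (∀ sd, (sideS a sd S).card = (sideS a sd (rest n adj S)).card + m) ∧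
      ind adj S ≤ 3 ^ m * 2 ^ (rest n adj S).card ∧
      (∀ u ∈ rest n adj S, ∀ v ∈ rest n adj S, adj u v = false) ∧ rest n adj S ⊆ S := by
  obtain ⟨hI, m, h1, h2, h3⟩ := rest_spec hh.sym hh.irr hS
  have hRS : rest n adj S ⊆ S := iterate_mStep_subset S n
  refine ⟨m, h1, h2, ?_, h3, hI, hRS⟩
  obtain ⟨M, hM, hM1, hM2⟩ := CovMatchAux_step hh.sym hh.irr (fun v => v < a) hh.bip hS n
  change (rest n adj S).card + 2 * M.card = S.card at hM1
  change ∀ e ∈ M, e.1 ∉ rest n adj S ∧ e.2 ∉ rest n adj S at hM2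
  have hMm : M.card = m := by omega
  have ht := side_ge (a := a) Prod.fst true hRS (M := M)
    (fun e he => by
      unfold sideS
      rw [mem_filter]
      exact ⟨hM.left_mem e he, by simpa using hM.left_p e he⟩)
    (fun e he => (hM2 e he).1) hM.inj_left
  have hf := side_ge (a := a) Prod.snd false hRS (M := M)
    (fun e he => by
      unfold sideS
      rw [mem_filter]
      refine ⟨hM.right_mem e he, ?_⟩
      have h5 := (hh.bip _ _ (hM.edge e he)).1 (hM.left_p e he)
      simpa using h5)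
    (fun e he => (hM2 e he).2) hM.inj_right
  have hs1 := EExpAux.card_split (a := a) true S
  have hs2 := EExpAux.card_split (a := a) true (rest n adj S)
  rw [Bool.not_true] at hs1 hs2
  intro sd
  cases sd <;> omega

theorem light_edges (hh : XHost n a d A adj) {S : Finset ℕ} (hS : S ⊆ range n)
    (hl : ∀ v ∈ S, 8 * dg adj S v ≤ d) {m : ℕ} (hm : (cov n adj S).card = 2 * m) (sd : Bool) :
    4 * ∑ v ∈ sideS a sd S, dg adj S v ≤ m * d := by
  have h1 := sum_split (a := a) sd S (fun v => dg adj S v)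
  have h2 := sum_side hh sd S
  obtain ⟨hI, -⟩ := rest_spec hh.sym hh.irr hS
  have h3 := sum_dg_le hh.sym (cov_union_rest (n := n) (adj := adj) S)
    (cov_disjoint_rest (n := n) (adj := adj) S) hI
  have hcs : cov n adj S ⊆ S := filter_subset _ _
  have h4 : 8 * ∑ w ∈ cov n adj S, dg adj S w ≤ 2 * m * d := by
    rw [mul_sum, ← hm, ← smul_eq_mul (a := (cov n adj S).card)]
    exact sum_le_card_nsmul _ _ _ (fun w hw => hl w (hcs hw))
  have h5 : ∑ v ∈ S, dg adj S v = 2 * ∑ v ∈ sideS a sd S, dg adj S v := by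
    rw [h1, ← h2]
    ring
  have h6 : 2 * m * d = 2 * (m * d) := by ring
  omega

theorem pow_aux {m e : ℕ} (h : 7 * m ≤ 4 * e) : 3 ^ (12 * m) ≤ 2 ^ (11 * e) := by
  have h1 : (3 ^ (12 * m)) ^ 7 ≤ (2 ^ (11 * e)) ^ 7 := by
    calc (3 ^ (12 * m)) ^ 7 = 3 ^ (12 * (7 * m)) := by
          rw [← pow_mul]
          congr 1
          ring
      _ ≤ 3 ^ (12 * (4 * e)) := Nat.pow_le_pow_right (by norm_num) (by omega)
      _ = (3 ^ 48) ^ e := by
          rw [← pow_mul]
          congr 1
          ring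
      _ ≤ (2 ^ 77) ^ e := Nat.pow_le_pow_left (by norm_num) e
      _ = (2 ^ (11 * e)) ^ 7 := by
          rw [← pow_mul, ← pow_mul]
          congr 1
          ring
  exact (Nat.pow_le_pow_iff_left (by norm_num)).1 h1

end Pool.Agent.Lib.Pa7c826k
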