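import Pool.Agent.Lib.Pa7c826k.SkelEq
import Pool.Agent.Lib.Pa7c826k.Deg

/-!
The weights are multiplicative on sets of distance more than six.
-/

namespace Pool.Agent.Lib.Pa7c826k

open Finset Pool.Agent.Lib.Pa7c826 Pool.Agent.Lib.Pa7c826t Pool.Agent.Lib.Pa7c826e

variable {n a d A : ℕ} {adj : ℕ → ℕ → Bool} {sd : Bool}

namespace MultAux

theorem mem_NB {X : Finset ℕ} {v : ℕ} : v ∈ NB n adj X ↔ v < n ∧ ∃ u ∈ X, adj u v = true := by
  simp only [NB, mem_filter, mem_range]

theorem mem_NB1 {u v : ℕ} : v ∈ NB n adj {u} ↔ v < n ∧ adj u v = true := by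
  rw [mem_NB]
  simp

theorem NB_union (X Y : Finset ℕ) : NB n adj (X ∪ Y) = NB n adj X ∪ NB n adj Y := by
  ext v
  simp only [mem_NB, mem_union]
  constructor
  · rintro ⟨h, u, hu | hu, h2⟩
    · exact Or.inl ⟨h, u, hu, h2⟩
    · exact Or.inr ⟨h, u, hu, h2⟩
  · rintro (⟨h, u, hu, h2⟩ | ⟨h, u, hu, h2⟩)
    · exact ⟨h, u, Or.inl hu, h2⟩
    · exact ⟨h, u, Or.inr hu, h2⟩

theorem blw_union (X Y : Finset ℕ) (u : ℕ) : blw (X ∪ Y) u = blw X u ∪ blw Y u :=
  filter_union _ _ _

theorem blw_sub (X : Finset ℕ) (u : ℕ) : blw X u ⊆ X := filter_subset _ _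

theorem short2 (hs : ∀ u v, adj u v = adj v u) {x z y : ℕ} (h1 : adj x z = true)
    (h2 : adj z y = true) : r6 adj x y :=
  Or.inr ⟨z, x, z, x, z, h1, by rw [hs]; exact h1, h1, by rw [hs]; exact h1, h1, h2⟩

theorem short4 (hs : ∀ u v, adj u v = adj v u) {x z u w y : ℕ} (h1 : adj x z = true)
    (h2 : adj z u = true) (h3 : adj u w = true) (h4 : adj w y = true) : r6 adj x y :=
  Or.inr ⟨z, x, z, u, w, h1, by rw [hs]; exact h1, h1, h2, h3, h4⟩

theorem far_symm (hs : ∀ u v, adj u v = adj v u) {X Y : Finset ℕ} (h : Far (r6 adj) X Y) :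
    Far (r6 adj) Y X := fun y hy x hx hr => h x hx y hy (r6_symm hs _ _ hr)

/-- neighbourhoods are disjoint -/
theorem disj_NB (hs : ∀ u v, adj u v = adj v u) {X Y : Finset ℕ} (h : Far (r6 adj) X Y) :
    Disjoint (NB n adj X) (NB n adj Y) := by
  rw [disjoint_left]
  intro z hz hz2
  obtain ⟨_, x, hx, h1⟩ := mem_NB.1 hz
  obtain ⟨_, y, hy, h2⟩ := mem_NB.1 hz2
  exact h x hx y hy (short2 hs h1 (by rw [hs]; exact h2))

theorem nw_union {X Y : Finset ℕ} {u : ℕ} (h : Disjoint (NB n adj {u}) (NB n adj Y)) :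
    nw n adj (blw (X ∪ Y) u) u = nw n adj (blw X u) u := by
  unfold nw
  congr 1
  rw [blw_union, NB_union]
  ext z
  simp only [mem_sdiff, mem_union, not_or]
  constructor
  · exact fun hz => ⟨hz.1, hz.2.1⟩
  · intro hz
    refine ⟨hz.1, hz.2, ?_⟩
    intro h2
    exact disjoint_left.1 h hz.1 (EExpAux.nb_mono (blw_sub Y u) h2)

theorem big_union {X Y : Finset ℕ} {u : ℕ} (h : Disjoint (NB n adj {u}) (NB n adj Y)) :
    big n d adj (blw (X ∪ Y) u) u = big n d adj (blw X u) u := by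
  unfold big
  rw [nw_union h]

theorem sing_sub {X : Finset ℕ} {u : ℕ} (hu : u ∈ X) : NB n adj {u} ⊆ NB n adj X :=
  EExpAux.nb_mono (singleton_subset_iff.2 hu)

theorem val_union (hs : ∀ u v, adj u v = adj v u) {X Y : Finset ℕ} (h : Far (r6 adj) X Y) :
    Val n d adj (X ∪ Y) ↔ Val n d adj X ∧ Val n d adj Y := by
  have h1 : ∀ u ∈ X, big n d adj (blw (X ∪ Y) u) u = big n d adj (blw X u) u := fun u hu =>
    big_union (disjoint_of_subset_left (sing_sub hu) (disj_NB hs h))
  have h2 : ∀ u ∈ Y, big n d adj (blw (X ∪ Y) u) u = big n d adj (blw Y u) u := by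
    intro u hu
    rw [union_comm]
    exact big_union (disjoint_of_subset_left (sing_sub hu) (disj_NB hs h).symm)
  constructor
  · intro hv
    refine ⟨fun u hu => ?_, fun u hu => ?_⟩
    · rw [← h1 u hu]; exact hv u (mem_union_left _ hu)
    · rw [← h2 u hu]; exact hv u (mem_union_right _ hu)
  · rintro ⟨hX, hY⟩ u hu
    rcases mem_union.1 hu with hu | hu
    · rw [h1 u hu]; exact hX u hu
    · rw [h2 u hu]; exact hY u hu

theorem side_lt {u : ℕ} (hu : u ∈ sideS a sd (range n)) : u < n :=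
  mem_range.1 (mem_filter.1 hu).1

theorem card_NB1 (hh : XHost n a d A adj) {u : ℕ} (hu : u < n) : (NB n adj {u}).card = d := by
  rw [← hh.reg u hu]
  unfold dg
  congr 1
  ext v
  rw [mem_NB1, mem_filter, mem_range]

/-- a vertex of `BB X` has distance two to `X` -/
theorem bb_two (hh : XHost n a d A adj) {X : Finset ℕ} {u : ℕ}
    (hu : u ∈ BB n a d adj sd X) : ∃ x ∈ X, ∃ z, adj x z = true ∧ adj u z = true := by
  by_contra hc
  simp only [BB, mem_filter] at hu
  obtain ⟨hu1, _, hu2⟩ := hu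
  have h1 : NB n adj {u} \ NB n adj (blw X u) = NB n adj {u} := by
    apply sdiff_eq_self_of_disjoint
    rw [disjoint_left]
    intro z hz hz2
    obtain ⟨_, x, hx, h2⟩ := mem_NB.1 hz2
    exact hc ⟨x, blw_sub X u hx, z, h2, (mem_NB1.1 hz).2⟩
  unfold big nw at hu2
  rw [h1, card_NB1 hh (side_lt hu1)] at hu2
  rw [decide_eq_false_iff_not] at hu2
  have := hh.hd
  omega

/-- if the neighbourhood of `u` does not meet `NB Y` -/
theorem bb_iff (hh : XHost n a d A adj) {X Y : Finset ℕ} {u : ℕ}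
    (h : Disjoint (NB n adj {u}) (NB n adj Y)) :
    u ∈ BB n a d adj sd (X ∪ Y) ↔ u ∈ BB n a d adj sd X := by
  simp only [BB, mem_filter]
  rw [big_union h]
  constructor
  · rintro ⟨h1, h2, h3⟩
    exact ⟨h1, fun h4 => h2 (mem_union_left _ h4), h3⟩
  · rintro ⟨h1, h2, h3⟩
    refine ⟨h1, ?_, h3⟩
    intro h4
    rcases mem_union.1 h4 with h4 | h4
    · exact h2 h4
    · have h5 := sing_sub (n := n) (adj := adj) h4
      have h6 : NB n adj {u} = ∅ := by
        rw [← disjoint_self_iff_empty]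
        exact disjoint_of_subset_right h5 h
      have h7 := card_NB1 hh (side_lt h1)
      rw [h6, card_empty] at h7
      have := hh.hd
      omega

theorem bb_disj_nb (hh : XHost n a d A adj) {X Y : Finset ℕ} (h : Far (r6 adj) X Y)
    {u : ℕ} (hu : u ∈ BB n a d adj sd X) : Disjoint (NB n adj {u}) (NB n adj Y) := by
  obtain ⟨x, hx, z, h1, h2⟩ := bb_two hh hu
  rw [disjoint_left]
  intro w hw hw2
  obtain ⟨_, y, hy, h3⟩ := mem_NB.1 hw2
  exact h x hx y hy (short4 hh.sym h1 (by rw [hh.sym]; exact h2) (mem_NB1.1 hw).2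
    (by rw [hh.sym]; exact h3))

theorem bb_union (hh : XHost n a d A adj) {X Y : Finset ℕ} (h : Far (r6 adj) X Y) :
    BB n a d adj sd (X ∪ Y) = BB n a d adj sd X ∪ BB n a d adj sd Y := by
  ext u
  rw [mem_union]
  constructor
  · intro hu
    by_cases h1 : Disjoint (NB n adj {u}) (NB n adj Y)
    · exact Or.inl ((bb_iff hh h1).1 hu)
    · right
      have h2 : Disjoint (NB n adj {u}) (NB n adj X) := by
        rw [not_disjoint_iff] at h1
        obtain ⟨w, hw, hw2⟩ := h1
        obtain ⟨_, y, hy, h3⟩ := mem_NB.1 hw2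
        rw [disjoint_left]
        intro z hz hz2
        obtain ⟨_, x, hx, h4⟩ := mem_NB.1 hz2
        exact h x hx y hy (short4 hh.sym h4 (by rw [hh.sym]; exact (mem_NB1.1 hz).2)
          (mem_NB1.1 hw).2 (by rw [hh.sym]; exact h3))
      rw [union_comm] at hu
      exact (bb_iff hh h2).1 hu
  · rintro (hu | hu)
    · exact (bb_iff hh (bb_disj_nb hh h hu)).2 hu
    · rw [union_comm]
      exact (bb_iff hh (bb_disj_nb hh (far_symm hh.sym h) hu)).2 hu

theorem bb_disj (hh : XHost n a d A adj) {X Y : Finset ℕ} (h : Far (r6 adj) X Y) :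
    Disjoint (BB n a d adj sd X) (BB n a d adj sd Y) := by
  rw [disjoint_left]
  intro u hu hu2
  have h1 := bb_disj_nb hh h hu
  obtain ⟨y, hy, z, h2, h3⟩ := bb_two hh hu2
  have hz : z < n := hh.lt z y (by rw [hh.sym]; exact h2)
  exact disjoint_left.1 h1 (mem_NB1.2 ⟨hz, h3⟩) (mem_NB.2 ⟨hz, y, hy, h2⟩)

theorem mem_QQ {X : Finset ℕ} {q : ℕ} : q ∈ QQ n a d adj sd X ↔
    (q < n ∧ ∃ b ∈ BB n a d adj sd X, adj b q = true) ∧ q ∉ NB n adj X := by
  unfold QQ
  rw [mem_sdiff, mem_NB]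

theorem qq_union (hh : XHost n a d A adj) {X Y : Finset ℕ} (h : Far (r6 adj) X Y) :
    QQ n a d adj sd (X ∪ Y) = QQ n a d adj sd X ∪ QQ n a d adj sd Y := by
  ext q
  rw [mem_union, mem_QQ, mem_QQ, mem_QQ, bb_union hh h, NB_union]
  simp only [mem_union, not_or]
  constructor
  · rintro ⟨⟨h1, b, hb | hb, h2⟩, h3, h4⟩
    · exact Or.inl ⟨⟨h1, b, hb, h2⟩, h3⟩
    · exact Or.inr ⟨⟨h1, b, hb, h2⟩, h4⟩
  · rintro (⟨⟨h1, b, hb, h2⟩, h3⟩ | ⟨⟨h1, b, hb, h2⟩, h3⟩)
    · exact ⟨⟨h1, b, Or.inl hb, h2⟩, h3,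
        disjoint_left.1 (bb_disj_nb hh h hb) (mem_NB1.2 ⟨h1, h2⟩)⟩
    · exact ⟨⟨h1, b, Or.inr hb, h2⟩,
        disjoint_left.1 (bb_disj_nb hh (far_symm hh.sym h) hb) (mem_NB1.2 ⟨h1, h2⟩), h3⟩

/-- no common neighbour of `BB X` and `BB Y` -/
theorem bb_far (hh : XHost n a d A adj) {X Y : Finset ℕ} (h : Far (r6 adj) X Y)
    {b b' q : ℕ} (hb : b ∈ BB n a d adj sd X) (hb' : b' ∈ BB n a d adj sd Y)
    (h1 : adj b q = true) (h2 : adj b' q = true) : False := by
  obtain ⟨x, hx, z, h3, h4⟩ := bb_two hh hb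
  obtain ⟨y, hy, z', h5, h6⟩ := bb_two hh hb'
  exact h x hx y hy (Or.inr ⟨z, b, q, b', z', h3, by rw [hh.sym]; exact h4, h1,
    by rw [hh.sym]; exact h2, h6, by rw [hh.sym]; exact h5⟩)

theorem bb_side {X : Finset ℕ} : BB n a d adj sd X ⊆ sideS a sd (range n) := filter_subset _ _

theorem qq_side (hh : XHost n a d A adj) {X : Finset ℕ} :
    QQ n a d adj sd X ⊆ sideS a (!sd) (range n) :=
  sdiff_subset.trans (nb_side hh bb_side)

/-- vertices on the same side are not adjacent -/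
theorem side_irr (hh : XHost n a d A adj) {s : Bool} {u v : ℕ}
    (hu : u ∈ sideS a s (range n)) (hv : v ∈ sideS a s (range n)) : adj u v = false := by
  by_contra hc
  rw [Bool.not_eq_false] at hc
  have h1 := hh.bip u v hc
  have h2 := (mem_filter.1 hu).2
  have h3 := (mem_filter.1 hv).2
  cases s with
  | true =>
    rw [decide_eq_true_eq] at h2 h3
    exact h1.1 h2 h3
  | false =>
    rw [decide_eq_false_iff_not] at h2 h3
    exact h2 (h1.2 h3)

theorem side_disj {s : Bool} {u : ℕ} (hu : u ∈ sideS a s (range n))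
    (hv : u ∈ sideS a (!s) (range n)) : False := by
  have h2 := (mem_filter.1 hu).2
  have h3 := (mem_filter.1 hv).2
  rw [h2] at h3
  cases s <;> simp at h3

/-- the number of independent sets of a union -/
theorem ind_union (hs : ∀ u v, adj u v = adj v u) {S T : Finset ℕ} (hd : Disjoint S T)
    (hno : ∀ u ∈ S, ∀ v ∈ T, adj u v = false) : ind adj (S ∪ T) = ind adj S * ind adj T := by
  unfold ind
  rw [← card_product]
  apply card_nbij' (fun I => (I ∩ S, I ∩ T)) (fun p => p.1 ∪ p.2)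
  · intro I hI
    simp only [coe_filter, mem_powerset, Set.mem_setOf_eq] at hI
    simp only [coe_product, coe_filter, mem_powerset, Set.mem_prod, Set.mem_setOf_eq]
    exact ⟨⟨inter_subset_right, fun u hu v hv => hI.2 u (mem_inter.1 hu).1 v (mem_inter.1 hv).1⟩,
      ⟨inter_subset_right, fun u hu v hv => hI.2 u (mem_inter.1 hu).1 v (mem_inter.1 hv).1⟩⟩
  · rintro ⟨I, J⟩ hp
    simp only [coe_product, coe_filter, mem_powerset, Set.mem_prod, Set.mem_setOf_eq] at hp
    simp only [coe_filter, mem_powerset, Set.mem_setOf_eq]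
    obtain ⟨⟨h1, h2⟩, h3, h4⟩ := hp
    refine ⟨union_subset_union h1 h3, ?_⟩
    intro u hu v hv
    rcases mem_union.1 hu with hu | hu <;> rcases mem_union.1 hv with hv | hv
    · exact h2 u hu v hv
    · exact hno u (h1 hu) v (h3 hv)
    · rw [hs]; exact hno v (h1 hv) u (h3 hu)
    · exact h4 u hu v hv
  · intro I hI
    simp only [coe_filter, mem_powerset, Set.mem_setOf_eq] at hI
    simp only
    rw [← inter_union_distrib_left]
    exact inter_eq_left.2 hI.1
  · rintro ⟨I, J⟩ hp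
    simp only [coe_product, coe_filter, mem_powerset, Set.mem_prod, Set.mem_setOf_eq] at hp
    obtain ⟨⟨h1, _⟩, h3, _⟩ := hp
    have e1 : J ∩ S = ∅ := disjoint_iff_inter_eq_empty.1
      (disjoint_of_subset_left h3 hd.symm)
    have e2 : I ∩ T = ∅ := disjoint_iff_inter_eq_empty.1
      (disjoint_of_subset_left h1 hd)
    simp only [union_inter_distrib_right, e1, e2, union_empty, empty_union,
      inter_eq_left.2 h1, inter_eq_left.2 h3]

end MultAux

open MultAux

theorem om_mul (hh : XHost n a d A adj) {X Y : Finset ℕ} (h : Far (r6 adj) X Y) :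
    om n a d adj sd (X ∪ Y) * 2 ^ a = om n a d adj sd X * om n a d adj sd Y := by
  by_cases hc : (X ∪ Y) ⊆ sideS a sd (range n) ∧ Val n d adj (X ∪ Y)
  · obtain ⟨hsub, hval⟩ := hc
    have hX : X ⊆ sideS a sd (range n) := subset_union_left.trans hsub
    have hY : Y ⊆ sideS a sd (range n) := subset_union_right.trans hsub
    obtain ⟨vX, vY⟩ := (val_union hh.sym h).1 hval
    rw [om_eq hh hsub hval, om_eq hh hX vX, om_eq hh hY vY]
    have hle := nq_le hh hsub
    have dN : Disjoint (NB n adj X) (NB n adj Y) := disj_NB hh.sym h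
    have dQ : Disjoint (QQ n a d adj sd X) (QQ n a d adj sd Y) := by
      rw [disjoint_left]
      intro q hq hq2
      obtain ⟨⟨_, b, hb, h1⟩, _⟩ := mem_QQ.1 hq
      obtain ⟨⟨_, b', hb', h2⟩, _⟩ := mem_QQ.1 hq2
      exact bb_far hh h hb hb' h1 h2
    rw [NB_union, qq_union hh h, card_union_of_disjoint dN, card_union_of_disjoint dQ] at hle ⊢
    have hS : BB n a d adj sd (X ∪ Y) ∪ (QQ n a d adj sd X ∪ QQ n a d adj sd Y) =
        (BB n a d adj sd X ∪ QQ n a d adj sd X) ∪ (BB n a d adj sd Y ∪ QQ n a d adj sd Y) := by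
      rw [bb_union hh h]
      ext u
      simp only [mem_union]
      tauto
    rw [hS, ind_union hh.sym]
    · have e1 : 2 ^ (a - ((NB n adj X).card + (NB n adj Y).card +
          ((QQ n a d adj sd X).card + (QQ n a d adj sd Y).card))) * 2 ^ a =
          2 ^ (a - ((NB n adj X).card + (QQ n a d adj sd X).card)) *
            2 ^ (a - ((NB n adj Y).card + (QQ n a d adj sd Y).card)) := by
        rw [← pow_add, ← pow_add]
        congr 1
        omega
      calc _ = (2 ^ (a - ((NB n adj X).card + (NB n adj Y).card +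
          ((QQ n a d adj sd X).card + (QQ n a d adj sd Y).card))) * 2 ^ a) *
          (ind adj (BB n a d adj sd X ∪ QQ n a d adj sd X) *
            ind adj (BB n a d adj sd Y ∪ QQ n a d adj sd Y)) := by ring
        _ = _ := by rw [e1]; ring
    · rw [disjoint_left]
      intro u hu hu2
      rcases mem_union.1 hu with hu | hu <;> rcases mem_union.1 hu2 with hu2 | hu2
      · exact disjoint_left.1 (bb_disj hh h) hu hu2
      · exact side_disj (bb_side hu) (qq_side hh hu2)
      · exact side_disj (bb_side hu2) (qq_side hh hu)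
      · exact disjoint_left.1 dQ hu hu2
    · intro u hu v hv
      rcases mem_union.1 hu with hu | hu <;> rcases mem_union.1 hv with hv | hv
      · exact side_irr hh (bb_side hu) (bb_side hv)
      · by_contra hc
        rw [Bool.not_eq_false] at hc
        obtain ⟨⟨_, b', hb', h2⟩, _⟩ := mem_QQ.1 hv
        exact bb_far hh h hu hb' hc h2
      · by_contra hc
        rw [Bool.not_eq_false] at hc
        obtain ⟨⟨_, b', hb', h2⟩, _⟩ := mem_QQ.1 hu
        exact bb_far hh h hb' hv h2 (by rw [hh.sym]; exact hc)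
      · exact side_irr hh (qq_side hh hu) (qq_side hh hv)
  · rw [om_zero hc, zero_mul]
    by_cases hX : X ⊆ sideS a sd (range n) ∧ Val n d adj X
    · have hY : ¬ (Y ⊆ sideS a sd (range n) ∧ Val n d adj Y) := fun hY =>
        hc ⟨union_subset hX.1 hY.1, (val_union hh.sym h).2 ⟨hX.2, hY.2⟩⟩
      rw [om_zero hY, mul_zero]
    · rw [om_zero hX, zero_mul]

theorem wt_w0 (hh : XHost n a d A adj) : Wt (r6 adj) (w0 n a d adj sd) where
  emp := by
    unfold w0
    rw [om_empty hh]
    push_cast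
    exact div_self (by positivity)
  nn := by
    intro X
    unfold w0
    positivity
  mul := by
    intro X Y h
    unfold w0
    have h1 : (om n a d adj sd (X ∪ Y) : ℝ) * 2 ^ a = om n a d adj sd X * om n a d adj sd Y := by
      exact_mod_cast om_mul hh h
    have h2 : (2 : ℝ) ^ a ≠ 0 := by positivity
    rw [div_mul_div_comm, ← h1]
    field_simp

end Pool.Agent.Lib.Pa7c826k
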