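import Pool.Agent.Lib.Pa7c826k.Tree
import Pool.Agent.Lib.Pa7c826k.BBf

/-!
The number of nodes of the trees.

PROOFS. `nodes_all`: `lvT_cnt` with `B = C = range n` gives `d |y.2| ≤ 8 n = 16 a`, so with
`h = a / d + 1` (`a < d h`) `|y.2| ≤ 16 h`. `lvT_w'` with `z = 1 / d`: `z ^ |y.2| ≥ (1 / d) ^ (16 h)`,
so the number of nodes is at most `d ^ (16 h) * (1 + 1 / d) ^ (2 a)`, and
`(1 + 1 / d) ^ (2 a) ≤ exp (2 a / d) ≤ exp (2 h) ≤ 8 ^ h` (`Real.add_one_le_exp`, `exp 1 ≤ 2.7182818286`,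
`exp 2 ≤ 8`). With `d ≤ 2 ^ l`: at most `2 ^ (16 l h + 3 h) ≤ 2 ^ (17 l h)`.
`nodes_bq`: `lvT_cnt` with `B = BB Z`, `C = QQ Z` (`bb_light`) gives
`d |y.2| ≤ 8 |BB Z|`. By `bb_card` and `nb_le`: `7 |BB Z| ≤ 8 |NB Z| ≤ 8 d |Z|`. So
`7 d |y.2| ≤ 64 d |Z|` and `|y.2| ≤ 10 |Z|`. By `qq_card`,
`56 |BB Z ∪ QQ Z| ≤ 56 |BB Z| + 7 d |BB Z| ≤ 64 d |Z| + 8 d ^ 2 |Z| ≤ 56 d ^ 2 |Z|` (`2 ≤ d`). `lvT_w'`
with `z = 1 / d ^ 2`: the number of nodes is at most
`d ^ (20 |Z|) * (1 + 1 / d ^ 2) ^ (d ^ 2 |Z|) ≤ d ^ (20 |Z|) * 4 ^ |Z| ≤ 2 ^ ((20 l + 2) |Z|)`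
(`exp 1 ≤ 4`).
-/

namespace Pool.Agent.Lib.Pa7c826k

open Finset Pool.Agent.Lib.Pa7c826 Pool.Agent.Lib.Pa7c826t Pool.Agent.Lib.Pa7c826e

variable {n a d A l : ℕ} {adj : ℕ → ℕ → Bool} {sd : Bool} {Z : Finset ℕ}

namespace NodesAux

theorem len_bd {m g D : ℕ} {S₀ : Finset ℕ} (hD : 1 ≤ D) (hS : S₀ ⊆ range n) (t K M : ℕ)
    (hK : ∀ y ∈ lvT n m g adj (S₀, ∅) t, y.2.card ≤ K) (hM : S₀.card ≤ D * M) :
    ((lvT n m g adj (S₀, ∅) t).length : ℝ) ≤ (D : ℝ) ^ K * (Real.exp 1) ^ M := by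
  have hD0 : (0 : ℝ) < D := by exact_mod_cast hD
  have hD1 : (1 : ℝ) ≤ D := by exact_mod_cast hD
  have hz : (0 : ℝ) < 1 / D := by positivity
  have hz1 : (1 : ℝ) / D ≤ 1 := by
    rw [div_le_one hD0]
    exact hD1
  have h1 : ((lvT n m g adj (S₀, ∅) t).length : ℝ) * (1 / D : ℝ) ^ K ≤
      (1 + 1 / D : ℝ) ^ S₀.card := by
    refine le_trans ?_ (lvT_w' (n := n) (m := m) (g := g) (adj := adj) hz.le hS t)
    have h2 : ((lvT n m g adj (S₀, ∅) t).length : ℝ) * (1 / D : ℝ) ^ K =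
        ((lvT n m g adj (S₀, ∅) t).map (fun _ : Nd => (1 / D : ℝ) ^ K)).sum := by
      simp
    rw [h2]
    exact List.sum_le_sum (fun y hy => pow_le_pow_of_le_one hz.le hz1 (hK y hy))
  have h3 : (1 + 1 / D : ℝ) ^ S₀.card ≤ (Real.exp 1) ^ M := by
    have h4 : (1 + 1 / D : ℝ) ^ S₀.card ≤ (1 + 1 / D : ℝ) ^ (D * M) :=
      pow_le_pow_right₀ (by linarith) hM
    refine h4.trans ?_
    rw [pow_mul]
    refine pow_le_pow_left₀ (by positivity) ?_ M
    have h5 : (1 + 1 / D : ℝ) ≤ Real.exp (1 / D) := by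
      have := Real.add_one_le_exp (1 / D : ℝ)
      linarith
    refine (pow_le_pow_left₀ (by positivity) h5 D).trans (le_of_eq ?_)
    rw [← Real.exp_nat_mul]
    congr 1
    field_simp
  have h6 : (D : ℝ) ^ K * (1 / D : ℝ) ^ K = 1 := by
    rw [← mul_pow, mul_one_div_cancel hD0.ne', one_pow]
  calc ((lvT n m g adj (S₀, ∅) t).length : ℝ) =
      (D : ℝ) ^ K * (((lvT n m g adj (S₀, ∅) t).length : ℝ) * (1 / D : ℝ) ^ K) := by
        rw [mul_left_comm, h6, mul_one]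
    _ ≤ (D : ℝ) ^ K * (Real.exp 1) ^ M :=
        mul_le_mul_of_nonneg_left (h1.trans h3) (by positivity)

end NodesAux

theorem nodes_all (hh : XHost n a d A adj) (hl : d < 2 ^ l) (hl3 : 3 ≤ l) (t : ℕ) :
    (lvT n d 8 adj (range n, ∅) t).length ≤ 2 ^ (17 * l * (a / d + 1)) := by
  have hd := hh.hd
  have hn := hh.hn
  set h : ℕ := a / d + 1 with hhdef
  have hah : a ≤ d * h := by
    rw [hhdef]
    exact (Nat.lt_mul_div_succ a (by omega)).le
  have hK : ∀ y ∈ lvT n d 8 adj (range n, ∅) t, y.2.card ≤ 16 * h := by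
    intro y hy
    have h1 := (lvT_cnt (n := n) (m := d) (g := 8) (adj := adj) (S₀ := range n)
      (Subset.refl _) (B := range n) (C := range n)
      (fun S hS v hv _ => ⟨hS hv, fun u hu _ => hS hu⟩) t y hy).2
    rw [card_range] at h1
    have h2 : d * y.2.card ≤ d * (16 * h) := by
      calc d * y.2.card ≤ 8 * n := by omega
        _ = 16 * a := by omega
        _ ≤ 16 * (d * h) := by omega
        _ = d * (16 * h) := by ring
    exact Nat.le_of_mul_le_mul_left h2 (by omega)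
  have hM : (range n).card ≤ d * (2 * h) := by
    rw [card_range]
    calc n = 2 * a := hn
      _ ≤ 2 * (d * h) := by omega
      _ = d * (2 * h) := by ring
  have h1 := NodesAux.len_bd (n := n) (m := d) (g := 8) (adj := adj) hd (Subset.refl (range n)) t
    (16 * h) (2 * h) hK hM
  have he : (Real.exp 1) ^ 2 ≤ (2 : ℝ) ^ 3 := by
    have h2 := Real.exp_one_lt_d9
    have h3 := Real.exp_pos 1
    nlinarith
  have h2 : (Real.exp 1) ^ (2 * h) ≤ (2 : ℝ) ^ (3 * h) := by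
    rw [pow_mul, pow_mul]
    exact pow_le_pow_left₀ (by positivity) he h
  have h3 : (d : ℝ) ^ (16 * h) ≤ (2 : ℝ) ^ (l * (16 * h)) := by
    rw [pow_mul (2 : ℝ) l]
    refine pow_le_pow_left₀ (by positivity) ?_ _
    exact_mod_cast hl.le
  have h4 : ((lvT n d 8 adj (range n, ∅) t).length : ℝ) ≤ (2 : ℝ) ^ (17 * l * h) := by
    refine h1.trans ((mul_le_mul h3 h2 (by positivity) (by positivity)).trans ?_)
    rw [← pow_add]
    refine pow_le_pow_right₀ (by norm_num) ?_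
    have : 3 * h ≤ l * h := Nat.mul_le_mul_right h hl3
    nlinarith
  exact_mod_cast h4

theorem nodes_bq (hh : XHost n a d A adj) (hl : d < 2 ^ l) (hl2 : 2 ≤ l) (hd : 2 ≤ d)
    (hZ : Z ⊆ sideS a sd (range n)) (t : ℕ) :
    (lvT n d 8 adj (BB n a d adj sd Z ∪ QQ n a d adj sd Z, ∅) t).length ≤
      2 ^ (21 * l * Z.card) := by
  have hBn : BB n a d adj sd Z ⊆ range n := by
    intro x hx
    unfold BB sideS at hx
    exact (mem_filter.1 (mem_filter.1 hx).1).1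
  have hQn : QQ n a d adj sd Z ⊆ range n := by
    intro x hx
    unfold QQ NB at hx
    exact (mem_filter.1 (mem_sdiff.1 hx).1).1
  have hS : BB n a d adj sd Z ∪ QQ n a d adj sd Z ⊆ range n := union_subset hBn hQn
  have hZn : Z ⊆ range n := by
    intro x hx
    have := hZ hx
    unfold sideS at this
    exact (mem_filter.1 this).1
  have b1 := bb_card hh hZ
  have b2 := nb_le hh hZn
  have b3 := qq_card hh hZ
  have b4 : 7 * (BB n a d adj sd Z).card ≤ 8 * (d * Z.card) := by omega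
  have hK : ∀ y ∈ lvT n d 8 adj (BB n a d adj sd Z ∪ QQ n a d adj sd Z, ∅) t,
      y.2.card ≤ 10 * Z.card := by
    intro y hy
    have h1 := (lvT_cnt (n := n) (m := d) (g := 8) (adj := adj)
      (S₀ := BB n a d adj sd Z ∪ QQ n a d adj sd Z) hS (B := BB n a d adj sd Z)
      (C := QQ n a d adj sd Z)
      (fun S hS v hv hvd => bb_light hh hZ hS hv hvd) t y hy).2
    have h2 : d * (7 * y.2.card) ≤ d * (70 * Z.card) := by
      calc d * (7 * y.2.card) = 7 * (d * y.2.card) := by ring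
        _ ≤ 8 * (7 * (BB n a d adj sd Z).card) := by omega
        _ ≤ 8 * (8 * (d * Z.card)) := by omega
        _ = d * (64 * Z.card) := by ring
        _ ≤ d * (70 * Z.card) := Nat.mul_le_mul_left d (by omega)
    have h3 := Nat.le_of_mul_le_mul_left h2 (by omega)
    omega
  have hM : (BB n a d adj sd Z ∪ QQ n a d adj sd Z).card ≤ (d ^ 2) * Z.card := by
    have h1 := card_union_le (BB n a d adj sd Z) (QQ n a d adj sd Z)
    have h2 : d * (7 * (BB n a d adj sd Z).card) ≤ d * (8 * (d * Z.card)) :=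
      Nat.mul_le_mul_left d b4
    have h3 : 2 * (d * Z.card) ≤ d * (d * Z.card) := Nat.mul_le_mul_right _ hd
    have h4 : d ^ 2 * Z.card = d * (d * Z.card) := by ring
    have h5 : d * (7 * (BB n a d adj sd Z).card) = 7 * (d * (BB n a d adj sd Z).card) := by ring
    have h6 : d * (8 * (d * Z.card)) = 8 * (d * (d * Z.card)) := by ring
    rw [h4]
    omega
  have h1 := NodesAux.len_bd (n := n) (m := d) (g := 8) (adj := adj) (D := d ^ 2)
    (Nat.one_le_pow _ _ (by omega)) hS t (10 * Z.card) Z.card hK hM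
  have he : Real.exp 1 ≤ (2 : ℝ) ^ 2 := by
    have h2 := Real.exp_one_lt_d9
    linarith
  have h2 : (Real.exp 1) ^ Z.card ≤ (2 : ℝ) ^ (2 * Z.card) := by
    rw [pow_mul]
    exact pow_le_pow_left₀ (by positivity) he _
  have h3 : ((d ^ 2 : ℕ) : ℝ) ^ (10 * Z.card) ≤ (2 : ℝ) ^ (l * (20 * Z.card)) := by
    rw [pow_mul (2 : ℝ) l]
    have h4 : ((d ^ 2 : ℕ) : ℝ) ^ (10 * Z.card) = (d : ℝ) ^ (20 * Z.card) := by
      push_cast
      rw [← pow_mul]
      congr 1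
      ring
    rw [h4]
    refine pow_le_pow_left₀ (by positivity) ?_ _
    exact_mod_cast hl.le
  have h4 : ((lvT n d 8 adj (BB n a d adj sd Z ∪ QQ n a d adj sd Z, ∅) t).length : ℝ) ≤
      (2 : ℝ) ^ (21 * l * Z.card) := by
    refine h1.trans ((mul_le_mul h3 h2 (by positivity) (by positivity)).trans ?_)
    rw [← pow_add]
    refine pow_le_pow_right₀ (by norm_num) ?_
    have : 2 * Z.card ≤ l * Z.card := Nat.mul_le_mul_right _ hl2
    nlinarith
  exact_mod_cast h4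

end Pool.Agent.Lib.Pa7c826k
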