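import Pool.Agent.Lib.Pa7c826k.LeafF
import Pool.Agent.Lib.Pa7c826k.Nodes
import Pool.Agent.Lib.Pa7c826k.SkelEq

/-!
The weight of a skeleton.

PROOFS. `leaf_bq`. Write `B = BB Z`, `Q = QQ Z`, `N = NB n adj Z`, `y = (S, J)`. By `lvT_tree` and
`lvT_cnt` (`bb_light`): `S ⊆ B ∪ Q`, `J ⊆ Q`, `S`, `J` are disjoint, no edges inside `J` or between
`J` and `S`. `lvT_light` gives `8 dg adj S v < d` for `v ∈ S`. Take `m` from `cov_side`; let
`SB = S ∩ B`, `SQ = S ∩ Q` (the parts of `S` on the sides `sd`, `!sd`), `W = N ∪ (Q \ (S ∪ J))`,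
`L = Z ∪ SB` (`Z`, `B` disjoint; `N`, `Q` disjoint), so `|N| + |Q| = |W| + |SQ| + |J|`.
(1) `4 |L| ≤ 4 |W| + m`: count the edges at `L`; each vertex of `L` has degree `d`, its neighbours
lie in `N ∪ Q` (for `u ∈ B` by the definition of `Q`), not in `J` (for `u ∈ Z` because `J ⊆ Q` is
disjoint from `N`, for `u ∈ SB` because there are no edges between `J` and `S`), so in `W` or in `SQ`.
At most `d |W|` edges end in `W`. The edges that end in `SQ` start in `SB` (`Q` is disjoint from `N`);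
their number is `∑ v ∈ SB, dg adj S v ≤ m d / 4` (`light_edges`). So `d |L| ≤ d |W| + m d / 4`.
Let `e = |W| + 2 m - |L|` (a natural number by (1)). Then `7 m ≤ 4 e`. Further
`|rest| = |S| - 2 m = |SB| + |SQ| - 2 m`, `|L| = |Z| + |SB|`, so
`|rest| + e + |Z| + |J| = |N| + |Q|`.
(2) `A |N| ≤ 3 d e`: let `X = Z ∪ (rest ∩ B)`, `|X| = |L| - m` (`cov_side`). `NB X` is contained in
`N ∪ Q` and disjoint from `J` and from `rest ∩ Q` (`rest` is independent), so
`|NB X| ≤ |N| + |Q| - |J| - |rest ∩ Q| = |W| + |SQ| - |rest ∩ Q| = |W| + m`. Also `2 |X| ≤ a`: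
`|X| ≤ |Z| + |B| ≤ |Z| + 2 d |Z|` (`bb_card`, `nb_le`) and `64 d |Z| ≤ a`. By `hh.exp`
`(d + A) |X| ≤ d |NB X|`, so `A |X| ≤ d (|W| + m - |X|) = d e`. If `3 |X| ≥ |N|` this gives (2).
Otherwise `e = |W| + m - |X| ≥ |N| - |X| ≥ (2/3) |N|`, and `A ≤ 2 d` (`hh.hA`) gives
`A |N| ≤ 2 d |N| ≤ 3 d e`.
With `8 |N| ≥ d |Z|` (`val_nb`): `A d |Z| ≤ 8 A |N| ≤ 24 d e`, so `A |Z| ≤ 24 e`.
Last claim: `ind adj S ^ 12 ≤ 3 ^ (12 m) * 2 ^ (12 |rest|) ≤ 2 ^ (11 e + 12 |rest|)` (`pow_aux`).
`om_le`: if `om ≠ 0` then `Val Z` (`om_zero`); `om_eq`, `ind_lvT` (`t = n`): `om` is the sum over the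
leaves of `2 ^ (a - (|N| + |Q|)) * ind adj y.1`. For each leaf `2 ^ (71 l |Z|) * ind adj y.1 ≤
2 ^ (|N| + |Q|)`: the twelfth power of the left side is `2 ^ (852 l |Z|) * ind ^ 12`, and
`852 l |Z| ≤ e` as `24 e ≥ A |Z| ≥ 10000000 l |Z|`. There are at most `2 ^ (21 l |Z|)` leaves
(`nodes_bq`), and `|N| + |Q| ≤ a` (`nq_le`).
`leaf_dead`: `7 m ≤ 4 e` and `48 μ ≤ m` give `84 μ ≤ e`, so
`(2 ^ (7 μ) * ind) ^ 12 = 2 ^ (84 μ) * ind ^ 12 ≤ 2 ^ (12 (|N| + |Q|))`.
-/

namespace Pool.Agent.Lib.Pa7c826k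

open Finset Pool.Agent.Lib.Pa7c826 Pool.Agent.Lib.Pa7c826t Pool.Agent.Lib.Pa7c826e

variable {n a d A l x : ℕ} {adj : ℕ → ℕ → Bool} {sd : Bool} {Z : Finset ℕ}

namespace WBAux

theorem mem_side {sd : Bool} {S : Finset ℕ} {v : ℕ} :
    v ∈ sideS a sd S ↔ v ∈ S ∧ decide (v < a) = sd := by
  unfold sideS
  rw [mem_filter]

theorem mem_nb {X : Finset ℕ} {v : ℕ} :
    v ∈ NB n adj X ↔ v < n ∧ ∃ u ∈ X, adj u v = true := by
  unfold NB
  rw [mem_filter, mem_range]

theorem mem_bb {u : ℕ} : u ∈ BB n a d adj sd Z ↔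
    u ∈ sideS a sd (range n) ∧ u ∉ Z ∧ big n d adj (blw Z u) u = false := by
  unfold BB
  rw [mem_filter]

theorem mem_qq {u : ℕ} : u ∈ QQ n a d adj sd Z ↔
    u ∈ NB n adj (BB n a d adj sd Z) ∧ u ∉ NB n adj Z := by
  unfold QQ
  rw [mem_sdiff]

theorem bb_side : BB n a d adj sd Z ⊆ sideS a sd (range n) := filter_subset _ _

theorem qq_side (hh : XHost n a d A adj) : QQ n a d adj sd Z ⊆ sideS a (!sd) (range n) :=
  sdiff_subset.trans (nb_side hh bb_side)

theorem side_lt {sd : Bool} {v : ℕ} (h : v ∈ sideS a sd (range n)) : v < n :=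
  mem_range.1 (mem_side.1 h).1

/-- sums of degrees -/
theorem dbl (hs : ∀ u v, adj u v = adj v u) (X Y : Finset ℕ) :
    ∑ u ∈ X, dg adj Y u = ∑ v ∈ Y, dg adj X v := by
  unfold dg
  simp only [card_filter]
  rw [sum_comm]
  refine sum_congr rfl fun v _ => sum_congr rfl fun u _ => ?_
  rw [hs]

theorem dg_mono {X Y : Finset ℕ} (h : X ⊆ Y) (u : ℕ) : dg adj X u ≤ dg adj Y u :=
  card_le_card (filter_subset_filter _ h)

end WBAux

open WBAux

theorem leaf_bq (hh : XHost n a d A adj) (hZ : Z ⊆ sideS a sd (range n))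
    (hV : Val n d adj Z) (hs : 64 * d * Z.card ≤ a) {y : Nd}
    (hy : y ∈ lvT n d 8 adj (BB n a d adj sd Z ∪ QQ n a d adj sd Z, ∅) n) :
    ∃ e m, (cov n adj y.1).card = 2 * m ∧ 7 * m ≤ 4 * e ∧ A * Z.card ≤ 24 * e ∧
      (rest n adj y.1).card + e + Z.card + y.2.card =
        (NB n adj Z).card + (QQ n a d adj sd Z).card ∧
      2 ^ e * ind adj y.1 ^ 12 ≤ 2 ^ (12 * ((NB n adj Z).card + (QQ n a d adj sd Z).card)) := by
  classical
  obtain ⟨S, J⟩ := y
  show ∃ e m, (cov n adj S).card = 2 * m ∧ 7 * m ≤ 4 * e ∧ A * Z.card ≤ 24 * e ∧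
      (rest n adj S).card + e + Z.card + J.card =
        (NB n adj Z).card + (QQ n a d adj sd Z).card ∧
      2 ^ e * ind adj S ^ 12 ≤ 2 ^ (12 * ((NB n adj Z).card + (QQ n a d adj sd Z).card))
  have hBsd : BB n a d adj sd Z ⊆ sideS a sd (range n) := bb_side
  have hQsd : QQ n a d adj sd Z ⊆ sideS a (!sd) (range n) := qq_side hh
  have hNsd : NB n adj Z ⊆ sideS a (!sd) (range n) := nb_side hh hZ
  have hBr : BB n a d adj sd Z ⊆ range n := fun v hv => mem_range.2 (side_lt (hBsd hv))
  have hQr : QQ n a d adj sd Z ⊆ range n := fun v hv => mem_range.2 (side_lt (hQsd hv))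
  have hZr : Z ⊆ range n := fun v hv => mem_range.2 (side_lt (hZ hv))
  have h0 : BB n a d adj sd Z ∪ QQ n a d adj sd Z ⊆ range n := union_subset hBr hQr
  obtain ⟨hS, -, hdSJ, hJJ, hJS⟩ := lvT_tree (m := d) (g := 8) hh.sym hh.irr h0 n _ hy
  obtain ⟨hJQ, -⟩ := lvT_cnt (m := d) (g := 8) (adj := adj) h0 (B := BB n a d adj sd Z)
    (C := QQ n a d adj sd Z) (fun S hS v hv h => bb_light hh hZ hS hv h) n _ hy
  have hlight := lvT_light (m := d) (g := 8) (ad := adj) (n := n) (x := (BB n a d adj sd Z ∪ QQ n a d adj sd Z, ∅)) h0 _ hy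
  simp only at hS hdSJ hJJ hJS hJQ hlight
  have hSr : S ⊆ range n := hS.trans h0
  have hlt : ∀ v ∈ S, 8 * dg adj S v ≤ d := by
    intro v hv
    have h1 := hlight v
    unfold hvy at h1
    simp only [hv, decide_true, Bool.true_and, decide_eq_false_iff_not, not_le] at h1
    exact h1.le
  obtain ⟨m, hm1, hm2, hm3, hm4, hm5, hm6⟩ := cov_side hh hSr
  have hle := light_edges hh hSr hlt hm1 sd
  have hbb := bb_card hh hZ
  have hnb := nb_le hh hZr
  have hval := val_nb hh hZ hV
  have hd1 := hh.hd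
  have hAd := hh.hA
  -- names
  obtain ⟨B, hB⟩ : ∃ B, B = BB n a d adj sd Z := ⟨_, rfl⟩
  obtain ⟨Q, hQ⟩ : ∃ Q, Q = QQ n a d adj sd Z := ⟨_, rfl⟩
  obtain ⟨N, hN⟩ : ∃ N, N = NB n adj Z := ⟨_, rfl⟩
  have hNBB : NB n adj B ⊆ N ∪ Q := by
    intro v hv
    rw [mem_union, hN, hQ, mem_qq]
    by_cases h : v ∈ NB n adj Z
    · exact Or.inl h
    · right
      rw [hB] at hv
      exact ⟨hv, h⟩
  have hdNQ : Disjoint N Q := by
    rw [disjoint_left]
    intro v h1 h2
    rw [hQ, mem_qq] at h2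
    rw [hN] at h1
    exact h2.2 h1
  have hdZB : Disjoint Z B := by
    rw [disjoint_left]
    intro v h1 h2
    rw [hB, mem_bb] at h2
    exact h2.2.1 h1
  have hNr : N ⊆ range n := by
    rw [hN]
    exact fun v hv => mem_range.2 (side_lt (hNsd hv))
  rw [← hB] at hBsd hBr hS hbb
  rw [← hQ] at hQsd hQr hS hJQ ⊢
  rw [← hN] at hNsd hnb hval hbb ⊢
  clear hlight hy h0
  obtain ⟨SB, hSB⟩ : ∃ SB, SB = sideS a sd S := ⟨_, rfl⟩
  obtain ⟨SQ, hSQ⟩ : ∃ SQ, SQ = sideS a (!sd) S := ⟨_, rfl⟩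
  have hBQ : ∀ v, v ∈ B → v ∈ sideS a (!sd) (range n) → False := by
    intro v h1 h2
    have h3 := (mem_side.1 (hBsd h1)).2
    have h4 := (mem_side.1 h2).2
    rw [h3] at h4
    cases sd <;> simp at h4
  have hQB : ∀ v, v ∈ Q → v ∈ sideS a sd (range n) → False := by
    intro v h1 h2
    have h3 := (mem_side.1 (hQsd h1)).2
    have h4 := (mem_side.1 h2).2
    rw [h3] at h4
    cases sd <;> simp at h4
  have hSBB : SB ⊆ B := by
    intro v hv
    rw [hSB] at hv
    rcases mem_union.1 (hS (mem_side.1 hv).1) with h | h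
    · exact h
    · exact absurd (EExpAux.side_sub hSr hv) (fun h2 => hQB v h h2)
  have hSQQ : SQ ⊆ Q := by
    intro v hv
    rw [hSQ] at hv
    rcases mem_union.1 (hS (mem_side.1 hv).1) with h | h
    · exact absurd (EExpAux.side_sub hSr hv) (fun h2 => hBQ v h h2)
    · exact h
  have hSBS : SB ⊆ S := by rw [hSB]; exact filter_subset _ _
  have hSQS : SQ ⊆ S := by rw [hSQ]; exact filter_subset _ _
  have hSsplit : ∀ v ∈ S, v ∈ SB ∨ v ∈ SQ := by
    intro v hv
    rw [hSB, hSQ, mem_side, mem_side]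
    by_cases h : decide (v < a) = sd
    · exact Or.inl ⟨hv, h⟩
    · right
      refine ⟨hv, ?_⟩
      cases sd <;> simp_all
  have hScard : S.card = SB.card + SQ.card := by
    have h1 : S = SB ∪ SQ := by
      ext v
      rw [mem_union]
      exact ⟨hSsplit v, fun h => h.elim (fun h => hSBS h) (fun h => hSQS h)⟩
    have h2 : Disjoint SB SQ := by
      rw [disjoint_left]
      intro v h3 h4
      exact hBQ v (hSBB h3) (hQsd (hSQQ h4))
    conv_lhs => rw [h1]
    exact card_union_of_disjoint h2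
  obtain ⟨W, hW⟩ : ∃ W, W = N ∪ (Q \ (S ∪ J)) := ⟨_, rfl⟩
  have hWcard : N.card + Q.card = W.card + SQ.card + J.card := by
    have h1 : W.card = N.card + (Q \ (S ∪ J)).card := by
      rw [hW]
      exact card_union_of_disjoint (disjoint_of_subset_right sdiff_subset hdNQ)
    have h2 : Q.card = (Q \ (S ∪ J)).card + (SQ ∪ J).card := by
      have h3 : Q ∩ (S ∪ J) = SQ ∪ J := by
        ext v
        rw [mem_inter, mem_union, mem_union]
        constructor
        · rintro ⟨h4, h5 | h5⟩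
          · rcases hSsplit v h5 with h6 | h6
            · exact absurd h4 (fun h7 => hQB v h7 (hBsd (hSBB h6)))
            · exact Or.inl h6
          · exact Or.inr h5
        · rintro (h4 | h4)
          · exact ⟨hSQQ h4, Or.inl (hSQS h4)⟩
          · exact ⟨hJQ h4, Or.inr h4⟩
      rw [← h3]
      exact (card_sdiff_add_card_inter Q (S ∪ J)).symm
    have h3 : (SQ ∪ J).card = SQ.card + J.card :=
      card_union_of_disjoint (disjoint_of_subset_left hSQS hdSJ)
    omega
  have hLcard : (Z ∪ SB).card = Z.card + SB.card :=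
    card_union_of_disjoint (disjoint_of_subset_right hSBB hdZB)
  have hLr : Z ∪ SB ⊆ range n := union_subset hZr (hSBB.trans hBr)
  -- (1)
  have hstep1 : 4 * (Z ∪ SB).card ≤ 4 * W.card + m := by
    have h1 : ∑ u ∈ Z ∪ SB, dg adj (range n) u = d * (Z ∪ SB).card := by
      rw [sum_congr rfl fun u hu => hh.reg u (mem_range.1 (hLr hu)), sum_const, smul_eq_mul,
        mul_comm]
    have h2 : ∀ u ∈ Z ∪ SB, dg adj (range n) u ≤ dg adj W u + dg adj SQ u := by
      intro u hu
      unfold dg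
      refine le_trans (card_le_card ?_) (card_union_le _ _)
      intro w hw
      rw [mem_filter] at hw
      rw [mem_union, mem_filter, mem_filter]
      have hwn := mem_range.1 hw.1
      have hwNQ : w ∈ N ∪ Q := by
        rcases mem_union.1 hu with h | h
        · rw [mem_union]
          left
          rw [hN, mem_nb]
          exact ⟨hwn, u, h, hw.2⟩
        · apply hNBB
          rw [mem_nb]
          exact ⟨hwn, u, hSBB h, hw.2⟩
      rcases mem_union.1 hwNQ with h | h
      · left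
        refine ⟨?_, hw.2⟩
        rw [hW]
        exact mem_union_left _ h
      · by_cases hwS : w ∈ S
        · right
          refine ⟨?_, hw.2⟩
          rcases hSsplit w hwS with h6 | h6
          · exact absurd h (fun h7 => hQB w h7 (hBsd (hSBB h6)))
          · exact h6
        · by_cases hwJ : w ∈ J
          · exfalso
            rcases mem_union.1 hu with h3 | h3
            · have h4 : w ∈ N := by
                rw [hN, mem_nb]
                exact ⟨hwn, u, h3, hw.2⟩
              exact (disjoint_left.1 hdNQ) h4 h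
            · have h4 := hJS w hwJ u (hSBS h3)
              rw [hh.sym, hw.2] at h4
              exact absurd h4 (by simp)
          · left
            refine ⟨?_, hw.2⟩
            rw [hW, mem_union, mem_sdiff, mem_union]
            right
            exact ⟨h, fun h5 => h5.elim hwS hwJ⟩
    have h3 : ∑ u ∈ Z ∪ SB, dg adj W u ≤ d * W.card := by
      rw [dbl hh.sym]
      have h4 : ∀ w ∈ W, dg adj (Z ∪ SB) w ≤ d := by
        intro w hw
        have hwn : w ∈ range n := by
          rw [hW, mem_union, mem_sdiff] at hw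
          rcases hw with h | h
          · exact hNr h
          · exact hQr h.1
        rw [← hh.reg w (mem_range.1 hwn)]
        exact dg_mono hLr w
      refine (sum_le_card_nsmul _ _ d h4).trans ?_
      rw [smul_eq_mul, mul_comm]
    have h4 : ∑ u ∈ Z ∪ SB, dg adj SQ u ≤ ∑ v ∈ SB, dg adj S v := by
      rw [sum_union (disjoint_of_subset_right hSBB hdZB)]
      have h5 : ∑ u ∈ Z, dg adj SQ u = 0 := by
        refine sum_eq_zero fun u hu => ?_
        unfold dg
        rw [card_eq_zero, filter_eq_empty_iff]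
        intro w hw h6
        have h7 : w ∈ N := by
          rw [hN, mem_nb]
          exact ⟨mem_range.1 (hQr (hSQQ hw)), u, hu, h6⟩
        exact (disjoint_left.1 hdNQ) h7 (hSQQ hw)
      rw [h5, zero_add]
      exact sum_le_sum fun u _ => dg_mono hSQS u
    rw [← hSB] at hle
    have h5 : d * (Z ∪ SB).card ≤ d * W.card + ∑ v ∈ SB, dg adj S v := by
      rw [← h1]
      refine (sum_le_sum h2).trans ?_
      rw [sum_add_distrib]
      exact Nat.add_le_add h3 h4
    have h6 : d * (4 * (Z ∪ SB).card) ≤ d * (4 * W.card + m) := by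
      calc d * (4 * (Z ∪ SB).card) = 4 * (d * (Z ∪ SB).card) := by ring
        _ ≤ 4 * (d * W.card + ∑ v ∈ SB, dg adj S v) := Nat.mul_le_mul_left _ h5
        _ = 4 * (d * W.card) + 4 * ∑ v ∈ SB, dg adj S v := by ring
        _ ≤ 4 * (d * W.card) + m * d := Nat.add_le_add_left hle _
        _ = d * (4 * W.card + m) := by ring
    exact Nat.le_of_mul_le_mul_left h6 (by omega)
  -- the set X
  obtain ⟨X, hX⟩ : ∃ X, X = Z ∪ sideS a sd (rest n adj S) := ⟨_, rfl⟩
  have hRB : sideS a sd (rest n adj S) ⊆ SB := by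
    rw [hSB]
    exact filter_subset_filter _ hm6
  have hRQ : sideS a (!sd) (rest n adj S) ⊆ SQ := by
    rw [hSQ]
    exact filter_subset_filter _ hm6
  have hXcard : X.card + m = Z.card + SB.card := by
    have h1 : X.card = Z.card + (sideS a sd (rest n adj S)).card := by
      rw [hX]
      exact card_union_of_disjoint (disjoint_of_subset_right (hRB.trans hSBB) hdZB)
    have h2 := hm3 sd
    rw [← hSB] at h2
    omega
  have hRQcard := hm3 (!sd)
  rw [← hSQ] at hRQcard
  have hXsd : X ⊆ sideS a sd (range n) := by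
    rw [hX]
    exact union_subset hZ ((hRB.trans hSBB).trans hBsd)
  have hNX : (NB n adj X).card + J.card + (sideS a (!sd) (rest n adj S)).card ≤ N.card + Q.card := by
    have h1 : NB n adj X ⊆ (N ∪ Q) \ (J ∪ sideS a (!sd) (rest n adj S)) := by
      intro w hw
      rw [mem_nb] at hw
      obtain ⟨hwn, u, hu, huw⟩ := hw
      have hu' : u ∈ Z ∨ u ∈ sideS a sd (rest n adj S) := by
        rw [hX] at hu
        exact mem_union.1 hu
      rw [mem_sdiff]
      constructor
      · rcases hu' with h | h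
        · rw [mem_union]
          left
          rw [hN, mem_nb]
          exact ⟨hwn, u, h, huw⟩
        · apply hNBB
          rw [mem_nb]
          exact ⟨hwn, u, hSBB (hRB h), huw⟩
      · intro hcon
        have hwQ : w ∈ Q := by
          rcases mem_union.1 hcon with h | h
          · exact hJQ h
          · exact hSQQ (hRQ h)
        rcases hu' with h | h
        · have h4 : w ∈ N := by
            rw [hN, mem_nb]
            exact ⟨hwn, u, h, huw⟩
          exact (disjoint_left.1 hdNQ) h4 hwQ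
        · rcases mem_union.1 hcon with h3 | h3
          · have h4 := hJS w h3 u (hSBS (hRB h))
            rw [hh.sym, huw] at h4
            exact absurd h4 (by simp)
          · have h4 := hm5 u (mem_side.1 h).1 w (mem_side.1 h3).1
            rw [huw] at h4
            exact absurd h4 (by simp)
    have h2 : J ∪ sideS a (!sd) (rest n adj S) ⊆ N ∪ Q :=
      (union_subset hJQ (hRQ.trans hSQQ)).trans subset_union_right
    have h3 := card_le_card h1
    have h4 : ((N ∪ Q) \ (J ∪ sideS a (!sd) (rest n adj S))).card +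
        (J ∪ sideS a (!sd) (rest n adj S)).card = (N ∪ Q).card :=
      card_sdiff_add_card_eq_card h2
    have h5 : (J ∪ sideS a (!sd) (rest n adj S)).card =
        J.card + (sideS a (!sd) (rest n adj S)).card := by
      refine card_union_of_disjoint ?_
      exact (disjoint_of_subset_left (hRQ.trans hSQS) hdSJ).symm
    have h6 : (N ∪ Q).card = N.card + Q.card := card_union_of_disjoint hdNQ
    omega
  have hNXle : (NB n adj X).card ≤ W.card + m := by omega
  have hX2 : 2 * X.card ≤ a := by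
    have h1 : SB.card ≤ B.card := card_le_card hSBB
    have h2 : X.card ≤ Z.card + B.card := by omega
    have h3 : Z.card ≤ d * Z.card := Nat.le_mul_of_pos_left _ (by omega)
    have h4 : 64 * (d * Z.card) ≤ a := by rw [← mul_assoc]; exact hs
    omega
  have hexp := hh.exp sd X hXsd hX2
  have hNW : N.card ≤ W.card := by
    rw [hW]
    exact card_le_card subset_union_left
  obtain ⟨e, he⟩ : ∃ e, e + (Z ∪ SB).card = W.card + 2 * m :=
    ⟨W.card + 2 * m - (Z ∪ SB).card, by omega⟩
  have heX : e + X.card = W.card + m := by omega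
  have h7m : 7 * m ≤ 4 * e := by omega
  have hsum : (rest n adj S).card + e + Z.card + J.card = N.card + Q.card := by omega
  have hAX : A * X.card ≤ d * e := by
    have h1 : (d + A) * X.card ≤ d * (e + X.card) := by
      rw [heX]
      exact hexp.trans (Nat.mul_le_mul_left _ hNXle)
    rw [add_mul, mul_add] at h1
    omega
  have hAN : A * N.card ≤ 3 * (d * e) := by
    by_cases hc : N.card ≤ 3 * X.card
    · calc A * N.card ≤ A * (3 * X.card) := Nat.mul_le_mul_left _ hc
        _ = 3 * (A * X.card) := by ring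
        _ ≤ 3 * (d * e) := Nat.mul_le_mul_left _ hAX
    · have h1 : 2 * N.card ≤ 3 * e := by omega
      calc A * N.card ≤ (2 * d) * N.card := Nat.mul_le_mul_right _ hAd
        _ = d * (2 * N.card) := by ring
        _ ≤ d * (3 * e) := Nat.mul_le_mul_left _ h1
        _ = 3 * (d * e) := by ring
  have hAZ : A * Z.card ≤ 24 * e := by
    have h1 : d * (A * Z.card) ≤ d * (24 * e) := by
      calc d * (A * Z.card) = A * (d * Z.card) := by ring
        _ ≤ A * (8 * N.card) := Nat.mul_le_mul_left _ hval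
        _ = 8 * (A * N.card) := by ring
        _ ≤ 8 * (3 * (d * e)) := Nat.mul_le_mul_left _ hAN
        _ = d * (24 * e) := by ring
    exact Nat.le_of_mul_le_mul_left h1 (by omega)
  refine ⟨e, m, hm1, h7m, hAZ, hsum, ?_⟩
  have h1 : ind adj S ^ 12 ≤ 2 ^ (11 * e) * 2 ^ (12 * (rest n adj S).card) := by
    calc ind adj S ^ 12 ≤ (3 ^ m * 2 ^ (rest n adj S).card) ^ 12 := Nat.pow_le_pow_left hm4 12
      _ = 3 ^ (12 * m) * 2 ^ (12 * (rest n adj S).card) := by
        rw [mul_pow, ← pow_mul, ← pow_mul, mul_comm m, mul_comm (rest n adj S).card]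
      _ ≤ 2 ^ (11 * e) * 2 ^ (12 * (rest n adj S).card) := Nat.mul_le_mul_right _ (pow_aux h7m)
  calc 2 ^ e * ind adj S ^ 12 ≤ 2 ^ e * (2 ^ (11 * e) * 2 ^ (12 * (rest n adj S).card)) :=
        Nat.mul_le_mul_left _ h1
    _ = 2 ^ (12 * e + 12 * (rest n adj S).card) := by
        rw [← pow_add, ← pow_add]
        congr 1
        ring
    _ ≤ 2 ^ (12 * (N.card + Q.card)) := Nat.pow_le_pow_right (by norm_num) (by omega)

theorem leaf_dead (hh : XHost n a d A adj) (hZ : Z ⊆ sideS a sd (range n))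
    (hV : Val n d adj Z) (hs : 64 * d * Z.card ≤ a) {y : Nd}
    (hy : y ∈ lvT n d 8 adj (BB n a d adj sd Z ∪ QQ n a d adj sd Z, ∅) n) {μ : ℕ}
    (hμ : 96 * μ < (cov n adj y.1).card) :
    2 ^ (7 * μ) * ind adj y.1 ≤ 2 ^ ((NB n adj Z).card + (QQ n a d adj sd Z).card) := by
  obtain ⟨e, m, h1, h2, h3, h4, h5⟩ := leaf_bq hh hZ hV hs hy
  have h6 : 84 * μ ≤ e := by omega
  refine le_of_pow_le_pow_left₀ (n := 12) (by norm_num) (Nat.zero_le _) ?_
  calc (2 ^ (7 * μ) * ind adj y.1) ^ 12 = 2 ^ (84 * μ) * ind adj y.1 ^ 12 := by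
        rw [mul_pow, ← pow_mul]
        congr 2
        ring
    _ ≤ 2 ^ e * ind adj y.1 ^ 12 :=
        Nat.mul_le_mul_right _ (Nat.pow_le_pow_right (by norm_num) h6)
    _ ≤ 2 ^ (12 * ((NB n adj Z).card + (QQ n a d adj sd Z).card)) := h5
    _ = (2 ^ ((NB n adj Z).card + (QQ n a d adj sd Z).card)) ^ 12 := by
        rw [← pow_mul, mul_comm]

theorem om_le (h : Sp n a d A l x adj) (hZ : Z ⊆ sideS a sd (range n))
    (hs : 64 * d * Z.card ≤ a) : 2 ^ (50 * l * Z.card) * om n a d adj sd Z ≤ 2 ^ a := by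
  have hh := h.hh
  by_cases hV : Val n d adj Z
  swap
  · rw [om_zero (fun h1 => hV h1.2), mul_zero]
    exact Nat.zero_le _
  have hl1 := h.l_pos
  have hlge := h.l_ge
  have hdge := h.d_ge
  have h0 : BB n a d adj sd Z ∪ QQ n a d adj sd Z ⊆ range n := by
    refine union_subset ?_ ?_
    · exact fun v hv => mem_range.2 (side_lt (bb_side hv))
    · exact fun v hv => mem_range.2 (side_lt (qq_side hh hv))
  have hind := ind_lvT (m := d) (g := 8) hh.sym hh.irr h0 n
  have hnodes := nodes_bq hh h.hl (by omega) (by omega) hZ n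
  have hnq := nq_le hh hZ
  have hleaf : ∀ y ∈ lvT n d 8 adj (BB n a d adj sd Z ∪ QQ n a d adj sd Z, ∅) n,
      2 ^ (71 * l * Z.card) * ind adj y.1 ≤
        2 ^ ((NB n adj Z).card + (QQ n a d adj sd Z).card) := by
    intro y hy
    obtain ⟨e, m, h1, h2, h3, h4, h5⟩ := leaf_bq hh hZ hV hs hy
    have h6 : 852 * (l * Z.card) ≤ e := by
      have h7 : 10000000 * (l * Z.card) ≤ A * Z.card := by
        rw [← mul_assoc]
        exact Nat.mul_le_mul_right _ h.hA
      omega
    refine le_of_pow_le_pow_left₀ (n := 12) (by norm_num) (Nat.zero_le _) ?_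
    calc (2 ^ (71 * l * Z.card) * ind adj y.1) ^ 12
        = 2 ^ (852 * (l * Z.card)) * ind adj y.1 ^ 12 := by
          rw [mul_pow, ← pow_mul]
          congr 2
          ring
      _ ≤ 2 ^ e * ind adj y.1 ^ 12 :=
          Nat.mul_le_mul_right _ (Nat.pow_le_pow_right (by norm_num) h6)
      _ ≤ 2 ^ (12 * ((NB n adj Z).card + (QQ n a d adj sd Z).card)) := h5
      _ = (2 ^ ((NB n adj Z).card + (QQ n a d adj sd Z).card)) ^ 12 := by
          rw [← pow_mul, mul_comm]
  rw [om_eq hh hZ hV, hind]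
  generalize (NB n adj Z).card + (QQ n a d adj sd Z).card = c at hnq hleaf ⊢
  generalize lvT n d 8 adj (BB n a d adj sd Z ∪ QQ n a d adj sd Z, ∅) n = T at hnodes hleaf ⊢
  have hsum : 2 ^ (71 * l * Z.card) * (T.map (fun y => ind adj y.1)).sum ≤ T.length * 2 ^ c := by
    clear hnodes hind
    induction T with
    | nil => simp
    | cons y T ih =>
      rw [List.map_cons, List.sum_cons, List.length_cons, mul_add, add_mul, one_mul, add_comm]
      exact Nat.add_le_add (ih fun y hy => hleaf y (List.mem_cons_of_mem _ hy))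
        (hleaf y List.mem_cons_self)
  have h2 : 2 ^ (21 * l * Z.card) * (2 ^ (50 * l * Z.card) * (T.map (fun y => ind adj y.1)).sum) ≤
      2 ^ (21 * l * Z.card) * 2 ^ c := by
    calc 2 ^ (21 * l * Z.card) * (2 ^ (50 * l * Z.card) * (T.map (fun y => ind adj y.1)).sum)
        = 2 ^ (71 * l * Z.card) * (T.map (fun y => ind adj y.1)).sum := by
          rw [← mul_assoc, ← pow_add]
          congr 2
          ring
      _ ≤ T.length * 2 ^ c := hsum
      _ ≤ 2 ^ (21 * l * Z.card) * 2 ^ c := Nat.mul_le_mul_right _ hnodes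
  have h3 : 2 ^ (50 * l * Z.card) * (T.map (fun y => ind adj y.1)).sum ≤ 2 ^ c :=
    Nat.le_of_mul_le_mul_left h2 (by positivity)
  calc 2 ^ (50 * l * Z.card) * (2 ^ (a - c) * (T.map (fun y => ind adj y.1)).sum)
      = 2 ^ (a - c) * (2 ^ (50 * l * Z.card) * (T.map (fun y => ind adj y.1)).sum) := by ring
    _ ≤ 2 ^ (a - c) * 2 ^ c := Nat.mul_le_mul_left _ h3
    _ = 2 ^ a := by
        rw [← pow_add]
        congr 1
        omega

end Pool.Agent.Lib.Pa7c826k
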