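import Pool.Agent.Lib.Pa7c826k.WB

/-!
The computed approximation of the weight of a skeleton.
-/

namespace Pool.Agent.Lib.Pa7c826k

open Finset Pool.Agent.Lib.Pa7c826 Pool.Agent.Lib.Pa7c826t Pool.Agent.Lib.Pa7c826e

variable {n a d A l x : ℕ} {adj : ℕ → ℕ → Bool} {sd : Bool} {Z : Finset ℕ}

theorem vld_iff (hZ : Z ⊆ range n) :
    vld n a d adj sd Z = true ↔ Z ⊆ sideS a sd (range n) ∧ Val n d adj Z := by
  unfold vld
  rw [decide_eq_true_eq]
  constructor
  · intro h
    exact ⟨fun u hu => (h u (hZ hu) hu).1, fun u hu => (h u (hZ hu) hu).2⟩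
  · rintro ⟨h1, h2⟩ u _ hu
    exact ⟨h1 hu, h2 u hu⟩

namespace OmErrAux

theorem ind_sum (hs : ∀ u v, adj u v = adj v u) (hl : ∀ u, adj u u = false) {S : Finset ℕ}
    (hS : S ⊆ range n) :
    ind adj S = ∑ τ ∈ range (2 ^ (cov n adj S).card),
      if indB n adj (sel (cov n adj S) τ) = true then
        2 ^ (freeS n adj (rest n adj S) (sel (cov n adj S) τ)).card else 0 := by
  rw [ind_cover hs hS (cov_union_rest S) (cov_disjoint_rest S) (rest_spec hs hl hS).1]
  exact (sum_sel (cov n adj S) (fun T => if indB n adj T = true then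
    2 ^ (freeS n adj (rest n adj S) T).card else 0)).symm

theorem free_le (S T : Finset ℕ) : (freeS n adj S T).card ≤ S.card := card_filter_le _ _

/-- the real quotient -/
theorem quot_eq {p E f : ℕ} (hf : f ≤ E) :
    ((2 ^ p : ℕ) : ℝ) / ((2 ^ (E - f) : ℕ) : ℝ) = 2 ^ p * ((2 ^ f : ℕ) : ℝ) / 2 ^ E := by
  push_cast
  have h1 : (2 : ℝ) ^ E = 2 ^ (E - f) * 2 ^ f := by
    rw [← pow_add]
    congr 1
    omega
  rw [h1]
  field_simp

theorem term_le {p E f : ℕ} (hf : f ≤ E) :
    ((2 ^ p / 2 ^ (E - f) : ℕ) : ℝ) ≤ 2 ^ p * ((2 ^ f : ℕ) : ℝ) / 2 ^ E := by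
  rw [← quot_eq hf]
  exact Nat.cast_div_le

theorem term_ge {p E f : ℕ} (hf : f ≤ E) :
    2 ^ p * ((2 ^ f : ℕ) : ℝ) / 2 ^ E ≤ ((2 ^ p / 2 ^ (E - f) : ℕ) : ℝ) + 1 := by
  rw [← quot_eq hf]
  have h0 : (0 : ℝ) < ((2 ^ (E - f) : ℕ) : ℝ) := by positivity
  rw [div_le_iff₀ h0]
  have h1 : 2 ^ p < (2 ^ p / 2 ^ (E - f) + 1) * 2 ^ (E - f) := by
    have := Nat.lt_succ_self (2 ^ p / 2 ^ (E - f))
    exact Nat.lt_mul_of_div_lt this (by positivity)
  exact_mod_cast h1.le

end OmErrAux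

open OmErrAux

theorem leafU_le (hs : ∀ u v, adj u v = adj v u) (hl : ∀ u, adj u u = false) {S : Finset ℕ}
    (hS : S ⊆ range n) {k p E : ℕ} (hE : (rest n adj S).card ≤ E) :
    (leafU n adj k p E S : ℝ) ≤ 2 ^ p * (ind adj S / 2 ^ E) := by
  unfold leafU
  split_ifs with hk
  · rw [ind_sum hs hl hS]
    push_cast
    rw [Finset.sum_div, Finset.mul_sum]
    apply sum_le_sum
    intro τ _
    split_ifs with hi
    · have h1 := term_le (p := p) ((free_le (n := n) (adj := adj) (rest n adj S)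
        (sel (cov n adj S) τ)).trans hE)
      calc _ ≤ _ := h1
        _ = _ := by push_cast; ring
    · simp
  · push_cast
    positivity

theorem leafU_ge (hs : ∀ u v, adj u v = adj v u) (hl : ∀ u, adj u u = false) {S : Finset ℕ}
    (hS : S ⊆ range n) {k p E : ℕ} (hE : (rest n adj S).card ≤ E)
    (hk : (cov n adj S).card ≤ k) :
    (2 : ℝ) ^ p * (ind adj S / 2 ^ E) ≤ leafU n adj k p E S + 2 ^ k := by
  unfold leafU
  rw [if_pos hk, ind_sum hs hl hS]
  have h1 : ∀ τ ∈ range (2 ^ (cov n adj S).card),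
      (2 : ℝ) ^ p * (((if indB n adj (sel (cov n adj S) τ) = true then
        2 ^ (freeS n adj (rest n adj S) (sel (cov n adj S) τ)).card else 0 : ℕ) : ℝ) / 2 ^ E) ≤
      ((if indB n adj (sel (cov n adj S) τ) = true then
        2 ^ p / 2 ^ (E - (freeS n adj (rest n adj S) (sel (cov n adj S) τ)).card) else 0 : ℕ) : ℝ)
        + 1 := by
    intro τ _
    split_ifs with hi
    · have h1 := term_ge (p := p) ((free_le (n := n) (adj := adj) (rest n adj S)
        (sel (cov n adj S) τ)).trans hE)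
      calc _ = _ := by ring
        _ ≤ _ := h1
    · simp
  have h2 := sum_le_sum h1
  rw [← mul_sum, ← sum_div, ← Nat.cast_sum, sum_add_distrib, ← Nat.cast_sum] at h2
  have h3 : ∑ _τ ∈ range (2 ^ (cov n adj S).card), (1 : ℝ) ≤ 2 ^ k := by
    rw [sum_const, card_range, nsmul_eq_mul, mul_one]
    push_cast
    exact pow_le_pow_right₀ (by norm_num) hk
  linarith

namespace OmErrAux

theorem w0_eq (hh : XHost n a d A adj) (hZ : Z ⊆ sideS a sd (range n)) (hV : Val n d adj Z) :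
    w0 n a d adj sd Z = (ind adj (BB n a d adj sd Z ∪ QQ n a d adj sd Z) : ℝ) /
      2 ^ ((NB n adj Z).card + (QQ n a d adj sd Z).card) := by
  unfold w0
  rw [om_eq hh hZ hV]
  have hle := nq_le hh hZ
  set E := (NB n adj Z).card + (QQ n a d adj sd Z).card
  push_cast
  have h1 : (2 : ℝ) ^ a = 2 ^ (a - E) * 2 ^ E := by
    rw [← pow_add]
    congr 1
    omega
  rw [h1]
  field_simp

theorem bq_sub : BB n a d adj sd Z ∪ QQ n a d adj sd Z ⊆ range n := by
  apply union_subset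
  · exact (filter_subset _ _).trans (filter_subset _ _)
  · exact sdiff_subset.trans (filter_subset _ _)

theorem small (hs : Z.card ≤ Ks a d) : 64 * d * Z.card ≤ a := by
  unfold Ks at hs
  have h1 : Z.card * (256 * d) ≤ a :=
    (Nat.mul_le_mul_right _ hs).trans (Nat.div_mul_le_self _ _)
  nlinarith

theorem list_cast (L : List Nd) (f : Finset ℕ → ℕ) :
    (((L.map (fun y => f y.1)).sum : ℕ) : ℝ) = (L.map (fun y => (f y.1 : ℝ))).sum := by
  induction L with
  | nil => simp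
  | cons y L ih => simp [ih]

theorem list_mul (L : List Nd) (c E : ℝ) (f : Nd → ℝ) :
    c * ((L.map f).sum / E) = (L.map (fun y => c * (f y / E))).sum := by
  induction L with
  | nil => simp
  | cons y L ih => simp only [List.map_cons, List.sum_cons, ← ih]; ring

theorem list_add (L : List Nd) (c : ℝ) (f : Nd → ℝ) :
    (L.map (fun y => f y + c)).sum = (L.map f).sum + L.length * c := by
  induction L with
  | nil => simp
  | cons y L ih => simp only [List.map_cons, List.sum_cons, ih, List.length_cons]; push_cast; ring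

theorem list_le (L : List Nd) (f g : Nd → ℝ) (h : ∀ y ∈ L, f y ≤ g y) :
    (L.map f).sum ≤ (L.map g).sum := by
  induction L with
  | nil => simp
  | cons y L ih =>
    simp only [List.map_cons, List.sum_cons]
    exact add_le_add (h y (by simp)) (ih (fun z hz => h z (by simp [hz])))

theorem omU_eq (k p : ℕ) (hv : vld n a d adj sd Z = true) :
    (omU n a d adj sd k p Z : ℝ) =
      ((lvT n d 8 adj (BB n a d adj sd Z ∪ QQ n a d adj sd Z, ∅) n).map
        (fun y => (leafU n adj k p ((NB n adj Z).card + (QQ n a d adj sd Z).card) y.1 : ℝ))).sum := by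
  unfold omU
  rw [if_pos hv, itl_lvT, List.map_map, ← list_cast]
  rfl

end OmErrAux

theorem omU_le (h : Sp n a d A l x adj) (hZ : Z ⊆ range n) (hs : Z.card ≤ Ks a d)
    (k p : ℕ) : (omU n a d adj sd k p Z : ℝ) ≤ 2 ^ p * w0 n a d adj sd Z := by
  by_cases hv : vld n a d adj sd Z = true
  · obtain ⟨hZs, hV⟩ := (vld_iff hZ).1 hv
    rw [omU_eq k p hv, w0_eq h.hh hZs hV, ind_lvT h.hh.sym h.hh.irr bq_sub n, list_cast, list_mul]
    apply list_le
    intro y hy
    obtain ⟨e, m, _, _, _, h4, _⟩ := leaf_bq h.hh hZs hV (small hs) hy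
    have hyS : y.1 ⊆ range n :=
      ((lvT_tree h.hh.sym h.hh.irr bq_sub n y hy).1).trans bq_sub
    exact leafU_le h.hh.sym h.hh.irr hyS (by omega)
  · have h1 : omU n a d adj sd k p Z = 0 := by
      unfold omU
      rw [if_neg hv]
    rw [h1]
    unfold w0
    push_cast
    positivity

theorem omU_ge (h : Sp n a d A l x adj) (hZ : Z ⊆ range n) (hs : Z.card ≤ Ks a d)
    (μ p : ℕ) : (2 : ℝ) ^ p * w0 n a d adj sd Z ≤ omU n a d adj sd (96 * μ) p Z +
      2 ^ (21 * l * Z.card) * (2 ^ (96 * μ) + 2 ^ p / 2 ^ (7 * μ)) := by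
  by_cases hv : vld n a d adj sd Z = true
  · obtain ⟨hZs, hV⟩ := (vld_iff hZ).1 hv
    rw [omU_eq _ p hv, w0_eq h.hh hZs hV, ind_lvT h.hh.sym h.hh.irr bq_sub n, list_cast, list_mul]
    set E := (NB n adj Z).card + (QQ n a d adj sd Z).card with hE
    set L := lvT n d 8 adj (BB n a d adj sd Z ∪ QQ n a d adj sd Z, ∅) n with hL
    set c : ℝ := 2 ^ (96 * μ) + 2 ^ p / 2 ^ (7 * μ) with hc
    have hc0 : 0 ≤ c := by positivity
    have h1 : (L.map (fun y => (2 : ℝ) ^ p * ((ind adj y.1 : ℝ) / 2 ^ E))).sum ≤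
        (L.map (fun y => (leafU n adj (96 * μ) p E y.1 : ℝ) + c)).sum := by
      apply list_le
      intro y hy
      obtain ⟨e, m, _, _, _, h4, _⟩ := leaf_bq h.hh hZs hV (small hs) hy
      have hyS : y.1 ⊆ range n :=
        ((lvT_tree h.hh.sym h.hh.irr bq_sub n y hy).1).trans bq_sub
      rcases le_or_gt (cov n adj y.1).card (96 * μ) with hk | hk
      · have h5 := leafU_ge h.hh.sym h.hh.irr hyS (k := 96 * μ) (p := p) (E := E) (by omega) hk
        have h6 : (0 : ℝ) ≤ 2 ^ p / 2 ^ (7 * μ) := by positivity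
        rw [hc]
        linarith
      · have h5 := leaf_dead h.hh hZs hV (small hs) hy hk
        have h6 : (2 : ℝ) ^ (7 * μ) * ind adj y.1 ≤ 2 ^ E := by exact_mod_cast h5
        have h7 : (ind adj y.1 : ℝ) / 2 ^ E ≤ 1 / 2 ^ (7 * μ) := by
          rw [div_le_div_iff₀ (by positivity) (by positivity)]
          linarith
        have h8 : (2 : ℝ) ^ p * ((ind adj y.1 : ℝ) / 2 ^ E) ≤ 2 ^ p / 2 ^ (7 * μ) := by
          calc (2 : ℝ) ^ p * ((ind adj y.1 : ℝ) / 2 ^ E) ≤ 2 ^ p * (1 / 2 ^ (7 * μ)) :=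
                mul_le_mul_of_nonneg_left h7 (by positivity)
            _ = _ := by ring
        have h9 : (0 : ℝ) ≤ leafU n adj (96 * μ) p E y.1 := Nat.cast_nonneg _
        have h10 : (0 : ℝ) ≤ 2 ^ (96 * μ) := by positivity
        rw [hc]
        linarith
    rw [list_add] at h1
    have h2 : (L.length : ℝ) ≤ 2 ^ (21 * l * Z.card) := by
      have h3 := nodes_bq h.hh h.hl (by have := h.l_ge; omega)
        (by have := h.d_ge; have := h.l_pos; omega) hZs (sd := sd) n
      exact_mod_cast h3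
    have h3 := mul_le_mul_of_nonneg_right h2 hc0
    linarith
  · have h1 : ¬ (Z ⊆ sideS a sd (range n) ∧ Val n d adj Z) := fun hc => hv ((vld_iff hZ).2 hc)
    have h2 : w0 n a d adj sd Z = 0 := by
      unfold w0
      rw [om_zero h1]
      simp
    have h3 : (0 : ℝ) ≤ 2 ^ (21 * l * Z.card) * (2 ^ (96 * μ) + 2 ^ p / 2 ^ (7 * μ)) := by
      positivity
    have h4 : (0 : ℝ) ≤ omU n a d adj sd (96 * μ) p Z := Nat.cast_nonneg _
    rw [h2, mul_zero]
    linarith

end Pool.Agent.Lib.Pa7c826k
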