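import Pool.Agent.Lib.Pa7c826k.LeafF
import Pool.Agent.Lib.Pa7c826k.Nodes
import Pool.Agent.Lib.Pa7c826k.SkelEq

/-!
There are few independent sets whose skeletons on both sides are large.

PROOFS. `leaf_all`. Let `y = (S, J)` be a leaf of the tree on `range n`, `m` as in `cov_side`,
`R = rest n adj S`, `M = R ∪ J`: an independent set (`lvT_tree`), `|M| = |S| - 2 m + |J| ≤ a`
(`indep_le`); `e = a - |M|`. `8 dg adj S v < d` for `v ∈ S` (`lvT_light`).
(1) `4 (|S| + |J|) ≤ 4 a + m`: let `L = sideS a true (S ∪ J)`; each vertex of `L` has degree `d`, its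
neighbours are on the other side. Edges between `L` and `sideS a false S` start in `S`, so there are
at most `m d / 4` of them (`light_edges`); there are no edges between `L` and `sideS a false J`. All
others end in the remaining `a - |sideS a false S| - |sideS a false J|` vertices of the other side
(`card_side`), each of degree `d`. So
`d |L| ≤ d (a - |sideS a false (S ∪ J)|) + m d / 4` (`card_split`). With `|S| + |J| + e = a + 2 m`:
`7 m ≤ 4 e`. (2) `ind adj S ^ 12 ≤ 3 ^ (12 m) 2 ^ (12 |R|) ≤ 2 ^ (11 e + 12 |R|)`, `|R| + e ≤ a`.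
(3) Let `sd` be a side with `2 |sideS a sd M| ≤ a` (it exists: `card_split`, `|M| ≤ a`). `NB` of
`sideS a sd M` is disjoint from `sideS a (!sd) M`, so `|NB| ≤ a - |sideS a (!sd) M|` (`core0`,
`Pa7c826e/EExp.lean`) and `(d + A) |sideS a sd M| ≤ d (a - |sideS a (!sd) M|)`:
`A |sideS a sd M| ≤ d e`.
`cnt_large`. By `cnt_lvT` (`t = n`) and `nodes_all` (`h = a / d + 1`) it suffices that for every leaf
`y = (S, J)`, `2 ^ (x + 4 + 17 l h) * N ≤ 2 ^ a`, `N` the number of `I' ∈ IS adj S` such that both
skeletons of `I' ∪ J` are large. Numbers: `l ≥ 23`, `d ≥ 5000000 l`, `a ≥ 192 d (x + 4)`; so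
`a / d ≥ 192 (x + 4) ≥ 768`, `h ≤ 2 (a / d)`, `l h ≤ 2 a / 5000000`, `x + 4 ≤ a / (192 * 5000000)`.
Case 1: `600 l a ≤ d e`. Then `e ≥ 600 l (a / d)`, `N ≤ ind adj S`,
`(2 ^ (50 l (a / d)) * ind) ^ 12 ≤ 2 ^ e * ind ^ 12 ≤ 2 ^ (12 a)`, and
`x + 4 + 17 l h ≤ 50 l (a / d)` since `17 l h ≤ 17 l (a / d) + 17 l`.
Case 2: `d e < 600 l a`. Then for the side `sd` of (3) `A |sideS a sd M| < 600 l a`, so
`|sideS a sd M| ≤ 600 a / 10000000`; `7 m ≤ 4 e`, `e < 600 l a / d ≤ 600 a / 5000000`; so
`|sideS a sd S| = |sideS a sd R| + m ≤ a / 5000`. Let `I' ∈ IS adj S` be counted, `I = I' ∪ J`,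
`Z = skel (sideS a sd I)`, `a < 256 d |Z|`. `Val Z` (`skel_iff`), so by `val_nb`
`a < 2048 |NB Z|`, and `NB Z ⊆ NB (sideS a sd I)` (`skel_sub`, `nb_mono`) is disjoint from
`sideS a (!sd) I`. So `I'` is determined by `P = sideS a sd I' ⊆ sideS a sd S` (at most `2 ^ (a / 5000)`
choices) and `sideS a (!sd) I'`, a subset of `sideS a (!sd) (range n)` without
`NB (sideS a sd (P ∪ J))`, which has more than `a / 2048` elements: at most `2 ^ (a - a / 2048 - 1)`
choices for each `P`. So `N ≤ 2 ^ (a / 5000 + a - a / 2048)` and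
`x + 4 + 17 l h + a / 5000 ≤ a / 2048`.
-/

namespace Pool.Agent.Lib.Pa7c826k

open Finset Pool.Agent.Lib.Pa7c826 Pool.Agent.Lib.Pa7c826t Pool.Agent.Lib.Pa7c826e

variable {n a d A l x : ℕ} {adj : ℕ → ℕ → Bool}

namespace LargeAux

/-- double counting of the edges between `L` and `O` -/
theorem edges (hh : XHost n a d A adj) {L O : Finset ℕ} (hL : L ⊆ range n) (hO : O ⊆ range n) :
    ∑ v ∈ L, dg adj O v ≤ d * O.card := by
  have h1 : ∑ v ∈ L, dg adj O v = ∑ u ∈ O, (L.filter (fun v => adj v u = true)).card := by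
    unfold dg
    exact sum_card_bipartiteAbove_eq_sum_card_bipartiteBelow (fun v u => adj v u = true)
  rw [h1]
  calc ∑ u ∈ O, (L.filter (fun v => adj v u = true)).card ≤ ∑ _u ∈ O, d := by
        refine sum_le_sum fun u hu => ?_
        rw [← hh.reg u (mem_range.1 (hO hu))]
        unfold dg
        refine card_le_card fun v hv => ?_
        rw [mem_filter] at hv ⊢
        exact ⟨hL hv.1, by rw [hh.sym]; exact hv.2⟩
    _ = d * O.card := by rw [sum_const, smul_eq_mul, Nat.mul_comm]

theorem side_union (sd : Bool) (X Y : Finset ℕ) :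
    sideS a sd (X ∪ Y) = sideS a sd X ∪ sideS a sd Y := filter_union _ _ _

theorem side_disj (sd : Bool) {X Y : Finset ℕ} (h : Disjoint X Y) :
    Disjoint (sideS a sd X) (sideS a sd Y) :=
  disjoint_filter_filter h

/-- neighbours are on the other side -/
theorem other (hh : XHost n a d A adj) {u v : ℕ} {sd : Bool} (h : adj u v = true)
    (hu : decide (u < a) = sd) : decide (v < a) = !sd := by
  have h1 := hh.bip u v h
  cases sd with
  | true =>
    rw [decide_eq_true_eq] at hu
    rw [Bool.not_true, decide_eq_false_iff_not]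
    exact h1.1 hu
  | false =>
    rw [decide_eq_false_iff_not] at hu
    rw [Bool.not_false, decide_eq_true_eq]
    by_contra h2
    exact hu (h1.2 h2)

/-- step (1) -/
theorem step1 (hh : XHost n a d A adj) {S J : Finset ℕ} (hS : S ⊆ range n) (hJ : J ⊆ range n)
    (hd : Disjoint S J) (hJJ : ∀ u ∈ J, ∀ v ∈ J, adj u v = false)
    (hJS : ∀ u ∈ J, ∀ v ∈ S, adj u v = false) (hl : ∀ v ∈ S, 8 * dg adj S v ≤ d) {m : ℕ}
    (hm : (cov n adj S).card = 2 * m) : 4 * (S.card + J.card) ≤ 4 * a + m := by
  classical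
  set L := sideS a true (S ∪ J) with hL
  set O := sideS a false (range n) \ (S ∪ J) with hO
  have hSJ : S ∪ J ⊆ range n := union_subset hS hJ
  have hLr : L ⊆ range n := (filter_subset _ _).trans hSJ
  have hOr : O ⊆ range n := sdiff_subset.trans (filter_subset _ _)
  have h1 := edges hh hLr hOr
  have h2 := light_edges hh hS hl hm true
  have h3 : ∀ v ∈ L, d ≤ (if v ∈ S then dg adj S v else 0) + dg adj O v := by
    intro v hv
    have hvL := mem_filter.1 hv
    rw [← hh.reg v (mem_range.1 (hLr hv))]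
    unfold dg
    have hsub : (range n).filter (fun u => adj v u = true) ⊆
        (if v ∈ S then S.filter (fun u => adj v u = true) else ∅) ∪
          O.filter (fun u => adj v u = true) := by
      intro u hu
      rw [mem_filter] at hu
      have hus : decide (u < a) = false := other hh hu.2 hvL.2
      rw [mem_union, mem_filter]
      by_cases huS : u ∈ S
      · left
        rcases mem_union.1 hvL.1 with h | h
        · rw [if_pos h, mem_filter]
          exact ⟨huS, hu.2⟩
        · have := hJS v h u huS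
          rw [hu.2] at this
          exact absurd this (by simp)
      · by_cases huJ : u ∈ J
        · exfalso
          rcases mem_union.1 hvL.1 with h | h
          · have := hJS u huJ v h
            rw [hh.sym, hu.2] at this
            exact absurd this (by simp)
          · have := hJJ v h u huJ
            rw [hu.2] at this
            exact absurd this (by simp)
        · right
          refine ⟨?_, hu.2⟩
          rw [hO, mem_sdiff, mem_union]
          exact ⟨mem_filter.2 ⟨hu.1, hus⟩, fun h => h.elim huS huJ⟩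
    refine (card_le_card hsub).trans ((card_union_le _ _).trans (Nat.add_le_add ?_ le_rfl))
    split_ifs
    · exact le_rfl
    · simp
  have h4 : d * L.card ≤ ∑ v ∈ sideS a true S, dg adj S v + ∑ v ∈ L, dg adj O v := by
    calc d * L.card = ∑ _v ∈ L, d := by rw [sum_const, smul_eq_mul, Nat.mul_comm]
      _ ≤ ∑ v ∈ L, ((if v ∈ S then dg adj S v else 0) + dg adj O v) := sum_le_sum h3
      _ = (∑ v ∈ L, if v ∈ S then dg adj S v else 0) + ∑ v ∈ L, dg adj O v := sum_add_distrib
      _ = ∑ v ∈ sideS a true S, dg adj S v + ∑ v ∈ L, dg adj O v := by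
          congr 1
          rw [← sum_filter]
          refine sum_congr ?_ fun _ _ => rfl
          ext v
          rw [hL, mem_filter]
          unfold sideS
          rw [mem_filter, mem_filter, mem_union]
          tauto
  have h5 : O.card + (sideS a false (S ∪ J)).card = a := by
    have h6 : sideS a false (S ∪ J) ⊆ sideS a false (range n) := EExpAux.side_sub hSJ
    have h7 : O = sideS a false (range n) \ sideS a false (S ∪ J) := by
      ext v
      rw [hO, mem_sdiff, mem_sdiff]
      unfold sideS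
      rw [mem_filter, mem_filter]
      tauto
    rw [h7, card_sdiff_of_subset h6, card_side hh.hn]
    have h8 := card_le_card h6
    rw [card_side hh.hn] at h8
    omega
  have h6 := EExpAux.card_split (a := a) true (S ∪ J)
  rw [Bool.not_true, card_union_of_disjoint hd, ← hL] at h6
  have hdpos := hh.hd
  have h7 : d * (4 * L.card) ≤ d * (m + 4 * O.card) := by
    calc d * (4 * L.card) = 4 * (d * L.card) := by ring
      _ ≤ 4 * (∑ v ∈ sideS a true S, dg adj S v + ∑ v ∈ L, dg adj O v) :=
          Nat.mul_le_mul_left 4 h4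
      _ = 4 * ∑ v ∈ sideS a true S, dg adj S v + 4 * ∑ v ∈ L, dg adj O v := by ring
      _ ≤ m * d + 4 * (d * O.card) := Nat.add_le_add h2 (Nat.mul_le_mul_left 4 h1)
      _ = d * (m + 4 * O.card) := by ring
  have h8 := Nat.le_of_mul_le_mul_left h7 hdpos
  omega

end LargeAux

theorem leaf_all (hh : XHost n a d A adj) {y : Nd} (hy : y ∈ lvT n d 8 adj (range n, ∅) n) :
    ∃ e m, 7 * m ≤ 4 * e ∧ (rest n adj y.1).card + y.2.card + e = a ∧
      (∀ sd, (sideS a sd y.1).card = (sideS a sd (rest n adj y.1)).card + m) ∧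
      2 ^ e * ind adj y.1 ^ 12 ≤ 2 ^ (12 * a) ∧
      ∃ sd, A * (sideS a sd (rest n adj y.1 ∪ y.2)).card ≤ d * e := by
  classical
  obtain ⟨hS, hJ, hd, hJJ, hJS⟩ := lvT_tree hh.sym hh.irr (subset_refl (range n)) n y hy
  have hlt : ∀ v ∈ y.1, 8 * dg adj y.1 v ≤ d := by
    intro v hv
    have h1 := lvT_light (subset_refl (range n)) y hy v
    unfold hvy at h1
    rw [Bool.and_eq_false_iff, decide_eq_false_iff_not, decide_eq_false_iff_not] at h1
    rcases h1 with h1 | h1
    · exact absurd hv h1
    · omega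
  obtain ⟨m, hm, hr, hsd, hind, hrr, hrS⟩ := cov_side hh hS
  have h1 := LargeAux.step1 hh hS hJ hd hJJ hJS hlt hm
  set R := rest n adj y.1 with hR
  have hdR : Disjoint R y.2 := hd.mono_left hrS
  have hMr : R ∪ y.2 ⊆ range n := union_subset (hrS.trans hS) hJ
  have hMI : ∀ u ∈ R ∪ y.2, ∀ v ∈ R ∪ y.2, adj u v = false := by
    intro u hu v hv
    rcases mem_union.1 hu with hu | hu
    · rcases mem_union.1 hv with hv | hv
      · exact hrr u hu v hv
      · rw [hh.sym]
        exact hJS v hv u (hrS hu)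
    · rcases mem_union.1 hv with hv | hv
      · exact hJS u hu v (hrS hv)
      · exact hJJ u hu v hv
  have hM := indep_le hh hMr hMI
  have hMc : (R ∪ y.2).card = R.card + y.2.card := card_union_of_disjoint hdR
  obtain ⟨e, he⟩ := Nat.exists_eq_add_of_le hM
  refine ⟨e, m, by omega, by omega, hsd, ?_, ?_⟩
  · have h2 : ind adj y.1 ^ 12 ≤ 2 ^ (11 * e) * 2 ^ (12 * R.card) := by
      calc ind adj y.1 ^ 12 ≤ (3 ^ m * 2 ^ R.card) ^ 12 := Nat.pow_le_pow_left hind 12
        _ = 3 ^ (12 * m) * 2 ^ (12 * R.card) := by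
            rw [mul_pow, ← pow_mul, ← pow_mul, Nat.mul_comm m, Nat.mul_comm R.card]
        _ ≤ 2 ^ (11 * e) * 2 ^ (12 * R.card) :=
            Nat.mul_le_mul_right _ (pow_aux (by omega))
    calc 2 ^ e * ind adj y.1 ^ 12 ≤ 2 ^ e * (2 ^ (11 * e) * 2 ^ (12 * R.card)) :=
          Nat.mul_le_mul_left _ h2
      _ = 2 ^ (e + (11 * e + 12 * R.card)) := by rw [pow_add, pow_add]
      _ ≤ 2 ^ (12 * a) := Nat.pow_le_pow_right (by norm_num) (by omega)
  · have key : ∀ sd : Bool, 2 * (sideS a sd (R ∪ y.2)).card ≤ a →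
        A * (sideS a sd (R ∪ y.2)).card ≤ d * e := by
      intro sd hsd2
      have c1 := EExpAux.core0 hh sd hMr hMI
      have c2 := EExpAux.card_split (a := a) sd (R ∪ y.2)
      have c4 := hh.exp sd (sideS a sd (R ∪ y.2)) (EExpAux.side_sub hMr) hsd2
      have c5 : (NB n adj (sideS a sd (R ∪ y.2))).card ≤ (sideS a sd (R ∪ y.2)).card + e := by
        omega
      have c6 := Nat.mul_le_mul_left d c5
      nlinarith
    have c2 := EExpAux.card_split (a := a) true (R ∪ y.2)
    rw [Bool.not_true] at c2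
    rcases le_total (sideS a true (R ∪ y.2)).card (sideS a false (R ∪ y.2)).card with h | h
    · exact ⟨true, key true (by omega)⟩
    · exact ⟨false, key false (by omega)⟩

namespace LargeAux

/-- counting in the second case -/
theorem cnt2 (hh : XHost n a d A adj) {S J : Finset ℕ} (hS : S ⊆ range n) (hJ : J ⊆ range n)
    (hJJ : ∀ u ∈ J, ∀ v ∈ J, adj u v = false) (hJS : ∀ u ∈ J, ∀ v ∈ S, adj u v = false)
    (sd : Bool) {c : ℕ} (hc : 2048 * (c + (sideS a sd S).card) ≤ a) :
    2 ^ c * ((IS adj S).filter (fun I' =>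
      a < 256 * d * (skel n d adj (sideS a sd (I' ∪ J))).card)).card ≤ 2 ^ a := by
  classical
  set F := (IS adj S).filter (fun I' =>
      a < 256 * d * (skel n d adj (sideS a sd (I' ∪ J))).card) with hF
  -- facts on the elements of `F`
  have hfact : ∀ I' ∈ F, c + (sideS a sd S).card ≤ (NB n adj (sideS a sd I' ∪ sideS a sd J)).card ∧
      sideS a (!sd) I' ⊆
        sideS a (!sd) (range n) \ NB n adj (sideS a sd I' ∪ sideS a sd J) := by
    intro I' hI'
    obtain ⟨hI1, hI2⟩ := mem_filter.1 hI'
    obtain ⟨hIS, hII⟩ := mem_IS.1 hI1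
    have hIr : I' ∪ J ⊆ range n := union_subset (hIS.trans hS) hJ
    have hIJ : ∀ u ∈ I' ∪ J, ∀ v ∈ I' ∪ J, adj u v = false := by
      intro u hu v hv
      rcases mem_union.1 hu with hu | hu
      · rcases mem_union.1 hv with hv | hv
        · exact hII u hu v hv
        · rw [hh.sym]
          exact hJS v hv u (hIS hu)
      · rcases mem_union.1 hv with hv | hv
        · exact hJS u hu v (hIS hv)
        · exact hJJ u hu v hv
    have hside : sideS a sd (I' ∪ J) ⊆ sideS a sd (range n) := EExpAux.side_sub hIr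
    obtain ⟨z1, z2, -⟩ := (skel_iff (n := n) (d := d) (adj := adj) hside
      (Z := skel n d adj (sideS a sd (I' ∪ J)))).1 rfl
    have h1 := val_nb hh (z1.trans hside) z2
    have h2 : (NB n adj (skel n d adj (sideS a sd (I' ∪ J)))).card ≤
        (NB n adj (sideS a sd (I' ∪ J))).card := card_le_card (EExpAux.nb_mono z1)
    have h3 : 256 * d * (skel n d adj (sideS a sd (I' ∪ J))).card =
        256 * (d * (skel n d adj (sideS a sd (I' ∪ J))).card) := by ring
    rw [← side_union]
    refine ⟨by omega, ?_⟩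
    intro v hv
    rw [mem_sdiff]
    have hvI := mem_filter.1 hv
    refine ⟨EExpAux.side_sub (hIS.trans hS) hv, fun hc => ?_⟩
    simp only [NB, mem_filter] at hc
    obtain ⟨_, u, hu, huv⟩ := hc
    have := hIJ u (mem_filter.1 hu).1 v (mem_union_left _ hvI.1)
    rw [huv] at this
    exact absurd this (by simp)
  by_cases hFe : F = ∅
  · rw [hFe, card_empty, Nat.mul_zero]
    exact Nat.zero_le _
  obtain ⟨I0, hI0⟩ := nonempty_iff_ne_empty.2 hFe
  have hNBa : ∀ I' ∈ F, (NB n adj (sideS a sd I' ∪ sideS a sd J)).card ≤ a ∧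
      (sideS a (!sd) (range n) \ NB n adj (sideS a sd I' ∪ sideS a sd J)).card =
        a - (NB n adj (sideS a sd I' ∪ sideS a sd J)).card := by
    intro I' hI'
    obtain ⟨hIS, -⟩ := mem_IS.1 (mem_filter.1 hI').1
    have h1 : sideS a sd I' ∪ sideS a sd J ⊆ sideS a sd (range n) :=
      union_subset (EExpAux.side_sub (hIS.trans hS)) (EExpAux.side_sub hJ)
    have h2 := nb_side hh h1
    have h3 := card_le_card h2
    rw [card_side hh.hn] at h3
    refine ⟨h3, ?_⟩
    rw [card_sdiff_of_subset h2, card_side hh.hn]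
  have hb : c + (sideS a sd S).card ≤ a := (hfact I0 hI0).1.trans (hNBa I0 hI0).1
  -- fibres
  have hfib : ∀ P ∈ F.image (fun I' => sideS a sd I'),
      (F.filter (fun I' => sideS a sd I' = P)).card ≤ 2 ^ (a - (c + (sideS a sd S).card)) := by
    intro P hP
    obtain ⟨I1, hI1, rfl⟩ := mem_image.1 hP
    set T := sideS a (!sd) (range n) \ NB n adj (sideS a sd I1 ∪ sideS a sd J) with hT
    have h1 : (F.filter (fun I' => sideS a sd I' = sideS a sd I1)).card ≤ T.powerset.card := by
      refine card_le_card_of_injOn (fun I' => sideS a (!sd) I') ?_ ?_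
      · intro I' hI'
        rw [mem_coe, mem_filter] at hI'
        rw [mem_coe, mem_powerset]
        have h2 := (hfact I' hI'.1).2
        rw [hI'.2] at h2
        exact h2
      · intro I' hI' I'' hI'' heq
        rw [mem_coe, mem_filter] at hI' hI''
        have h3 : ∀ X : Finset ℕ, X = sideS a sd X ∪ sideS a (!sd) X := by
          intro X
          ext v
          rw [mem_union]
          unfold sideS
          rw [mem_filter, mem_filter]
          cases sd <;> cases hv : decide (v < a) <;> simp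
        rw [h3 I', h3 I'', hI'.2, hI''.2]
        exact congrArg _ heq
    refine h1.trans ?_
    rw [card_powerset, hT, (hNBa I1 hI1).2]
    exact Nat.pow_le_pow_right (by norm_num) (by have := (hfact I1 hI1).1; omega)
  have h4 := card_le_mul_card_image F _ hfib
  have h5 : (F.image (fun I' => sideS a sd I')).card ≤ 2 ^ (sideS a sd S).card := by
    rw [← card_powerset]
    refine card_le_card fun P hP => ?_
    obtain ⟨I1, hI1, rfl⟩ := mem_image.1 hP
    obtain ⟨hIS, -⟩ := mem_IS.1 (mem_filter.1 hI1).1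
    rw [mem_powerset]
    exact filter_subset_filter _ hIS
  calc 2 ^ c * F.card ≤ 2 ^ c * (2 ^ (a - (c + (sideS a sd S).card)) * 2 ^ (sideS a sd S).card) :=
        Nat.mul_le_mul_left _ (h4.trans (Nat.mul_le_mul_left _ h5))
    _ = 2 ^ (c + (a - (c + (sideS a sd S).card) + (sideS a sd S).card)) := by
        rw [pow_add, pow_add]
    _ = 2 ^ a := by
        congr 1
        omega

/-- numbers -/
theorem nums (h : Sp n a d A l x adj) :
    1000000 * (x + 4) ≤ a ∧ 5000000 * (17 * l * (a / d + 1)) ≤ 34 * a ∧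
      x + 4 + 17 * l * (a / d + 1) ≤ 50 * l * (a / d) ∧ d * (a / d) ≤ a := by
  have hl := h.l_ge
  have hd := h.d_ge
  have hx := h.hx
  have hd0 : 0 < d := h.hh.hd
  set q := a / d with hq
  have hqa : d * q ≤ a := Nat.mul_div_le a d
  have hqx : 192 * (x + 4) ≤ q := by
    rw [hq, Nat.le_div_iff_mul_le hd0]
    calc 192 * (x + 4) * d = 192 * d * (x + 4) := by ring
      _ ≤ a := hx
  refine ⟨?_, ?_, ?_, hqa⟩
  · have h1 : 1000000 ≤ 192 * d := by omega
    exact (Nat.mul_le_mul_right _ h1).trans hx
  · have h1 : l * (5000000 * (17 * l * (q + 1))) ≤ l * (34 * a) := by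
      have h2 : q + 1 ≤ 2 * q := by omega
      calc l * (5000000 * (17 * l * (q + 1))) = 5000000 * l * (17 * l * (q + 1)) := by ring
        _ ≤ d * (17 * l * (q + 1)) := Nat.mul_le_mul_right _ hd
        _ ≤ d * (17 * l * (2 * q)) := Nat.mul_le_mul_left _ (Nat.mul_le_mul_left _ h2)
        _ = 34 * l * (d * q) := by ring
        _ ≤ 34 * l * a := Nat.mul_le_mul_left _ hqa
        _ = l * (34 * a) := by ring
    exact Nat.le_of_mul_le_mul_left h1 (by omega)
  · have h2 : x + 4 ≤ l * q := by nlinarith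
    have h3 : 17 * l ≤ l * q := by nlinarith
    nlinarith

/-- one leaf -/
theorem one (h : Sp n a d A l x adj) {y : Nd} (hy : y ∈ lvT n d 8 adj (range n, ∅) n) :
    2 ^ (x + 4 + 17 * l * (a / d + 1)) * ((IS adj y.1).filter (fun I' =>
      a < 256 * d * (skel n d adj (sideS a true (I' ∪ y.2))).card ∧
      a < 256 * d * (skel n d adj (sideS a false (I' ∪ y.2))).card)).card ≤ 2 ^ a := by
  classical
  obtain ⟨n1, n2, n3, n4⟩ := nums h
  obtain ⟨e, m, hme, hae, hside, hind, sd, hsd⟩ := leaf_all h.hh hy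
  obtain ⟨hS, hJ, hd, hJJ, hJS⟩ := lvT_tree h.hh.sym h.hh.irr (subset_refl (range n)) n y hy
  have hl := h.l_ge
  have hdge := h.d_ge
  have hd0 : 0 < d := h.hh.hd
  have hA := h.hA
  rcases le_or_gt (600 * l * a) (d * e) with hc | hc
  · -- case 1
    have h1 : 600 * l * (a / d) ≤ e := by
      have h2 : d * (600 * l * (a / d)) ≤ d * e := by
        calc d * (600 * l * (a / d)) = 600 * l * (d * (a / d)) := by ring
          _ ≤ 600 * l * a := Nat.mul_le_mul_left _ n4
          _ ≤ d * e := hc
      exact Nat.le_of_mul_le_mul_left h2 hd0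
    have h2 : ((IS adj y.1).filter (fun I' =>
      a < 256 * d * (skel n d adj (sideS a true (I' ∪ y.2))).card ∧
      a < 256 * d * (skel n d adj (sideS a false (I' ∪ y.2))).card)).card ≤ ind adj y.1 := by
      rw [← card_IS]
      exact card_le_card (filter_subset _ _)
    have h3 : (2 ^ (50 * l * (a / d)) * ind adj y.1) ^ 12 ≤ (2 ^ a) ^ 12 := by
      calc (2 ^ (50 * l * (a / d)) * ind adj y.1) ^ 12
          = 2 ^ (600 * l * (a / d)) * ind adj y.1 ^ 12 := by
            rw [mul_pow, ← pow_mul]
            congr 2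
            ring
        _ ≤ 2 ^ e * ind adj y.1 ^ 12 :=
            Nat.mul_le_mul_right _ (Nat.pow_le_pow_right (by norm_num) h1)
        _ ≤ 2 ^ (12 * a) := hind
        _ = (2 ^ a) ^ 12 := by rw [← pow_mul, Nat.mul_comm]
    have h4 : 2 ^ (50 * l * (a / d)) * ind adj y.1 ≤ 2 ^ a :=
      le_of_pow_le_pow_left₀ (by norm_num) (Nat.zero_le _) h3
    exact (Nat.mul_le_mul (Nat.pow_le_pow_right (by norm_num) n3) h2).trans h4
  · -- case 2
    have hM : 10000000 * (sideS a sd (rest n adj y.1 ∪ y.2)).card ≤ 600 * a := by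
      have h1 : l * (10000000 * (sideS a sd (rest n adj y.1 ∪ y.2)).card) ≤ l * (600 * a) := by
        calc l * (10000000 * (sideS a sd (rest n adj y.1 ∪ y.2)).card)
            = 10000000 * l * (sideS a sd (rest n adj y.1 ∪ y.2)).card := by ring
          _ ≤ A * (sideS a sd (rest n adj y.1 ∪ y.2)).card := Nat.mul_le_mul_right _ hA
          _ ≤ d * e := hsd
          _ ≤ 600 * l * a := hc.le
          _ = l * (600 * a) := by ring
      exact Nat.le_of_mul_le_mul_left h1 (by omega)
    have he : 5000000 * e ≤ 600 * a := by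
      have h1 : l * (5000000 * e) ≤ l * (600 * a) := by
        calc l * (5000000 * e) = 5000000 * l * e := by ring
          _ ≤ d * e := Nat.mul_le_mul_right _ hdge
          _ ≤ 600 * l * a := hc.le
          _ = l * (600 * a) := by ring
      exact Nat.le_of_mul_le_mul_left h1 (by omega)
    have hR : (sideS a sd (rest n adj y.1)).card ≤
        (sideS a sd (rest n adj y.1 ∪ y.2)).card :=
      card_le_card (filter_subset_filter _ subset_union_left)
    have hs1 := hside sd
    have h2 := cnt2 h.hh hS hJ hJJ hJS sd (c := x + 4 + 17 * l * (a / d + 1)) (by omega)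
    refine le_trans (Nat.mul_le_mul_left _ (card_le_card ?_)) h2
    intro I' hI'
    rw [mem_filter] at hI' ⊢
    refine ⟨hI'.1, ?_⟩
    cases sd with
    | true => exact hI'.2.1
    | false => exact hI'.2.2

end LargeAux

theorem cnt_large (h : Sp n a d A l x adj) :
    2 ^ (x + 4) * ((IS adj (range n)).filter (fun I =>
      a < 256 * d * (skel n d adj (sideS a true I)).card ∧
      a < 256 * d * (skel n d adj (sideS a false I)).card)).card ≤ 2 ^ a := by
  classical
  have h1 := cnt_lvT (n := n) (m := d) (g := 8) h.hh.sym h.hh.irr (subset_refl (range n)) n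
    (fun I => a < 256 * d * (skel n d adj (sideS a true I)).card ∧
      a < 256 * d * (skel n d adj (sideS a false I)).card)
  have h2 := nodes_all h.hh h.hl (by have := h.l_ge; omega) n
  set N := ((IS adj (range n)).filter (fun I =>
      a < 256 * d * (skel n d adj (sideS a true I)).card ∧
      a < 256 * d * (skel n d adj (sideS a false I)).card)).card with hN
  set f : Nd → ℕ := fun y => ((IS adj y.1).filter (fun J =>
      a < 256 * d * (skel n d adj (sideS a true (J ∪ y.2))).card ∧
      a < 256 * d * (skel n d adj (sideS a false (J ∪ y.2))).card)).card with hf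
  have h3 : ∀ L : List Nd, (∀ y ∈ L, 2 ^ (x + 4 + 17 * l * (a / d + 1)) * f y ≤ 2 ^ a) →
      2 ^ (x + 4 + 17 * l * (a / d + 1)) * (L.map f).sum ≤ L.length * 2 ^ a := by
    intro L
    induction L with
    | nil => intro _; simp
    | cons y L ih =>
      intro hL
      rw [List.map_cons, List.sum_cons, List.length_cons, Nat.mul_add, Nat.add_mul, one_mul,
        Nat.add_comm]
      exact Nat.add_le_add (ih fun z hz => hL z (List.mem_cons_of_mem _ hz))
        (hL y List.mem_cons_self)
  have h4 := h3 (lvT n d 8 adj (range n, ∅) n) (fun y hy => LargeAux.one h hy)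
  have h5 : N = ((lvT n d 8 adj (range n, ∅) n).map f).sum := h1
  rw [← h5] at h4
  have h6 : 2 ^ (17 * l * (a / d + 1)) * (2 ^ (x + 4) * N) ≤ 2 ^ (17 * l * (a / d + 1)) * 2 ^ a := by
    calc 2 ^ (17 * l * (a / d + 1)) * (2 ^ (x + 4) * N)
        = 2 ^ (x + 4 + 17 * l * (a / d + 1)) * N := by
          rw [pow_add]
          ring
      _ ≤ (lvT n d 8 adj (range n, ∅) n).length * 2 ^ a := h4
      _ ≤ 2 ^ (17 * l * (a / d + 1)) * 2 ^ a := Nat.mul_le_mul_right _ h2
  exact Nat.le_of_mul_le_mul_left h6 (by positivity)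

end Pool.Agent.Lib.Pa7c826k
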