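import Pool.Agent.Lib.Pa7c826k.Mark
import Pool.Agent.Lib.Pa7c826k.Large
import Pool.Agent.Lib.Pa7c826e.ESmall

/-!
The number of independent sets is approximately the sum of two partition functions.

PROOFS. `two_pow_le`: the subsets of one side are independent (`hh.bip`, `card_side`).
`cnt_small`: for `I ∈ IS adj (range n)` and `Z = skel (sideS a sd I)` one has
`sideS a sd I ⊆ Z ∪ BB Z` (`skel_iff`, `side_sub`), so by `bb_card` and `nb_le`
`7 |sideS a sd I| ≤ 7 |Z| + 8 |NB Z| ≤ 7 |Z| + 8 d |Z| ≤ 14 d |Z|` (`d ≥ 2`), hence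
`128 |sideS a sd I| ≤ 256 d |Z| ≤ a`. So the set is contained in the set of `small_count`
(`Pa7c826e/ESmall.lean`) with `ly = x + 4`.
`decomp`: let `X = IS adj (range n)`, `P sd I` the statement
`Sml (r6 adj) (Ks a d) (skel (sideS a sd I))` and `L sd I` the statement `a < 256 d |skel …|`. If
`¬ P sd I` then `L sd I` (the skeleton has a subset with more than `a / (256 d)` elements). With
`good_eq` the sum of the two partition functions (times `2 ^ a`) is
`|{P true}| + |{P false}| = |X| + |{P true ∧ P false}| - |{¬ P true ∧ ¬ P false}|`. The last set is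
contained in `{L true ∧ L false}` (`cnt_large`); `{P true ∧ P false}` is contained in the union of
`{P true ∧ L true}`, `{P false ∧ L false}` (`cnt_mark`) and `{¬ L true ∧ ¬ L false}` (`cnt_small`).
-/

namespace Pool.Agent.Lib.Pa7c826k

open Finset Pool.Agent.Lib.Pa7c826 Pool.Agent.Lib.Pa7c826t Pool.Agent.Lib.Pa7c826e

namespace DecompAux

theorem side_iff {a : ℕ} {sd : Bool} {S : Finset ℕ} {u : ℕ} :
    u ∈ sideS a sd S ↔ u ∈ S ∧ decide (u < a) = sd := by
  unfold sideS
  rw [mem_filter]

theorem side_small {n a d A l x : ℕ} {adj : ℕ → ℕ → Bool} (h : Sp n a d A l x adj) (sd : Bool)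
    {I : Finset ℕ} (hI : I ⊆ range n)
    (hs : 256 * d * (skel n d adj (sideS a sd I)).card ≤ a) :
    128 * (sideS a sd I).card ≤ a := by
  classical
  have hS : sideS a sd I ⊆ sideS a sd (range n) := filter_subset_filter _ hI
  set Z := skel n d adj (sideS a sd I) with hZ
  obtain ⟨h1, h2, h3⟩ := (skel_iff (a := a) (Z := Z) hS).1 rfl
  have hZs : Z ⊆ sideS a sd (range n) := h1.trans hS
  have h4 := bb_card h.hh hZs
  have h5 := nb_le h.hh (hZs.trans (filter_subset _ _))
  have h6 := (card_le_card h3).trans (card_union_le _ _)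
  have h7 : 256 * d * Z.card = 256 * (d * Z.card) := by ring
  rw [h7] at hs
  omega

theorem large_of {a d : ℕ} {adj : ℕ → ℕ → Bool} (hd : 1 ≤ d) {Z : Finset ℕ}
    (h : ¬ Sml (r6 adj) (Ks a d) Z) : a < 256 * d * Z.card := by
  unfold Sml at h
  push Not at h
  obtain ⟨T, hT, _, hc⟩ := h
  have h1 := card_le_card hT
  unfold Ks at hc
  have h2 : a < 256 * d * (a / (256 * d) + 1) := Nat.lt_mul_div_succ a (by omega)
  refine h2.trans_le (Nat.mul_le_mul_left _ (by omega))

end DecompAux

open DecompAux

variable {n a d A l x : ℕ} {adj : ℕ → ℕ → Bool}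

theorem two_pow_le (hh : XHost n a d A adj) : 2 ^ a ≤ ind adj (range n) := by
  classical
  have h1 : (sideS a true (range n)).powerset ⊆ IS adj (range n) := by
    intro I hI
    rw [mem_powerset] at hI
    rw [mem_IS]
    refine ⟨hI.trans (filter_subset _ _), fun u hu v hv => ?_⟩
    rw [← Bool.not_eq_true]
    intro huv
    have h2 := (side_iff.1 (hI hu)).2
    have h3 := (side_iff.1 (hI hv)).2
    simp only [decide_eq_true_eq] at h2 h3
    exact (hh.bip u v huv).1 h2 h3
  have h2 := card_le_card h1
  rwa [card_powerset, card_side hh.hn, card_IS] at h2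

theorem cnt_small (h : Sp n a d A l x adj) :
    2 ^ (x + 4) * ((IS adj (range n)).filter (fun I =>
      256 * d * (skel n d adj (sideS a true I)).card ≤ a ∧
      256 * d * (skel n d adj (sideS a false I)).card ≤ a)).card ≤ 2 ^ a := by
  classical
  have hd := h.hh.hd
  have hx : 192 * (x + 4) ≤ a := by
    have h1 := h.hx
    have h2 : 192 * d * (x + 4) = 192 * (x + 4) * d := by ring
    rw [h2] at h1
    exact (Nat.le_mul_of_pos_right _ hd).trans h1
  have h3 : (IS adj (range n)).filter (fun I =>
      256 * d * (skel n d adj (sideS a true I)).card ≤ a ∧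
      256 * d * (skel n d adj (sideS a false I)).card ≤ a) ⊆
      (range n).powerset.filter (fun I => 128 * (sideS a true I).card ≤ a ∧
      128 * (sideS a false I).card ≤ a) := by
    intro I hI
    rw [mem_filter, mem_IS] at hI
    rw [mem_filter, mem_powerset]
    exact ⟨hI.1.1, side_small h true hI.1.1 hI.2.1, side_small h false hI.1.1 hI.2.2⟩
  exact (Nat.mul_le_mul_left (2 ^ (x + 4)) (card_le_card h3)).trans
    (small_count (ly := x + 4) h.hh.hn hx)

theorem decomp (h : Sp n a d A l x adj) :
    |(2 : ℝ) ^ a * Xi (wt n a d adj true) (sideS a true (range n)) +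
      2 ^ a * Xi (wt n a d adj false) (sideS a false (range n)) - ind adj (range n)| ≤
      3 * 2 ^ a / 2 ^ (x + 4) := by
  classical
  have hd := h.hh.hd
  set X := IS adj (range n) with hX
  set P : Bool → Finset ℕ → Prop := fun sd I =>
    Sml (r6 adj) (Ks a d) (skel n d adj (sideS a sd I)) with hP
  set L : Bool → Finset ℕ → Prop := fun sd I =>
    a < 256 * d * (skel n d adj (sideS a sd I)).card with hL
  have hPL : ∀ sd I, ¬ P sd I → L sd I := fun sd I hp => large_of hd hp
  have e1 : (((X.filter (P true)).card : ℕ) : ℝ) =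
      2 ^ a * Xi (wt n a d adj true) (sideS a true (range n)) := by
    rw [← good_eq]
  have e2 : (((X.filter (P false)).card : ℕ) : ℝ) =
      2 ^ a * Xi (wt n a d adj false) (sideS a false (range n)) := by
    rw [← good_eq]
  have e3 : (X.filter (P true)).card + (X.filter (P false)).card +
      (X.filter (fun I => ¬ P true I ∧ ¬ P false I)).card =
      X.card + (X.filter (fun I => P true I ∧ P false I)).card := by
    rw [card_filter, card_filter, card_filter, card_filter, card_eq_sum_ones, ← sum_add_distrib,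
      ← sum_add_distrib, ← sum_add_distrib]
    refine sum_congr rfl fun I _ => ?_
    by_cases h1 : P true I
    · by_cases h2 : P false I
      · rw [if_pos h1, if_pos h2, if_neg (fun h => h.1 h1), if_pos ⟨h1, h2⟩]
      · rw [if_pos h1, if_neg h2, if_neg (fun h => h.1 h1), if_neg (fun h => h2 h.2)]
    · by_cases h2 : P false I
      · rw [if_neg h1, if_pos h2, if_neg (fun h => h.2 h2), if_neg (fun h => h1 h.1)]
      · rw [if_neg h1, if_neg h2, if_pos ⟨h1, h2⟩, if_neg (fun h => h1 h.1)]
  have b1 : 2 ^ (x + 4) * (X.filter (fun I => ¬ P true I ∧ ¬ P false I)).card ≤ 2 ^ a := by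
    refine le_trans (Nat.mul_le_mul_left _ (card_le_card ?_)) (cnt_large h)
    intro I hI
    rw [mem_filter] at hI ⊢
    exact ⟨hI.1, hPL true I hI.2.1, hPL false I hI.2.2⟩
  have b2 : 2 ^ (x + 4) * (X.filter (fun I => P true I ∧ P false I)).card ≤ 3 * 2 ^ a := by
    have c1 : 2 ^ (x + 4) * (X.filter (fun I => P true I ∧ L true I)).card ≤ 2 ^ a := by
      refine le_trans (le_of_eq ?_) (cnt_mark h true)
      congr!
    have c2 : 2 ^ (x + 4) * (X.filter (fun I => P false I ∧ L false I)).card ≤ 2 ^ a := by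
      refine le_trans (le_of_eq ?_) (cnt_mark h false)
      congr!
    have c3 := cnt_small h
    rw [← hX] at c3
    have c4 : X.filter (fun I => P true I ∧ P false I) ⊆
        (X.filter (fun I => P true I ∧ L true I) ∪ X.filter (fun I => P false I ∧ L false I)) ∪
        X.filter (fun I => 256 * d * (skel n d adj (sideS a true I)).card ≤ a ∧
          256 * d * (skel n d adj (sideS a false I)).card ≤ a) := by
      intro I hI
      rw [mem_filter] at hI
      rw [mem_union, mem_union, mem_filter, mem_filter, mem_filter]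
      by_cases h1 : L true I
      · exact Or.inl (Or.inl ⟨hI.1, hI.2.1, h1⟩)
      · by_cases h2 : L false I
        · exact Or.inl (Or.inr ⟨hI.1, hI.2.2, h2⟩)
        · exact Or.inr ⟨hI.1, not_lt.1 h1, not_lt.1 h2⟩
    have c5 := (card_le_card c4).trans ((card_union_le _ _).trans
      (Nat.add_le_add_right (card_union_le _ _) _))
    have c6 := Nat.mul_le_mul_left (2 ^ (x + 4)) c5
    rw [Nat.mul_add, Nat.mul_add] at c6
    omega
  set U := (X.filter (fun I => P true I ∧ P false I)).card with hU
  set W := (X.filter (fun I => ¬ P true I ∧ ¬ P false I)).card with hW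
  have hxp : (0 : ℝ) < 2 ^ (x + 4) := by positivity
  have hap : (0 : ℝ) < 2 ^ a := by positivity
  have b1' : (W : ℝ) ≤ 3 * 2 ^ a / 2 ^ (x + 4) := by
    rw [le_div_iff₀ hxp]
    have : (2 : ℝ) ^ (x + 4) * W ≤ 2 ^ a := by exact_mod_cast b1
    linarith
  have b2' : (U : ℝ) ≤ 3 * 2 ^ a / 2 ^ (x + 4) := by
    rw [le_div_iff₀ hxp]
    have : (2 : ℝ) ^ (x + 4) * U ≤ 3 * 2 ^ a := by exact_mod_cast b2
    linarith
  have e4 : (((X.filter (P true)).card : ℕ) : ℝ) + ((X.filter (P false)).card : ℕ) + W =
      (ind adj (range n) : ℝ) + U := by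
    rw [← card_IS]
    exact_mod_cast e3
  rw [← e1, ← e2, abs_le]
  have hU0 : (0 : ℝ) ≤ U := Nat.cast_nonneg _
  have hW0 : (0 : ℝ) ≤ W := Nat.cast_nonneg _
  constructor <;> linarith

end Pool.Agent.Lib.Pa7c826k
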