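import Pool.Agent.Lib.Pa7c826k.RErr
import Pool.Agent.Lib.Pa7c826k.Decomp

/-!
The output is a good approximation of the number of independent sets.
-/

namespace Pool.Agent.Lib.Pa7c826k

open Finset Pool.Agent.Lib.Pa7c826 Pool.Agent.Lib.Pa7c826t Pool.Agent.Lib.Pa7c826e

variable {n a d A l x K q t : ℕ} {adj : ℕ → ℕ → Bool}

namespace OutErrAux

theorem prod_close (y : ℕ → ℝ) {e : ℝ} (he : 0 ≤ e) (s : Finset ℕ) :
    (∀ v ∈ s, |y v - 1| ≤ e) → 2 * (s.card : ℝ) * e ≤ 1 →
    |∏ v ∈ s, y v - 1| ≤ 2 * (s.card : ℝ) * e := by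
  classical
  induction s using Finset.induction_on with
  | empty =>
    intro _ _
    simp
  | insert v s hv ih =>
    intro h1 h2
    rw [card_insert_of_notMem hv] at h2 ⊢
    push_cast at h2 ⊢
    have h3 : 2 * (s.card : ℝ) * e ≤ 1 := by nlinarith
    have h4 := ih (fun w hw => h1 w (mem_insert_of_mem hw)) h3
    have h5 := h1 v (mem_insert_self v s)
    rw [prod_insert hv]
    have h6 : |∏ w ∈ s, y w| ≤ 2 := by
      have h7 := abs_add_le (∏ w ∈ s, y w - 1) 1
      rw [sub_add_cancel, abs_one] at h7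
      linarith
    have h7 : y v * ∏ w ∈ s, y w - 1 = (y v - 1) * ∏ w ∈ s, y w + (∏ w ∈ s, y w - 1) := by ring
    rw [h7]
    have h8 := abs_add_le ((y v - 1) * ∏ w ∈ s, y w) (∏ w ∈ s, y w - 1)
    rw [abs_mul] at h8
    have h9 : |y v - 1| * |∏ w ∈ s, y w| ≤ e * 2 :=
      mul_le_mul h5 h6 (abs_nonneg _) he
    linarith

end OutErrAux

open OutErrAux

theorem prd_err (h : Pr n a d A l x K q adj) (ht : 1 ≤ t) (hT : 64 * a * t < 2 ^ (x + 1))
    (sd : Bool) :
    |(prd n a d adj sd l K (1248 * q) (1339 * q) : ℝ) / 2 ^ (1339 * q * n) -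
      Xi (wt n a d adj sd) (sideS a sd (range n))| ≤
      Xi (wt n a d adj sd) (sideS a sd (range n)) / (8 * t) := by
  classical
  set p : ℕ := 1339 * q with hp
  have hw := wt_Wt (sd := sd) h.sp.hh
  have hVn : sideS a sd (range n) ⊆ range n := filter_subset _ _
  set V : Finset ℕ := sideS a sd (range n) with hV
  set R : ℕ → ℝ := fun v => Rt (wt n a d adj sd) v (blw V v) with hR
  set Q : ℕ → ℝ := fun v => (qv n a d adj sd l K (1248 * q) p v : ℝ) / 2 ^ p with hQ
  have hX : Xi (wt n a d adj sd) V = ∏ v ∈ range n, if v ∈ V then 1 / R v else 1 :=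
    Xi_prod hw hVn
  have hXpos : 0 < Xi (wt n a d adj sd) V := by
    rw [hX]
    refine prod_pos fun v _ => ?_
    split_ifs
    · exact one_div_pos.2 (Rt_pos hw v _)
    · exact one_pos
  have hP : (prd n a d adj sd l K (1248 * q) p : ℝ) / 2 ^ (p * n) = ∏ v ∈ range n, Q v := by
    unfold prd
    rw [Nat.cast_prod, pow_mul, hQ, prod_div_distrib, prod_const, card_range]
  have hout : ∀ v, v ∉ V → Q v = 1 := by
    intro v hv
    have h1 : qv n a d adj sd l K (1248 * q) p v = 2 ^ p := by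
      unfold qv
      rw [if_neg hv]
    rw [hQ]
    simp only [h1, Nat.cast_pow, Nat.cast_ofNat]
    exact div_self (by positivity)
  have hprod : ∏ v ∈ range n, Q v = Xi (wt n a d adj sd) V * ∏ v ∈ V, (R v * Q v) := by
    have h1 : ∏ v ∈ V, (R v * Q v) = ∏ v ∈ range n, if v ∈ V then R v * Q v else 1 := by
      rw [prod_ite_mem, inter_eq_right.2 hVn]
    rw [h1, hX, ← prod_mul_distrib]
    refine prod_congr rfl fun v _ => ?_
    by_cases hv : v ∈ V
    · rw [if_pos hv, if_pos hv]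
      have h2 : R v ≠ 0 := (Rt_pos hw v _).ne'
      field_simp
    · rw [if_neg hv, if_neg hv, hout v hv, one_mul]
  set e : ℝ := 6 / 2 ^ (20 * l * K) with he
  have he0 : 0 ≤ e := by positivity
  have hVc : V.card = a := card_side h.sp.hh.hn sd
  have hnum : 96 * a * t ≤ 2 ^ (20 * l * K) := by
    have h1 : 96 * a * t ≤ 2 ^ (x + 2) := by
      have : 2 ^ (x + 2) = 2 * 2 ^ (x + 1) := by ring
      rw [this]
      nlinarith
    refine h1.trans (Nat.pow_le_pow_right (by norm_num) ?_)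
    have h2 := h.hlx
    have h3 : 20 * l * K = 20 * (l * K) := by ring
    rw [h3]
    omega
  have hnum' : 96 * (a : ℝ) * t ≤ 2 ^ (20 * l * K) := by exact_mod_cast hnum
  have ht0 : (0 : ℝ) < t := by exact_mod_cast ht
  have ht1 : (1 : ℝ) ≤ t := by exact_mod_cast ht
  have hpp : (0 : ℝ) < 2 ^ (20 * l * K) := by positivity
  have hbd : 2 * (V.card : ℝ) * e ≤ 1 / (8 * t) := by
    rw [hVc, he, le_div_iff₀ (by positivity)]
    have h4 : 2 * (a : ℝ) * (6 / 2 ^ (20 * l * K)) * (8 * t) =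
        (96 * (a : ℝ) * t) / 2 ^ (20 * l * K) := by ring
    rw [h4, div_le_one hpp]
    exact hnum'
  have h8 : 1 / (8 * (t : ℝ)) ≤ 1 := by
    rw [div_le_one (by positivity)]
    linarith
  have hcl := prod_close (fun v => R v * Q v) he0 V (fun v hv => qv_err h hv) (hbd.trans h8)
  rw [hP, hprod]
  have h9 : Xi (wt n a d adj sd) V * ∏ v ∈ V, (R v * Q v) - Xi (wt n a d adj sd) V =
      Xi (wt n a d adj sd) V * (∏ v ∈ V, (R v * Q v) - 1) := by ring
  rw [h9, abs_mul, abs_of_pos hXpos, div_eq_mul_one_div (Xi (wt n a d adj sd) V)]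
  exact mul_le_mul_of_nonneg_left (hcl.trans hbd) hXpos.le

theorem out_err (h : Pr n a d A l x K q adj) (ht : 1 ≤ t) (hT : 64 * a * t < 2 ^ (x + 1)) :
    |(2 : ℝ) ^ a * ((prd n a d adj true l K (1248 * q) (1339 * q) : ℝ) +
      prd n a d adj false l K (1248 * q) (1339 * q)) / 2 ^ (1339 * q * n) -
      ind adj (range n)| ≤ ind adj (range n) / t := by
  have h1 := prd_err h ht hT true
  have h0 := prd_err h ht hT false
  have hd := decomp h.sp
  have hI := two_pow_le h.sp.hh
  have ha : 1 ≤ a := by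
    have := h.sp.hx
    have h2 := h.sp.hh.hd
    nlinarith
  have hnum : 512 * t ≤ 2 ^ (x + 4) := by
    have : 2 ^ (x + 4) = 8 * 2 ^ (x + 1) := by ring
    rw [this]
    nlinarith
  generalize hX1 : Xi (wt n a d adj true) (sideS a true (range n)) = X1 at *
  generalize hX0 : Xi (wt n a d adj false) (sideS a false (range n)) = X0 at *
  generalize hp1 : (prd n a d adj true l K (1248 * q) (1339 * q) : ℝ) = p1 at *
  generalize hp0 : (prd n a d adj false l K (1248 * q) (1339 * q) : ℝ) = p0 at *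
  have hI' : (2 : ℝ) ^ a ≤ (ind adj (range n) : ℝ) := by exact_mod_cast hI
  generalize (ind adj (range n) : ℝ) = I at *
  generalize hN : (2 : ℝ) ^ (1339 * q * n) = N at *
  have hnum' : 512 * (t : ℝ) ≤ 2 ^ (x + 4) := by exact_mod_cast hnum
  generalize (2 : ℝ) ^ (x + 4) = Y at *
  have ht0 : (1 : ℝ) ≤ t := by exact_mod_cast ht
  generalize (t : ℝ) = T at *
  have hB : (1 : ℝ) ≤ 2 ^ a := one_le_pow₀ (by norm_num)
  generalize (2 : ℝ) ^ a = B at *
  have hTpos : 0 < T := by linarith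
  have hYpos : 0 < Y := by linarith
  have hIpos : 0 < I := by linarith
  have e1 : B * (p1 + p0) / N - I =
      B * (p1 / N - X1) + B * (p0 / N - X0) + (B * X1 + B * X0 - I) := by ring
  have e2 : |B * (p1 / N - X1)| ≤ B * X1 / (8 * T) := by
    rw [abs_mul, abs_of_pos (by linarith : 0 < B), mul_div_assoc]
    exact mul_le_mul_of_nonneg_left h1 (by linarith)
  have e3 : |B * (p0 / N - X0)| ≤ B * X0 / (8 * T) := by
    rw [abs_mul, abs_of_pos (by linarith : 0 < B), mul_div_assoc]
    exact mul_le_mul_of_nonneg_left h0 (by linarith)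
  have e4 : 3 * B / Y ≤ I / (64 * T) := by
    rw [div_le_div_iff₀ hYpos (by positivity)]
    nlinarith
  have e5 : |B * X1 + B * X0 - I| ≤ I / (64 * T) := hd.trans e4
  have e6 : I / (64 * T) ≤ I := by
    rw [div_le_iff₀ (by positivity)]
    nlinarith
  have e7 : B * X1 + B * X0 ≤ 2 * I := by
    have := (abs_le.1 e5).2
    linarith
  have e8 : B * X1 / (8 * T) + B * X0 / (8 * T) ≤ 2 * I / (8 * T) := by
    rw [← add_div]
    exact div_le_div_of_nonneg_right e7 (by positivity)
  rw [e1]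
  have e9 := abs_add_le (B * (p1 / N - X1) + B * (p0 / N - X0)) (B * X1 + B * X0 - I)
  have e10 := abs_add_le (B * (p1 / N - X1)) (B * (p0 / N - X0))
  have e11 : 2 * I / (8 * T) + I / (64 * T) ≤ I / T := by
    rw [div_add_div _ _ (by positivity) (by positivity), div_le_div_iff₀ (by positivity) hTpos]
    nlinarith [mul_pos hIpos hTpos, mul_pos (mul_pos hIpos hTpos) hTpos]
  linarith

end Pool.Agent.Lib.Pa7c826k
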