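import Pool.Agent.Lib.Pa7c826k.PPar
import Pool.Agent.Lib.Pa7c826k.Nodes

/-!
The approximation of the weight of a skeleton is computable in polynomial time.
-/

namespace Pool.Agent.Lib.Pa7c826k

open Pool.Agent.Lib.PolyTime Pool.Agent.Lib.Pa7c826 Pool.Agent.Lib.Pa7c826t
  Pool.Agent.Lib.Pa7c826e Finset

variable {α : Type} {D : α → Prop} {ctx : List (α → List Bool)} {w : α → List Bool}

namespace POmAux

/-- if-then-else with restricted domains -/
theorem n_ite' {φ : α → Bool} {f g : α → ℕ} (hφ : PolyB D ctx φ)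
    (hf : PolyN (fun a => D a ∧ φ a = true) ctx f)
    (hg : PolyN (fun a => D a ∧ φ a = false) ctx g) :
    PolyN D ctx (fun a => if φ a = true then f a else g a) := by
  refine (PolyC.ite hφ hf hg).congr (fun a _ => ?_)
  show (if φ a = true then un (f a) else un (g a)) = un (if φ a = true then f a else g a)
  split_ifs <;> rfl

theorem poly_leaf_aux (hw : PolyC D ctx w) (hV : ∀ x, D x → Vld (w x)) {E : α → ℕ}
    {S : α → Finset ℕ} (hE : PolyN D ctx E) (hS : PolyS D ctx (fun x => nOf (w x)) S)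
    (hk : ∀ x, D x → (cov (nOf (w x)) (adjOf (w x)) (S x)).card ≤ kk (w x)) :
    PolyN D ctx (fun x => ∑ τ ∈ range (2 ^ (cov (nOf (w x)) (adjOf (w x)) (S x)).card),
      if indB (nOf (w x)) (adjOf (w x)) (sel (cov (nOf (w x)) (adjOf (w x)) (S x)) τ) = true then
        2 ^ pk (w x) / 2 ^ (E x - (freeS (nOf (w x)) (adjOf (w x))
          (rest (nOf (w x)) (adjOf (w x)) (S x))
          (sel (cov (nOf (w x)) (adjOf (w x)) (S x)) τ)).card) else 0) := by
  have hC := poly_cov hw hS
  have hCC := PolyS.card (poly_nOf hw) hC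
  have h2 : PolyN D ctx (fun x => 2 ^ (cov (nOf (w x)) (adjOf (w x)) (S x)).card) :=
    poly_pow2 hw hV hCC 1248 (fun x hx => hk x hx)
  refine Pool.Agent.Lib.P8e91ed.PT.n_sum (f := fun p : α × ℕ =>
    if indB (nOf (w p.1)) (adjOf (w p.1))
        (sel (cov (nOf (w p.1)) (adjOf (w p.1)) (S p.1)) p.2) = true then
      2 ^ pk (w p.1) / 2 ^ (E p.1 - (freeS (nOf (w p.1)) (adjOf (w p.1))
        (rest (nOf (w p.1)) (adjOf (w p.1)) (S p.1))
        (sel (cov (nOf (w p.1)) (adjOf (w p.1)) (S p.1)) p.2)).card) else 0) h2 ?_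
  have W := up (n := fun x => 2 ^ (cov (nOf (w x)) (adjOf (w x)) (S x)).card) hw
  have SS := hS.up (m := fun x => 2 ^ (cov (nOf (w x)) (adjOf (w x)) (S x)).card)
  have EE := upN (n := fun x => 2 ^ (cov (nOf (w x)) (adjOf (w x)) (S x)).card) hE
  have T := last (D := D) (ctx := ctx)
    (n := fun x => 2 ^ (cov (nOf (w x)) (adjOf (w x)) (S x)).card)
  have C := poly_cov W SS
  have SE := poly_sel W C T
  have F := PolyS.card (poly_nOf W) (poly_freeS W (poly_rest W SS) SE)
  have P := poly_pow2 W (fun p hp => hV p.1 hp.1) (upoly_pk W) 1339 (fun p hp => le_refl _)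
  exact Pool.Agent.Lib.Pa7c826.PolyN.ite (poly_indB W SE)
    (PolyN.divPow P (PolyN.sub EE F)) (PolyN.const 0)

end POmAux

open POmAux

theorem poly_leafU (hw : PolyC D ctx w) (hV : ∀ x, D x → Vld (w x)) {E : α → ℕ}
    {S : α → Finset ℕ} (hE : PolyN D ctx E) (hS : PolyS D ctx (fun x => nOf (w x)) S) :
    PolyN D ctx (fun x => leafU (nOf (w x)) (adjOf (w x)) (kk (w x)) (pk (w x)) (E x)
      (S x)) := by
  have hC := poly_cov hw hS
  have hCC := PolyS.card (poly_nOf hw) hC
  have hle : PolyB D ctx (fun x => decide ((cov (nOf (w x)) (adjOf (w x)) (S x)).card ≤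
    kk (w x))) := PolyB.le hCC (upoly_kk hw)
  refine (n_ite' hle (poly_leaf_aux (PolyC.mono hw fun _ h => h.1) (fun x hx => hV x hx.1)
    (PolyC.mono hE fun _ h => h.1) (hS.mono fun _ h => h.1)
    (fun x hx => of_decide_eq_true hx.2)) (PolyN.const 0)).congr (fun x _ => ?_)
  unfold leafU
  simp only [decide_eq_true_eq]

theorem POmAux.poly_sum_aux (hw : PolyC D ctx w) (hV : ∀ x, D x → Vld (w x)) {E : α → ℕ}
    (hE : PolyN D ctx E) {l : α → List (Finset ℕ)}
    (hl : PolyC D ctx (fun x => codeL (nOf (w x)) (l x)))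
    (hsub : ∀ x, D x → ∀ S ∈ l x, S ⊆ range (nOf (w x))) :
    PolyN D ctx (fun x => ((l x).map (leafU (nOf (w x)) (adjOf (w x)) (kk (w x)) (pk (w x))
      (E x))).sum) := by
  have W := up (n := fun x => (codeL (nOf (w x)) (l x)).length) hw
  have C := up (n := fun x => (codeL (nOf (w x)) (l x)).length) hl
  have EE := upN (n := fun x => (codeL (nOf (w x)) (l x)).length) hE
  have L := last (D := D) (ctx := ctx) (n := fun x => (codeL (nOf (w x)) (l x)).length)
  exact poly_sumL (n := fun x => nOf (w x)) (F := fun x S => leafU (nOf (w x)) (adjOf (w x))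
    (kk (w x)) (pk (w x)) (E x) S) (poly_nOf hw) hl hsub
    (poly_leafU W (fun p hp => hV p.1 hp.1) EE (poly_nodeAtN (poly_nOf W) C L))

theorem poly_omU (sd : Bool) (hw : PolyC D ctx w) (hV : ∀ x, D x → Vld (w x))
    {Z : α → Finset ℕ} (hZ : PolyS D ctx (fun x => nOf (w x)) Z)
    (hc : ∀ x, D x → (Z x).card ≤ Kk (w x)) :
    PolyN D ctx (fun x => omU (nOf (w x)) (aOf (w x)) (dOf (w x)) (adjOf (w x)) sd
      (kk (w x)) (pk (w x)) (Z x)) := by
  unfold omU
  refine n_ite' (poly_vld sd hw hZ) ?_ (PolyN.const 0)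
  have hw1 : PolyC (fun x => D x ∧
      vld (nOf (w x)) (aOf (w x)) (dOf (w x)) (adjOf (w x)) sd (Z x) = true) ctx w :=
    PolyC.mono hw (fun x h => h.1)
  have hZ1 : PolyS (fun x => D x ∧
      vld (nOf (w x)) (aOf (w x)) (dOf (w x)) (adjOf (w x)) sd (Z x) = true) ctx
      (fun x => nOf (w x)) Z := hZ.mono (fun x h => h.1)
  have hB := poly_BB sd hw1 hZ1
  have hQ := poly_QQ sd hw1 hZ1
  have hU := poly_union hw1 hB hQ
  have hE := (PolyS.card (poly_nOf hw1) (poly_NB hw1 hZ1)).add (PolyS.card (poly_nOf hw1) hQ)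
  have h21 := poly_pow2 hw1 (fun x hx => hV x hx.1) ((PolyN.const 21).mul (upoly_qk hw1)) 21
    (fun x hx => le_refl _)
  have hl0 := (PolyC.cons true hU.1).congr (t' := fun x => codeL (nOf (w x))
    [BB (nOf (w x)) (aOf (w x)) (dOf (w x)) (adjOf (w x)) sd (Z x) ∪
      QQ (nOf (w x)) (aOf (w x)) (dOf (w x)) (adjOf (w x)) sd (Z x)])
    (fun x _ => by simp [codeL])
  have hsub0 : ∀ x, (D x ∧
      vld (nOf (w x)) (aOf (w x)) (dOf (w x)) (adjOf (w x)) sd (Z x) = true) →
      ∀ S ∈ [BB (nOf (w x)) (aOf (w x)) (dOf (w x)) (adjOf (w x)) sd (Z x) ∪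
        QQ (nOf (w x)) (aOf (w x)) (dOf (w x)) (adjOf (w x)) sd (Z x)],
        S ⊆ range (nOf (w x)) := by
    intro x hx S hS
    rw [List.mem_singleton] at hS
    rw [hS]
    exact hU.2 x hx
  have hitl := poly_itl (m := dOf) (g := fun _ => 8) (ad := adjOf) (al := fun _ _ => true)
    upoly_dOf (EAlgAux_const 8) upolyE_adj (fun _ _ => PolyB.const true) hw1 hl0 hsub0
    (poly_nOf hw1) h21 (fun x hx j _ => by
      rw [itl_lvT, List.length_map]
      obtain ⟨ht, ha, A, hh, hA⟩ := hV x hx.1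
      have h1 : 1 ≤ lk (w x) := Nat.succ_le_succ (Nat.zero_le _)
      have h2 := hh.hA
      have hd : 2 ≤ dOf (w x) := by omega
      have hl : dOf (w x) < 2 ^ lk (w x) := Nat.lt_pow_succ_log_self (by norm_num) _
      have hl2 : 2 ≤ lk (w x) := by
        by_contra hcon
        have h3 : lk (w x) = 1 := by omega
        rw [h3] at hl
        omega
      have hZs : Z x ⊆ sideS (aOf (w x)) sd (range (nOf (w x))) := by
        intro u hu
        have h3 := hx.2
        unfold vld at h3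
        rw [decide_eq_true_eq] at h3
        exact (h3 u (hZ.2 x hx.1 hu) hu).1
      refine (nodes_bq hh hl hl2 hd hZs j).trans ?_
      apply Nat.pow_le_pow_right (by norm_num)
      have h4 := lk_Kk_le (w x)
      have h5 := Nat.mul_le_mul_left (lk (w x)) (hc x hx.1)
      calc 21 * lk (w x) * (Z x).card = 21 * (lk (w x) * (Z x).card) := by ring
        _ ≤ 21 * qk (w x) := Nat.mul_le_mul_left 21 (h5.trans h4))
  exact poly_sum_aux hw1 (fun x hx => hV x hx.1) hE hitl (fun x hx => itl_subset (hsub0 x hx) _)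

end Pool.Agent.Lib.Pa7c826k
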