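import Pool.Agent.Lib.Pa7c826k.PSet

/-!
The parameters are computable in polynomial time.

PROOFS. `upoly_lk`, `upoly_xk`: `n_log` (`P8e91ed/PolyBin.lean`), `upoly_dOf`, `poly_aOf`,
`poly_tOf`, `PolyN.mul`, `PolyN.add`. `upoly_Kk`: `PolyN.divz` (`Pa7c826t/EPoly.lean`). The others:
`PolyN.const`, `PolyN.mul`, `PolyN.add`. `two_pow_q`: `2 ^ qk w = 2 ^ (xk w) * 2 ^ (lk w)`,
`2 ^ (xk w) ≤ Tk w` (`Tk w ≥ 1`), `2 ^ (lk w) ≤ 2 * dOf w` (`dOf w ≥ 1` by `XHost.hd`); raise to the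
power `c`. `poly_pow2`: `n_pow` (`P8e91ed/PolyBin.lean`) with `f = 2`, the bound is given by
`Bdd.ofN` for `(2 * Tk * dOf) ^ c` (`PolyN.pow`) and `Bdd.le`. `poly_sumL`: copy the proof of
`poly_sum_codeL` (`Pa7c826t/SumPoly.lean`) with `n_sum` and `n_ite` (or `PolyC.ite`) in place of
`PolyBin.sum_range` and `PolyBin.ite`. `Kk_le`: `lk * Kk ≤ qk`
(`x / l + 1`, `l (x / l) ≤ x`), and `1 ≤ lk`.
-/

namespace Pool.Agent.Lib.Pa7c826k

open Pool.Agent.Lib.PolyTime Pool.Agent.Lib.Pa7c826 Pool.Agent.Lib.Pa7c826t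
  Pool.Agent.Lib.Pa7c826e Finset

open Pool.Agent.Lib.P8e91ed.PT in
theorem upoly_lk : UPoly lk := by
  intro β D' ctx' w' hw
  exact (n_log (upoly_dOf hw)).add (PolyN.const 1)

theorem upoly_Tk : UPoly Tk := by
  intro β D' ctx' w' hw
  exact ((PolyN.const 64).mul (poly_aOf hw)).mul (poly_tOf hw)

open Pool.Agent.Lib.P8e91ed.PT in
theorem upoly_xk : UPoly xk := by
  intro β D' ctx' w' hw
  exact n_log (upoly_Tk hw)

private theorem PParAux_divz {α : Type*} {D : α → Prop} {ctx : List (α → List Bool)} {f g : α → ℕ}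
    (hf : PolyN D ctx f) (hg : PolyN D ctx g) : PolyN D ctx (fun a => f a / g a) := by
  have hφ : PolyB D ctx (fun a => decide (0 < g a)) := PolyB.lt (PolyN.const 0) hg
  have h1 : PolyN (fun a => D a ∧ decide (0 < g a) = true) ctx (fun a => f a / g a) :=
    PolyN.div (PolyC.mono hf fun _ h => h.1) (PolyC.mono hg fun _ h => h.1)
      (fun a ha => by simpa using ha.2)
  have h2 : PolyN (fun a => D a ∧ decide (0 < g a) = false) ctx (fun _ => 0) := PolyN.const 0
  refine PolyC.congr (PolyC.ite hφ h1 h2) (fun a _ => ?_)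
  by_cases h : 0 < g a
  · simp [h]
  · have h0 : g a = 0 := by omega
    simp [h0]

theorem upoly_Kk : UPoly Kk := by
  intro β D' ctx' w' hw
  exact (PParAux_divz (upoly_xk hw) (upoly_lk hw)).add (PolyN.const 1)

theorem upoly_qk : UPoly qk := by
  intro β D' ctx' w' hw
  exact (upoly_xk hw).add (upoly_lk hw)

theorem upoly_kk : UPoly kk := by
  intro β D' ctx' w' hw
  exact (PolyN.const 1248).mul (upoly_qk hw)

theorem upoly_pk : UPoly pk := by
  intro β D' ctx' w' hw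
  exact (PolyN.const 1339).mul (upoly_qk hw)

theorem lk_Kk_le (w : List Bool) : lk w * Kk w ≤ qk w := by
  unfold Kk qk
  have h := Nat.mul_div_le (xk w) (lk w)
  rw [Nat.mul_add, Nat.mul_one]
  omega

theorem Kk_le (w : List Bool) : Kk w ≤ qk w := by
  unfold Kk qk
  have h := Nat.div_le_self (xk w) (lk w)
  have h1 : 1 ≤ lk w := by
    unfold lk
    omega
  omega

theorem two_pow_q {w : List Bool} (h : Vld w) (c : ℕ) :
    2 ^ (c * qk w) ≤ (2 * Tk w * dOf w) ^ c := by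
  obtain ⟨h1, h2, A, h3, _⟩ := h
  rw [Nat.mul_comm, Nat.pow_mul]
  refine Nat.pow_le_pow_left ?_ c
  have hT : Tk w ≠ 0 := by
    unfold Tk
    have h4 : 0 < 64 * aOf w * tOf w := Nat.mul_pos (Nat.mul_pos (by norm_num) (by omega)) (by omega)
    omega
  have hd : dOf w ≠ 0 := by
    have := h3.hd
    omega
  have h4 : 2 ^ xk w ≤ Tk w := Nat.pow_log_le_self 2 hT
  have h5 : 2 ^ lk w ≤ 2 * dOf w := by
    unfold lk
    rw [pow_succ, Nat.mul_comm]
    exact Nat.mul_le_mul_left 2 (Nat.pow_log_le_self 2 hd)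
  calc 2 ^ qk w = 2 ^ xk w * 2 ^ lk w := by
        unfold qk
        rw [pow_add]
    _ ≤ Tk w * (2 * dOf w) := Nat.mul_le_mul h4 h5
    _ = 2 * Tk w * dOf w := by ring

variable {α : Type} {D : α → Prop} {ctx : List (α → List Bool)} {w : α → List Bool}

open Pool.Agent.Lib.P8e91ed.PT in
theorem poly_pow2 (hw : PolyC D ctx w) (hV : ∀ x, D x → Vld (w x)) {f : α → ℕ}
    (hf : PolyN D ctx f) (c : ℕ) (hc : ∀ x, D x → f x ≤ c * qk (w x)) :
    PolyN D ctx (fun x => 2 ^ f x) := by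
  refine n_pow (PolyN.const 2) hf ?_
  have h1 : PolyN D ctx (fun x => 2 * Tk (w x) * dOf (w x)) :=
    ((PolyN.const 2).mul (upoly_Tk hw)).mul (upoly_dOf hw)
  have h2 : Bdd D ctx (fun x => 2 ^ f x) := by
    refine Bdd.le (Bdd.pow (Bdd.ofN h1) c) (fun x hx => ?_)
    exact (Nat.pow_le_pow_right (by norm_num) (hc x hx)).trans (two_pow_q (hV x hx) c)
  exact h2

open Pool.Agent.Lib.P8e91ed.PT in
theorem poly_sumL {n : α → ℕ} {l : α → List (Finset ℕ)} {F : α → Finset ℕ → ℕ}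
    (hn : PolyN D ctx n) (hl : PolyC D ctx (fun x => codeL (n x) (l x)))
    (hsub : ∀ x, D x → ∀ S ∈ l x, S ⊆ range (n x))
    (hF : PolyN (fun p : α × ℕ => D p.1 ∧ p.2 < (codeL (n p.1) (l p.1)).length)
      (PolyTime.lift ctx ++ [fun p => un p.2])
      (fun p => F p.1 (nodeAt (n p.1) (codeL (n p.1) (l p.1)) p.2))) :
    PolyN D ctx (fun x => ((l x).map (F x)).sum) := by
  have hlen := PolyN.length hl
  have C := up (n := fun x => (codeL (n x) (l x)).length) hl
  have L := last (D := D) (ctx := ctx) (n := fun x => (codeL (n x) (l x)).length)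
  have N := upN (n := fun x => (codeL (n x) (l x)).length) hn
  have hG : PolyB (fun p : α × ℕ => D p.1 ∧ p.2 < (codeL (n p.1) (l p.1)).length)
      (PolyTime.lift ctx ++ [fun p => un p.2])
      (fun p : α × ℕ => (codeL (n p.1) (l p.1)).getD (p.2 * (n p.1 + 1)) false) :=
    PolyB.getD C (L.mul N.succ)
  have key := n_sum (f := fun p : α × ℕ =>
    if (codeL (n p.1) (l p.1)).getD (p.2 * (n p.1 + 1)) false then
      F p.1 (nodeAt (n p.1) (codeL (n p.1) (l p.1)) p.2) else 0) hlen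
    (PolyN.ite hG hF (PolyN.const 0))
  refine key.congr (fun x hx => ?_)
  simp only [guard_codeL, decide_eq_true_eq]
  have hle : (l x).length ≤ (codeL (n x) (l x)).length := by
    rw [length_codeL]
    exact Nat.le_mul_of_pos_right _ (by omega)
  rw [← Finset.sum_subset (Finset.range_mono hle)]
  · refine (sum_map_eq_sum_range (l x) (F x) _ (fun i hi => ?_)).symm
    rw [if_pos hi, nodeAt_codeL (hsub x hx) hi]
  · intro i _ hi
    rw [mem_range, not_lt] at hi
    rw [if_neg (by omega)]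

end Pool.Agent.Lib.Pa7c826k
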