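import Pool.Agent.Lib.Pa7c826k.XiB
import Pool.Agent.Lib.Pa7c826k.WB
import Pool.Agent.Lib.Pa7c826k.Mult

/-!
The weights satisfy the hypotheses of the abstract estimates; there are few independent sets whose
skeleton has small components but is large.

PROOFS. `wt_Wt`: `wt_wk`, `wt_w0`. `wt_le`: let `T ⊆ sideS a sd (range n)` be connected. If
`T.card > Ks a d`, then `Sml` fails for `T` (take the subset `T` itself) and `wt T = 0`. Otherwise
`256 d |T| ≤ a` and `wt T ≤ w0 T ≤ 2 ^ (- 50 l |T|)` by `om_le`. `wt_eq`: every subset of `Z` has at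
most `Ks a d` elements. `good_eq`: `sum_om` with `P = Sml …` (the sum over
`powerset.filter` is the sum of `if`s, `sum_filter`), divide by `2 ^ a`.
`deg_ok`: `d ^ 6 ≤ 2 ^ (6 l)`, so `12 (d ^ 6) ^ 3 ≤ 12 * 2 ^ (18 l)` and the product is at most
`12 * 2 ^ (- 12 l) ≤ 1`. `cnt_mark`: let `V = sideS a sd (range n)`, `s = Ks a d + 1`,
`λ = 2 ^ (20 l)`. By `sum_om` the number is `∑ om Z` over the `Z ⊆ V` with `Sml … Z` and
`a < 256 d |Z|`; for these `|Z| ≥ s`, so `om Z = 2 ^ a * wt Z ≤ 2 ^ a * (wt Z * λ ^ |Z|) / λ ^ s`. The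
sum of `wt Z * λ ^ |Z|` over all `Z ⊆ V` is `Xi w' V`, `w' Z = wt Z * λ ^ |Z|` (`wt_pow`), with
`w' T ≤ (2 ^ (- 30 l)) ^ |T|` for connected `T`; by `Xi_le_pow` (`D = d ^ 6`, `r6_deg`,
`D ^ 2 * 2 ^ (- 30 l) ≤ 2 ^ (- 18 l) ≤ 1 / 2`) and `card_side` it is at most
`(1 + 2 * 2 ^ (- 30 l)) ^ a ≤ exp (2 a / 2 ^ (30 l)) ≤ exp s ≤ 2 ^ (2 s)` as `a < 256 d s`. Also
`x + 4 ≤ 2 s`, while `λ ^ s = 2 ^ (20 l s)`.
-/

namespace Pool.Agent.Lib.Pa7c826k

open Finset Pool.Agent.Lib.Pa7c826 Pool.Agent.Lib.Pa7c826t Pool.Agent.Lib.Pa7c826e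

variable {n a d A l x : ℕ} {adj : ℕ → ℕ → Bool} {sd : Bool}

theorem wt_Wt (hh : XHost n a d A adj) : Wt (r6 adj) (wt n a d adj sd) :=
  wt_wk (wt_w0 hh) _

theorem wt_le (h : Sp n a d A l x adj) {T : Finset ℕ} (hT : T ⊆ sideS a sd (range n))
    (hc : Conn (r6 adj) T) : wt n a d adj sd T ≤ (1 / 2 ^ (50 * l)) ^ T.card := by
  unfold wt wk
  split_ifs with hs
  · have h1 : T.card ≤ a / (256 * d) := hs T (Subset.refl _) hc
    have hd := h.hh.hd
    rw [Nat.le_div_iff_mul_le (by omega)] at h1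
    have h2 := om_le h hT (by
      refine le_trans ?_ h1
      have : T.card * (256 * d) = 256 * d * T.card := by ring
      rw [this]
      exact Nat.mul_le_mul_right _ (Nat.mul_le_mul_right _ (by norm_num)))
    unfold w0
    have h3 : (2 : ℝ) ^ (50 * l * T.card) * (om n a d adj sd T : ℝ) ≤ 2 ^ a := by
      exact_mod_cast h2
    rw [one_div_pow, ← pow_mul, div_le_div_iff₀ (by positivity) (by positivity)]
    linarith
  · positivity

theorem wt_eq {Z : Finset ℕ} (h : Z.card ≤ Ks a d) :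
    wt n a d adj sd Z = w0 n a d adj sd Z := by
  unfold wt wk
  rw [if_pos]
  exact fun T hT _ => (card_le_card hT).trans h

namespace MarkAux

theorem d_pow_le (h : Sp n a d A l x adj) (k : ℕ) : ((d : ℝ)) ^ k ≤ 2 ^ (k * l) := by
  have h1 : (d : ℝ) ≤ 2 ^ l := by exact_mod_cast h.hl.le
  calc (d : ℝ) ^ k ≤ (2 ^ l) ^ k := pow_le_pow_left₀ (Nat.cast_nonneg _) h1 k
    _ = 2 ^ (k * l) := by rw [← pow_mul, mul_comm]

end MarkAux

open MarkAux

theorem deg_ok (h : Sp n a d A l x adj) :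
    12 * (((d ^ 6 : ℕ) : ℝ)) ^ 3 * (1 / 2 ^ (50 * l)) * 2 ^ (20 * l) ≤ 1 := by
  have h1 : (((d ^ 6 : ℕ) : ℝ)) ^ 3 ≤ 2 ^ (18 * l) := by
    have := d_pow_le h 18
    calc (((d ^ 6 : ℕ) : ℝ)) ^ 3 = (d : ℝ) ^ 18 := by push_cast; ring
      _ ≤ _ := this
  have h2 := h.l_ge
  have e : (12 : ℝ) ≤ 2 ^ (12 * l) := by
    calc (12 : ℝ) ≤ 2 ^ 4 := by norm_num
      _ ≤ 2 ^ (12 * l) := pow_le_pow_right₀ (by norm_num) (by omega)
  have e50 : (2 : ℝ) ^ (50 * l) = 2 ^ (18 * l) * 2 ^ (12 * l) * 2 ^ (20 * l) := by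
    rw [← pow_add, ← pow_add]
    congr 1
    ring
  rw [mul_one_div, div_mul_eq_mul_div, div_le_one (by positivity), e50]
  refine mul_le_mul_of_nonneg_right ?_ (by positivity)
  calc 12 * (((d ^ 6 : ℕ) : ℝ)) ^ 3 ≤ 2 ^ (12 * l) * 2 ^ (18 * l) :=
        mul_le_mul e h1 (by positivity) (by positivity)
    _ = _ := by ring

open Classical in
theorem good_eq (n a d : ℕ) (adj : ℕ → ℕ → Bool) (sd : Bool) :
    (((IS adj (range n)).filter (fun I =>
      Sml (r6 adj) (Ks a d) (skel n d adj (sideS a sd I)))).card : ℝ) =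
      2 ^ a * Xi (wt n a d adj sd) (sideS a sd (range n)) := by
  rw [sum_om (fun Z => Sml (r6 adj) (Ks a d) Z), sum_filter]
  unfold Xi
  rw [mul_sum]
  push_cast
  refine sum_congr rfl fun Z _ => ?_
  unfold wt wk w0
  split_ifs with hs
  · field_simp
  · simp

namespace MarkAux

open Classical in
theorem sum_bound (h : Sp n a d A l x adj) (sd : Bool) :
    (∑ Z ∈ (sideS a sd (range n)).powerset.filter (fun Z => Sml (r6 adj) (Ks a d) Z ∧
      a < 256 * d * Z.card), (om n a d adj sd Z : ℝ)) * (2 ^ (20 * l)) ^ (Ks a d + 1) ≤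
    2 ^ a * Xi (fun Z => wt n a d adj sd Z * (2 ^ (20 * l)) ^ Z.card) (sideS a sd (range n)) := by
  have hd := h.hh.hd
  rw [sum_mul]
  unfold Xi
  rw [mul_sum, sum_filter]
  refine sum_le_sum fun Z _ => ?_
  have hnn : 0 ≤ wt n a d adj sd Z := (wt_Wt h.hh).nn Z
  split_ifs with hs
  · obtain ⟨h1, h2⟩ := hs
    have h3 : wt n a d adj sd Z = w0 n a d adj sd Z := by
      unfold wt wk
      rw [if_pos h1]
    have h4 : Ks a d + 1 ≤ Z.card := by
      unfold Ks
      rw [Nat.succ_le_iff, Nat.div_lt_iff_lt_mul (by omega)]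
      linarith
    have h5 : (om n a d adj sd Z : ℝ) = 2 ^ a * wt n a d adj sd Z := by
      rw [h3]
      unfold w0
      field_simp
    rw [h5, mul_assoc]
    refine mul_le_mul_of_nonneg_left ?_ (by positivity)
    refine mul_le_mul_of_nonneg_left ?_ hnn
    exact pow_le_pow_right₀ (one_le_pow₀ (by norm_num)) h4
  · positivity

theorem xi_bound (h : Sp n a d A l x adj) (sd : Bool) :
    Xi (fun Z => wt n a d adj sd Z * (2 ^ (20 * l)) ^ Z.card) (sideS a sd (range n)) ≤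
      (1 + 2 * (1 / 2 ^ (30 * l))) ^ a := by
  have hl := h.l_ge
  have e30 : (2 : ℝ) ^ (30 * l) = 2 ^ (12 * l) * 2 ^ (18 * l) := by
    rw [← pow_add]
    congr 1
    ring
  have h1 := Xi_le_pow (r := r6 adj) (w := fun Z => wt n a d adj sd Z * (2 ^ (20 * l)) ^ Z.card)
    (r6_refl adj) (r6_symm h.hh.sym)
    (wt_pow (r6_refl adj) (wt_Wt (sd := sd) h.hh) (l := 2 ^ (20 * l)) (by positivity))
    (r6_deg h.hh (V := sideS a sd (range n)) (filter_subset _ _)) (ρ := 1 / 2 ^ (30 * l))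
    (by positivity) (by
      have h2 := d_pow_le h 12
      have h3 : (((d ^ 6 : ℕ) : ℝ)) ^ 2 ≤ 2 ^ (12 * l) := by
        calc (((d ^ 6 : ℕ) : ℝ)) ^ 2 = (d : ℝ) ^ 12 := by push_cast; ring
          _ ≤ _ := h2
      have h4 : (2 : ℝ) ≤ 2 ^ (18 * l) := by
        calc (2 : ℝ) = 2 ^ 1 := by norm_num
          _ ≤ 2 ^ (18 * l) := pow_le_pow_right₀ (by norm_num) (by omega)
      rw [mul_one_div, div_le_div_iff₀ (by positivity) (by norm_num), one_mul, e30]
      exact mul_le_mul h3 h4 (by norm_num) (by positivity))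
    (by
      intro T hT hc
      have h2 := wt_le h hT hc
      have h3 : (0 : ℝ) ≤ (2 ^ (20 * l)) ^ T.card := by positivity
      refine (mul_le_mul_of_nonneg_right h2 h3).trans (le_of_eq ?_)
      rw [← mul_pow]
      congr 1
      have e50 : (2 : ℝ) ^ (50 * l) = 2 ^ (30 * l) * 2 ^ (20 * l) := by
        rw [← pow_add]
        congr 1
        ring
      rw [e50]
      field_simp)
  rwa [card_side h.hh.hn] at h1

theorem num_bound (h : Sp n a d A l x adj) :
    (2 : ℝ) ^ (x + 4) * (1 + 2 * (1 / 2 ^ (30 * l))) ^ a ≤ (2 ^ (20 * l)) ^ (Ks a d + 1) := by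
  have hd := h.hh.hd
  have hl := h.l_ge
  set s := Ks a d + 1 with hs
  have h1 : a < 256 * d * s := by
    have := Nat.lt_div_mul_add (a := a) (b := 256 * d) (by omega)
    rw [hs]
    unfold Ks
    linarith
  have h2 : x + 4 ≤ 2 * s := by
    have h3 := h.hx
    by_contra hc
    push Not at hc
    have h4 : d * (2 * s + 1) ≤ d * (x + 4) := Nat.mul_le_mul_left d hc
    nlinarith
  have h3 : (1 + 2 * (1 / 2 ^ (30 * l)) : ℝ) ^ a ≤ 2 ^ (2 * s) := by
    have h4 : (1 + 2 * (1 / 2 ^ (30 * l)) : ℝ) ≤ Real.exp (2 * (1 / 2 ^ (30 * l))) := by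
      have := Real.add_one_le_exp (2 * (1 / 2 ^ (30 * l)) : ℝ)
      linarith
    refine (pow_le_pow_left₀ (by positivity) h4 a).trans ?_
    rw [← Real.exp_nat_mul]
    have h5 : (a : ℝ) * (2 * (1 / 2 ^ (30 * l))) ≤ s := by
      have h6 : (a : ℝ) ≤ 256 * d * s := by exact_mod_cast h1.le
      have h7 : (512 : ℝ) * d ≤ 2 ^ (30 * l) := by
        have h8 : (512 : ℝ) ≤ 2 ^ (29 * l) := by
          calc (512 : ℝ) = 2 ^ 9 := by norm_num
            _ ≤ 2 ^ (29 * l) := pow_le_pow_right₀ (by norm_num) (by omega)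
        have h9 : (d : ℝ) ≤ 2 ^ l := by exact_mod_cast h.hl.le
        have e : (2 : ℝ) ^ (30 * l) = 2 ^ (29 * l) * 2 ^ l := by
          rw [← pow_add]
          congr 1
          ring
        rw [e]
        exact mul_le_mul h8 h9 (Nat.cast_nonneg _) (by positivity)
      rw [mul_one_div, mul_div_assoc', div_le_iff₀ (by positivity)]
      have h10 : (0 : ℝ) ≤ s := Nat.cast_nonneg _
      nlinarith
    have h6 : Real.exp ((a : ℝ) * (2 * (1 / 2 ^ (30 * l)))) ≤ Real.exp s := Real.exp_le_exp.2 h5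
    refine h6.trans ?_
    have h7 : Real.exp (s : ℝ) = Real.exp 1 ^ s := by
      rw [← Real.exp_nat_mul, mul_one]
    rw [h7, pow_mul]
    refine pow_le_pow_left₀ (Real.exp_pos _).le ?_ s
    have := Real.exp_one_lt_d9
    norm_num at this ⊢
    linarith
  calc (2 : ℝ) ^ (x + 4) * (1 + 2 * (1 / 2 ^ (30 * l))) ^ a ≤ 2 ^ (2 * s) * 2 ^ (2 * s) :=
        mul_le_mul (pow_le_pow_right₀ (by norm_num) h2) h3 (by positivity) (by positivity)
    _ = 2 ^ (4 * s) := by
        rw [← pow_add]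
        congr 1
        ring
    _ ≤ 2 ^ (20 * l * s) := pow_le_pow_right₀ (by norm_num) (Nat.mul_le_mul_right s (by omega))
    _ = (2 ^ (20 * l)) ^ s := by rw [pow_mul]

end MarkAux

open Classical in
theorem cnt_mark (h : Sp n a d A l x adj) (sd : Bool) :
    2 ^ (x + 4) * ((IS adj (range n)).filter (fun I =>
      Sml (r6 adj) (Ks a d) (skel n d adj (sideS a sd I)) ∧
      a < 256 * d * (skel n d adj (sideS a sd I)).card)).card ≤ 2 ^ a := by
  have h1 := sum_bound h sd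
  have h2 := xi_bound h sd
  have h3 := num_bound h
  have h4 := sum_om (n := n) (a := a) (d := d) (adj := adj) (sd := sd)
    (fun Z => Sml (r6 adj) (Ks a d) Z ∧ a < 256 * d * Z.card)
  have h5 : (2 : ℝ) ^ (x + 4) * ((∑ Z ∈ (sideS a sd (range n)).powerset.filter
      (fun Z => Sml (r6 adj) (Ks a d) Z ∧ a < 256 * d * Z.card), om n a d adj sd Z : ℕ) : ℝ) ≤
      2 ^ a := by
    push_cast
    set W : ℝ := ∑ Z ∈ (sideS a sd (range n)).powerset.filter
      (fun Z => Sml (r6 adj) (Ks a d) Z ∧ a < 256 * d * Z.card), (om n a d adj sd Z : ℝ)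
    set L : ℝ := (2 ^ (20 * l)) ^ (Ks a d + 1) with hL
    have hLpos : 0 < L := by positivity
    refine le_of_mul_le_mul_right ?_ hLpos
    calc (2 : ℝ) ^ (x + 4) * W * L = 2 ^ (x + 4) * (W * L) := by ring
      _ ≤ 2 ^ (x + 4) * (2 ^ a * (1 + 2 * (1 / 2 ^ (30 * l))) ^ a) := by
          refine mul_le_mul_of_nonneg_left ?_ (by positivity)
          exact h1.trans (mul_le_mul_of_nonneg_left h2 (by positivity))
      _ = 2 ^ a * (2 ^ (x + 4) * (1 + 2 * (1 / 2 ^ (30 * l))) ^ a) := by ring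
      _ ≤ 2 ^ a * L := mul_le_mul_of_nonneg_left h3 (by positivity)
  rw [h4]
  exact_mod_cast h5

end Pool.Agent.Lib.Pa7c826k
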