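import Pool.Agent.Lib.Pa7c826k.OmErr
import Pool.Agent.Lib.Pa7c826k.Mark

/-!
The computed approximations of the partition functions of small sets and of their ratios.

PROOFS. Put `k = 1248 q = 96 (13 q)`, `p = 1339 q`, `μ = 13 q`. `xiU_le`, `xiU_ge`: by `sum_sel`
`xiU Y = ∑ Z ∈ Y.powerset, omU Z`. For `Z ⊆ Y`: `|Z| ≤ K ≤ Ks a d`, `wt Z = w0 Z` (`wt_eq`), and by
`omU_le`, `omU_ge` `0 ≤ 2 ^ p * w0 Z - omU Z ≤ 2 ^ (21 l |Z|) (2 ^ (1248 q) + 2 ^ (1339 q - 91 q)) ≤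
2 ^ (21 q + 1 + 1248 q)`. There are `2 ^ |Y| ≤ 2 ^ K ≤ 2 ^ q` sets `Z` (`K ≤ l K ≤ q`), and
`22 q + 1 + 1248 q ≤ 1339 q - 68 q` as `q ≥ 1` (`q ≥ l K ≥ x + 1`).
`rtU_err`: let `X = Xi Y`, `X' = Xi (insert v Y)`, `1 ≤ X ≤ X'` (`Xi_ge_one`, `Xi_mono`), `u = xiU Y /
2 ^ p ∈ [X - δ, X]`, `u' = xiU (insert v Y) / 2 ^ p ∈ [X' - δ, X']`, `δ = 1 / 2 ^ (68 q) ≤ 1 / 2`. Then
`u / u' ≥ (X - δ) / X' ≥ X / X' - δ` and
`u / u' ≤ X / (X' - δ) = X / X' + X δ / (X' (X' - δ)) ≤ X / X' + 2 δ`. The integer division changes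
`rtU / 2 ^ p` by at most `1 / 2 ^ p ≤ δ`. And `3 δ ≤ 1 / 2 ^ (66 q)`.
`mbU_err`: `mob (Rt …) X = ∑ Y ∈ X.powerset, (-1) ^ |X \ Y| Rt v Y`; by `sum_sel`
`mbU e X = ∑ Y ∈ X.powerset, if (|X| + |Y|) % 2 = e then rtU Y else 0`, and `|X \ Y| ≡ |X| + |Y|`
modulo `2`. So the difference is at most `2 ^ |X| * (1 / 2 ^ (66 q)) ≤ 1 / 2 ^ (65 q)` (`rtU_err` for
`Y ⊆ X`, `|insert v Y| ≤ |X| + 1 ≤ K`).
-/

namespace Pool.Agent.Lib.Pa7c826k

open Finset Pool.Agent.Lib.Pa7c826 Pool.Agent.Lib.Pa7c826t Pool.Agent.Lib.Pa7c826e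

variable {n a d A l x K q : ℕ} {adj : ℕ → ℕ → Bool} {sd : Bool}

theorem Pr.q_pos (h : Pr n a d A l x K q adj) : 1 ≤ q := by
  have h1 := h.hq
  have h2 := h.hlx
  omega

namespace XiErrAux

theorem xiU_sum (n a d : ℕ) (adj : ℕ → ℕ → Bool) (sd : Bool) (k p : ℕ) (Y : Finset ℕ) :
    xiU n a d adj sd k p Y = ∑ Z ∈ Y.powerset, omU n a d adj sd k p Z :=
  sum_sel Y (fun Z => omU n a d adj sd k p Z)

theorem side_sub {a : ℕ} {sd : Bool} {n : ℕ} {Y : Finset ℕ} (hY : Y ⊆ sideS a sd (range n)) :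
    Y ⊆ range n := hY.trans (filter_subset _ _)

theorem K_le_q (h : Pr n a d A l x K q adj) : K ≤ q := by
  have h1 := h.hq
  have h2 := h.sp.l_pos
  have h3 : 1 * K ≤ l * K := Nat.mul_le_mul_right K h2
  omega

theorem term (h : Pr n a d A l x K q adj) {Z : Finset ℕ} (hZ : Z ⊆ range n) (hc : Z.card ≤ K) :
    (2 : ℝ) ^ (1339 * q) * wt n a d adj sd Z ≤ omU n a d adj sd (1248 * q) (1339 * q) Z +
      2 ^ (1269 * q + 1) := by
  have hKs : Z.card ≤ Ks a d := hc.trans h.hKs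
  rw [wt_eq hKs]
  have h1 := omU_ge (sd := sd) h.sp hZ hKs (13 * q) (1339 * q)
  have e1 : 96 * (13 * q) = 1248 * q := by ring
  have e2 : 7 * (13 * q) = 91 * q := by ring
  rw [e1, e2] at h1
  have e3 : (2 : ℝ) ^ (1339 * q) / 2 ^ (91 * q) = 2 ^ (1248 * q) := by
    rw [div_eq_iff (by positivity), ← pow_add]
    congr 1
    ring
  rw [e3, ← two_mul, ← mul_assoc, ← pow_succ, ← pow_add] at h1
  have h2 : l * Z.card ≤ q := (Nat.mul_le_mul_left l hc).trans h.hq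
  have h3 : 21 * l * Z.card + 1 + 1248 * q ≤ 1269 * q + 1 := by
    have : 21 * l * Z.card = 21 * (l * Z.card) := by ring
    omega
  have h4 : (2 : ℝ) ^ (21 * l * Z.card + 1 + 1248 * q) ≤ 2 ^ (1269 * q + 1) :=
    pow_le_pow_right₀ (by norm_num) h3
  linarith

theorem rat (X X' u u' δ P : ℝ) (r : ℝ) (h1 : 1 ≤ X) (hXX : X ≤ X') (hδ0 : 0 < δ) (hδ : δ ≤ 1 / 4)
    (hP : 0 < P) (hPδ : 1 ≤ P * δ) (hu1 : P * (X - δ) ≤ u) (hu2 : u ≤ P * X)
    (hv1 : P * (X' - δ) ≤ u') (hv2 : u' ≤ P * X') (hr1 : r ≤ P * u / u') (hr2 : P * u / u' - 1 ≤ r) :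
    |X / X' - r / P| ≤ 3 * δ := by
  have hX' : 0 < X' := by linarith
  have hu' : 0 < u' := lt_of_lt_of_le (mul_pos hP (by linarith)) hv1
  have hu : 0 < u := lt_of_lt_of_le (mul_pos hP (by linarith)) hu1
  have hr3 : r / P ≤ u / u' := by
    rw [div_le_iff₀ hP]
    calc r ≤ P * u / u' := hr1
      _ = u / u' * P := by ring
  have hr4 : u / u' - δ ≤ r / P := by
    rw [le_div_iff₀ hP]
    have : (u / u' - δ) * P = P * u / u' - P * δ := by ring
    rw [this]; linarith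
  have a1 : X / X' - δ ≤ u / u' := by
    have b1 : P * (X - δ) / (P * X') ≤ u / u' := by
      rw [div_le_div_iff₀ (by positivity) hu']
      have : 0 ≤ P * (X - δ) := mul_nonneg hP.le (by linarith)
      nlinarith
    have b2 : P * (X - δ) / (P * X') = X / X' - δ / X' := by
      rw [mul_div_mul_left _ _ hP.ne', sub_div]
    have b3 : δ / X' ≤ δ := div_le_self hδ0.le (by linarith)
    linarith
  have a2 : u / u' ≤ X / X' + 2 * δ := by
    have hXd : 0 < X' - δ := by linarith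
    have b1 : u / u' ≤ P * X / (P * (X' - δ)) := by
      rw [div_le_div_iff₀ hu' (by positivity)]
      have : 0 ≤ P * X := by positivity
      nlinarith [mul_pos hP hXd]
    have b2 : P * X / (P * (X' - δ)) = X / (X' - δ) := mul_div_mul_left _ _ hP.ne'
    rw [b2] at b1
    refine b1.trans ?_
    rw [div_le_iff₀ hXd]
    have b3 : X / X' * X' = X := div_mul_cancel₀ _ hX'.ne'
    have b4 : X / X' ≤ 1 := (div_le_one hX').2 hXX
    have b5 : (X / X' + 2 * δ) * (X' - δ) = X / X' * X' - X / X' * δ + 2 * δ * (X' - δ) := by ring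
    rw [b5, b3]
    nlinarith
  rw [abs_le]
  constructor <;> linarith

theorem sgn (X Y : Finset ℕ) (h : Y ⊆ X) (f : ℝ) :
    (-1 : ℝ) ^ (X \ Y).card * f = (if (X.card + Y.card) % 2 = 0 then f else 0) -
      (if (X.card + Y.card) % 2 = 1 then f else 0) := by
  have h1 := card_sdiff_add_card_eq_card h
  rcases Nat.even_or_odd (X \ Y).card with he | ho
  · have h2 : (X.card + Y.card) % 2 = 0 := by
      obtain ⟨m, hm⟩ := he
      omega
    rw [he.neg_one_pow, if_pos h2, if_neg (by omega)]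
    ring
  · have h2 : (X.card + Y.card) % 2 = 1 := by
      obtain ⟨m, hm⟩ := ho
      omega
    rw [ho.neg_one_pow, if_pos h2, if_neg (by omega)]
    ring

theorem mbU_sum (n a d : ℕ) (adj : ℕ → ℕ → Bool) (sd : Bool) (k p v e : ℕ) (X : Finset ℕ) :
    mbU n a d adj sd k p v e X = ∑ Y ∈ X.powerset, if (X.card + Y.card) % 2 = e then
      rtU n a d adj sd k p v Y else 0 :=
  sum_sel X (fun Y => if (X.card + Y.card) % 2 = e then rtU n a d adj sd k p v Y else 0)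

end XiErrAux

open XiErrAux

theorem xiU_le (h : Pr n a d A l x K q adj) {Y : Finset ℕ}
    (hY : Y ⊆ sideS a sd (range n)) (hc : Y.card ≤ K) :
    (xiU n a d adj sd (1248 * q) (1339 * q) Y : ℝ) ≤ 2 ^ (1339 * q) * Xi (wt n a d adj sd) Y := by
  rw [xiU_sum]
  push_cast
  unfold Xi
  rw [mul_sum]
  refine sum_le_sum fun Z hZ => ?_
  have hZY := mem_powerset.1 hZ
  have h1 : Z.card ≤ K := (card_le_card hZY).trans hc
  have h2 : Z.card ≤ Ks a d := h1.trans h.hKs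
  rw [wt_eq h2]
  exact omU_le h.sp (hZY.trans (side_sub hY)) h2 _ _

theorem xiU_ge (h : Pr n a d A l x K q adj) {Y : Finset ℕ}
    (hY : Y ⊆ sideS a sd (range n)) (hc : Y.card ≤ K) :
    (2 : ℝ) ^ (1339 * q) * (Xi (wt n a d adj sd) Y - 1 / 2 ^ (68 * q)) ≤
      xiU n a d adj sd (1248 * q) (1339 * q) Y := by
  have hq := h.q_pos
  have hKq := K_le_q h
  have h1 : (2 : ℝ) ^ (1339 * q) * Xi (wt n a d adj sd) Y ≤
      xiU n a d adj sd (1248 * q) (1339 * q) Y + 2 ^ (1271 * q) := by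
    rw [xiU_sum]
    push_cast
    unfold Xi
    rw [mul_sum]
    have h2 : ∑ Z ∈ Y.powerset, (2 : ℝ) ^ (1339 * q) * wt n a d adj sd Z ≤
        ∑ Z ∈ Y.powerset, ((omU n a d adj sd (1248 * q) (1339 * q) Z : ℝ) + 2 ^ (1269 * q + 1)) := by
      refine sum_le_sum fun Z hZ => ?_
      have hZY := mem_powerset.1 hZ
      exact term h (hZY.trans (side_sub hY)) ((card_le_card hZY).trans hc)
    refine h2.trans ?_
    rw [sum_add_distrib, sum_const, card_powerset, nsmul_eq_mul]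
    push_cast
    rw [← pow_add]
    have h3 : (2 : ℝ) ^ (Y.card + (1269 * q + 1)) ≤ 2 ^ (1271 * q) :=
      pow_le_pow_right₀ (by norm_num) (by omega)
    linarith
  have e1 : (2 : ℝ) ^ (1339 * q) * (1 / 2 ^ (68 * q)) = 2 ^ (1271 * q) := by
    rw [mul_one_div, div_eq_iff (by positivity), ← pow_add]
    congr 1
    ring
  rw [mul_sub, e1]
  linarith

theorem rtU_err (h : Pr n a d A l x K q adj) {Y : Finset ℕ} {v : ℕ}
    (hY : Y ⊆ sideS a sd (range n)) (hv : v ∈ sideS a sd (range n)) (hc : Y.card < K) :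
    |Rt (wt n a d adj sd) v Y -
      rtU n a d adj sd (1248 * q) (1339 * q) v Y / 2 ^ (1339 * q)| ≤ 1 / 2 ^ (66 * q) := by
  have hq := h.q_pos
  have hW : Wt (r6 adj) (wt n a d adj sd) := wt_Wt h.sp.hh
  have hY' : insert v Y ⊆ sideS a sd (range n) := insert_subset hv hY
  have hc' : (insert v Y).card ≤ K := (card_insert_le v Y).trans hc
  have u1 := xiU_ge (sd := sd) h hY hc.le
  have u2 := xiU_le (sd := sd) h hY hc.le
  have v1 := xiU_ge (sd := sd) h hY' hc'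
  have v2 := xiU_le (sd := sd) h hY' hc'
  have h1 := Xi_ge_one hW Y
  have h2 := Xi_mono hW (subset_insert v Y)
  have hδ0 : (0 : ℝ) < 1 / 2 ^ (68 * q) := by positivity
  have hδ : (1 : ℝ) / 2 ^ (68 * q) ≤ 1 / 4 := by
    have : (2 : ℝ) ^ 2 ≤ 2 ^ (68 * q) := pow_le_pow_right₀ (by norm_num) (by omega)
    exact one_div_le_one_div_of_le (by norm_num) (by linarith)
  have hP : (0 : ℝ) < 2 ^ (1339 * q) := by positivity
  have hPδ : (1 : ℝ) ≤ 2 ^ (1339 * q) * (1 / 2 ^ (68 * q)) := by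
    rw [mul_one_div, le_div_iff₀ (by positivity), one_mul]
    exact pow_le_pow_right₀ (by norm_num) (by omega)
  have r1 : (rtU n a d adj sd (1248 * q) (1339 * q) v Y : ℝ) ≤
      2 ^ (1339 * q) * (xiU n a d adj sd (1248 * q) (1339 * q) Y : ℝ) /
        (xiU n a d adj sd (1248 * q) (1339 * q) (insert v Y) : ℝ) := by
    unfold rtU
    refine Nat.cast_div_le.trans ?_
    push_cast
    exact le_rfl
  have hpos : 0 < xiU n a d adj sd (1248 * q) (1339 * q) (insert v Y) := by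
    have : (0 : ℝ) < xiU n a d adj sd (1248 * q) (1339 * q) (insert v Y) := by
      refine lt_of_lt_of_le (mul_pos hP ?_) v1
      linarith
    exact_mod_cast this
  have r2 : 2 ^ (1339 * q) * (xiU n a d adj sd (1248 * q) (1339 * q) Y : ℝ) /
        (xiU n a d adj sd (1248 * q) (1339 * q) (insert v Y) : ℝ) - 1 ≤
        (rtU n a d adj sd (1248 * q) (1339 * q) v Y : ℝ) := by
    unfold rtU
    have hposR : (0 : ℝ) < xiU n a d adj sd (1248 * q) (1339 * q) (insert v Y) := by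
      exact_mod_cast hpos
    rw [sub_le_iff_le_add, div_le_iff₀ hposR]
    have h5 := Nat.lt_div_mul_add (a := 2 ^ (1339 * q) * xiU n a d adj sd (1248 * q) (1339 * q) Y) hpos
    have h6 : ((2 ^ (1339 * q) * xiU n a d adj sd (1248 * q) (1339 * q) Y : ℕ) : ℝ) ≤
      ((2 ^ (1339 * q) * xiU n a d adj sd (1248 * q) (1339 * q) Y /
        xiU n a d adj sd (1248 * q) (1339 * q) (insert v Y) *
        xiU n a d adj sd (1248 * q) (1339 * q) (insert v Y) +
        xiU n a d adj sd (1248 * q) (1339 * q) (insert v Y) : ℕ) : ℝ) := by exact_mod_cast h5.le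
    rw [Nat.cast_add, Nat.cast_mul, Nat.cast_mul, Nat.cast_pow, Nat.cast_ofNat] at h6
    rw [add_mul, one_mul]
    exact h6
  have key := rat _ _ _ _ _ _ _ h1 h2 hδ0 hδ hP hPδ u1 u2 v1 v2 r1 r2
  unfold Rt
  refine key.trans ?_
  have e2 : (1 : ℝ) / 2 ^ (66 * q) = 2 ^ (2 * q) * (1 / 2 ^ (68 * q)) := by
    rw [mul_one_div, div_eq_div_iff (by positivity) (by positivity), one_mul, ← pow_add]
    congr 1
    ring
  rw [e2]
  have h7 : (2 : ℝ) ^ 2 ≤ 2 ^ (2 * q) := pow_le_pow_right₀ (by norm_num) (by omega)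
  have h8 : (3 : ℝ) ≤ 2 ^ (2 * q) := by linarith
  exact mul_le_mul_of_nonneg_right h8 hδ0.le

theorem mbU_err (h : Pr n a d A l x K q adj) {X : Finset ℕ} {v : ℕ}
    (hX : X ⊆ sideS a sd (range n)) (hv : v ∈ sideS a sd (range n)) (hc : X.card < K) :
    |mob (Rt (wt n a d adj sd) v) X -
      ((mbU n a d adj sd (1248 * q) (1339 * q) v 0 X : ℝ) -
        mbU n a d adj sd (1248 * q) (1339 * q) v 1 X) / 2 ^ (1339 * q)| ≤ 1 / 2 ^ (65 * q) := by
  have hKq := K_le_q h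
  rw [mbU_sum, mbU_sum]
  push_cast
  rw [← sum_sub_distrib]
  have e1 : ∀ Y ∈ X.powerset, ((if (X.card + Y.card) % 2 = 0 then
      (rtU n a d adj sd (1248 * q) (1339 * q) v Y : ℝ) else 0) -
      (if (X.card + Y.card) % 2 = 1 then
      (rtU n a d adj sd (1248 * q) (1339 * q) v Y : ℝ) else 0)) =
      (-1 : ℝ) ^ (X \ Y).card * (rtU n a d adj sd (1248 * q) (1339 * q) v Y : ℝ) := fun Y hY =>
    (sgn X Y (mem_powerset.1 hY) _).symm
  rw [sum_congr rfl e1, sum_div]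
  unfold mob
  rw [← sum_sub_distrib]
  refine (abs_sum_le_sum_abs _ _).trans ?_
  have h1 : ∀ Y ∈ X.powerset, |(-1 : ℝ) ^ (X \ Y).card * Rt (wt n a d adj sd) v Y -
      (-1 : ℝ) ^ (X \ Y).card * (rtU n a d adj sd (1248 * q) (1339 * q) v Y : ℝ) /
        2 ^ (1339 * q)| ≤ 1 / 2 ^ (66 * q) := by
    intro Y hY
    have hYX := mem_powerset.1 hY
    rw [mul_div_assoc, ← mul_sub, abs_mul, abs_pow, abs_neg, abs_one, one_pow, one_mul]
    exact rtU_err h (hYX.trans hX) hv (lt_of_le_of_lt (card_le_card hYX) hc)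
  refine (sum_le_sum h1).trans ?_
  rw [sum_const, card_powerset, nsmul_eq_mul]
  push_cast
  rw [mul_one_div, div_le_div_iff₀ (by positivity) (by positivity), one_mul, ← pow_add]
  exact pow_le_pow_right₀ (by norm_num) (by omega)

end Pool.Agent.Lib.Pa7c826k
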