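import Pool.Agent.Lib.Pa7c826k.Walk

/-!
The number of connected sets that contain a given vertex.
-/

namespace Pool.Agent.Lib.Pa7c826k

open Finset

variable {r : ℕ → ℕ → Prop}

namespace CountAux

open Classical in
/-- supports of walks of length `L` from `x` in `V` -/
noncomputable def Wk (r : ℕ → ℕ → Prop) (V : Finset ℕ) (L x : ℕ) : Finset (Finset ℕ) :=
  V.powerset.filter (fun T => ∃ p : ℕ → ℕ, p 0 = x ∧ (∀ i, r (p i) (p (i + 1))) ∧
    (∀ i, p i ∈ V) ∧ T = (range (L + 1)).image p)

theorem image_succ (p : ℕ → ℕ) (L : ℕ) :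
    (range (L + 1 + 1)).image p = insert (p 0) ((range (L + 1)).image (fun i => p (i + 1))) := by
  ext y
  simp only [mem_image, mem_range, mem_insert]
  constructor
  · rintro ⟨i, hi, rfl⟩
    rcases i with _ | i
    · exact Or.inl rfl
    · exact Or.inr ⟨i, by omega, rfl⟩
  · rintro (rfl | ⟨i, hi, rfl⟩)
    · exact ⟨0, by omega, rfl⟩
    · exact ⟨i + 1, by omega, rfl⟩

theorem card_Wk {V : Finset ℕ} {D : ℕ} (hD : DegB r V D) : ∀ (L x : ℕ),
    (Wk r V L x).card ≤ D ^ L
  | 0, x => by
    classical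
    have h : Wk r V 0 x ⊆ {{x}} := by
      intro T hT
      unfold Wk at hT
      rw [mem_filter] at hT
      obtain ⟨-, p, h0, -, -, h3⟩ := hT
      rw [mem_singleton, h3]
      simp [h0]
    refine (card_le_card h).trans ?_
    simp
  | L + 1, x => by
    classical
    have h : Wk r V (L + 1) x ⊆ (V.filter (fun y => r x y)).biUnion
        (fun y => (Wk r V L y).image (insert x)) := by
      intro T hT
      unfold Wk at hT
      rw [mem_filter] at hT
      obtain ⟨-, p, h0, h1, h2, h3⟩ := hT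
      rw [mem_biUnion]
      refine ⟨p 1, ?_, ?_⟩
      · rw [mem_filter]
        refine ⟨h2 1, ?_⟩
        have := h1 0
        rwa [h0] at this
      · rw [mem_image]
        refine ⟨(range (L + 1)).image (fun i => p (i + 1)), ?_, ?_⟩
        · unfold Wk
          rw [mem_filter, mem_powerset]
          refine ⟨?_, fun i => p (i + 1), rfl, fun i => h1 (i + 1), fun i => h2 (i + 1), rfl⟩
          intro y hy
          rw [mem_image] at hy
          obtain ⟨i, -, rfl⟩ := hy
          exact h2 (i + 1)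
        · rw [h3, image_succ, h0]
    refine (card_le_card h).trans (card_biUnion_le.trans ?_)
    have h1 : ∑ y ∈ V.filter (fun y => r x y), ((Wk r V L y).image (insert x)).card ≤
        ∑ _y ∈ V.filter (fun y => r x y), D ^ L :=
      sum_le_sum fun y _ => card_image_le.trans (card_Wk hD L y)
    refine h1.trans ?_
    rw [sum_const, smul_eq_mul, pow_succ, mul_comm]
    have h2 := hD x
    refine Nat.mul_le_mul_left _ ?_
    convert h2

end CountAux

open CountAux

theorem card_conn_le (hr : ∀ x, r x x) (hs : ∀ x y, r x y → r y x) {V : Finset ℕ} {D : ℕ}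
    (hD : DegB r V D) (v m : ℕ) :
    ((cns r V v).filter (fun T => T.card = m + 1)).card ≤ D ^ (2 * m) := by
  classical
  refine (card_le_card ?_).trans (card_Wk hD (2 * m) v)
  intro T hT
  rw [mem_filter] at hT
  obtain ⟨hT, hc⟩ := hT
  unfold cns at hT
  rw [mem_filter, mem_powerset] at hT
  obtain ⟨hTV, hv, hC⟩ := hT
  obtain ⟨p, h0, h1, h2, h3⟩ := conn_walk hr hs hC hv hc.le
  unfold Wk
  rw [mem_filter, mem_powerset]
  exact ⟨hTV, p, h0, h1, fun i => hTV (h2 i), h3⟩

theorem sum_conn_le (hr : ∀ x, r x x) (hs : ∀ x y, r x y → r y x) {V : Finset ℕ} {D : ℕ}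
    (hD : DegB r V D) (v : ℕ) {x : ℝ} (hx : 0 ≤ x) (hDx : (D : ℝ) ^ 2 * x ≤ 1 / 2) :
    ∑ T ∈ cns r V v, x ^ T.card ≤ 2 * x := by
  classical
  have hmem : ∀ T ∈ cns r V v, 1 ≤ T.card ∧ T.card ≤ V.card := by
    intro T hT
    unfold cns at hT
    rw [mem_filter, mem_powerset] at hT
    exact ⟨card_pos.2 hT.2.2.1, card_le_card hT.1⟩
  have hmaps : ∀ T ∈ cns r V v, T.card - 1 ∈ range V.card := by
    intro T hT
    have := hmem T hT
    rw [mem_range]
    omega
  rw [← sum_fiberwise_of_maps_to hmaps (fun T => x ^ T.card)]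
  have hfib : ∀ m ∈ range V.card, ∑ T ∈ (cns r V v).filter (fun T => T.card - 1 = m), x ^ T.card ≤
      x * (1 / 2 : ℝ) ^ m := by
    intro m _
    have h1 : (cns r V v).filter (fun T => T.card - 1 = m) =
        (cns r V v).filter (fun T => T.card = m + 1) := by
      refine filter_congr fun T hT => ?_
      have := hmem T hT
      omega
    rw [h1]
    have h2 : ∑ T ∈ (cns r V v).filter (fun T => T.card = m + 1), x ^ T.card =
        (((cns r V v).filter (fun T => T.card = m + 1)).card : ℝ) * x ^ (m + 1) := by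
      rw [← nsmul_eq_mul, ← sum_const]
      refine sum_congr rfl fun T hT => ?_
      rw [(mem_filter.1 hT).2]
    rw [h2]
    have h3 : (((cns r V v).filter (fun T => T.card = m + 1)).card : ℝ) ≤ (D : ℝ) ^ (2 * m) := by
      exact_mod_cast card_conn_le hr hs hD v m
    have h4 : (0 : ℝ) ≤ (D : ℝ) ^ 2 * x := by positivity
    calc (((cns r V v).filter (fun T => T.card = m + 1)).card : ℝ) * x ^ (m + 1)
        ≤ (D : ℝ) ^ (2 * m) * x ^ (m + 1) := mul_le_mul_of_nonneg_right h3 (by positivity)
      _ = x * ((D : ℝ) ^ 2 * x) ^ m := by rw [mul_pow, ← pow_mul, pow_succ]; ring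
      _ ≤ x * (1 / 2 : ℝ) ^ m :=
          mul_le_mul_of_nonneg_left (pow_le_pow_left₀ h4 hDx m) hx
  refine (sum_le_sum hfib).trans ?_
  rw [← mul_sum, mul_comm]
  exact mul_le_mul_of_nonneg_right (sum_geometric_two_le V.card) hx

end Pool.Agent.Lib.Pa7c826k
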