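import Pool.Agent.Lib.Pa7c826k.Nrm
import Pool.Agent.Lib.Pa7c826k.Comp
import Pool.Agent.Lib.Pa7c826k.Count

/-!
The main estimate: `Xi w Y / Xi w (insert v Y) - 1` has small norm.

PROOFS. All partition functions are at least `1` (`Xi_ge_one`). `nrm_ratio`: prove, by induction on
`|U1 \ U0|`, for all `U0 ⊆ U1 ⊆ U`:
`nrm l U (fun Y => Xi w (Y ∩ U0) / Xi w (Y ∩ U1)) ≤ (1 + l * η) ^ |U1 \ U0|`. If `U1 = U0` the
function is `1` (`nrm_const`). Otherwise take `u ∈ U1 \ U0`, `U1' = U1.erase u ⊇ U0`, and write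
`Xi (Y ∩ U0) / Xi (Y ∩ U1) = (Xi (Y ∩ U0) / Xi (Y ∩ U1')) * (Xi (Y ∩ U1') / Xi (Y ∩ U1))`; the second
factor is `1 + (if u ∈ Y then Rt w u (Y ∩ U1') - 1 else 0)` because
`Y ∩ U1 = insert u (Y ∩ U1')` if `u ∈ Y` and `Y ∩ U1 = Y ∩ U1'` otherwise; its norm is at most
`1 + l * nrm l U1' (Rt w u - 1) ≤ 1 + l η` (`nrm_one_add` with `g Y = Rt w u Y - 1`; `U1'` is a
proper subset of `U`, `hih`). `nrm_mul_le`. Finally `U1 = U` (`Y ∩ U = Y` for `Y ⊆ U`, `nrm_congr`).
`main_ind`: strong induction on `|U|`, `η = 1 / (l D)`. For `Y ⊆ U`, by `Xi_rec` (`v ∉ Y`),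
`1 / Rt w v Y - 1 = ∑ T ∈ cns r (insert v U) v, w T * ((if T.erase v ⊆ Y then 1 else 0) *
(Xi w (Y ∩ awy r U T) / Xi w Y))`: the sets `T ∈ cns r (insert v Y) v` are the sets
`T ∈ cns r (insert v U) v` with `T.erase v ⊆ Y`, and `awy r Y T = Y ∩ awy r U T`. By `nrm_sum_le`,
`nrm_smul`, `nrm_mul_le`, `nrm_ind`, `nrm_ratio` (with `U0 = awy r U T`; the induction hypothesis
gives `hih`), the norm of `1 / Rt - 1` is at most
`∑ T, w T * l ^ (|T| - 1) * (1 + 1 / D) ^ |U \ awy r U T|`. An element of `U \ awy r U T` is related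
to an element of `T`, so there are at most `D |T|` (`hD`, `U ⊆ V`), and
`(1 + 1 / D) ^ (D |T|) ≤ exp 1 ^ |T| ≤ 3 ^ |T|` (`Real.add_one_le_exp`, `Real.exp_one_lt_d9`). With
`w T ≤ ρ ^ |T|` the sum is at most `(1 / l) ∑ (3 ρ l) ^ |T| ≤ (1 / l) * 2 * (3 ρ l) = 6 ρ`
(`sum_conn_le` for `insert v U ⊆ V` (`DegB` is inherited by subsets), `D ^ 2 * (3 ρ l) ≤ 1 / 4`
from `hsm`). `nrm_inv` with `g = 1 / Rt` (so `1 / g = Rt`) gives
`nrm (Rt - 1) ≤ 6 ρ / (1 - 6 ρ) ≤ 12 ρ ≤ 1 / (l D)`: `6 ρ ≤ 1 / 2` and `12 ρ l D ≤ 1` by `hsm`.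
-/

namespace Pool.Agent.Lib.Pa7c826k

open Finset

variable {r : ℕ → ℕ → Prop} {w : Finset ℕ → ℝ}

private theorem Xi_pos (hw : Wt r w) (Y : Finset ℕ) : 0 < Xi w Y :=
  lt_of_lt_of_le one_pos (Xi_ge_one hw Y)

private theorem ratio_aux (hw : Wt r w) {l η : ℝ} (hl : 1 ≤ l) (hη : 0 ≤ η) {U U0 : Finset ℕ}
    (hih : ∀ U', U' ⊆ U → U' ≠ U → ∀ u ∈ U, u ∉ U' →
      nrm l U' (fun Y => Rt w u Y - 1) ≤ η) (k : ℕ) :
    ∀ U1, U0 ⊆ U1 → U1 ⊆ U → (U1 \ U0).card = k →
      nrm l U (fun Y => Xi w (Y ∩ U0) / Xi w (Y ∩ U1)) ≤ (1 + l * η) ^ k := by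
  have hl0 : 0 ≤ l := by linarith
  induction k with
  | zero =>
    intro U1 h1 h2 h3
    have h4 : U1 = U0 := by
      refine Subset.antisymm ?_ h1
      rw [← sdiff_eq_empty_iff_subset]
      exact card_eq_zero.1 h3
    rw [h4]
    have h5 : nrm l U (fun Y => Xi w (Y ∩ U0) / Xi w (Y ∩ U0)) = nrm l U (fun _ => (1 : ℝ)) :=
      nrm_congr fun Y _ => div_self (Xi_pos hw _).ne'
    rw [h5, nrm_const, abs_one, pow_zero]
  | succ k ih =>
    intro U1 h1 h2 h3
    have hne : (U1 \ U0).Nonempty := by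
      rw [← card_pos]
      omega
    obtain ⟨u, hu⟩ := hne
    obtain ⟨hu1, hu0⟩ := mem_sdiff.1 hu
    have h4 : U0 ⊆ U1.erase u := by
      intro x hx
      refine mem_erase.2 ⟨?_, h1 hx⟩
      rintro rfl
      exact hu0 hx
    have h5 : U1.erase u ⊆ U := (erase_subset _ _).trans h2
    have h6 : ((U1.erase u) \ U0).card = k := by
      rw [card_sdiff_of_subset h4, card_erase_of_mem hu1]
      rw [card_sdiff_of_subset h1] at h3
      omega
    have h7 := ih (U1.erase u) h4 h5 h6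
    have huU : u ∈ U := h2 hu1
    have h8 : u ∉ U1.erase u := notMem_erase u U1
    have h9 := hih (U1.erase u) h5 (fun h => h8 (h ▸ huU)) u huU h8
    have h10 : nrm l U (fun Y => Xi w (Y ∩ U0) / Xi w (Y ∩ U1)) =
        nrm l U (fun Y => (Xi w (Y ∩ U0) / Xi w (Y ∩ U1.erase u)) *
          (1 + if u ∈ Y then (fun Y => Rt w u Y - 1) (Y ∩ U1.erase u) else 0)) := by
      refine nrm_congr fun Y _ => ?_
      have hp := (Xi_pos hw (Y ∩ U1.erase u)).ne'
      by_cases huY : u ∈ Y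
      · rw [if_pos huY]
        have h11 : insert u (Y ∩ U1.erase u) = Y ∩ U1 := by
          ext x
          simp only [mem_insert, mem_inter, mem_erase]
          constructor
          · rintro (rfl | ⟨ha, _, hb⟩)
            · exact ⟨huY, hu1⟩
            · exact ⟨ha, hb⟩
          · rintro ⟨ha, hb⟩
            by_cases hx : x = u
            · exact Or.inl hx
            · exact Or.inr ⟨ha, hx, hb⟩
        simp only [Rt]
        rw [h11]
        have hp2 := (Xi_pos hw (Y ∩ U1)).ne'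
        field_simp
        ring
      · rw [if_neg huY]
        have h11 : Y ∩ U1.erase u = Y ∩ U1 := by
          ext x
          simp only [mem_inter, mem_erase]
          constructor
          · rintro ⟨ha, _, hb⟩
            exact ⟨ha, hb⟩
          · rintro ⟨ha, hb⟩
            refine ⟨ha, ?_, hb⟩
            rintro rfl
            exact huY ha
        rw [h11, add_zero, mul_one]
    rw [h10]
    refine (nrm_mul_le hl).trans ?_
    rw [pow_succ]
    have h12 := nrm_one_add (g := fun Y => Rt w u Y - 1) hl0 huU h5 h8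
    have h13 : 1 + l * nrm l (U1.erase u) (fun Y => Rt w u Y - 1) ≤ 1 + l * η := by
      have := mul_le_mul_of_nonneg_left h9 hl0
      linarith
    exact mul_le_mul h7 (h12.trans h13) (nrm_nonneg hl0) (by positivity)

theorem nrm_ratio (hw : Wt r w) {l η : ℝ} (hl : 1 ≤ l) (hη : 0 ≤ η) {U U0 : Finset ℕ}
    (hU : U0 ⊆ U) (hih : ∀ U', U' ⊆ U → U' ≠ U → ∀ u ∈ U, u ∉ U' →
      nrm l U' (fun Y => Rt w u Y - 1) ≤ η) :
    nrm l U (fun Y => Xi w (Y ∩ U0) / Xi w Y) ≤ (1 + l * η) ^ (U \ U0).card := by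
  have h := ratio_aux hw hl hη hih (U \ U0).card U hU (Subset.refl _) rfl
  refine le_trans (le_of_eq ?_) h
  refine nrm_congr fun Y hY => ?_
  rw [inter_eq_left.2 hY]

private theorem exp_aux {D : ℕ} (hD1 : 1 ≤ D) (m k : ℕ) (hk : k ≤ D * m) :
    (1 + 1 / (D : ℝ)) ^ k ≤ 3 ^ m := by
  have hD : (0 : ℝ) < D := by exact_mod_cast hD1
  have h1 : (1 + 1 / (D : ℝ)) ^ D ≤ 3 := by
    have h2 : 1 + 1 / (D : ℝ) ≤ Real.exp (1 / D) := by
      have := Real.add_one_le_exp (1 / (D : ℝ))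
      linarith
    calc (1 + 1 / (D : ℝ)) ^ D ≤ (Real.exp (1 / D)) ^ D := pow_le_pow_left₀ (by positivity) h2 D
      _ = Real.exp 1 := by
        rw [← Real.exp_nat_mul]
        congr 1
        field_simp
      _ ≤ 3 := by
        have := Real.exp_one_lt_d9
        linarith
  calc (1 + 1 / (D : ℝ)) ^ k ≤ (1 + 1 / (D : ℝ)) ^ (D * m) :=
        pow_le_pow_right₀ (by
          have : 0 ≤ 1 / (D : ℝ) := by positivity
          linarith) hk
    _ = ((1 + 1 / (D : ℝ)) ^ D) ^ m := by rw [pow_mul]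
    _ ≤ 3 ^ m := pow_le_pow_left₀ (by positivity) h1 m

private theorem card_aux {V : Finset ℕ} {D : ℕ} (hD : DegB r V D) {U T : Finset ℕ} (hU : U ⊆ V) :
    (U \ awy r U T).card ≤ D * T.card := by
  classical
  have h1 : U \ awy r U T ⊆ T.biUnion (fun x => V.filter (fun y => r x y)) := by
    intro y hy
    rw [mem_sdiff] at hy
    unfold awy at hy
    rw [mem_filter, not_and] at hy
    have h2 := hy.2 hy.1
    push Not at h2
    obtain ⟨x, hx, hxy⟩ := h2
    rw [mem_biUnion]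
    exact ⟨x, hx, mem_filter.2 ⟨hU hy.1, hxy⟩⟩
  refine (card_le_card h1).trans ?_
  rw [mul_comm]
  refine card_biUnion_le_card_mul _ _ _ fun x _ => ?_
  have h3 := hD x
  refine le_trans (le_of_eq ?_) h3
  congr

private theorem step_aux (hr : ∀ x, r x x) (hs : ∀ x y, r x y → r y x) (hw : Wt r w)
    {V : Finset ℕ} {D : ℕ} (hD : DegB r V D) (hD1 : 1 ≤ D) {ρ l : ℝ} (hρ : 0 ≤ ρ) (hl : 1 ≤ l)
    (hsm : 12 * (D : ℝ) ^ 3 * ρ * l ≤ 1) (hb : ∀ T, T ⊆ V → Conn r T → w T ≤ ρ ^ T.card)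
    {U : Finset ℕ} (hU : U ⊆ V) {v : ℕ} (hv : v ∈ V) (hvU : v ∉ U)
    (hih : ∀ U', U' ⊆ U → U' ≠ U → ∀ u ∈ U, u ∉ U' →
      nrm l U' (fun Y => Rt w u Y - 1) ≤ 1 / (l * D)) :
    nrm l U (fun Y => 1 / Rt w v Y - 1) ≤ 6 * ρ := by
  classical
  have hl0 : 0 < l := by linarith
  have hD0 : (0 : ℝ) < D := by exact_mod_cast hD1
  have hD1' : (1 : ℝ) ≤ D := by exact_mod_cast hD1
  have h1 : nrm l U (fun Y => 1 / Rt w v Y - 1) =
      nrm l U (fun Y => ∑ T ∈ cns r (insert v U) v, w T * ((if T.erase v ⊆ Y then 1 else 0) *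
        (Xi w (Y ∩ awy r U T) / Xi w Y))) := by
    refine nrm_congr fun Y hY => ?_
    have hvY : v ∉ Y := fun h => hvU (hY h)
    have hp := (Xi_pos hw Y).ne'
    have h2 : 1 / Rt w v Y - 1 = (∑ T ∈ cns r (insert v Y) v, w T * Xi w (awy r Y T)) / Xi w Y := by
      have h3 := Xi_rec hr hs hw hvY
      unfold Rt
      rw [one_div_div, h3, add_div, div_self hp, add_sub_cancel_left]
    rw [h2]
    have hsub : cns r (insert v Y) v ⊆ cns r (insert v U) v := by
      intro T hT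
      unfold cns at hT ⊢
      rw [mem_filter, mem_powerset] at hT ⊢
      exact ⟨hT.1.trans (insert_subset_insert _ hY), hT.2⟩
    rw [← sum_subset hsub (f := fun T => w T * ((if T.erase v ⊆ Y then 1 else 0) *
        (Xi w (Y ∩ awy r U T) / Xi w Y)))]
    · rw [sum_div]
      refine sum_congr rfl fun T hT => ?_
      have hT' : T.erase v ⊆ Y := by
        unfold cns at hT
        rw [mem_filter, mem_powerset] at hT
        rw [← subset_insert_iff]
        exact hT.1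
      have h4 : awy r Y T = Y ∩ awy r U T := by
        ext y
        unfold awy
        rw [mem_inter, mem_filter, mem_filter]
        constructor
        · rintro ⟨ha, hb⟩
          exact ⟨ha, hY ha, hb⟩
        · rintro ⟨ha, _, hb⟩
          exact ⟨ha, hb⟩
      rw [if_pos hT', one_mul, h4, mul_div_assoc]
    · intro T hT hnT
      have hT' : ¬ T.erase v ⊆ Y := by
        intro hc
        apply hnT
        unfold cns at hT ⊢
        rw [mem_filter, mem_powerset] at hT ⊢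
        refine ⟨?_, hT.2⟩
        rw [subset_insert_iff]
        exact hc
      rw [if_neg hT', zero_mul, mul_zero]
  rw [h1]
  refine (nrm_sum_le hl0.le _ _).trans ?_
  have hVi : insert v U ⊆ V := insert_subset hv hU
  have hterm : ∀ T ∈ cns r (insert v U) v,
      nrm l U (fun Y => w T * ((if T.erase v ⊆ Y then 1 else 0) *
        (Xi w (Y ∩ awy r U T) / Xi w Y))) ≤ 1 / l * (3 * ρ * l) ^ T.card := by
    intro T hT
    unfold cns at hT
    rw [mem_filter, mem_powerset] at hT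
    obtain ⟨hTU, hvT, hTc⟩ := hT
    have hTe : T.erase v ⊆ U := by
      rw [← subset_insert_iff]
      exact hTU
    rw [nrm_smul, abs_of_nonneg (hw.nn T)]
    have h2 : nrm l U (fun Y => (if T.erase v ⊆ Y then 1 else 0) *
        (Xi w (Y ∩ awy r U T) / Xi w Y)) ≤ l ^ (T.erase v).card * 3 ^ T.card := by
      refine (nrm_mul_le hl).trans ?_
      rw [nrm_ind hTe]
      refine mul_le_mul_of_nonneg_left ?_ (by positivity)
      have h3 := nrm_ratio hw hl (η := 1 / (l * D)) (by positivity) (U := U) (U0 := awy r U T)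
        (filter_subset _ _) hih
      refine h3.trans ?_
      have h4 : 1 + l * (1 / (l * (D : ℝ))) = 1 + 1 / (D : ℝ) := by
        field_simp
      rw [h4]
      exact exp_aux hD1 _ _ (card_aux hD hU)
    have h5 : w T ≤ ρ ^ T.card := hb T (hTU.trans hVi) hTc
    have h6 : 0 < T.card := card_pos.2 ⟨v, hvT⟩
    have h7 : l ^ (T.erase v).card * l = l ^ T.card := by
      rw [card_erase_of_mem hvT, ← pow_succ]
      congr 1
      omega
    calc w T * nrm l U (fun Y => (if T.erase v ⊆ Y then 1 else 0) *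
          (Xi w (Y ∩ awy r U T) / Xi w Y))
        ≤ ρ ^ T.card * (l ^ (T.erase v).card * 3 ^ T.card) :=
          mul_le_mul h5 h2 (nrm_nonneg hl0.le) (by positivity)
      _ = 1 / l * (3 * ρ * l) ^ T.card := by
        rw [mul_pow, mul_pow, ← h7]
        field_simp
  refine (sum_le_sum hterm).trans ?_
  rw [← mul_sum]
  have hDi : DegB r (insert v U) D := by
    intro x
    refine le_trans (card_le_card ?_) (hD x)
    exact filter_subset_filter _ hVi
  have hDD : (D : ℝ) ^ 2 * (3 * ρ * l) ≤ 1 / 2 := by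
    have h3 : (D : ℝ) ^ 2 * (ρ * l) ≤ (D : ℝ) ^ 3 * (ρ * l) :=
      mul_le_mul_of_nonneg_right (pow_le_pow_right₀ hD1' (by norm_num)) (by positivity)
    nlinarith
  have h8 := sum_conn_le hr hs hDi v (x := 3 * ρ * l) (by positivity) hDD
  calc 1 / l * ∑ T ∈ cns r (insert v U) v, (3 * ρ * l) ^ T.card ≤ 1 / l * (2 * (3 * ρ * l)) :=
        mul_le_mul_of_nonneg_left h8 (by positivity)
    _ = 6 * ρ := by
      field_simp
      ring

theorem main_ind (hr : ∀ x, r x x) (hs : ∀ x y, r x y → r y x) (hw : Wt r w) {V : Finset ℕ}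
    {D : ℕ} (hD : DegB r V D) (hD1 : 1 ≤ D) {ρ l : ℝ} (hρ : 0 ≤ ρ) (hl : 1 ≤ l)
    (hsm : 12 * (D : ℝ) ^ 3 * ρ * l ≤ 1) (hb : ∀ T, T ⊆ V → Conn r T → w T ≤ ρ ^ T.card) :
    ∀ U, U ⊆ V → ∀ v ∈ V, v ∉ U → nrm l U (fun Y => Rt w v Y - 1) ≤ 1 / (l * D) := by
  intro U
  induction U using Finset.strongInduction with
  | H U ih =>
    intro hU v hv hvU
    have hl0 : 0 < l := by linarith
    have hD0 : (0 : ℝ) < D := by exact_mod_cast hD1
    have hD1' : (1 : ℝ) ≤ D := by exact_mod_cast hD1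
    have hih : ∀ U', U' ⊆ U → U' ≠ U → ∀ u ∈ U, u ∉ U' →
        nrm l U' (fun Y => Rt w u Y - 1) ≤ 1 / (l * D) := by
      intro U' h1 h2 u hu hu'
      exact ih U' (h1.ssubset_of_ne h2) (h1.trans hU) u (hU hu) hu'
    have h1 := step_aux hr hs hw hD hD1 hρ hl hsm hb hU hv hvU hih
    have hρl : 0 ≤ ρ * l := by positivity
    have h12 : 12 * (ρ * l * D) ≤ 1 := by
      have h3 : (D : ℝ) ^ 1 * (ρ * l) ≤ (D : ℝ) ^ 3 * (ρ * l) :=
        mul_le_mul_of_nonneg_right (pow_le_pow_right₀ hD1' (by norm_num)) hρl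
      rw [pow_one] at h3
      nlinarith
    have h13 : 12 * ρ ≤ 1 := by
      have h3 : ρ * 1 ≤ ρ * (l * D) := by
        refine mul_le_mul_of_nonneg_left ?_ hρ
        nlinarith
      nlinarith
    have h2 := nrm_inv (g := fun Y => 1 / Rt w v Y) hl h1 (by linarith) (fun Y _ => by
      have h3 : Rt w v Y ≠ 0 := div_ne_zero (Xi_pos hw _).ne' (Xi_pos hw _).ne'
      exact one_div_ne_zero h3)
    simp only [one_div_one_div] at h2
    refine h2.trans ?_
    rw [div_le_div_iff₀ (by linarith) (by positivity)]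
    nlinarith

end Pool.Agent.Lib.Pa7c826k
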