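import Pool.Agent.Lib.Pa7c826k.Ind

/-!
The Moebius transform of the ratio vanishes on sets that are not connected; the truncation error.

PROOFS. `Rt_pos`, `Rt_le_one`: `Xi_ge_one`, `Xi_mono`. `mob_Rt_zero`: let `T` be the component of `v`
in `insert v X` (`exists_comp`), `A = T.erase v ⊆ X`. `A ≠ X`, since otherwise `T = insert v X` is
connected. For `Y ⊆ X`: `Y \ A ⊆ (insert v X) \ T` (as `v ∉ X`), so `Y \ A` is far from `T`, hence
from `Y ∩ A` and from `insert v (Y ∩ A)`, and by `Xi_far` `Xi Y = Xi (Y ∩ A) * Xi (Y \ A)`,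
`Xi (insert v Y) = Xi (insert v (Y ∩ A)) * Xi (Y \ A)`; so `Rt w v Y = Rt w v (Y ∩ A)`. Use
`mob_local`. `Rt_trunc`: `Rt w v U = ∑ X ∈ U.powerset, mob (Rt w v) X` (`mob_inv`), so the
difference is the sum of `mob (Rt w v) X` over `X ⊆ U`, `X ∉ F` (`hF`, `sum_sdiff`). Such an `X` with
nonzero term is connected together with `v` (`mob_Rt_zero`), so `K ≤ |X|` by `hF'`; in particular
`X ≠ ∅` and `mob (Rt w v) X = mob (fun Y => Rt w v Y - 1) X` (the Moebius transform of the constant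
`1` is `0` on nonempty sets). As `1 ≤ l ^ |X| / l ^ K`, the sum of the absolute values is at most
`(1 / l ^ K) * nrm l U (fun Y => Rt w v Y - 1) ≤ (1 / l ^ K) * (1 / (l D))`. `Rt_ge`:
`|Rt w v U - 1| ≤ nrm ≤ 1 / (l D)` by `abs_le_nrm`.
-/

namespace Pool.Agent.Lib.Pa7c826k

open Finset

variable {r : ℕ → ℕ → Prop} {w : Finset ℕ → ℝ}

theorem Rt_pos (hw : Wt r w) (v : ℕ) (Y : Finset ℕ) : 0 < Rt w v Y :=
  div_pos (lt_of_lt_of_le one_pos (Xi_ge_one hw _)) (lt_of_lt_of_le one_pos (Xi_ge_one hw _))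

theorem Rt_le_one (hw : Wt r w) (v : ℕ) (Y : Finset ℕ) : Rt w v Y ≤ 1 := by
  unfold Rt
  rw [div_le_one (lt_of_lt_of_le one_pos (Xi_ge_one hw _))]
  exact Xi_mono hw (subset_insert v Y)

theorem mob_Rt_zero (hr : ∀ x, r x x) (hs : ∀ x y, r x y → r y x) (hw : Wt r w) {v : ℕ}
    {X : Finset ℕ} (hv : v ∉ X) (h : ¬ Conn r (insert v X)) : mob (Rt w v) X = 0 := by
  obtain ⟨T, hT, hvT, hcT, hfT⟩ := exists_comp hr hs (mem_insert_self v X)
  have hA : T.erase v ⊆ X := by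
    intro x hx
    rw [mem_erase] at hx
    rcases mem_insert.mp (hT hx.2) with h1 | h1
    · exact absurd h1 hx.1
    · exact h1
  have hne : T.erase v ≠ X := by
    intro hc
    apply h
    rw [← hc, insert_erase hvT]
    exact hcT
  refine mob_local hA hne fun Y hY => ?_
  have hout : ∀ y ∈ Y \ T.erase v, y ∈ insert v X \ T := by
    intro y hy
    rw [mem_sdiff] at hy
    rw [mem_sdiff]
    refine ⟨mem_insert_of_mem (hY hy.1), fun hyT => hy.2 (mem_erase.mpr ⟨?_, hyT⟩)⟩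
    rintro rfl
    exact hv (hY hy.1)
  have hf2 : Far r (insert v (Y ∩ T.erase v)) (Y \ T.erase v) := by
    intro x hx y hy
    refine hfT x ?_ y (hout y hy)
    rcases mem_insert.mp hx with h1 | h1
    · rw [h1]
      exact hvT
    · exact mem_of_mem_erase (mem_of_mem_inter_right h1)
  have hf1 : Far r (Y ∩ T.erase v) (Y \ T.erase v) := fun x hx => hf2 x (mem_insert_of_mem hx)
  have e1 : (Y ∩ T.erase v) ∪ (Y \ T.erase v) = Y := by
    rw [union_comm]
    exact sdiff_union_inter Y (T.erase v)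
  have e2 : insert v (Y ∩ T.erase v) ∪ (Y \ T.erase v) = insert v Y := by
    rw [insert_union, e1]
  have h1 := Xi_far hr hw hf1
  have h2 := Xi_far hr hw hf2
  rw [e1] at h1
  rw [e2] at h2
  unfold Rt
  rw [h1, h2]
  have h3 : Xi w (Y \ T.erase v) ≠ 0 := (lt_of_lt_of_le one_pos (Xi_ge_one hw _)).ne'
  exact mul_div_mul_right _ _ h3

theorem Rt_trunc (hr : ∀ x, r x x) (hs : ∀ x y, r x y → r y x) (hw : Wt r w) {V : Finset ℕ}
    {D : ℕ} (hD : DegB r V D) (hD1 : 1 ≤ D) {ρ l : ℝ} (hρ : 0 ≤ ρ) (hl : 1 ≤ l)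
    (hsm : 12 * (D : ℝ) ^ 3 * ρ * l ≤ 1) (hb : ∀ T, T ⊆ V → Conn r T → w T ≤ ρ ^ T.card)
    {U : Finset ℕ} (hU : U ⊆ V) {v : ℕ} (hv : v ∈ V) (hvU : v ∉ U) {K : ℕ} (hK : 1 ≤ K)
    {F : Finset (Finset ℕ)} (hF : F ⊆ U.powerset)
    (hF' : ∀ X, X ⊆ U → Conn r (insert v X) → X.card < K → X ∈ F) :
    |Rt w v U - ∑ X ∈ F, mob (Rt w v) X| ≤ 1 / (D * l ^ (K + 1)) := by
  have hl0 : 0 < l := lt_of_lt_of_le one_pos hl
  have hD0 : (0 : ℝ) < D := by exact_mod_cast hD1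
  have hmain := main_ind hr hs hw hD hD1 hρ hl hsm hb U hU v hv hvU
  have hmob : ∀ X, X ⊆ U → mob (Rt w v) X = mob (fun Y => Rt w v Y - 1) X + if X = ∅ then 1 else 0 := by
    refine mob_unique (U := U) fun Y _ => ?_
    rw [sum_add_distrib, mob_inv, sum_ite_eq' , if_pos (empty_mem_powerset Y)]
    ring
  have hsum : Rt w v U - ∑ X ∈ F, mob (Rt w v) X = ∑ X ∈ U.powerset \ F, mob (Rt w v) X := by
    have h1 := sum_sdiff (f := fun X => mob (Rt w v) X) hF
    have h2 := mob_inv (Rt w v) U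
    linarith
  rw [hsum]
  have hterm : ∀ X ∈ U.powerset \ F, |mob (Rt w v) X| ≤
      1 / l ^ K * (|mob (fun Y => Rt w v Y - 1) X| * l ^ X.card) := by
    intro X hX
    rw [mem_sdiff, mem_powerset] at hX
    obtain ⟨hXU, hXF⟩ := hX
    have hlK : 0 < l ^ K := pow_pos hl0 K
    by_cases hc : Conn r (insert v X)
    · have hcard : K ≤ X.card := by
        by_contra hcon
        exact hXF (hF' X hXU hc (by omega))
      have hXne : X ≠ ∅ := by
        rintro rfl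
        rw [card_empty] at hcard
        omega
      rw [hmob X hXU, if_neg hXne, add_zero]
      have h3 : 1 ≤ 1 / l ^ K * l ^ X.card := by
        rw [one_div_mul_eq_div, le_div_iff₀ hlK, one_mul]
        exact pow_le_pow_right₀ hl hcard
      calc |mob (fun Y => Rt w v Y - 1) X| = |mob (fun Y => Rt w v Y - 1) X| * 1 := (mul_one _).symm
        _ ≤ |mob (fun Y => Rt w v Y - 1) X| * (1 / l ^ K * l ^ X.card) :=
            mul_le_mul_of_nonneg_left h3 (abs_nonneg _)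
        _ = _ := by ring
    · rw [mob_Rt_zero hr hs hw (fun h => hvU (hXU h)) hc, abs_zero]
      positivity
  calc |∑ X ∈ U.powerset \ F, mob (Rt w v) X| ≤ ∑ X ∈ U.powerset \ F, |mob (Rt w v) X| :=
        abs_sum_le_sum_abs _ _
    _ ≤ ∑ X ∈ U.powerset \ F, 1 / l ^ K * (|mob (fun Y => Rt w v Y - 1) X| * l ^ X.card) :=
        sum_le_sum hterm
    _ ≤ ∑ X ∈ U.powerset, 1 / l ^ K * (|mob (fun Y => Rt w v Y - 1) X| * l ^ X.card) :=
        sum_le_sum_of_subset_of_nonneg sdiff_subset fun X _ _ => by positivity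
    _ = 1 / l ^ K * nrm l U (fun Y => Rt w v Y - 1) := by
        rw [← mul_sum]
        rfl
    _ ≤ 1 / l ^ K * (1 / (l * D)) := mul_le_mul_of_nonneg_left hmain (by positivity)
    _ = 1 / (D * l ^ (K + 1)) := by
        rw [pow_succ]
        field_simp

theorem Rt_ge (hr : ∀ x, r x x) (hs : ∀ x y, r x y → r y x) (hw : Wt r w) {V : Finset ℕ}
    {D : ℕ} (hD : DegB r V D) (hD1 : 1 ≤ D) {ρ l : ℝ} (hρ : 0 ≤ ρ) (hl : 1 ≤ l)
    (hsm : 12 * (D : ℝ) ^ 3 * ρ * l ≤ 1) (hb : ∀ T, T ⊆ V → Conn r T → w T ≤ ρ ^ T.card)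
    {U : Finset ℕ} (hU : U ⊆ V) {v : ℕ} (hv : v ∈ V) (hvU : v ∉ U) :
    1 - 1 / (l * D) ≤ Rt w v U := by
  have hmain := main_ind hr hs hw hD hD1 hρ hl hsm hb U hU v hv hvU
  have h1 := abs_le_nrm (f := fun Y => Rt w v Y - 1) hl (Subset.refl U)
  have h2 := (abs_le.mp (h1.trans hmain)).1
  linarith

end Pool.Agent.Lib.Pa7c826k
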