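import Pool.Agent.Lib.Pa7c826k.Defs

/-!
Moebius inversion on finite sets.
-/

namespace Pool.Agent.Lib.Pa7c826k

open Finset

/-- the inner sum in the Moebius inversion -/
private theorem mob_aux {Z Y : Finset ℕ} (hZ : Z ⊆ Y) :
    ∑ X ∈ Y.powerset, (if Z ⊆ X then (-1 : ℝ) ^ (X \ Z).card else 0) = if Z = Y then 1 else 0 := by
  rw [← Finset.sum_filter]
  have h1 : ∑ X ∈ Y.powerset.filter (fun X => Z ⊆ X), (-1 : ℝ) ^ (X \ Z).card
      = ∑ W ∈ (Y \ Z).powerset, (-1 : ℝ) ^ W.card := by
    apply Finset.sum_nbij' (fun X => X \ Z) (fun W => Z ∪ W)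
    · intro X hX
      simp only [mem_filter, mem_powerset] at hX ⊢
      exact sdiff_subset_sdiff hX.1 (le_refl _)
    · intro W hW
      simp only [mem_filter, mem_powerset] at hW ⊢
      exact ⟨union_subset hZ (hW.trans sdiff_subset), subset_union_left⟩
    · intro X hX
      simp only [mem_filter, mem_powerset] at hX
      exact union_sdiff_of_subset hX.2
    · intro W hW
      simp only [mem_powerset] at hW
      apply union_sdiff_cancel_left
      rw [disjoint_left]
      intro x hx hx2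
      exact (mem_sdiff.1 (hW hx2)).2 hx
    · intro X hX
      rfl
  rw [h1]
  have h2 := Finset.sum_powerset_neg_one_pow_card (x := Y \ Z)
  have h3 : ∑ W ∈ (Y \ Z).powerset, (-1 : ℝ) ^ W.card = if Y \ Z = ∅ then 1 else 0 := by
    have := congrArg (fun z : ℤ => (z : ℝ)) h2
    push_cast at this
    exact this
  rw [h3]
  have h4 : Y \ Z = ∅ ↔ Z = Y := by
    rw [sdiff_eq_empty_iff_subset]
    exact ⟨fun h => Subset.antisymm hZ h, fun h => h ▸ Subset.refl _⟩
  simp only [h4]

theorem mob_inv (f : Finset ℕ → ℝ) (Y : Finset ℕ) : ∑ X ∈ Y.powerset, mob f X = f Y := by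
  unfold mob
  have h1 : ∀ X ∈ Y.powerset, ∑ Z ∈ X.powerset, (-1 : ℝ) ^ (X \ Z).card * f Z
      = ∑ Z ∈ Y.powerset, (if Z ⊆ X then (-1 : ℝ) ^ (X \ Z).card else 0) * f Z := by
    intro X hX
    rw [mem_powerset] at hX
    have h2 : X.powerset = Y.powerset.filter (fun Z => Z ⊆ X) := by
      ext Z
      simp only [mem_powerset, mem_filter]
      exact ⟨fun h => ⟨h.trans hX, h⟩, fun h => h.2⟩
    rw [h2, sum_filter]
    apply sum_congr rfl
    intro Z _
    by_cases h : Z ⊆ X
    · simp [h]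
    · simp [h]
  rw [sum_congr rfl h1, sum_comm]
  have h3 : ∀ Z ∈ Y.powerset, ∑ X ∈ Y.powerset, (if Z ⊆ X then (-1 : ℝ) ^ (X \ Z).card else 0) * f Z
      = (if Z = Y then 1 else 0) * f Z := by
    intro Z hZ
    rw [← sum_mul, mob_aux (mem_powerset.1 hZ)]
  rw [sum_congr rfl h3]
  simp

theorem mob_unique {f F : Finset ℕ → ℝ} {U : Finset ℕ}
    (h : ∀ Y, Y ⊆ U → f Y = ∑ X ∈ Y.powerset, F X) : ∀ X, X ⊆ U → mob f X = F X := by
  intro X
  induction X using Finset.strongInduction with
  | H X ih =>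
    intro hX
    have h1 := mob_inv f X
    rw [h X hX] at h1
    rw [← sum_erase_add _ _ (mem_powerset.2 (Subset.refl X)),
      ← sum_erase_add (X.powerset) F (mem_powerset.2 (Subset.refl X))] at h1
    have h2 : ∑ Z ∈ X.powerset.erase X, mob f Z = ∑ Z ∈ X.powerset.erase X, F Z := by
      apply sum_congr rfl
      intro Z hZ
      rw [mem_erase, mem_powerset] at hZ
      exact ih Z (Finset.ssubset_iff_subset_ne.2 ⟨hZ.2, hZ.1⟩) (hZ.2.trans hX)
    rw [h2] at h1
    exact add_left_cancel h1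

theorem mob_congr {f g : Finset ℕ → ℝ} {X : Finset ℕ} (h : ∀ Y, Y ⊆ X → f Y = g Y) :
    mob f X = mob g X := by
  unfold mob
  apply sum_congr rfl
  intro Y hY
  rw [h Y (mem_powerset.1 hY)]

theorem mob_mul (f g : Finset ℕ → ℝ) (X : Finset ℕ) :
    mob (fun Y => f Y * g Y) X = ∑ A ∈ X.powerset, ∑ B ∈ X.powerset,
      if A ∪ B = X then mob f A * mob g B else 0 := by
  have key : ∀ Y, Y ⊆ X → (fun Y => f Y * g Y) Y = ∑ Z ∈ Y.powerset,
      (fun Z => ∑ A ∈ X.powerset, ∑ B ∈ X.powerset,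
        if A ∪ B = Z then mob f A * mob g B else 0) Z := by
    intro Y hY
    simp only
    rw [sum_comm]
    have e1 : ∀ A ∈ X.powerset, ∑ Z ∈ Y.powerset, ∑ B ∈ X.powerset,
        (if A ∪ B = Z then mob f A * mob g B else 0)
        = ∑ B ∈ X.powerset, (if A ⊆ Y then mob f A else 0) * (if B ⊆ Y then mob g B else 0) := by
      intro A _
      rw [sum_comm]
      apply sum_congr rfl
      intro B _
      rw [sum_ite_eq]
      by_cases hA : A ⊆ Y
      · by_cases hB : B ⊆ Y
        · simp [hA, hB, union_subset hA hB]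
        · have : ¬ (A ∪ B ⊆ Y) := fun h => hB (subset_union_right.trans h)
          simp [hB, this]
      · have : ¬ (A ∪ B ⊆ Y) := fun h => hA (subset_union_left.trans h)
        simp [hA, this]
    rw [sum_congr rfl e1]
    have e2 : ∀ (F : Finset ℕ → ℝ), ∑ A ∈ X.powerset, (if A ⊆ Y then mob F A else 0) = F Y := by
      intro F
      rw [← sum_filter]
      have : X.powerset.filter (fun A => A ⊆ Y) = Y.powerset := by
        ext A
        simp only [mem_powerset, mem_filter]
        exact ⟨fun h => h.2, fun h => ⟨h.trans hY, h⟩⟩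
      rw [this, mob_inv]
    rw [← sum_mul_sum, e2, e2]
  exact mob_unique key X (Subset.refl X)

theorem mob_local {f : Finset ℕ → ℝ} {X A : Finset ℕ} (hA : A ⊆ X) (hne : A ≠ X)
    (h : ∀ Y, Y ⊆ X → f Y = f (Y ∩ A)) : mob f X = 0 := by
  have key : ∀ Y, Y ⊆ X → f Y = ∑ Z ∈ Y.powerset, (fun Z => if Z ⊆ A then mob f Z else 0) Z := by
    intro Y hY
    simp only
    rw [← sum_filter]
    have : Y.powerset.filter (fun Z => Z ⊆ A) = (Y ∩ A).powerset := by
      ext Z
      simp only [mem_powerset, mem_filter, subset_inter_iff]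
    rw [this, mob_inv]
    exact h Y hY
  have := mob_unique key X (Subset.refl X)
  rw [this, if_neg]
  intro hX
  exact hne (Subset.antisymm hA hX)

end Pool.Agent.Lib.Pa7c826k
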