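import Pool.Agent.Lib.Pa7c826k.Defs
import Pool.Agent.Lib.Pa7c826e.EAlg
import Pool.Agent.Lib.P8e91ed.PolyBin

/-!
The sets used by the algorithm are computable in polynomial time.

PROOFS. Only closure lemmas. `PolyS.filter`, `PolyS.card`, `PolyS.up`, `PolyS.mem`, `PolyS.range`,
`PolyS.congr` (`Pa7c826/Bin.lean`), `poly_adj`, `poly_nOf`, `poly_aOf` (`Pa7c826/AlgoPoly.lean`),
`upoly_dOf` (`Pa7c826e/EAlg.lean`), `PolyB.exists_lt`, `PolyB.lt`, `PolyB.le`, `PolyB.and`,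
`PolyB.not`, `PolyB.or`, `up`, `upN`, `last` (`Pa7c826/Comb2.lean`), `PolyP` (`P8e91ed/PolyBin.lean`).
`polyS_congr_range`: a set given by its members below `nOf w`. `poly_side`:
`(range n).filter (decide (v < a) = sd)`, case `sd`. `poly_NB`:
`(range n).filter (fun v => ∃ u < n, u ∈ Z ∧ adj u v)` as `Z ⊆ range n`. `poly_union`, `poly_sdiff`:
filters of `range n` (the sets are subsets of `range n`). `poly_insert`: `v < n`. `poly_nw`: `nw` is
the number of `v < n` with `adj u v` and `v ∉ NB Z` (`NB n adj {u}` is the set of `v < n` with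
`adj u v`). `poly_big`, `poly_BB`, `poly_QQ`, `poly_vld`: unfold.
-/

namespace Pool.Agent.Lib.Pa7c826k

open Pool.Agent.Lib.PolyTime Pool.Agent.Lib.Pa7c826 Pool.Agent.Lib.Pa7c826t
  Pool.Agent.Lib.Pa7c826e Finset

variable {α : Type} {D : α → Prop} {ctx : List (α → List Bool)} {w : α → List Bool}
  {Z Y : α → Finset ℕ} {u : α → ℕ}

namespace PSetAux

open Pool.Agent.Lib.P8e91ed.PT

theorem polyS_of {n : α → ℕ} (hn : PolyN D ctx n) {P : α → ℕ → Prop}
    (hP : PolyP (Dx D n) (cx ctx) (fun p => P p.1 p.2)) {S : α → Finset ℕ}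
    (h : ∀ a, D a → ∀ i, i ∈ S a ↔ i < n a ∧ P a i) : PolyS D ctx n S := by
  obtain ⟨φ, h1, h2⟩ := hP
  refine (PolyS.filter hn (PolyS.range hn) h1).congr (fun a ha => ?_)
  ext i
  rw [mem_filter, mem_range, h a ha i]
  constructor
  · rintro ⟨h3, h4⟩
    exact ⟨h3, (h2 (a, i) ⟨ha, h3⟩).1 h4⟩
  · rintro ⟨h3, h4⟩
    exact ⟨h3, (h2 (a, i) ⟨ha, h3⟩).2 h4⟩

theorem memP {n : α → ℕ} {S : α → Finset ℕ} {v : α → ℕ} (hS : PolyS D ctx n S)
    (hv : PolyN D ctx v) : PolyP D ctx (fun a => v a ∈ S a) :=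
  ⟨_, hS.mem hv, fun a _ => by simp⟩

theorem adjP {v : α → ℕ} (hw : PolyC D ctx w) (hu : PolyN D ctx u) (hv : PolyN D ctx v) :
    PolyP D ctx (fun a => adjOf (w a) (u a) (v a) = true) := PolyP.ofB (poly_adj hw hu hv)

theorem sUp {n m : α → ℕ} {S : α → Finset ℕ} (hS : PolyS D ctx n S) :
    PolyS (Dx D m) (cx ctx) (fun p => n p.1) (fun p => S p.1) := hS.up

end PSetAux

open PSetAux Pool.Agent.Lib.P8e91ed.PT

theorem poly_side (sd : Bool) (hw : PolyC D ctx w) :
    PolyS D ctx (fun x => nOf (w x)) (fun x => sideS (aOf (w x)) sd (range (nOf (w x)))) := by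
  cases sd with
  | true =>
    refine polyS_of (P := fun a i => i < aOf (w a)) (poly_nOf hw)
      (PolyP.lt nL (poly_aOf (cU hw))) (fun a _ i => ?_)
    simp [sideS]
  | false =>
    refine polyS_of (P := fun a i => ¬ i < aOf (w a)) (poly_nOf hw)
      (PolyP.lt nL (poly_aOf (cU hw))).not (fun a _ i => ?_)
    simp [sideS]

theorem poly_NB (hw : PolyC D ctx w) (hZ : PolyS D ctx (fun x => nOf (w x)) Z) :
    PolyS D ctx (fun x => nOf (w x)) (fun x => NB (nOf (w x)) (adjOf (w x)) (Z x)) := by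
  have hn := poly_nOf hw
  have hP : PolyP (Dx D (fun x => nOf (w x))) (cx ctx)
      (fun p => ∃ j ∈ range (nOf (w p.1)), (j ∈ Z p.1 ∧ adjOf (w p.1) j p.2 = true)) := by
    refine PolyP.exists_range (n := fun p : α × ℕ => nOf (w p.1))
      (P := fun p j => j ∈ Z p.1 ∧ adjOf (w p.1) j p.2 = true) (nU hn) ?_
    exact (memP (sUp (sUp hZ)) nL).and (adjP (cU (cU hw)) nL (nU nL))
  refine polyS_of (P := fun a i => ∃ j ∈ range (nOf (w a)), (j ∈ Z a ∧ adjOf (w a) j i = true))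
    hn hP (fun a ha i => ?_)
  unfold NB
  rw [mem_filter, mem_range]
  refine and_congr_right fun _ => ?_
  constructor
  · rintro ⟨j, h1, h2⟩
    exact ⟨j, hZ.2 a ha h1, h1, h2⟩
  · rintro ⟨j, _, h1, h2⟩
    exact ⟨j, h1, h2⟩

theorem poly_union (hw : PolyC D ctx w) (hZ : PolyS D ctx (fun x => nOf (w x)) Z)
    (hY : PolyS D ctx (fun x => nOf (w x)) Y) :
    PolyS D ctx (fun x => nOf (w x)) (fun x => Z x ∪ Y x) := by
  refine polyS_of (P := fun a i => i ∈ Z a ∨ i ∈ Y a) (poly_nOf hw)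
    ((memP (sUp hZ) nL).or (memP (sUp hY) nL)) (fun a ha i => ?_)
  rw [mem_union]
  constructor
  · intro h
    exact ⟨h.elim (fun h => mem_range.1 (hZ.2 a ha h)) (fun h => mem_range.1 (hY.2 a ha h)), h⟩
  · exact fun h => h.2

theorem poly_sdiff (hw : PolyC D ctx w) (hZ : PolyS D ctx (fun x => nOf (w x)) Z)
    (hY : PolyS D ctx (fun x => nOf (w x)) Y) :
    PolyS D ctx (fun x => nOf (w x)) (fun x => Z x \ Y x) := by
  refine polyS_of (P := fun a i => i ∈ Z a ∧ ¬ i ∈ Y a) (poly_nOf hw)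
    ((memP (sUp hZ) nL).and (memP (sUp hY) nL).not) (fun a ha i => ?_)
  rw [mem_sdiff]
  constructor
  · intro h
    exact ⟨mem_range.1 (hZ.2 a ha h.1), h⟩
  · exact fun h => h.2

theorem poly_insert (hw : PolyC D ctx w) (hZ : PolyS D ctx (fun x => nOf (w x)) Z)
    (hu : PolyN D ctx u) (hun : ∀ x, D x → u x < nOf (w x)) :
    PolyS D ctx (fun x => nOf (w x)) (fun x => insert (u x) (Z x)) := by
  refine polyS_of (P := fun a i => i = u a ∨ i ∈ Z a) (poly_nOf hw)
    ((PolyP.eq nL (nU hu)).or (memP (sUp hZ) nL)) (fun a ha i => ?_)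
  rw [mem_insert]
  constructor
  · intro h
    exact ⟨h.elim (fun h => by rw [h]; exact hun a ha) (fun h => mem_range.1 (hZ.2 a ha h)), h⟩
  · exact fun h => h.2

theorem poly_erase (hw : PolyC D ctx w) (hZ : PolyS D ctx (fun x => nOf (w x)) Z)
    (hu : PolyN D ctx u) :
    PolyS D ctx (fun x => nOf (w x)) (fun x => (Z x).erase (u x)) := by
  refine polyS_of (P := fun a i => (¬ i = u a) ∧ i ∈ Z a) (poly_nOf hw)
    ((PolyP.eq nL (nU hu)).not.and (memP (sUp hZ) nL)) (fun a ha i => ?_)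
  rw [mem_erase]
  constructor
  · intro h
    exact ⟨mem_range.1 (hZ.2 a ha h.2), h⟩
  · exact fun h => h.2

theorem poly_blw (hw : PolyC D ctx w) (hZ : PolyS D ctx (fun x => nOf (w x)) Z)
    (hu : PolyN D ctx u) :
    PolyS D ctx (fun x => nOf (w x)) (fun x => blw (Z x) (u x)) := by
  refine polyS_of (P := fun a i => i ∈ Z a ∧ i < u a) (poly_nOf hw)
    ((memP (sUp hZ) nL).and (PolyP.lt nL (nU hu))) (fun a ha i => ?_)
  unfold blw
  rw [mem_filter]
  constructor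
  · intro h
    exact ⟨mem_range.1 (hZ.2 a ha h.1), h⟩
  · exact fun h => h.2

theorem poly_nw (hw : PolyC D ctx w) (hZ : PolyS D ctx (fun x => nOf (w x)) Z)
    (hu : PolyN D ctx u) :
    PolyN D ctx (fun x => nw (nOf (w x)) (adjOf (w x)) (Z x) (u x)) := by
  have h1 : PolyS D ctx (fun x => nOf (w x))
      (fun x => NB (nOf (w x)) (adjOf (w x)) {u x} \ NB (nOf (w x)) (adjOf (w x)) (Z x)) := by
    refine polyS_of (P := fun a i => adjOf (w a) (u a) i = true ∧
      ¬ i ∈ NB (nOf (w a)) (adjOf (w a)) (Z a)) (poly_nOf hw)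
      ((adjP (cU hw) (nU hu) nL).and (memP (sUp (poly_NB hw hZ)) nL).not) (fun a ha i => ?_)
    rw [mem_sdiff]
    constructor
    · rintro ⟨h2, h3⟩
      unfold NB at h2
      rw [mem_filter, mem_range] at h2
      obtain ⟨h4, j, h5, h6⟩ := h2
      rw [mem_singleton] at h5
      rw [h5] at h6
      exact ⟨h4, h6, h3⟩
    · rintro ⟨h2, h3, h4⟩
      refine ⟨?_, h4⟩
      unfold NB
      rw [mem_filter, mem_range]
      exact ⟨h2, u a, mem_singleton_self _, h3⟩
  exact PolyS.card (poly_nOf hw) h1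

theorem poly_big (hw : PolyC D ctx w) (hZ : PolyS D ctx (fun x => nOf (w x)) Z)
    (hu : PolyN D ctx u) :
    PolyB D ctx (fun x => big (nOf (w x)) (dOf (w x)) (adjOf (w x)) (Z x) (u x)) :=
  PolyB.le (upoly_dOf hw) ((PolyN.const 8).mul (poly_nw hw hZ hu))

theorem poly_BB (sd : Bool) (hw : PolyC D ctx w) (hZ : PolyS D ctx (fun x => nOf (w x)) Z) :
    PolyS D ctx (fun x => nOf (w x))
      (fun x => BB (nOf (w x)) (aOf (w x)) (dOf (w x)) (adjOf (w x)) sd (Z x)) := by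
  have hs := poly_side sd hw
  refine polyS_of (P := fun a i => i ∈ sideS (aOf (w a)) sd (range (nOf (w a))) ∧ (¬ i ∈ Z a ∧
      ¬ big (nOf (w a)) (dOf (w a)) (adjOf (w a)) (blw (Z a) i) i = true)) (poly_nOf hw) ?_
      (fun a ha i => ?_)
  · exact (memP (sUp hs) nL).and ((memP (sUp hZ) nL).not.and
      (PolyP.ofB (poly_big (cU hw) (poly_blw (cU hw) (sUp hZ) nL) nL)).not)
  · unfold BB
    rw [mem_filter, Bool.not_eq_true]
    constructor
    · intro h
      exact ⟨mem_range.1 (hs.2 a ha h.1), h⟩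
    · exact fun h => h.2

theorem poly_QQ (sd : Bool) (hw : PolyC D ctx w) (hZ : PolyS D ctx (fun x => nOf (w x)) Z) :
    PolyS D ctx (fun x => nOf (w x))
      (fun x => QQ (nOf (w x)) (aOf (w x)) (dOf (w x)) (adjOf (w x)) sd (Z x)) :=
  poly_sdiff hw (poly_NB hw (poly_BB sd hw hZ)) (poly_NB hw hZ)

theorem poly_vld (sd : Bool) (hw : PolyC D ctx w)
    (hZ : PolyS D ctx (fun x => nOf (w x)) Z) :
    PolyB D ctx (fun x => vld (nOf (w x)) (aOf (w x)) (dOf (w x)) (adjOf (w x)) sd (Z x)) := by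
  have hs := poly_side sd hw
  obtain ⟨φ, h1, h2⟩ := PolyP.forall_range (n := fun x => nOf (w x))
    (P := fun a i => i ∈ Z a → (i ∈ sideS (aOf (w a)) sd (range (nOf (w a))) ∧
      big (nOf (w a)) (dOf (w a)) (adjOf (w a)) (blw (Z a) i) i = true)) (poly_nOf hw)
    ((memP (sUp hZ) nL).imp ((memP (sUp hs) nL).and
      (PolyP.ofB (poly_big (cU hw) (poly_blw (cU hw) (sUp hZ) nL) nL))))
  refine h1.congr (fun a ha => ?_)
  have h3 := h2 a ha
  rw [Bool.eq_iff_iff, h3]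
  unfold vld
  rw [decide_eq_true_eq]

end Pool.Agent.Lib.Pa7c826k
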