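import Pool.Agent.Lib.Pa7c826k.XiErr
import Pool.Agent.Lib.Pa7c826k.Fam
import Pool.Agent.Lib.Pa7c826k.Loc

/-!
The computed approximations of the ratios.

PROOFS. Let `V = sideS a sd (range n)`, `U = blw V v`, `ρ = 1 / 2 ^ (50 l)`, `λ = 2 ^ (20 l)`,
`D = d ^ 6`, `F` the family of `exists_fam` (`hl = sp.hl`). `Rt_ge_half`: `Rt_ge` (`wt_Wt`, `r6_deg`,
`deg_ok`, `wt_le`): `Rt ≥ 1 - 1 / (λ D) ≥ 9 / 10`. `sgR_err`: by the last property of `F`
`sgR e = ∑ X ∈ F, mbU e X`. By `mbU_err` (`|X| < K`, `X ⊆ U ⊆ V`) and `|F| ≤ 2 ^ (12 l K) ≤ 2 ^ (12 q)`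
the number `(sgR 0 - sgR 1) / 2 ^ p` differs from `∑ X ∈ F, mob (Rt v) X` by at most
`2 ^ (12 q) / 2 ^ (65 q) = 1 / 2 ^ (53 q) ≤ 1 / 2 ^ (20 l K)`, and this sum differs from `Rt v U` by at
most `1 / (D λ ^ (K + 1)) ≤ 1 / 2 ^ (20 l K)` (`Rt_trunc`). `qv_err`: `p = 1339 q`,
`ε = 2 / 2 ^ (20 l K) ≤ 1 / 2 ^ 19` (`l K ≥ x + 1 ≥ 1`), `R = Rt v U ∈ [9/10, 1]` (`Rt_le_one`),
`s = (sgR 0 - sgR 1) / 2 ^ p ∈ [R - ε, R + ε]`, so `s ≥ 8 / 10`, in particular the natural subtraction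
is exact and positive. `qv / 2 ^ p ∈ (1 / s - 1 / 2 ^ p, 1 / s]`, `|R / s - 1| = |R - s| / s ≤ 5 ε / 4`,
`R / 2 ^ p ≤ ε`. So `|R * qv / 2 ^ p - 1| ≤ 3 ε = 6 / 2 ^ (20 l K)`.
-/

namespace Pool.Agent.Lib.Pa7c826k

open Finset Pool.Agent.Lib.Pa7c826 Pool.Agent.Lib.Pa7c826t Pool.Agent.Lib.Pa7c826e

variable {n a d A l x K q : ℕ} {adj : ℕ → ℕ → Bool} {sd : Bool}

private theorem blw_sub' (V : Finset ℕ) (v : ℕ) : blw V v ⊆ V := by
  unfold blw
  exact filter_subset _ _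

private theorem notMem_blw' (V : Finset ℕ) (v : ℕ) : v ∉ blw V v := by
  unfold blw
  intro h
  rw [mem_filter] at h
  exact lt_irrefl _ h.2

private theorem sideS_sub' (a : ℕ) (sd : Bool) (n : ℕ) : sideS a sd (range n) ⊆ range n := by
  unfold sideS
  exact filter_subset _ _

theorem Rt_ge_half (h : Sp n a d A l x adj) {v : ℕ} (hv : v ∈ sideS a sd (range n)) :
    9 / 10 ≤ Rt (wt n a d adj sd) v (blw (sideS a sd (range n)) v) := by
  have hD1 : 1 ≤ d ^ 6 := Nat.one_le_pow _ _ h.hh.hd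
  have h1 := Rt_ge (r6_refl adj) (r6_symm h.hh.sym) (wt_Wt (sd := sd) h.hh)
    (r6_deg h.hh (sideS_sub' a sd n)) hD1 (ρ := 1 / 2 ^ (50 * l)) (l := 2 ^ (20 * l))
    (by positivity) (one_le_pow₀ (by norm_num)) (deg_ok h)
    (fun T hT hc => wt_le h hT hc) (blw_sub' _ v) hv (notMem_blw' _ v)
  refine le_trans ?_ h1
  have h2 : (16 : ℝ) ≤ 2 ^ (20 * l) := by
    have h3 : (2 : ℝ) ^ 4 ≤ 2 ^ (20 * l) :=
      pow_le_pow_right₀ (by norm_num) (by have := h.l_pos; omega)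
    have h4 : (2 : ℝ) ^ 4 = 16 := by norm_num
    rw [← h4]
    exact h3
  have h5 : (1 : ℝ) ≤ ((d ^ 6 : ℕ) : ℝ) := by exact_mod_cast hD1
  have h6 : (16 : ℝ) ≤ 2 ^ (20 * l) * ((d ^ 6 : ℕ) : ℝ) := by nlinarith
  have h7 : 1 / (2 ^ (20 * l) * ((d ^ 6 : ℕ) : ℝ)) ≤ 1 / 16 :=
    one_div_le_one_div_of_le (by norm_num) h6
  have h8 : (1 : ℝ) / 16 ≤ 1 / 10 := by norm_num
  linarith

theorem sgR_err (h : Pr n a d A l x K q adj) {v : ℕ} (hv : v ∈ sideS a sd (range n)) :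
    |Rt (wt n a d adj sd) v (blw (sideS a sd (range n)) v) -
      ((sgR n a d adj sd l K (1248 * q) (1339 * q) v 0 : ℝ) -
        sgR n a d adj sd l K (1248 * q) (1339 * q) v 1) / 2 ^ (1339 * q)| ≤
      2 / 2 ^ (20 * l * K) := by
  have hD1 : 1 ≤ d ^ 6 := Nat.one_le_pow _ _ h.sp.hh.hd
  obtain ⟨F, hF1, hF2, hF3, hF4, hF5⟩ := exists_fam h.sp.hh h.sp.hl h.hK hv
  have h1 := Rt_trunc (r6_refl adj) (r6_symm h.sp.hh.sym) (wt_Wt (sd := sd) h.sp.hh)
    (r6_deg h.sp.hh (sideS_sub' a sd n)) hD1 (ρ := 1 / 2 ^ (50 * l)) (l := 2 ^ (20 * l))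
    (by positivity) (one_le_pow₀ (by norm_num)) (deg_ok h.sp)
    (fun T hT hc => wt_le h.sp hT hc) (blw_sub' _ v) hv (notMem_blw' _ v) h.hK hF1 hF4
  have e0 : sgR n a d adj sd l K (1248 * q) (1339 * q) v 0 =
      ∑ X ∈ F, mbU n a d adj sd (1248 * q) (1339 * q) v 0 X :=
    hF5 (mbU n a d adj sd (1248 * q) (1339 * q) v 0)
  have e1 : sgR n a d adj sd l K (1248 * q) (1339 * q) v 1 =
      ∑ X ∈ F, mbU n a d adj sd (1248 * q) (1339 * q) v 1 X :=
    hF5 (mbU n a d adj sd (1248 * q) (1339 * q) v 1)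
  have h2 : |∑ X ∈ F, mob (Rt (wt n a d adj sd) v) X -
      ((sgR n a d adj sd l K (1248 * q) (1339 * q) v 0 : ℝ) -
        sgR n a d adj sd l K (1248 * q) (1339 * q) v 1) / 2 ^ (1339 * q)| ≤
      1 / 2 ^ (20 * l * K) := by
    rw [e0, e1]
    push_cast
    rw [← sum_sub_distrib, sum_div, ← sum_sub_distrib]
    refine (abs_sum_le_sum_abs _ _).trans ?_
    have h3 : ∀ X ∈ F, |mob (Rt (wt n a d adj sd) v) X -
        ((mbU n a d adj sd (1248 * q) (1339 * q) v 0 X : ℝ) -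
          mbU n a d adj sd (1248 * q) (1339 * q) v 1 X) / 2 ^ (1339 * q)| ≤ 1 / 2 ^ (65 * q) := by
      intro X hX
      exact mbU_err h ((mem_powerset.1 (hF1 hX)).trans (blw_sub' _ v)) hv (hF2 X hX)
    refine (sum_le_card_nsmul F _ _ h3).trans ?_
    rw [nsmul_eq_mul]
    have h4 : (F.card : ℝ) ≤ 2 ^ (12 * q) := by
      have h5 : F.card ≤ 2 ^ (12 * q) := by
        refine hF3.trans (Nat.pow_le_pow_right (by norm_num) ?_)
        have := h.hq
        calc 12 * l * K = 12 * (l * K) := by ring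
          _ ≤ 12 * q := by omega
      exact_mod_cast h5
    have h6 : (2 : ℝ) ^ (65 * q) = 2 ^ (12 * q) * 2 ^ (53 * q) := by
      rw [← pow_add]
      congr 1
      ring
    have h7 : (2 : ℝ) ^ (20 * l * K) ≤ 2 ^ (53 * q) := by
      refine pow_le_pow_right₀ (by norm_num) ?_
      have := h.hq
      calc 20 * l * K = 20 * (l * K) := by ring
        _ ≤ 53 * q := by omega
    calc (F.card : ℝ) * (1 / 2 ^ (65 * q)) ≤ 2 ^ (12 * q) * (1 / 2 ^ (65 * q)) :=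
          mul_le_mul_of_nonneg_right h4 (by positivity)
      _ = 1 / 2 ^ (53 * q) := by
          rw [h6]
          field_simp
      _ ≤ 1 / 2 ^ (20 * l * K) := one_div_le_one_div_of_le (by positivity) h7
  have h8 : 1 / (((d ^ 6 : ℕ) : ℝ) * (2 ^ (20 * l)) ^ (K + 1)) ≤ 1 / 2 ^ (20 * l * K) := by
    refine one_div_le_one_div_of_le (by positivity) ?_
    have h9 : (1 : ℝ) ≤ ((d ^ 6 : ℕ) : ℝ) := by exact_mod_cast hD1
    have h10 : (2 : ℝ) ^ (20 * l * K) ≤ (2 ^ (20 * l)) ^ (K + 1) := by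
      rw [← pow_mul]
      exact pow_le_pow_right₀ (by norm_num) (Nat.mul_le_mul_left _ (Nat.le_succ K))
    have h11 : (0 : ℝ) < (2 ^ (20 * l)) ^ (K + 1) := by positivity
    nlinarith
  have h12 : (2 : ℝ) / 2 ^ (20 * l * K) = 1 / 2 ^ (20 * l * K) + 1 / 2 ^ (20 * l * K) := by ring
  rw [h12]
  refine (abs_sub_le _ (∑ X ∈ F, mob (Rt (wt n a d adj sd) v) X) _).trans ?_
  exact add_le_add (h1.trans h8) h2

/-- the elementary estimate -/
private theorem qv_aux {R s Q P e : ℝ} (hP : 0 < P) (he : e ≤ 1 / 16)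
    (hR : 9 / 10 ≤ R) (hR1 : R ≤ 1) (hs : |R - s| ≤ e) (hQ1 : Q * s ≤ P) (hQ2 : P < (Q + 1) * s)
    (hPe : 1 ≤ P * e) : |R * (Q / P) - 1| ≤ 3 * e := by
  obtain ⟨h1, h2⟩ := abs_le.1 hs
  have hs1 : 8 / 10 ≤ s := by linarith
  have hs0 : 0 < s := by linarith
  have e1 : R * (Q / P) - 1 = (R * Q - P) / P := by
    field_simp
  rw [e1, abs_div, abs_of_pos hP, div_le_iff₀ hP, abs_le]
  constructor
  · -- P - R Q ≤ 3 e P
    have h3 : P - R * Q ≤ (P * (s - R)) / s + R := by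
      have h4 : P / s - 1 ≤ Q := by
        have h5 : P / s < Q + 1 := by
          rw [div_lt_iff₀ hs0]
          exact hQ2
        linarith
      have h6 : R * (P / s - 1) ≤ R * Q := mul_le_mul_of_nonneg_left h4 (by linarith)
      have h7 : (P * (s - R)) / s + R = P - R * (P / s - 1) := by
        field_simp
        ring
      rw [h7]
      linarith
    have h8 : (P * (s - R)) / s ≤ 2 * e * P := by
      rw [div_le_iff₀ hs0]
      have h9 : P * (s - R) ≤ P * e := mul_le_mul_of_nonneg_left (by linarith) hP.le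
      have h10 : P * e * 1 ≤ P * e * (2 * s) :=
        mul_le_mul_of_nonneg_left (by linarith) (by positivity)
      nlinarith
    nlinarith
  · -- R Q - P ≤ 3 e P
    have h3 : Q ≤ P / s := by
      rw [le_div_iff₀ hs0]
      exact hQ1
    have h4 : R * Q ≤ R * (P / s) := mul_le_mul_of_nonneg_left h3 (by linarith)
    have h5 : R * (P / s) - P ≤ 2 * e * P := by
      have h6 : R * (P / s) - P = (P * (R - s)) / s := by
        field_simp
      rw [h6, div_le_iff₀ hs0]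
      have h9 : P * (R - s) ≤ P * e := mul_le_mul_of_nonneg_left (by linarith) hP.le
      have h10 : P * e * 1 ≤ P * e * (2 * s) :=
        mul_le_mul_of_nonneg_left (by linarith) (by positivity)
      nlinarith
    nlinarith

theorem qv_err (h : Pr n a d A l x K q adj) {v : ℕ} (hv : v ∈ sideS a sd (range n)) :
    |Rt (wt n a d adj sd) v (blw (sideS a sd (range n)) v) *
      (qv n a d adj sd l K (1248 * q) (1339 * q) v / 2 ^ (1339 * q)) - 1| ≤
      6 / 2 ^ (20 * l * K) := by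
  have hR := Rt_ge_half (sd := sd) h.sp hv
  have hR1 := Rt_le_one (wt_Wt (sd := sd) h.sp.hh) v (blw (sideS a sd (range n)) v)
  have hs := sgR_err h hv
  set R := Rt (wt n a d adj sd) v (blw (sideS a sd (range n)) v) with hRdef
  set s0 := sgR n a d adj sd l K (1248 * q) (1339 * q) v 0 with hs0
  set s1 := sgR n a d adj sd l K (1248 * q) (1339 * q) v 1 with hs1
  have hlK : 1 ≤ l * K := by
    have := h.hlx
    omega
  have hq := h.hq
  have hP : (0 : ℝ) < 2 ^ (1339 * q) := by positivity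
  have he : (2 : ℝ) / 2 ^ (20 * l * K) ≤ 1 / 16 := by
    have h1 : (2 : ℝ) ^ 5 ≤ 2 ^ (20 * l * K) := by
      refine pow_le_pow_right₀ (by norm_num) ?_
      calc 5 ≤ 20 * (l * K) := by omega
        _ = 20 * l * K := by ring
    have h2 : (2 : ℝ) / 2 ^ (20 * l * K) ≤ 2 / 2 ^ 5 :=
      div_le_div_of_nonneg_left (by norm_num) (by positivity) h1
    refine h2.trans ?_
    norm_num
  obtain ⟨h1, h2⟩ := abs_le.1 hs
  have h3 : (8 : ℝ) / 10 ≤ ((s0 : ℝ) - s1) / 2 ^ (1339 * q) := by linarith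
  have h4 : (0 : ℝ) < (s0 : ℝ) - s1 := by
    by_contra hc
    have h5 : ((s0 : ℝ) - s1) / 2 ^ (1339 * q) ≤ 0 :=
      div_nonpos_of_nonpos_of_nonneg (not_lt.1 hc) hP.le
    linarith
  have h5 : s1 < s0 := by
    have h6 : (s1 : ℝ) < s0 := by linarith
    exact_mod_cast h6
  have hqv : qv n a d adj sd l K (1248 * q) (1339 * q) v =
      2 ^ (1339 * q) * 2 ^ (1339 * q) / (s0 - s1) := by
    unfold qv
    rw [if_pos hv]
  have hm : 0 < s0 - s1 := by omega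
  have hQ1 : 2 ^ (1339 * q) * 2 ^ (1339 * q) / (s0 - s1) * (s0 - s1) ≤
      2 ^ (1339 * q) * 2 ^ (1339 * q) := Nat.div_mul_le_self _ _
  have hQ2 : 2 ^ (1339 * q) * 2 ^ (1339 * q) <
      (2 ^ (1339 * q) * 2 ^ (1339 * q) / (s0 - s1) + 1) * (s0 - s1) := by
    have := Nat.lt_mul_div_succ (2 ^ (1339 * q) * 2 ^ (1339 * q)) hm
    rw [mul_comm (s0 - s1)] at this
    exact this
  rw [← hqv] at hQ1 hQ2
  set Q := qv n a d adj sd l K (1248 * q) (1339 * q) v with hQdef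
  have hcast : ((s0 - s1 : ℕ) : ℝ) = (s0 : ℝ) - s1 := Nat.cast_sub h5.le
  have hQ1' : (Q : ℝ) * ((s0 : ℝ) - s1) ≤ 2 ^ (1339 * q) * 2 ^ (1339 * q) := by
    rw [← hcast]
    exact_mod_cast hQ1
  have hQ2' : (2 : ℝ) ^ (1339 * q) * 2 ^ (1339 * q) < ((Q : ℝ) + 1) * ((s0 : ℝ) - s1) := by
    rw [← hcast]
    exact_mod_cast hQ2
  have hfin : (6 : ℝ) / 2 ^ (20 * l * K) = 3 * (2 / 2 ^ (20 * l * K)) := by ring
  rw [hfin]
  refine qv_aux hP he hR hR1 hs (Q := (Q : ℝ)) ?_ ?_ ?_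
  · rw [mul_div_assoc', div_le_iff₀ hP]
    exact hQ1'
  · rw [mul_div_assoc', lt_div_iff₀ hP]
    exact hQ2'
  · rw [mul_div_assoc', le_div_iff₀ (by positivity), one_mul]
    have h6 : (2 : ℝ) ^ (20 * l * K) ≤ 2 ^ (1339 * q) := by
      refine pow_le_pow_right₀ (by norm_num) ?_
      calc 20 * l * K = 20 * (l * K) := by ring
        _ ≤ 1339 * q := by omega
    linarith

end Pool.Agent.Lib.Pa7c826k
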