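import Pool.Agent.Lib.Pa7c826k.Defs
import Pool.Agent.Lib.Pa7c826e.EGen
import Pool.Agent.Lib.Pa7c826e.ETrk
import Pool.Agent.Lib.Pa7c826e.EList

/-!
Facts about the branching tree.

PROOFS. `lvT_w'`: let `F y = z ^ |y.2| * (1 + z) ^ |y.1|`. For a node `y` (`y.1 ⊆ range n`,
`Disjoint y.1 y.2`: `lvT_basic` in `Pa7c826e/EGen.lean`) the sum of `F` over `kidT y` is at most `F y`:
with the chosen vertex `v` the children are `(y.1.erase v, y.2)` and `(inT, y.2 ∪ {v})` with
`|inT| ≤ |y.1| - 1` (proof of `kid_weight` there). By induction (`sum_flatMap_le` with `c = 1`) the sum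
of `F` over `lvT … t` is at most `F (S₀, ∅) = (1 + z) ^ |S₀|`, and `z ^ |y.2| ≤ F y`.
`lvT_tree`: induction on `t` (see `lvT_props` in `Pa7c826e/ETrk.lean`); when the chosen vertex `v` of
`y.1` is included, `v` is not adjacent to `y.2` by the last claim for `y`, and all neighbours of `v`
are removed (`inT_eq`; `hs`, `hl`). `lvT_cnt`: induction on `t`: the chosen vertex `v` of `S = y.1`
satisfies `v ∈ S`, `m ≤ g * dg adj S v` (`chs_hvy`, `hvy`), so `v ∈ C` and its neighbours in `S` are
in `B`; these `dg adj S v` vertices are removed by `inT`, so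
`g |inT ∩ B| + m ≤ g |inT ∩ B| + g dg adj S v ≤ g |S ∩ B|`, and `|y.2|` grows by one. Excluding `v`
only decreases the set. `itl_lvT`: `itl_eq` (`Pa7c826e/EList.lean`) or induction on `t` with
`kids_eq_kidT` and `List.map_flatMap`, `List.filter_true`. `cnt_lvT`: `trk_sum`
(`Pa7c826e/ETrk.lean`) with `x = (S₀, ∅)` and `h y J = if P (J ∪ y.2) then 1 else 0`: for
`I ∈ IS adj S₀` one has `(I ∩ y.1) ∪ y.2 = I` for `y = trk I (S₀, ∅) t` by `trk_cover`; `Cmp` holds
trivially for `ad = adj`. `ind_lvT`: `cnt_lvT` with `P = True`.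
-/

namespace Pool.Agent.Lib.Pa7c826k

open Finset Pool.Agent.Lib.Pa7c826 Pool.Agent.Lib.Pa7c826t Pool.Agent.Lib.Pa7c826e

variable {n m g : ℕ} {adj : ℕ → ℕ → Bool} {S₀ : Finset ℕ}

namespace TreeAux

open Pool.Agent.Lib.Pa7c826e.EGenAux

theorem kidF {z : ℝ} (hz : 0 ≤ z) {y : Nd} (hy : y.1 ⊆ range n) (hd : Disjoint y.1 y.2) :
    ((kidT n m g adj y).map (fun x : Nd => z ^ x.2.card * (1 + z) ^ x.1.card)).sum ≤
      1 * (z ^ y.2.card * (1 + z) ^ y.1.card) := by
  rw [one_mul]
  unfold kidT
  split_ifs with hh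
  · obtain ⟨v, hv⟩ := exists_chs ((anyH_iff hy).1 hh)
    have hvS : v ∈ y.1 := hvy_mem (chs_hvy hv)
    have hvn : v ∉ y.2 := fun h => disjoint_left.mp hd hvS h
    have hc : (y.2 ∪ chsS m g adj y.1).card = y.2.card + 1 := by
      rw [Pool.Agent.Lib.Pa7c826e.chsS_eq hv,
        card_union_of_disjoint (disjoint_singleton_right.mpr hvn), card_singleton]
    have h1 : (outT m g adj y.1).card + 1 = y.1.card := by
      rw [outT_eq hv, card_erase_of_mem hvS]
      have : 0 < y.1.card := card_pos.2 ⟨v, hvS⟩
      omega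
    have h2 : (inT n m g adj y.1).card ≤ (outT m g adj y.1).card := by
      rw [outT_eq hv, inT_eq (mem_range.1 (hy hvS)) hv]
      exact card_le_card (filter_subset _ _)
    simp only [List.map_cons, List.map_nil, List.sum_cons, List.sum_nil, add_zero]
    rw [hc, ← h1, pow_succ, pow_succ]
    have h3 : (1 + z) ^ (inT n m g adj y.1).card ≤ (1 + z) ^ (outT m g adj y.1).card :=
      pow_le_pow_right₀ (by linarith) h2
    have h4 : 0 ≤ z ^ y.2.card * z := by positivity
    have h5 := mul_le_mul_of_nonneg_left h3 h4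
    nlinarith [h5]
  · simp only [List.map_cons, List.map_nil, List.sum_cons, List.sum_nil, add_zero]
    exact le_rfl

theorem wF {z : ℝ} (hz : 0 ≤ z) (hS : S₀ ⊆ range n) (t : ℕ) :
    ((lvT n m g adj (S₀, ∅) t).map (fun x : Nd => z ^ x.2.card * (1 + z) ^ x.1.card)).sum ≤
      (1 + z) ^ S₀.card := by
  induction t with
  | zero => simp [lvT]
  | succ t ih =>
    have h1 : lvT n m g adj (S₀, ∅) (t + 1) =
      (lvT n m g adj (S₀, ∅) t).flatMap (kidT n m g adj) := rfl
    rw [h1]
    refine (sum_flatMap_le _ _ _ 1 (fun y hy => ?_)).trans ?_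
    · obtain ⟨h2, h3⟩ := lvT_basic hS t y hy
      exact kidF hz h2 h3
    · rw [one_mul]
      exact ih

end TreeAux

open TreeAux

theorem lvT_w' {z : ℝ} (hz : 0 ≤ z) (hS : S₀ ⊆ range n) (t : ℕ) :
    ((lvT n m g adj (S₀, ∅) t).map (fun x : Nd => z ^ x.2.card)).sum ≤ (1 + z) ^ S₀.card := by
  refine le_trans (List.sum_le_sum fun y _ => ?_) (wF hz hS t)
  have h1 : (1 : ℝ) ≤ (1 + z) ^ y.1.card := one_le_pow₀ (by linarith)
  have h2 : 0 ≤ z ^ y.2.card := by positivity
  nlinarith

theorem lvT_tree (hs : ∀ u v, adj u v = adj v u) (hl : ∀ u, adj u u = false)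
    (hS : S₀ ⊆ range n) (t : ℕ) : ∀ y ∈ lvT n m g adj (S₀, ∅) t,
      y.1 ⊆ S₀ ∧ y.2 ⊆ S₀ ∧ Disjoint y.1 y.2 ∧ (∀ u ∈ y.2, ∀ v ∈ y.2, adj u v = false) ∧
        ∀ u ∈ y.2, ∀ v ∈ y.1, adj u v = false := by
  intro y hy
  have h0 := lvT_props (n := n) (m := m) (g := g) (ad := adj) (x := (S₀, ∅))
    (disjoint_empty_right _) t y hy
  refine ⟨h0.1, ?_, h0.2.2.2, ?_⟩
  · have := h0.2.2.1
    simpa using this
  · clear h0
    induction t generalizing y with
    | zero =>
      simp only [lvT, List.mem_cons, List.not_mem_nil, or_false] at hy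
      rw [hy]
      exact ⟨fun u hu => absurd hu (notMem_empty u), fun u hu => absurd hu (notMem_empty u)⟩
    | succ t ih =>
      simp only [lvT, List.mem_flatMap] at hy
      obtain ⟨z, hz, hyz⟩ := hy
      obtain ⟨i1, i2⟩ := ih z hz
      have hzr : z.1 ⊆ range n := (lvT_sub (S₀, ∅) t z hz).trans hS
      unfold kidT at hyz
      split_ifs at hyz with hh
      · obtain ⟨v, hv⟩ := exists_chs ((anyH_iff hzr).1 hh)
        have hvS : v ∈ z.1 := hvy_mem (chs_hvy hv)
        simp only [List.mem_cons, List.not_mem_nil, or_false] at hyz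
        rcases hyz with rfl | rfl
        · exact ⟨i1, fun u hu w hw => i2 u hu w (outT_subset _ hw)⟩
        · rw [chsS_eq hv, inT_eq (mem_range.1 (hzr hvS)) hv]
          simp only
          constructor
          · intro u hu w hw
            rcases mem_union.1 hu with hu | hu <;> rcases mem_union.1 hw with hw | hw
            · exact i1 u hu w hw
            · rw [mem_singleton.1 hw]
              exact i2 u hu v hvS
            · rw [mem_singleton.1 hu, hs]
              exact i2 w hw v hvS
            · rw [mem_singleton.1 hu, mem_singleton.1 hw]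
              exact hl v
          · intro u hu w hw
            rw [mem_filter] at hw
            rcases mem_union.1 hu with hu | hu
            · exact i2 u hu w (mem_of_mem_erase hw.1)
            · rw [mem_singleton.1 hu]
              exact hw.2
      · simp only [List.mem_cons, List.not_mem_nil, or_false] at hyz
        rw [hyz]
        exact ⟨i1, i2⟩

theorem lvT_cnt (hS : S₀ ⊆ range n) {B C : Finset ℕ}
    (hB : ∀ S, S ⊆ S₀ → ∀ v ∈ S, m ≤ g * dg adj S v →
      v ∈ C ∧ ∀ u ∈ S, adj v u = true → u ∈ B) (t : ℕ) :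
    ∀ y ∈ lvT n m g adj (S₀, ∅) t,
      y.2 ⊆ C ∧ m * y.2.card + g * (y.1 ∩ B).card ≤ g * B.card := by
  induction t with
  | zero =>
    intro y hy
    simp only [lvT, List.mem_cons, List.not_mem_nil, or_false] at hy
    rw [hy]
    refine ⟨empty_subset _, ?_⟩
    simp only [card_empty, mul_zero, zero_add]
    exact Nat.mul_le_mul_left _ (card_le_card inter_subset_right)
  | succ t ih =>
    intro y hy
    simp only [lvT, List.mem_flatMap] at hy
    obtain ⟨z, hz, hyz⟩ := hy
    obtain ⟨i1, i2⟩ := ih z hz
    have hzs : z.1 ⊆ S₀ := lvT_sub (S₀, ∅) t z hz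
    have hzr : z.1 ⊆ range n := hzs.trans hS
    unfold kidT at hyz
    split_ifs at hyz with hh
    · obtain ⟨v, hv⟩ := exists_chs ((anyH_iff hzr).1 hh)
      have hvS : v ∈ z.1 := hvy_mem (chs_hvy hv)
      have hvd : m ≤ g * dg adj z.1 v := by
        have h := chs_hvy hv
        unfold hvy at h
        rw [Bool.and_eq_true] at h
        exact of_decide_eq_true h.2
      obtain ⟨h1, h2⟩ := hB z.1 hzs v hvS hvd
      simp only [List.mem_cons, List.not_mem_nil, or_false] at hyz
      rcases hyz with rfl | rfl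
      · refine ⟨i1, le_trans ?_ i2⟩
        simp only
        have : (outT m g adj z.1 ∩ B).card ≤ (z.1 ∩ B).card :=
          card_le_card (inter_subset_inter_right (outT_subset _))
        exact Nat.add_le_add_left (Nat.mul_le_mul_left _ this) _
      · rw [chsS_eq hv, inT_eq (mem_range.1 (hzr hvS)) hv]
        simp only
        refine ⟨union_subset i1 (singleton_subset_iff.2 h1), le_trans ?_ i2⟩
        have h3 : (z.2 ∪ {v}).card ≤ z.2.card + 1 := by
          refine (card_union_le _ _).trans ?_
          rw [card_singleton]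
        have h4 : (((z.1.erase v).filter (fun u => adj v u = false)) ∩ B).card + dg adj z.1 v ≤
            (z.1 ∩ B).card := by
          unfold dg
          rw [← card_union_of_disjoint]
          · apply card_le_card
            intro u hu
            rw [mem_inter]
            rcases mem_union.1 hu with hu | hu
            · rw [mem_inter, mem_filter] at hu
              exact ⟨mem_of_mem_erase hu.1.1, hu.2⟩
            · rw [mem_filter] at hu
              exact ⟨hu.1, h2 u hu.1 hu.2⟩
          · rw [disjoint_left]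
            intro u hu hu'
            rw [mem_inter, mem_filter] at hu
            rw [mem_filter] at hu'
            rw [hu.1.2] at hu'
            exact absurd hu'.2 (by simp)
        calc m * (z.2 ∪ {v}).card +
              g * (((z.1.erase v).filter (fun u => adj v u = false)) ∩ B).card
            ≤ m * (z.2.card + 1) +
              g * (((z.1.erase v).filter (fun u => adj v u = false)) ∩ B).card :=
              Nat.add_le_add_right (Nat.mul_le_mul_left _ h3) _
          _ = m * z.2.card + (m +
              g * (((z.1.erase v).filter (fun u => adj v u = false)) ∩ B).card) := by ring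
          _ ≤ m * z.2.card + (g * dg adj z.1 v +
              g * (((z.1.erase v).filter (fun u => adj v u = false)) ∩ B).card) :=
              Nat.add_le_add_left (Nat.add_le_add_right hvd _) _
          _ = m * z.2.card + g * ((((z.1.erase v).filter (fun u => adj v u = false)) ∩ B).card +
              dg adj z.1 v) := by ring
          _ ≤ m * z.2.card + g * (z.1 ∩ B).card :=
              Nat.add_le_add_left (Nat.mul_le_mul_left _ h4) _
    · simp only [List.mem_cons, List.not_mem_nil, or_false] at hyz
      rw [hyz]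
      exact ⟨i1, i2⟩

theorem itl_lvT (n m g : ℕ) (adj : ℕ → ℕ → Bool) (S₀ : Finset ℕ) (t : ℕ) :
    itl n m g adj (fun _ => true) [S₀] t = (lvT n m g adj (S₀, ∅) t).map Prod.fst := by
  induction t with
  | zero => rfl
  | succ t ih =>
    simp only [itl, lvT]
    rw [ih, List.filter_true, List.map_flatMap, List.flatMap_map]
    congr 1
    funext y
    exact kids_eq_kidT y

theorem cnt_lvT (hs : ∀ u v, adj u v = adj v u) (hl : ∀ u, adj u u = false)
    (hS : S₀ ⊆ range n) (t : ℕ) (P : Finset ℕ → Prop) [DecidablePred P] :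
    ((IS adj S₀).filter P).card = ((lvT n m g adj (S₀, ∅) t).map
      (fun y => ((IS adj y.1).filter (fun J => P (J ∪ y.2))).card)).sum := by
  have hc : Cmp m g adj adj := fun _ _ _ _ => rfl
  have h := trk_sum (n := n) (m := m) (g := g) (ad := adj) (adj := adj) hs hl hc
    (x := (S₀, ∅)) hS (fun y J => if P (J ∪ y.2) then 1 else 0) t
  have h1 : ∑ I ∈ IS adj S₀, (if P (I ∩ (trk n m g adj I (S₀, ∅) t).1 ∪
      (trk n m g adj I (S₀, ∅) t).2) then 1 else 0) = ((IS adj S₀).filter P).card := by
    rw [card_filter]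
    refine sum_congr rfl fun I hI => ?_
    obtain ⟨h2, h3⟩ := trk_cover (n := n) hc hS hI t
    have h4 : I ∩ (trk n m g adj I (S₀, ∅) t).1 ∪ (trk n m g adj I (S₀, ∅) t).2 = I := by
      ext u
      rw [mem_union, mem_inter]
      constructor
      · rintro (h | h)
        · exact h.1
        · exact h2 h
      · intro hu
        rcases mem_union.1 (h3 hu) with h | h
        · exact Or.inl ⟨hu, h⟩
        · exact Or.inr h
    rw [h4]
  rw [← h1]
  refine h.trans ?_
  congr 1
  refine List.map_congr_left fun y _ => ?_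
  rw [card_filter]

theorem ind_lvT (hs : ∀ u v, adj u v = adj v u) (hl : ∀ u, adj u u = false)
    (hS : S₀ ⊆ range n) (t : ℕ) :
    ind adj S₀ = ((lvT n m g adj (S₀, ∅) t).map (fun y => ind adj y.1)).sum := by
  have h := cnt_lvT (m := m) (g := g) hs hl hS t (fun _ => True)
  rw [filter_true, card_IS] at h
  rw [h]
  congr 1
  refine List.map_congr_left fun y _ => ?_
  rw [filter_true, card_IS]

end Pool.Agent.Lib.Pa7c826k
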