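import Pool.Agent.Lib.Pa7c826k.Defs

/-!
A connected set is the support of a short walk.

PROOF. Claim: for every `k < |T|` there are a set `S ⊆ T` with `|S| = k + 1`, `v ∈ S`, and a list `L`
of length `2 k + 1` with first entry `v`, with `L.toFinset = S`, whose consecutive entries are
related (`List.IsChain r L`). Induction on `k`: for `k = 0` take `L = [v]`. Step: `S ≠ T` is a
nonempty subset of `T`, so `Far r S (T \ S)` is false: there are `x ∈ S`, `u ∈ T \ S` with `r x u`.
Write `L = L1 ++ x :: L2` (`List.append_of_mem`) and take `L' = L1 ++ x :: u :: x :: L2`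
(`r u x` by symmetry), of length `2 k + 3`, with `L'.toFinset = insert u S` and the same first
entry. For `k + 1 = |T|` this gives `S = T`. Put `p i = L.getD i v` for `i < L.length`, and
`p i =` the last entry of `L` for larger `i` (`r` is reflexive). As `|T| ≤ m + 1`,
`L.length = 2 |T| - 1 ≤ 2 m + 1`.
-/

namespace Pool.Agent.Lib.Pa7c826k

open Finset

variable {r : ℕ → ℕ → Prop}

namespace WalkAux

theorem grow (hr : ∀ x, r x x) (hs : ∀ x y, r x y → r y x) {T : Finset ℕ} {v : ℕ}
    (hT : Conn r T) (hv : v ∈ T) (k : ℕ) (hk : k < T.card) :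
    ∃ (S : Finset ℕ) (p : ℕ → ℕ), S ⊆ T ∧ S.card = k + 1 ∧ p 0 = v ∧
      (∀ i, r (p i) (p (i + 1))) ∧ (∀ i, p i ∈ S) ∧ S ⊆ (range (2 * k + 1)).image p := by
  induction k with
  | zero =>
    refine ⟨{v}, fun _ => v, singleton_subset_iff.2 hv, card_singleton v, rfl,
      fun _ => hr v, fun _ => mem_singleton_self v, ?_⟩
    intro x hx
    rw [mem_singleton] at hx
    rw [mem_image]
    exact ⟨0, by simp, hx.symm⟩
  | succ k ih =>
    obtain ⟨S, p, hST, hSc, hp0, hch, hpS, hSi⟩ := ih (by omega)
    have hne : S ≠ T := by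
      rintro rfl
      omega
    have hSne : S.Nonempty := by
      rw [← card_pos]
      omega
    have hnf : ¬ Far r S (T \ S) := fun h => hne (hT.2 S hST hSne h)
    unfold Far at hnf
    push Not at hnf
    obtain ⟨x, hx, u, hu, hxu⟩ := hnf
    rw [mem_sdiff] at hu
    obtain ⟨j, hj, hjx⟩ := mem_image.1 (hSi hx)
    rw [mem_range] at hj
    refine ⟨insert u S, fun i => if i ≤ j then p i else if i = j + 1 then u else p (i - 2),
      ?_, ?_, ?_, ?_, ?_, ?_⟩
    · exact insert_subset hu.1 hST
    · rw [card_insert_of_notMem hu.2, hSc]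
    · simp [hp0]
    · intro i
      dsimp only
      rcases lt_trichotomy i j with h | h | h
      · rw [if_pos h.le, if_pos (by omega)]
        exact hch i
      · subst h
        rw [if_pos le_rfl, if_neg (by omega), if_pos rfl, hjx]
        exact hxu
      · rw [if_neg (by omega), if_neg (by omega : ¬ i + 1 ≤ j), if_neg (by omega : ¬ i + 1 = j + 1)]
        by_cases h2 : i = j + 1
        · rw [if_pos h2, h2, show j + 1 + 1 - 2 = j by omega, hjx]
          exact hs _ _ hxu
        · rw [if_neg h2, show i + 1 - 2 = (i - 2) + 1 by omega]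
          exact hch _
    · intro i
      dsimp only
      split_ifs
      · exact mem_insert_of_mem (hpS _)
      · exact mem_insert_self _ _
      · exact mem_insert_of_mem (hpS _)
    · intro y hy
      rw [mem_image]
      rw [mem_insert] at hy
      rcases hy with rfl | hy
      · refine ⟨j + 1, by rw [mem_range]; omega, ?_⟩
        rw [if_neg (by omega), if_pos rfl]
      · obtain ⟨i, hi, hiy⟩ := mem_image.1 (hSi hy)
        rw [mem_range] at hi
        by_cases h : i ≤ j
        · exact ⟨i, by rw [mem_range]; omega, by rw [if_pos h]; exact hiy⟩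
        · refine ⟨i + 2, by rw [mem_range]; omega, ?_⟩
          rw [if_neg (by omega), if_neg (by omega), Nat.add_sub_cancel]
          exact hiy

end WalkAux

theorem conn_walk (hr : ∀ x, r x x) (hs : ∀ x y, r x y → r y x) {T : Finset ℕ} {v : ℕ}
    (hT : Conn r T) (hv : v ∈ T) {m : ℕ} (hm : T.card ≤ m + 1) :
    ∃ p : ℕ → ℕ, p 0 = v ∧ (∀ i, r (p i) (p (i + 1))) ∧ (∀ i, p i ∈ T) ∧
      T = (range (2 * m + 1)).image p := by
  have hpos : 0 < T.card := card_pos.2 ⟨v, hv⟩
  obtain ⟨S, p, hST, hSc, hp0, hch, hpS, hSi⟩ :=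
    WalkAux.grow hr hs hT hv (T.card - 1) (by omega)
  have hS : S = T := eq_of_subset_of_card_le hST (by omega)
  subst hS
  refine ⟨p, hp0, hch, hpS, Subset.antisymm ?_ ?_⟩
  · exact hSi.trans (image_subset_image (range_subset_range.2 (by omega)))
  · intro y hy
    obtain ⟨i, -, rfl⟩ := mem_image.1 hy
    exact hpS i


end Pool.Agent.Lib.Pa7c826k
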