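import Pool.Agent.Lib.Pa7c826k.Comp
import Pool.Agent.Lib.Pa7c826k.Count

/-!
Bound for the partition function, and the partition function as a product of ratios.

PROOFS. `Xi_le_pow`: induction on the subsets of `V` (`Finset.induction_on`, all sets are subsets of
`V`): by `Xi_rec` and `Xi_mono` (`awy r Y T ⊆ Y`)
`Xi (insert v Y) ≤ Xi Y * (1 + ∑ T ∈ cns r (insert v Y) v, w T) ≤ Xi Y * (1 + 2 ρ)` by
`w T ≤ ρ ^ |T|` and `sum_conn_le` (for `insert v Y ⊆ V`; `DegB` is inherited by subsets).
`Xi_prod`: by induction on `k ≤ n`, `Xi w (V.filter (· < k)) = ∏ v ∈ range k, (…)`: for `k ∈ V`,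
`V.filter (· < k + 1) = insert k (V.filter (· < k))`, `blw V k = V.filter (· < k)`, and
`Xi w (insert k Y) = Xi w Y * (1 / Rt w k Y)` as the partition functions are positive; for `k ∉ V`
the two filters agree. At `k = n` the filter is `V`.
-/

namespace Pool.Agent.Lib.Pa7c826k

open Finset

variable {r : ℕ → ℕ → Prop} {w : Finset ℕ → ℝ}

theorem Xi_le_pow (hr : ∀ x, r x x) (hs : ∀ x y, r x y → r y x) (hw : Wt r w) {V : Finset ℕ}
    {D : ℕ} (hD : DegB r V D) {ρ : ℝ} (hρ : 0 ≤ ρ) (hDρ : (D : ℝ) ^ 2 * ρ ≤ 1 / 2)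
    (hb : ∀ T, T ⊆ V → Conn r T → w T ≤ ρ ^ T.card) : Xi w V ≤ (1 + 2 * ρ) ^ V.card := by
  classical
  have key : ∀ Y : Finset ℕ, Y ⊆ V → Xi w Y ≤ (1 + 2 * ρ) ^ Y.card := by
    intro Y
    induction Y using Finset.induction_on with
    | empty =>
      intro _
      unfold Xi
      simp [hw.emp]
    | insert v Y hv ih =>
      intro hY
      have hYV : Y ⊆ V := (subset_insert _ _).trans hY
      have h1 := ih hYV
      have hX0 : 0 ≤ Xi w Y := zero_le_one.trans (Xi_ge_one hw Y)
      rw [Xi_rec hr hs hw hv, card_insert_of_notMem hv, pow_succ]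
      have hD' : DegB r (insert v Y) D := by
        intro x
        exact (card_le_card (filter_subset_filter _ hY)).trans (hD x)
      have h2 : ∑ T ∈ cns r (insert v Y) v, w T * Xi w (awy r Y T) ≤
          ∑ T ∈ cns r (insert v Y) v, ρ ^ T.card * Xi w Y := by
        refine sum_le_sum fun T hT => ?_
        unfold cns at hT
        rw [mem_filter, mem_powerset] at hT
        have h3 : awy r Y T ⊆ Y := by
          unfold awy
          exact filter_subset _ _
        exact mul_le_mul (hb T (hT.1.trans hY) hT.2.2) (Xi_mono hw h3)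
          (zero_le_one.trans (Xi_ge_one hw _)) (pow_nonneg hρ _)
      rw [← sum_mul] at h2
      have h4 := mul_le_mul_of_nonneg_right (sum_conn_le hr hs hD' v hρ hDρ) hX0
      calc Xi w Y + ∑ T ∈ cns r (insert v Y) v, w T * Xi w (awy r Y T)
          ≤ Xi w Y + 2 * ρ * Xi w Y := by linarith
        _ = Xi w Y * (1 + 2 * ρ) := by ring
        _ ≤ (1 + 2 * ρ) ^ Y.card * (1 + 2 * ρ) := mul_le_mul_of_nonneg_right h1 (by linarith)
  exact key V (Subset.refl _)

theorem Xi_prod (hw : Wt r w) {V : Finset ℕ} {n : ℕ} (hV : V ⊆ range n) :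
    Xi w V = ∏ v ∈ range n, if v ∈ V then 1 / Rt w v (blw V v) else 1 := by
  classical
  have key : ∀ k, Xi w (V.filter (fun x => x < k)) =
      ∏ v ∈ range k, if v ∈ V then 1 / Rt w v (blw V v) else 1 := by
    intro k
    induction k with
    | zero =>
      have h0 : V.filter (fun x => x < 0) = ∅ := by
        ext x
        simp
      rw [h0, range_zero, prod_empty]
      unfold Xi
      simp [hw.emp]
    | succ k ih =>
      rw [prod_range_succ, ← ih]
      by_cases hk : k ∈ V
      · rw [if_pos hk]
        have h1 : V.filter (fun x => x < k + 1) = insert k (V.filter (fun x => x < k)) := by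
          ext x
          rw [mem_filter, mem_insert, mem_filter]
          constructor
          · rintro ⟨h1, h2⟩
            by_cases h3 : x = k
            · exact Or.inl h3
            · exact Or.inr ⟨h1, by omega⟩
          · rintro (rfl | ⟨h1, h2⟩)
            · exact ⟨hk, by omega⟩
            · exact ⟨h1, by omega⟩
        have h2 : blw V k = V.filter (fun x => x < k) := rfl
        unfold Rt
        rw [h2, ← h1]
        have h3 : Xi w (V.filter (fun x => x < k)) ≠ 0 :=
          (zero_lt_one.trans_le (Xi_ge_one hw _)).ne'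
        rw [one_div_div, mul_div_assoc', mul_div_cancel_left₀ _ h3]
      · rw [if_neg hk, mul_one]
        congr 1
        ext x
        rw [mem_filter, mem_filter]
        constructor
        · rintro ⟨h1, h2⟩
          refine ⟨h1, ?_⟩
          have : x ≠ k := fun h => hk (h ▸ h1)
          omega
        · rintro ⟨h1, h2⟩
          exact ⟨h1, by omega⟩
  rw [← key n]
  congr 1
  ext x
  rw [mem_filter]
  exact ⟨fun h => ⟨h, mem_range.1 (hV h)⟩, fun h => h.1⟩

end Pool.Agent.Lib.Pa7c826k
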